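import Mathlib
import Pool.Agent.Lib.Pf72953e.TbE

/-!
MODULE Pf72953c.BasesC: transcendence bases of `Z`, `P`, `L`.

PROOF (compare `bases`, Pf72953e/TbE.lean).  `Z`, `P`, `L` are essentially of finite type (`essFinite_Z`, `EssFiniteType.comp`).
A transcendence basis `z` of `Z/k` and `s` give one of `L/k` (`IsTranscendenceBasis.sumElim_comp`, see `jac_lt_one` in Pf72953m/Over.lean), so
`dimension k L = dimension k Z + r`; `dimension k L = dimension k E` (`hzE.algebraMap_comp`); by `hdim`: `dimension k Z = dB + dY`.
`(x, y)` in `Z`: `Z` is algebraic over `Algebra.adjoin k (x, y)` (as `halgZ'` in `bases`), and `card = dimension`, so it is a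
transcendence basis (`tb_of_alg`).  `P/Z` is algebraic: `dimension k P = dimension k Z`.
For `z` a transcendence basis of `P/k`: `s` is a transcendence basis of `L/P`: algebraically independent over `P` since it is over `Z` and `P/Z` is algebraic
(`AlgebraicIndependent.extendScalars`), and `card` argument or `sumElim` again; or: `(z, s)` generates `L` algebraically (`L` is algebraic over `Z(s)`, `Z` over `k(z)`) and has `dimension k L` elements.
For `(x, (y, s))` in `L`: reindex `((x, y), s)` (`isTranscendenceBasis_equiv`, `Equiv.sumAssoc`).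
`hBL`: `(y, s)` is a transcendence basis of `L/B`: `Up.tb_over` (Pf72953u/Inst.lean, see the use in `upper_aux`) gives `y` in `Z` over `B`, then `sumElim_comp` with `s` (and `Equiv.sumComm`).
-/

set_option autoImplicit false
set_option linter.style.haveILetI false
set_option linter.unusedSectionVars false

open scoped WithZero
open Pf72953 Pf72953.Mov Pf72953.Twr Pf72953.Ell

namespace Pf72953.Can

private theorem basesAlg {k Z L : Type*} [Field k] [Field Z] [Field L] [Algebra k Z] [Algebra k L]
    [Algebra Z L] [IsScalarTower k Z L] {r : ℕ} {s : Fin r → L} (hs : IsTranscendenceBasis Z s)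
    (a : L) : IsAlgebraic (Algebra.adjoin k (Set.range (algebraMap Z L) ∪ Set.range s)) a := by
  have h0 : IsAlgebraic (Algebra.adjoin Z (Set.range s)) a := hs.isAlgebraic.isAlgebraic a
  have hle : ∀ b ∈ Algebra.adjoin Z (Set.range s),
      b ∈ Algebra.adjoin k (Set.range (algebraMap Z L) ∪ Set.range s) := by
    intro b hb
    induction hb using Algebra.adjoin_induction with
    | mem x hx => exact Algebra.subset_adjoin (Or.inr hx)
    | algebraMap r => exact Algebra.subset_adjoin (Or.inl ⟨r, rfl⟩)
    | add x y _ _ hx hy => exact add_mem hx hy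
    | mul x y _ _ hx hy => exact mul_mem hx hy
  letI : Algebra (Algebra.adjoin Z (Set.range s))
      (Algebra.adjoin k (Set.range (algebraMap Z L) ∪ Set.range s)) :=
    (((Algebra.adjoin Z (Set.range s)).val.toRingHom).codRestrict
      (Algebra.adjoin k (Set.range (algebraMap Z L) ∪ Set.range s)).toSubring
      (fun p => hle p p.2)).toAlgebra
  haveI : IsScalarTower (Algebra.adjoin Z (Set.range s))
      (Algebra.adjoin k (Set.range (algebraMap Z L) ∪ Set.range s)) L :=
    IsScalarTower.of_algebraMap_eq fun _ => rfl
  refine h0.extendScalars ?_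
  intro a b hab
  have h4 := congrArg
    (fun c : Algebra.adjoin k (Set.range (algebraMap Z L) ∪ Set.range s) => (c : L)) hab
  exact Subtype.ext h4

private theorem basesDim {k B E Y Z L : Type*} [Field k] [Field B] [Field E] [Field Y] [Field Z]
    [Field L] [Algebra k B] [Algebra k E] [Algebra k Y] [Algebra k Z] [Algebra k L] [Algebra B Z]
    [Algebra E L] [Algebra Y Z] [Algebra Z L] [IsScalarTower k B Z] [IsScalarTower k E L]
    [IsScalarTower k Y Z] [IsScalarTower k Z L] [Algebra.EssFiniteType k B]
    [Algebra.EssFiniteType k Y] [Algebra.EssFiniteType k E] [FiniteDimensional E L]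
    {r : ℕ} (hcomp : IsCompositum k B Y Z)
    (hdim : dimension k B + dimension k Y + r = dimension k E) {s : Fin r → L}
    (hs : IsTranscendenceBasis Z s) :
    dimension k Z = dimension k B + dimension k Y ∧ dimension k L = dimension k E := by
  haveI := essFinite_Z hcomp
  haveI : Algebra.EssFiniteType k L := Algebra.EssFiniteType.comp k E L
  obtain ⟨zE, hzE⟩ := exists_tb k E
  obtain ⟨xZ, hxZ⟩ := exists_tb k Z
  have hdimN : dimension k E = dimension k L := by
    have h1 : IsTranscendenceBasis k (algebraMap E L ∘ zE) := hzE.algebraMap_comp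
    have h2 := card_eq_of_isTranscendenceBasis h1
    rwa [Fintype.card_fin] at h2
  have h1 := hxZ.sumElim_comp hs
  have h2 := card_eq_of_isTranscendenceBasis h1
  rw [Fintype.card_sum, Fintype.card_fin, Fintype.card_fin] at h2
  omega

private theorem basesAlgZ {k B Y Z : Type*} [Field k] [Field B] [Field Y] [Field Z] [Algebra k B]
    [Algebra k Y] [Algebra k Z] [Algebra B Z] [Algebra Y Z]
    (hcomp : IsCompositum k B Y Z) (a : Z) : IsAlgebraic (Algebra.adjoin k
      (Set.range (algebraMap B Z) ∪ Set.range (algebraMap Y Z))) a := by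
  rw [← IntermediateField.isAlgebraic_adjoin_iff]
  exact isAlgebraic_algebraMap (⟨a, hcomp a⟩ : IntermediateField.adjoin k
    (Set.range (algebraMap B Z) ∪ Set.range (algebraMap Y Z)))

variable {k B E Y Z P L : Type*} [Field k] [CharZero k] [Field B] [Field E] [Field Y] [Field Z]
  [Field P] [Field L]
  [Algebra k B] [Algebra k E] [Algebra k Y] [Algebra k Z] [Algebra k P] [Algebra k L]
  [Algebra B Z] [Algebra B P] [Algebra B L] [Algebra E L] [Algebra Y Z] [Algebra Y P]
  [Algebra Y L] [Algebra Z P] [Algebra Z L] [Algebra P L]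
  [IsScalarTower k B Z] [IsScalarTower k B P] [IsScalarTower k B L] [IsScalarTower k E L]
  [IsScalarTower k Y Z] [IsScalarTower k Y P] [IsScalarTower k Y L] [IsScalarTower k Z P]
  [IsScalarTower k Z L] [IsScalarTower k P L] [IsScalarTower B Z P] [IsScalarTower B Z L]
  [IsScalarTower B P L] [IsScalarTower Y Z P] [IsScalarTower Y Z L] [IsScalarTower Y P L]
  [IsScalarTower Z P L]
  [Algebra.EssFiniteType k B] [Algebra.EssFiniteType k Y] [Algebra.EssFiniteType k E]
  [FiniteDimensional E L] [FiniteDimensional Z P]

theorem basesC {r : ℕ} (hcomp : IsCompositum k B Y Z)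
    (hdim : dimension k B + dimension k Y + r = dimension k E) {s : Fin r → L}
    (hs : IsTranscendenceBasis Z s) :
    dimension k Z = dimension k B + dimension k Y ∧ dimension k P = dimension k Z ∧
    dimension k L = dimension k E ∧
    (∀ {x : Fin (dimension k B) → B} {y : Fin (dimension k Y) → Y},
      IsTranscendenceBasis k x → IsTranscendenceBasis k y → IsTranscendenceBasis k
        (Sum.elim (fun i => algebraMap B Z (x i)) (fun j => algebraMap Y Z (y j)))) ∧
    (∀ {x : Fin (dimension k B) → B} {y : Fin (dimension k Y) → Y},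
      IsTranscendenceBasis k x → IsTranscendenceBasis k y → IsTranscendenceBasis k
        (Sum.elim (fun i => algebraMap B P (x i)) (fun j => algebraMap Y P (y j)))) ∧
    (∀ {z : Fin (dimension k B) ⊕ Fin (dimension k Y) → P}, IsTranscendenceBasis k z →
      IsTranscendenceBasis k (Sum.elim (fun j => algebraMap P L (z j)) s)) ∧
    (∀ {x : Fin (dimension k B) → B} {y : Fin (dimension k Y) → Y},
      IsTranscendenceBasis k x → IsTranscendenceBasis k y → IsTranscendenceBasis k
        (Sum.elim (fun i => algebraMap B L (x i)) (Sum.elim (fun j => algebraMap Y L (y j)) s))) := by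
  classical
  haveI := essFinite_Z hcomp
  haveI : Algebra.EssFiniteType k P := Algebra.EssFiniteType.comp k Z P
  haveI : Algebra.EssFiniteType k L := Algebra.EssFiniteType.comp k E L
  obtain ⟨hZ2, hL⟩ := basesDim hcomp hdim hs
  obtain ⟨xZ, hxZ⟩ := exists_tb k Z
  have hdimP : dimension k Z = dimension k P := by
    have h1 : IsTranscendenceBasis k (algebraMap Z P ∘ xZ) := hxZ.algebraMap_comp
    have h2 := card_eq_of_isTranscendenceBasis h1
    rwa [Fintype.card_fin] at h2
  have halgZ' : ∀ {x : Fin (dimension k B) → B} {y : Fin (dimension k Y) → Y},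
      IsTranscendenceBasis k x → IsTranscendenceBasis k y → ∀ a : Z, IsAlgebraic (Algebra.adjoin k
        (Set.range (Sum.elim (fun i => algebraMap B Z (x i)) (fun j => algebraMap Y Z (y j))))) a := by
    intro x y hx hy a
    refine (basesAlgZ hcomp a).adjoin_of_forall_isAlgebraic ?_
    rintro _ ⟨⟨b, rfl⟩ | ⟨b, rfl⟩, -⟩
    · exact isAlgebraic_transport hx (Set.range _) (fun i => ⟨Sum.inl i, rfl⟩) b
    · exact isAlgebraic_transport hy (Set.range _) (fun i => ⟨Sum.inr i, rfl⟩) b
  have hZ : ∀ {x : Fin (dimension k B) → B} {y : Fin (dimension k Y) → Y},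
      IsTranscendenceBasis k x → IsTranscendenceBasis k y → IsTranscendenceBasis k
        (Sum.elim (fun i => algebraMap B Z (x i)) (fun j => algebraMap Y Z (y j))) :=
    fun hx hy => tb_of_alg (halgZ' hx hy) (by simp [hZ2])
  have hP : ∀ {x : Fin (dimension k B) → B} {y : Fin (dimension k Y) → Y},
      IsTranscendenceBasis k x → IsTranscendenceBasis k y → IsTranscendenceBasis k
        (Sum.elim (fun i => algebraMap B P (x i)) (fun j => algebraMap Y P (y j))) := by
    intro x y hx hy
    have h1 : IsTranscendenceBasis k (algebraMap Z P ∘ _) := (hZ hx hy).algebraMap_comp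
    convert h1 using 1
    funext j
    rcases j with j | j
    · exact IsScalarTower.algebraMap_apply B Z P _
    · exact IsScalarTower.algebraMap_apply Y Z P _
  have hPL : ∀ {z : Fin (dimension k B) ⊕ Fin (dimension k Y) → P}, IsTranscendenceBasis k z →
      IsTranscendenceBasis k (Sum.elim (fun j => algebraMap P L (z j)) s) := by
    intro z hz
    refine tb_of_alg (fun a => ?_) (by
      simp only [Fintype.card_sum, Fintype.card_fin]
      omega)
    refine (basesAlg (k := k) hs a).adjoin_of_forall_isAlgebraic ?_
    rintro _ ⟨⟨b, rfl⟩ | ⟨i, rfl⟩, h'⟩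
    · rw [IsScalarTower.algebraMap_apply Z P L]
      exact isAlgebraic_transport hz (Set.range _) (fun i => ⟨Sum.inl i, rfl⟩) _
    · exact absurd ⟨Sum.inr i, rfl⟩ h'
  refine ⟨hZ2, hdimP.symm, hL, hZ, hP, hPL, fun {x y} hx hy => ?_⟩
  have h1 := hPL (hP hx hy)
  have h2 := (isTranscendenceBasis_equiv
    (Equiv.sumAssoc (Fin (dimension k B)) (Fin (dimension k Y)) (Fin r)).symm).mpr h1
  convert h2 using 1
  funext j
  rcases j with j | j | j
  · exact IsScalarTower.algebraMap_apply B P L _
  · exact IsScalarTower.algebraMap_apply Y P L _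
  · rfl

omit [FiniteDimensional Z P] [Field P] [Algebra k P] [Algebra B P] [Algebra Y P] [Algebra Z P]
  [Algebra P L] [IsScalarTower k B P] [IsScalarTower k Y P] [IsScalarTower k Z P]
  [IsScalarTower k P L] [IsScalarTower B Z P] [IsScalarTower B P L] [IsScalarTower Y Z P]
  [IsScalarTower Y P L] [IsScalarTower Z P L] in
theorem basesB {r : ℕ} (hcomp : IsCompositum k B Y Z)
    (hdim : dimension k B + dimension k Y + r = dimension k E) {s : Fin r → L}
    (hs : IsTranscendenceBasis Z s) {y : Fin (dimension k Y) → Y} (hy : IsTranscendenceBasis k y) :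
    IsTranscendenceBasis B (fun j => algebraMap Y Z (y j)) ∧
    IsTranscendenceBasis B (Sum.elim (fun j => algebraMap Y L (y j)) s) := by
  haveI := essFinite_Z hcomp
  obtain ⟨hZ2, hL⟩ := basesDim hcomp hdim hs
  have h1 : IsTranscendenceBasis B (fun j => algebraMap Y Z (y j)) :=
    Up.tb_over (k := k) hZ2.symm (basesAlgZ hcomp) hy
  refine ⟨h1, ?_⟩
  have h2 := h1.sumElim_comp hs
  have h3 := (isTranscendenceBasis_equiv (Equiv.sumComm (Fin (dimension k Y)) (Fin r))).mpr h2
  convert h3 using 1
  funext j
  rcases j with j | j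
  · exact IsScalarTower.algebraMap_apply Y Z L _
  · rfl

end Pf72953.Can
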