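import Mathlib
import Pool.Agent.Lib.Pf72953e.ExtE
import Pool.Agent.Lib.Pf72953m.Over
import Pool.Agent.Lib.Pf72953.Bases

/-!
MODULE Pf72953c.BrkA: logarithmic derivations of `L` extend to logarithmic derivations of the finite extension `N`.

PROOF.  `exists_extend` (Pf72953e/ExtE.lean, `hw.nontrivial`) gives `w'` on `N` with `w' z ≤ 1 ↔ w z ≤ 1` on `L`.  `v := w'.comap (algebraMap L N)` is divisorial on `L/k`: it is equivalent to `w`
(`Valuation.isEquiv_iff_val_le_one`, `isEquiv_iff_val_eq_one`; see `hTKκ` in the proof of `Ell.local_bound`, Pf72953e/LocalE.lean), and `w'` is divisorial on `N/k` (`IsDivisorial.of_comap`; `dimension k N = dimension k L`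
since `N/L` is algebraic: `exists_tb`, `IsTranscendenceBasis.algebraMap_comp`, `card_eq_of_isTranscendenceBasis`).
Let `(c, t)` be adapted to `v` (`IsDivisorial.exists_adapted`, index `Fin (dimension k L)`); `hlogL := hc.logBasis ..` on `L` and `hlogN := (Adapted.map hc).logBasis ..` on `N` for `w'`, `c' j = algebraMap L N (c j)`.
For `d : Derivation Z L L` logarithmic put `D₀ := ∑ j, algebraMap L N (d (c j)) • pd hlogN.tb j`, a `k`-derivation of `N`.  `D₀ (algebraMap L N z) = algebraMap L N (d z)`: `pd_algebraMap` (with `σ = id`; see its use in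
`jac_algebraMap` or Pf72953e/LocalE.lean) and `der_eq_sum hlogL.tb (d.restrictScalars k) z` (Pf72953/Coord.lean).  In particular `D₀` kills `Z` (`IsScalarTower Z L N`), so
`D := derOver D₀ _` (Pf72953m/Over.lean, `B := Z`) is a `Z`-derivation.
`w' (D z) ≤ max_j w' (d (c j)) * w' (pd hlogN.tb j z)`, `w' (c' j) * w' (pd hlogN.tb j z) ≤ w' z` (`hlogN.der`), `w' (d (c j)) ≤ w' (c j)`: for `z = c j ≠ 0`, `w (d z / z) ≤ 1`, so `w' (d z / z) ≤ 1`.  Hence `w' (D z) ≤ w' z`
(`Valuation.map_sum_le`).
-/

set_option autoImplicit false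
set_option linter.style.haveILetI false

open scoped WithZero
open Pf72953 Pf72953.Mov

namespace Pf72953.Can

theorem exists_logDer_ext {k Z L N : Type*} [Field k] [CharZero k] [Field Z] [Field L] [Field N]
    [Algebra k Z] [Algebra k L] [Algebra k N] [Algebra Z L] [Algebra Z N] [Algebra L N]
    [IsScalarTower k Z L] [IsScalarTower k L N] [IsScalarTower Z L N]
    [Algebra.EssFiniteType k L] [FiniteDimensional L N] {w : Valuation L ℤᵐ⁰}
    (hw : IsDivisorial k L w) :
    ∃ w' : Valuation N ℤᵐ⁰, IsDivisorial k N w' ∧ (∀ z : L, w' (algebraMap L N z) ≤ 1 ↔ w z ≤ 1) ∧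
      ∀ d : Derivation Z L L, (∀ z, w (d z) ≤ w z) → ∃ D : Derivation Z N N,
        (∀ z : L, D (algebraMap L N z) = algebraMap L N (d z)) ∧ ∀ z, w' (D z) ≤ w' z := by
  classical
  haveI : CharZero L := charZero_of_injective_algebraMap (algebraMap k L).injective
  haveI : Algebra.EssFiniteType L N := inferInstance
  haveI : Algebra.EssFiniteType k N := Algebra.EssFiniteType.comp k L N
  obtain ⟨w', hw'⟩ := Ell.exists_extend (K := L) (P := N) (v := w) hw.nontrivial
  set v := w'.comap (algebraMap L N) with hvdef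
  have hv1 : ∀ a : L, v a = 1 ↔ w a = 1 := by
    have := (Valuation.isEquiv_iff_val_le_one (v := v) (v' := w)).mpr (fun {a} => hw' a)
    intro a
    exact (Valuation.isEquiv_iff_val_eq_one.mp this)
  have hv : IsDivisorial k L v := by
    refine ⟨fun c hc => (hv1 _).mpr (hw.const c hc), ?_, ?_⟩
    · obtain ⟨a, ha0, ha⟩ := hw.nontrivial
      exact ⟨a, ha0, fun h => ha ((hv1 a).mp h)⟩
    · obtain ⟨ξ, hξ⟩ := hw.resid
      exact ⟨ξ, fun p hp => (hv1 _).mpr (hξ p hp)⟩
  have hdim : dimension k N = dimension k L := by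
    obtain ⟨s, hs⟩ := exists_isTranscendenceBasis k L
    haveI := finite_of_isTranscendenceBasis hs
    haveI := Fintype.ofFinite s
    have h1 := hs.algebraMap_comp (A := N)
    rw [← card_eq_of_isTranscendenceBasis h1, ← card_eq_of_isTranscendenceBasis hs]
  have hN : IsDivisorial k N w' := IsDivisorial.of_comap hdim hv
  refine ⟨w', hN, hw', fun d hd => ?_⟩
  obtain ⟨c, t, ht, hc⟩ := hv.exists_adapted (ι := Fin (dimension k L)) (Fintype.card_fin _)
  have hlogL := hc.logBasis (Fintype.card_fin _)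
  have hcN := Adapted.map hc
  have hlogN := hcN.logBasis (by rw [Fintype.card_fin, hdim])
  set D₀ : Derivation k N N := ∑ j, algebraMap L N (d (c j)) • pd hlogN.tb j with hD₀
  have hD₀z : ∀ z : N, D₀ z = ∑ j, algebraMap L N (d (c j)) * pd hlogN.tb j z := by
    intro z
    rw [hD₀, ← Derivation.coeFnAddMonoidHom_apply, map_sum, Finset.sum_apply]
    rfl
  have hD₀L : ∀ z : L, D₀ (algebraMap L N z) = algebraMap L N (d z) := by
    intro z
    have h1 := der_eq_sum hlogL.tb (d.restrictScalars k) z
    have h2 : (d.restrictScalars k : Derivation k L L) z = d z := rfl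
    rw [h2] at h1
    rw [hD₀z, h1, map_sum]
    refine Finset.sum_congr rfl fun j _ => ?_
    have h3 := pd_algebraMap (L := N) hlogL.tb hlogN.tb id Function.injective_id
      (fun _ => rfl) j z
    rw [id_eq] at h3
    rw [h3, map_mul, mul_comm]
    rfl
  have hker : ∀ b : Z, D₀ (algebraMap Z N b) = 0 := by
    intro b
    rw [IsScalarTower.algebraMap_apply Z L N, hD₀L, Derivation.map_algebraMap, map_zero]
  refine ⟨derOver D₀ hker, fun z => hD₀L z, fun z => ?_⟩
  rw [derOver_apply, hD₀z]
  refine Valuation.map_sum_le _ fun j _ => ?_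
  rw [map_mul]
  have hcj : c j ≠ 0 := hlogL.tb.1.ne_zero j
  have h1 : w' (algebraMap L N (d (c j))) ≤ w' (algebraMap L N (c j)) := by
    have h2 : w (d (c j) / c j) ≤ 1 := by
      rw [map_div₀]
      exact div_le_one_of_le₀ (hd (c j)) zero_le
    have h3 := (hw' _).mpr h2
    have hw0 : w' (algebraMap L N (c j)) ≠ 0 := by
      rw [Valuation.ne_zero_iff]
      simpa using hcj
    rw [map_div₀, map_div₀] at h3
    calc w' (algebraMap L N (d (c j))) =
        w' (algebraMap L N (d (c j))) / w' (algebraMap L N (c j)) * w' (algebraMap L N (c j)) := by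
          rw [div_mul_cancel₀ _ hw0]
      _ ≤ 1 * w' (algebraMap L N (c j)) := by gcongr
      _ = _ := one_mul _
  have h4 := hlogN.der j z
  rw [map_mul] at h4
  exact (mul_le_mul' h1 le_rfl).trans h4

end Pf72953.Can
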