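import Mathlib
import Pool.Agent.Lib.Pf72953v.Defs
import Pool.Agent.Lib.Pf72953v.Block
import Pool.Agent.Lib.Pf72953v.Ratio

/-!
MODULE Pf72953c.BrkB: derivations and brackets.

PROOF.  `det_newu`: a `Z`-derivation `D` kills the coefficients `H i a c` (`der_eq_zero_of_isAlgebraic`), so `D (lin (H i) (u i) a) = ∑ j, H i a j.succ * D (u i j)`, and with `newu H u J i r = ℓ_{J i r.succ} / ℓ_{J i 0}` (Pf72953v/Block.lean):
`D (newu H u J i r) = ∑ j, ratioMat (H i) (u i) (J i) j r * D (u i j)` (`Derivation.leibniz_div`, compare `D_ratio` in Pf72953v/Ratio.lean).  So the matrix of the `D_a (newu ..)` is the product of the matrix of the `D_a (u ..)` and of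
`Matrix.blockDiagonal' (fun i => ratioMat (H i) (u i) (J i))` (compare `jac_tot` in Pf72953v/Block.lean); `Matrix.det_mul`, `det_blockDiagonal'` (Block.lean), `det_ratioMat` (Ratio.lean).
`brk_estimate`: if some `brk (H i) (J i) = 0`, then `gam .. = 0` and the left hand side is `0`.  Otherwise `w (det (D_a newu_b)) ≤ ∏ b, w (newu_b)` (`Matrix.det_apply`, every product `∏ D_{σ b} newu_b` has value `≤ ∏ w (newu_b)`; see
`LocalEAux.det_le_one` in Pf72953e/LocalE.lean for the shape), and `w (brk / ℓ₀^(n+1)) = (w (gam (J i))) * ∏ r, w (newu H u J i r)` (`val_newu`, Pf72953v/Est.lean, copy the proof: `gam = brk / ∏ r, ℓ_{J i r}`,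
`Fin.prod_univ_succ`).  So `w (det (D_a u_b)) * ∏ i, w (gam i) * ∏ w (newu) ≤ ∏ w (newu)` and `newu ≠ 0`; cancel.
-/

set_option autoImplicit false
set_option linter.style.haveILetI false

open scoped WithZero
open Pf72953 Pf72953.Var

namespace Pf72953.Can

variable {Z N I : Type*} [Field Z] [CharZero Z] [Field N] [Algebra Z N] [Fintype I] [DecidableEq I]
  {n : I → ℕ} {A : I → Type*}

omit [Fintype I] [DecidableEq I] in
private theorem der_alg (D : Derivation Z N N) {b : N} (hb : IsAlgebraic Z b) : D b = 0 := by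
  have hbi : IsIntegral Z b := hb.isIntegral
  have hsep : (minpoly Z b).Separable := (minpoly.irreducible hbi).separable
  have h1 : D (Polynomial.aeval b (minpoly Z b)) =
      Polynomial.aeval b (Polynomial.derivative (minpoly Z b)) • D b :=
    Derivation.map_aeval D (minpoly Z b) b
  rw [minpoly.aeval, map_zero] at h1
  have h2 : Polynomial.aeval b (Polynomial.derivative (minpoly Z b)) ≠ 0 := by
    intro h0
    obtain ⟨u, v, huv⟩ := hsep
    have := congrArg (Polynomial.aeval b) huv
    rw [map_add, map_mul, map_mul, h0, minpoly.aeval, mul_zero, mul_zero, add_zero, map_one] at this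
    exact zero_ne_one this
  rcases smul_eq_zero.mp h1.symm with h | h
  · exact absurd h h2
  · exact h

omit [Fintype I] [DecidableEq I] in
private theorem der_lin {m : ℕ} {X : Type*} {H : X → Fin (m + 1) → N}
    (hH : ∀ a c, IsAlgebraic Z (H a c)) (u : Fin m → N) (D : Derivation Z N N) (a : X) :
    D (lin H u a) = ∑ j : Fin m, H a j.succ * D (u j) := by
  simp only [lin, map_add, map_sum, Derivation.leibniz, der_alg D (hH a _), smul_eq_mul, mul_zero,
    add_zero, zero_add]

omit [Fintype I] [DecidableEq I] in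
private theorem der_ratio {m : ℕ} {X : Type*} {H : X → Fin (m + 1) → N}
    (hH : ∀ a c, IsAlgebraic Z (H a c)) (u : Fin m → N) (D : Derivation Z N N)
    (J : Fin (m + 1) → X) (h0 : lin H u (J 0) ≠ 0) (r : Fin m) :
    D (lin H u (J r.succ) / lin H u (J 0)) = ∑ j, D (u j) * ratioMat H u J j r := by
  have hr := der_lin hH u D (J r.succ)
  have h0' := der_lin hH u D (J 0)
  set l0 := lin H u (J 0) with hl0
  set lr := lin H u (J r.succ) with hlr
  have e3 : D (lr / l0) = l0⁻¹ * D lr - (l0⁻¹ * (lr / l0)) * D l0 := by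
    rw [Derivation.leibniz_div, smul_eq_mul, smul_eq_mul, smul_eq_mul]
    field_simp
  rw [e3, hr, h0', Finset.mul_sum, Finset.mul_sum, ← Finset.sum_sub_distrib]
  refine Finset.sum_congr rfl fun j _ => ?_
  simp only [ratioMat, Matrix.of_apply, ← hl0, ← hlr]
  field_simp

theorem det_newu {H : ∀ i, A i → Fin (n i + 1) → N} (hH : ∀ i a c, IsAlgebraic Z (H i a c))
    (u : ∀ i, Fin (n i) → N) (D : (Σ i, Fin (n i)) → Derivation Z N N)
    (J : ∀ i, Fin (n i + 1) → A i) (h0 : ∀ i, lin (H i) (u i) (J i 0) ≠ 0) :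
    Matrix.det (Matrix.of fun a b : (Σ i, Fin (n i)) => D a (newu H u J b.1 b.2)) =
      Matrix.det (Matrix.of fun a b : (Σ i, Fin (n i)) => D a (u b.1 b.2)) *
        ∏ i, (brk (H i) (J i) / lin (H i) (u i) (J i 0) ^ (n i + 1)) := by
  have h1 : (Matrix.of fun a b : (Σ i, Fin (n i)) => D a (newu H u J b.1 b.2)) =
      (Matrix.of fun a b : (Σ i, Fin (n i)) => D a (u b.1 b.2)) *
        Matrix.blockDiagonal' (fun i => ratioMat (H i) (u i) (J i)) := by
    ext a b
    rw [Matrix.mul_apply]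
    simp only [Matrix.of_apply]
    rw [Fintype.sum_sigma, Finset.sum_eq_single b.1]
    · unfold newu
      rw [der_ratio (hH b.1) (u b.1) (D a) (J b.1) (h0 b.1) b.2]
      refine Finset.sum_congr rfl fun r _ => ?_
      have : Matrix.blockDiagonal' (fun i => ratioMat (H i) (u i) (J i)) ⟨b.1, r⟩ b
          = ratioMat (H b.1) (u b.1) (J b.1) r b.2 :=
        Matrix.blockDiagonal'_apply_eq (fun i => ratioMat (H i) (u i) (J i)) b.1 r b.2
      rw [this]
    · intro i _ hi
      refine Finset.sum_eq_zero fun r _ => ?_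
      have : Matrix.blockDiagonal' (fun i => ratioMat (H i) (u i) (J i)) ⟨i, r⟩ b = 0 :=
        Matrix.blockDiagonal'_apply_ne (fun i => ratioMat (H i) (u i) (J i)) r b.2 hi
      rw [this, mul_zero]
    · intro h
      exact absurd (Finset.mem_univ _) h
  rw [h1, Matrix.det_mul, det_blockDiagonal']
  congr 1
  exact Finset.prod_congr rfl fun i _ => det_ratioMat (H i) (u i) (J i) (h0 i)

private theorem det_le_prod {L ι : Type*} [Field L] [Fintype ι] [DecidableEq ι]
    {w : Valuation L ℤᵐ⁰} (M : Matrix ι ι L) (v : ι → L) (h : ∀ i j, w (M i j) ≤ w (v j)) :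
    w M.det ≤ ∏ j, w (v j) := by
  rw [Matrix.det_apply]
  refine Valuation.map_sum_le _ fun σ _ => ?_
  rw [Units.smul_def, zsmul_eq_mul, map_mul, map_prod]
  refine le_trans (mul_le_mul' ?_ (Finset.prod_le_prod' fun i _ => h (σ i) i)) (one_mul _).le
  rcases Int.units_eq_one_or (Equiv.Perm.sign σ) with h | h <;> simp [h, Valuation.map_neg]

theorem brk_estimate {H : ∀ i, A i → Fin (n i + 1) → N} (hH : ∀ i a c, IsAlgebraic Z (H i a c))
    (u : ∀ i, Fin (n i) → N) (hl : ∀ i a, lin (H i) (u i) a ≠ 0) {w : Valuation N ℤᵐ⁰}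
    (D : (Σ i, Fin (n i)) → Derivation Z N N) (hD : ∀ a z, w (D a z) ≤ w z)
    (J : ∀ i, Fin (n i + 1) → A i) :
    w (Matrix.det (Matrix.of fun a b : (Σ i, Fin (n i)) => D a (u b.1 b.2))) *
      ∏ i, w (gam (H i) (u i) (J i)) ≤ 1 := by
  have h1 := congrArg w (det_newu hH u D J fun i => hl i _)
  rw [map_mul, map_prod] at h1
  have h2 : w (Matrix.det (Matrix.of fun a b : (Σ i, Fin (n i)) => D a (newu H u J b.1 b.2))) ≤
      ∏ b : (Σ i, Fin (n i)), w (newu H u J b.1 b.2) :=
    det_le_prod _ (fun b : (Σ i, Fin (n i)) => newu H u J b.1 b.2) fun a b => hD a _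
  have h3 : ∏ i, w (brk (H i) (J i) / lin (H i) (u i) (J i 0) ^ (n i + 1)) =
      (∏ i, w (gam (H i) (u i) (J i))) * ∏ b : (Σ i, Fin (n i)), w (newu H u J b.1 b.2) := by
    rw [Fintype.prod_sigma, ← Finset.prod_mul_distrib]
    refine Finset.prod_congr rfl fun i _ => ?_
    rw [← map_prod, ← map_mul]
    congr 1
    have h8 : ∏ r, newu H u J i r =
        (∏ r : Fin (n i), lin (H i) (u i) (J i r.succ)) / lin (H i) (u i) (J i 0) ^ n i := by
      unfold newu
      rw [Finset.prod_div_distrib, Finset.prod_const, Finset.card_univ, Fintype.card_fin]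
    change _ = _ * ∏ r : Fin (n i), newu H u J i r
    rw [h8]
    unfold gam
    rw [Fin.prod_univ_succ, pow_succ]
    have h4 : lin (H i) (u i) (J i 0) ≠ 0 := hl i _
    have h5 : ∏ r : Fin (n i), lin (H i) (u i) (J i r.succ) ≠ 0 :=
      Finset.prod_ne_zero_iff.mpr fun r _ => hl i _
    field_simp
  have h6 : ∏ b : (Σ i, Fin (n i)), w (newu H u J b.1 b.2) ≠ 0 := by
    refine Finset.prod_ne_zero_iff.mpr fun b _ => ?_
    rw [Valuation.ne_zero_iff]
    exact div_ne_zero (hl _ _) (hl _ _)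
  rw [h1, h3, ← mul_assoc] at h2
  rwa [mul_le_iff_le_one_left (zero_lt_iff.mpr h6)] at h2

end Pf72953.Can
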