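import Mathlib
import Pool.Agent.Lib.Pf72953t.Defs
import Pool.Agent.Lib.Pf72953e.Defs
import Pool.Agent.Lib.Pf72953v.Defs

/-!
Fibre spaces over a constant variety whose fibres have Kodaira dimension zero: definitions.

`B ⊆ E ⊆ L` are finitely generated fields over `k`, `L/E` is finite, `M` is a smooth complete variety with function
field `Y ⊆ L`, `Z ⊆ L` is the compositum of `B` and `Y` (the function field of `M` over `B`), `P/Z` is finite, `P ⊆ L`
(`P` contains the needed elements algebraic over `B`), and `s : Fin r → L` is a transcendence basis of `L/Z`.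
-/

set_option autoImplicit false
set_option linter.style.haveILetI false

open scoped WithZero
open Pf72953 Pf72953.Mov Pf72953.Ell

namespace Pf72953.Can

section forms

/-- The `m`-fold form `G (ds₁ ∧ ⋯ ∧ ds_r)^m` of `L/Z` has at most a logarithmic pole at `w`: its values at
logarithmic vector fields are in the valuation ring. -/
def LogAt (Z : Type*) {L : Type*} [Field Z] [Field L] [Algebra Z L] (w : Valuation L ℤᵐ⁰) {r : ℕ}
    (s : Fin r → L) (m : ℕ) (G : L) : Prop :=
  ∀ d : Fin r → Derivation Z L L, (∀ a z, w (d a z) ≤ w z) →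
    w (G * Matrix.det (Matrix.of fun a b => d a (s b)) ^ m) ≤ 1

/-- The `m`-fold form `G (ds₁ ∧ ⋯ ∧ ds_r)^m` of `L/Z` is regular at `w`: its values at vector fields which
preserve the valuation ring are in the valuation ring. -/
def RegAt (Z : Type*) {L : Type*} [Field Z] [Field L] [Algebra Z L] (w : Valuation L ℤᵐ⁰) {r : ℕ}
    (s : Fin r → L) (m : ℕ) (G : L) : Prop :=
  ∀ d : Fin r → Derivation Z L L, (∀ a z, w z ≤ 1 → w (d a z) ≤ 1) →
    w (G * Matrix.det (Matrix.of fun a b => d a (s b)) ^ m) ≤ 1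

/-- the `m`-canonical forms of `L/Z`: regular on the generic fibre, with at most logarithmic poles at all
divisorial valuations of `L/k` -/
def LogForms (k Z : Type*) {L : Type*} [Field k] [Field Z] [Field L] [Algebra k L] [Algebra Z L]
    {r : ℕ} (s : Fin r → L) (m : ℕ) : Set L :=
  {G | ∀ w : Valuation L ℤᵐ⁰, IsDivisorial k L w → LogAt Z w s m G ∧
    ((∀ z : Z, z ≠ 0 → w (algebraMap Z L z) = 1) → RegAt Z w s m G)}

/-- `κ_log(L/Z) ≥ c` -/
def RelLogGE (k Z : Type*) {L : Type*} [Field k] [Field Z] [Field L] [Algebra k L] [Algebra Z L]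
    {r : ℕ} (s : Fin r → L) (c : ℕ) : Prop :=
  ∃ m : ℕ, 1 ≤ m ∧ ∃ G ∈ LogForms k Z s m, G ≠ 0 ∧
    ∃ f : Fin c → L, AlgebraicIndependent Z f ∧ ∀ i, f i * G ∈ LogForms k Z s m

/-- The Kodaira dimension `κ_log(L/Z)` of the relative pluricanonical forms of `L/Z` which have at most logarithmic
poles at all divisorial valuations of `L/k`. -/
noncomputable def relLogKodairaDim (k Z : Type*) {L : Type*} [Field k] [Field Z] [Field L]
    [Algebra k L] [Algebra Z L] {r : ℕ} (s : Fin r → L) : WithBot ℕ∞ :=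
  ⨆ (c : ℕ) (_ : RelLogGE k Z s c), ((c : ℕ∞) : WithBot ℕ∞)

variable {k B Y L : Type*} [Field k] [Field B] [Field Y] [Field L] [Algebra k Y] [Algebra B L]
  [Algebra Y L] {M : SmoothModel k Y} {r : ℕ}

/-- the value of the form `dx_{i1} ∧ ⋯ ∧ dx_{in} ∧ ds₁ ∧ ⋯ ∧ ds_r` of `L/B` at vector fields -/
noncomputable def vol (i : M.I) (s : Fin r → L) (d : Fin (dimension k Y) ⊕ Fin r → Derivation B L L) : L :=
  Matrix.det (Matrix.of fun a b => d a (Sum.elim (fun c => algebraMap Y L (M.x i c)) s b))

/-- The form `gen_A (dx_{i1} ∧ ⋯ ∧ dx_{in})^e ∧ G (ds₁ ∧ ⋯ ∧ ds_r)^e` of `L/B` is regular over the generic point and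
over all prime divisors of `M` over `B`. -/
def RegularOver (k' B Z : Type*) [Field k'] [Field B] [Field Z] [Algebra k' L] [Algebra B Z]
    [Algebra B L] [Algebra Y Z] [Algebra Z L] (A : LineBundle M) (s : Fin r → L) (e : ℕ)
    (G : L) : Prop :=
  ∀ (i : M.I) (w : Valuation L ℤᵐ⁰), IsDivisorial k' L w →
    (∀ c : B, c ≠ 0 → w (algebraMap B L c) = 1) → Br.PrimeAt M B Z i w →
    ∀ d : Fin (dimension k Y) ⊕ Fin r → Derivation B L L, (∀ a z, w z ≤ 1 → w (d a z) ≤ 1) →
      w (algebraMap Y L (A.gen i) * G * vol i s d ^ e) ≤ 1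

/-- Over every prime divisor of `M` over `B` (`B' ⊆ P` algebraic over `B`) there is a divisor of `Spec L` at which the
form `gen_A (dx_{i1} ∧ ⋯ ∧ dx_{in})^e ∧ G (ds₁ ∧ ⋯ ∧ ds_r)^e` of `L/B` does not vanish. -/
def GeneratedOver (k' B Z P : Type*) [Field k'] [Field B] [Field Z] [Field P] [Algebra k' P]
    [Algebra k' L] [Algebra B Z] [Algebra B P] [Algebra B L] [Algebra Y Z] [Algebra Y P]
    [Algebra Z P] [Algebra P L] (A : LineBundle M) (s : Fin r → L) (e : ℕ) (G : L) : Prop :=
  ∀ (i : M.I) (T : Valuation P ℤᵐ⁰), IsDivisorial k' P T →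
    (∀ c : B, c ≠ 0 → T (algebraMap B P c) = 1) → Br.PrimeAt M B Z i T →
    ∃ w : Valuation L ℤᵐ⁰, IsDivisorial k' L w ∧
      (∀ p : P, w (algebraMap P L p) ≤ 1 ↔ T p ≤ 1) ∧
      ∃ d : Fin (dimension k Y) ⊕ Fin r → Derivation B L L, (∀ a z, w z ≤ 1 → w (d a z) ≤ 1) ∧
        1 ≤ w (algebraMap Y L (A.gen i) * G * vol i s d ^ e)

/-- Every element of `L` algebraic over the function field `Z` of `M` over `B` is in the function field of `M`
over `B'`, `B' ⊆ P` the algebraic closure of `B`: the fibres of `Spec L → M × Spec B'` are connected. -/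
def Connected (k' B Y Z P L : Type*) [Field k'] [Field B] [Field Y] [Field Z] [Field P]
    [Field L] [Algebra k' P] [Algebra B P] [Algebra Y P] [Algebra Z L] [Algebra P L] : Prop :=
  ∀ z : L, IsAlgebraic Z z → ∃ t ∈ IntermediateField.adjoin k'
    ({p : P | IsAlgebraic B p} ∪ Set.range (algebraMap Y P)), algebraMap P L t = z

end forms

section cplus

/-- the ratios of orbifold pluricanonical forms of `B` -/
def orbRatios (k B E : Type*) [Field k] [Field B] [Field E] [Algebra k B] [Algebra k E]
    [Algebra B E] : Set B :=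
  {f | ∃ m : ℕ, 1 ≤ m ∧ ∃ ω ∈ orbPluricanonical k B E m, ω ≠ 0 ∧
    algebraMap B E f • ω ∈ orbPluricanonical k B E m}

variable {k Y : Type*} [Field k] [Field Y] [Algebra k Y] {M : SmoothModel k Y} {A : LineBundle M}
  {B P J : Type*} [Field B] [Field P] [Algebra B P] [Algebra Y P]

/-- the ratios of the coefficients of the sections `T_j = ∑ a_{jl} s_{jl}` -/
def coefRatios (T : J → MovingSection M A 1 B P) : Set P :=
  {θ | ∃ j l j' l', θ = (T j).a l / (T j').a l'}

/-- the variation: the transcendence degree of the field of the ratios of the coefficients -/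
noncomputable def coefVar (k' : Type*) [Field k'] [Algebra k' P]
    (T : J → MovingSection M A 1 B P) : ℕ :=
  dimension k' (IntermediateField.adjoin k' (coefRatios T))

/-- The dimension of the image of the rational map from (a finite cover of) the base to the product of the Iitaka
variety of the orbifold base and the space of the coefficients `a_{jl}`. -/
noncomputable def cplus (k' E : Type*) [Field k'] [Field E] [Algebra k' B] [Algebra k' E]
    [Algebra B E] [Algebra k' P] (T : J → MovingSection M A 1 B P) : ℕ :=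
  dimension k' (IntermediateField.adjoin k'
    ((algebraMap B P) '' orbRatios k' B E ∪ coefRatios T))

end cplus

section brackets

open Pf72953.Var

variable {N I : Type*} [Field N] [Fintype I] {n : I → ℕ} {A : I → Type*}
  [∀ i, DecidableEq (A i)]

/-- The bracket monomials of weight `j`: products of `e j` brackets of `n_i + 1` linear forms in each block `i`, in
which the linear form `a` of the block `i` occurs `j ε_i(a)` times. -/
def brkMonomials (H : ∀ i, A i → Fin (n i + 1) → N) (e : ℕ) (ε : ∀ i, A i → ℕ) (j : ℕ) : Set N :=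
  {β | ∃ R : ∀ i, Fin (e * j) → Fin (n i + 1) → A i,
    (∀ i a, ∑ c, occ (R i c) a = j * ε i a) ∧ β = ∏ i, ∏ c, brk (H i) (R i c)}

/-- `T` is integral over the graded ring of the bracket monomials, of weight one: an invariant. -/
def IntegralOverBrackets (k : Type*) [Field k] [Algebra k N] (H : ∀ i, A i → Fin (n i + 1) → N)
    (e : ℕ) (ε : ∀ i, A i → ℕ) (T : N) : Prop :=
  ∃ (p : ℕ) (c : ℕ → N), 1 ≤ p ∧ (∀ j, c j ∈ Submodule.span k (brkMonomials H e ε j)) ∧
    T ^ p = ∑ j ∈ Finset.Icc 1 p, c j * T ^ (p - j)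

end brackets

end Pf72953.Can
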