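import Mathlib
import Pool.Agent.Lib.Pf72953c.Defs
import Pool.Agent.Lib.Pf72953c.BrkA
import Pool.Agent.Lib.Pf72953c.BrkB
import Pool.Agent.Lib.Pf72953v.Mult

/-!
MODULE Pf72953c.BrkC: the canonical form of a cover of products of projective spaces, times an invariant of the branch divisor, has at most logarithmic poles.

PROOF.  `val_le_of_integral`: `Γ = ∏ i, ∏ a, lin (H i) (u i) a ^ ε i a ≠ 0`.  If `T = 0` it is clear.  Let `T ≠ 0`, `T ^ p = ∑ j ∈ Icc 1 p, c j * T ^ (p - j)`, `g = ∏ i, w (gam (H i) (u i) (J i))`.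
 A bracket monomial `β = ∏ i, ∏ c, brk (H i) (R i c)` of weight `j` has `β = Γ ^ j * ∏ i, ∏ c, gam (H i) (u i) (R i c)` (`gam = brk / ∏ r lin`, and `∏ c, ∏ r, lin (R i c r) = ∏ a, lin a ^ (∑ c, occ (R i c) a) = ∏ a, lin a ^ (j * ε i a)`: `prod_lin_eq`,
 Pf72953v/Mult.lean), so `w β ≤ w Γ ^ j * g ^ (e * j)` (`hJ`; `e * j` factors in every block).  The same bound holds for `c j` (`k`-linear combinations: `Submodule.span_induction`, `hk`: constants have value `≤ 1`).
 So `w T ^ p ≤ max_j (w Γ * g ^ e) ^ j * w T ^ (p - j)`; if `w T > w Γ * g ^ e` every term is `< w T ^ p` (`j ≥ 1`), and so is the sum (`Valuation.map_sum_lt`), a contradiction.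
`logAt_of_brackets`: `exists_logDer_ext` gives `w'` on `N` (divisorial over `k`).  Let `d : Fin r → Derivation Z L L` be logarithmic, `D a` the extensions; reindex: `D' q := D (eq.symm q)` for `q : Σ i, Fin (n i)`;
 `det (D_a (u (eq b).1 (eq b).2)) = det (D'_q (u q'.1 q'.2))` (`Matrix.det_submatrix_equiv_self`), `det (D_a (algebraMap (s b))) = algebraMap (det (d_a (s b)))` (`RingHom.map_det`).
 If some `A i` is empty: then `brkMonomials H e ε j = ∅` for `j ≥ 1` if `e ≥ 1` (there is no tuple `Fin (n i + 1) → A i`), so `c j = 0` and `T = 0`.  Otherwise choose `J i` with `w' (gam (H i) (u i) (J i))` maximal among ALL tuples (`Finite.exists_max`).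
 `brk_estimate` (BrkB): `w' (det (D_a u_b)) * g ≤ 1`.  `hG`: `w' (T * G * det (d_a s_b) ^ e) = w' T / w' Γ * w' (det (D_a u_b)) ^ e ≤ (g * w' (det ..)) ^ e ≤ 1`.  Finally `w' (..) ≤ 1 ↔ w (..) ≤ 1`.
-/

set_option autoImplicit false
set_option linter.style.haveILetI false

open scoped WithZero
open Pf72953 Pf72953.Var Pf72953.Mov

namespace Pf72953.Can

theorem val_le_of_integral {k N I : Type*} [Field k] [Field N] [Algebra k N] [Fintype I]
    {n : I → ℕ} {A : I → Type*} [∀ i, Fintype (A i)] [∀ i, DecidableEq (A i)]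
    {H : ∀ i, A i → Fin (n i + 1) → N} {u : ∀ i, Fin (n i) → N}
    (hl : ∀ i a, lin (H i) (u i) a ≠ 0) {e : ℕ} {ε : ∀ i, A i → ℕ} {T : N}
    (hT : IntegralOverBrackets k H e ε T) {w : Valuation N ℤᵐ⁰}
    (hk : ∀ c : k, w (algebraMap k N c) ≤ 1) (J : ∀ i, Fin (n i + 1) → A i)
    (hJ : ∀ i (R : Fin (n i + 1) → A i), w (gam (H i) (u i) R) ≤ w (gam (H i) (u i) (J i))) :
    w T ≤ w (∏ i, ∏ a, lin (H i) (u i) a ^ ε i a) * (∏ i, w (gam (H i) (u i) (J i))) ^ e := by
  classical
  set Λ := w (∏ i, ∏ a, lin (H i) (u i) a ^ ε i a) * (∏ i, w (gam (H i) (u i) (J i))) ^ e with hΛ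
  obtain ⟨p, c, hp, hc, hTp⟩ := hT
  by_cases hT0 : T = 0
  · rw [hT0, map_zero]
    exact zero_le'
  have hmon : ∀ j, ∀ β ∈ brkMonomials H e ε j, w β ≤ Λ ^ j := by
    rintro j _ ⟨R, hR, rfl⟩
    have h1 : ∀ i, ∏ c, brk (H i) (R i c) =
        (∏ c, gam (H i) (u i) (R i c)) * (∏ a, lin (H i) (u i) a ^ ε i a) ^ j := by
      intro i
      have h2 : ∀ c, brk (H i) (R i c) =
          gam (H i) (u i) (R i c) * ∏ r, lin (H i) (u i) (R i c r) := by
        intro c
        unfold gam
        rw [div_mul_cancel₀]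
        exact Finset.prod_ne_zero_iff.mpr fun r _ => hl i _
      rw [Finset.prod_congr rfl fun c _ => h2 c, Finset.prod_mul_distrib, prod_lin_eq,
        ← Finset.prod_pow]
      congr 1
      refine Finset.prod_congr rfl fun a _ => ?_
      rw [hR, mul_comm, pow_mul]
    have h3 : ∀ i, w (∏ c, brk (H i) (R i c)) ≤
        (w (gam (H i) (u i) (J i)) ^ e * w (∏ a, lin (H i) (u i) a ^ ε i a)) ^ j := by
      intro i
      rw [h1, map_mul, map_pow, mul_pow, ← pow_mul, map_prod]
      refine mul_le_mul' ?_ le_rfl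
      calc ∏ c, w (gam (H i) (u i) (R i c)) ≤ ∏ _c : Fin (e * j), w (gam (H i) (u i) (J i)) :=
            Finset.prod_le_prod' fun c _ => hJ i _
        _ = _ := by rw [Finset.prod_const, Finset.card_univ, Fintype.card_fin]
    rw [map_prod]
    calc ∏ i, w (∏ c, brk (H i) (R i c)) ≤
        ∏ i, (w (gam (H i) (u i) (J i)) ^ e * w (∏ a, lin (H i) (u i) a ^ ε i a)) ^ j :=
          Finset.prod_le_prod' fun i _ => h3 i
      _ = Λ ^ j := by
        rw [Finset.prod_pow, Finset.prod_mul_distrib, Finset.prod_pow, hΛ, mul_comm,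
          map_prod w (fun i => ∏ a, lin (H i) (u i) a ^ ε i a)]
  have hspan : ∀ j, w (c j) ≤ Λ ^ j := by
    intro j
    refine Submodule.span_induction (p := fun x _ => w x ≤ Λ ^ j) ?_ ?_ ?_ ?_ (hc j)
    · intro x hx
      exact hmon j x hx
    · rw [map_zero]
      exact zero_le'
    · intro x y _ _ hx hy
      exact w.map_add_le hx hy
    · intro a x _ hx
      rw [Algebra.smul_def, map_mul]
      calc w (algebraMap k N a) * w x ≤ 1 * w x := mul_le_mul' (hk a) le_rfl
        _ = w x := one_mul _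
        _ ≤ _ := hx
  by_contra hcon
  have hlt : Λ < w T := not_le.1 hcon
  have hT1 : (0 : ℤᵐ⁰) < w T := lt_of_le_of_lt zero_le' hlt
  have hlt2 : w (∑ j ∈ Finset.Icc 1 p, c j * T ^ (p - j)) < w T ^ p := by
    refine w.map_sum_lt (pow_ne_zero _ hT1.ne') ?_
    intro j hj
    rw [Finset.mem_Icc] at hj
    rw [map_mul, map_pow]
    calc w (c j) * w T ^ (p - j) ≤ Λ ^ j * w T ^ (p - j) := mul_le_mul' (hspan j) le_rfl
      _ < w T ^ j * w T ^ (p - j) :=
        mul_lt_mul_of_pos_right (pow_lt_pow_left₀ hlt zero_le' (by omega)) (pow_pos hT1 _)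
      _ = w T ^ p := by rw [← pow_add, Nat.add_sub_cancel' hj.2]
  rw [← hTp, map_pow] at hlt2
  exact lt_irrefl _ hlt2

theorem logAt_of_brackets {k Z L N I : Type*} [Field k] [CharZero k] [Field Z] [Field L] [Field N]
    [Algebra k Z] [Algebra k L] [Algebra k N] [Algebra Z L] [Algebra Z N] [Algebra L N]
    [IsScalarTower k Z L] [IsScalarTower k L N] [IsScalarTower Z L N]
    [Algebra.EssFiniteType k L] [FiniteDimensional L N] [Fintype I] {n : I → ℕ} {A : I → Type*}
    [∀ i, Fintype (A i)] [∀ i, DecidableEq (A i)] {H : ∀ i, A i → Fin (n i + 1) → N}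
    (hH : ∀ i a c, IsAlgebraic Z (H i a c)) {u : ∀ i, Fin (n i) → N}
    (hl : ∀ i a, lin (H i) (u i) a ≠ 0) {e : ℕ} (he : 1 ≤ e) {ε : ∀ i, A i → ℕ} {r : ℕ}
    (eq : Fin r ≃ Σ i, Fin (n i)) {s : Fin r → L} {G T : L}
    (hG : ∀ D : Fin r → Derivation Z N N,
      Matrix.det (Matrix.of fun a b => D a (u (eq b).1 (eq b).2)) ^ e =
        (∏ i, ∏ a, lin (H i) (u i) a ^ ε i a) * algebraMap L N G *
          Matrix.det (Matrix.of fun a b => D a (algebraMap L N (s b))) ^ e)
    (hT : IntegralOverBrackets k H e ε (algebraMap L N T)) {w : Valuation L ℤᵐ⁰}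
    (hw : IsDivisorial k L w) : LogAt Z w s e (T * G) := by
  classical
  have hZ : CharZero Z := charZero_of_injective_algebraMap (algebraMap k Z).injective
  obtain ⟨w', hw', hww, hext⟩ := exists_logDer_ext (k := k) (Z := Z) (N := N) hw
  intro d hd
  choose D hD1 hD2 using fun a => hext (d a) (hd a)
  rw [← hww]
  have hdet : algebraMap L N (Matrix.det (Matrix.of fun a b => d a (s b))) =
      Matrix.det (Matrix.of fun a b => D a (algebraMap L N (s b))) := by
    rw [RingHom.map_det]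
    congr 1
    ext a b
    exact (hD1 a (s b)).symm
  have hmap : algebraMap L N (T * G * Matrix.det (Matrix.of fun a b => d a (s b)) ^ e) =
      algebraMap L N T * (algebraMap L N G *
        Matrix.det (Matrix.of fun a b => D a (algebraMap L N (s b))) ^ e) := by
    rw [map_mul, map_mul, map_pow, hdet, mul_assoc]
  rw [hmap]
  have hGD := hG D
  set Γ := ∏ i, ∏ a, lin (H i) (u i) a ^ ε i a with hΓ
  set X := algebraMap L N G * Matrix.det (Matrix.of fun a b => D a (algebraMap L N (s b))) ^ e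
    with hX
  rw [mul_assoc, ← hX] at hGD
  by_cases hT0 : algebraMap L N T = 0
  · rw [hT0, zero_mul, map_zero]
    exact zero_le'
  have hne : ∀ i, Nonempty (A i) := by
    intro i
    by_contra hemp
    rw [not_nonempty_iff] at hemp
    apply hT0
    obtain ⟨p, c, hp, hc, hTp⟩ := hT
    have h1 : ∀ j, 1 ≤ j → c j = 0 := by
      intro j hj
      have h2 : brkMonomials H e ε j = ∅ := by
        rw [Set.eq_empty_iff_forall_notMem]
        rintro β ⟨R, -, -⟩
        have h3 : 0 < e * j := Nat.mul_pos he hj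
        exact hemp.false (R i ⟨0, h3⟩ 0)
      have h4 := hc j
      rw [h2, Submodule.span_empty, Submodule.mem_bot] at h4
      exact h4
    have h5 : algebraMap L N T ^ p = 0 := by
      rw [hTp]
      refine Finset.sum_eq_zero fun j hj => ?_
      rw [h1 j (Finset.mem_Icc.1 hj).1, zero_mul]
    exact pow_eq_zero_iff (by omega : p ≠ 0) |>.1 h5
  have hJ : ∀ i, ∃ J : Fin (n i + 1) → A i, ∀ R : Fin (n i + 1) → A i,
      w' (gam (H i) (u i) R) ≤ w' (gam (H i) (u i) J) := by
    intro i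
    have := hne i
    exact Finite.exists_max fun R : Fin (n i + 1) → A i => w' (gam (H i) (u i) R)
  choose J hJ using hJ
  have hk : ∀ c : k, w' (algebraMap k N c) ≤ 1 := by
    intro c
    by_cases h0 : c = 0
    · rw [h0, map_zero, map_zero]
      exact zero_le'
    · exact (hw'.const c h0).le
  have hval := val_le_of_integral hl hT hk J hJ
  have hest := brk_estimate hH u hl (w := w') (fun q => D (eq.symm q)) (fun a z => hD2 _ z) J
  have hre : Matrix.det (Matrix.of fun a b => D a (u (eq b).1 (eq b).2)) =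
      Matrix.det (Matrix.of fun a b : (Σ i, Fin (n i)) => D (eq.symm a) (u b.1 b.2)) := by
    rw [← Matrix.det_submatrix_equiv_self eq]
    congr 1
    ext a b
    simp only [Matrix.submatrix_apply, Matrix.of_apply, Equiv.symm_apply_apply]
  rw [hre] at hGD
  set Δ := Matrix.det (Matrix.of fun a b : (Σ i, Fin (n i)) => D (eq.symm a) (u b.1 b.2)) with hΔ
  set g := ∏ i, w' (gam (H i) (u i) (J i)) with hg
  rw [map_mul]
  calc w' (algebraMap L N T) * w' X ≤ (w' Γ * g ^ e) * w' X := mul_le_mul' hval le_rfl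
    _ = (w' Γ * w' X) * g ^ e := mul_right_comm _ _ _
    _ = (w' Δ * g) ^ e := by rw [← map_mul, ← hGD, map_pow, mul_pow]
    _ ≤ 1 := pow_le_one' hest e

end Pf72953.Can
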