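import Mathlib
import Pool.Agent.Lib.Pf72953f.RelW
import Pool.Agent.Lib.Pf72953c.Defs

/-!
The coefficients of the relative pluricanonical forms are constant along the generic fibre, if the generic fibre has Kodaira dimension `≤ 0`.

PROOF (`RegOn` in place of `RegularOver` in `constC`).  `wreg_over`: `Q ∈ WReg B (y, s) m → Q ∈ WReg Z s m`: this is `Fib.WReg_rel` (Pf72953f/RelW.lean) with `k := B`, `B := Z`, `x := y` (in `Z`), `σ := s`;
rewrite `algebraMap Z L (algebraMap Y Z (y i)) = algebraMap Y L (y i)` first.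
`wreg_G`: `G ∈ WReg Z s e`: let `w` be divisorial on `L/Z`, `c` a regular basis over `Z`.  `w` is divisorial on `L/k` (`Up.IsDivisorial.under`, Pf72953u/Inst.lean, with `κ := Z`), trivial on `B` (`B ⊆ Z`), and
`Br.PrimeAt M B Z i w` for every chart `i` (`w` is trivial on `Z ⊇ Y`; choose some `i`: `M.cover` for the trivial valuation `1` of `Y`).  As in the proof of `Fib.WReg_rel` (copy): `(c₁, t)` adapted over `Z` with a
uniformizer `t` (`IsDivisorial.exists_adapted`), `c₂ = Sum.elim (x_i) c₁` is adapted over `B` (`Fib.Adapted_rel`, with `k := B`, `B := Z`, `x := M.x i` in `Z`, a transcendence basis by `hyZ`), so a regular basis `hregB` over `B`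
(`Adapted.regBasis`).  `d := fun a => pd hregB.tb a` is regular (`hregB.der`), and `vol i s d = jac hregB.tb (x_i, s) = jac hc₁.tb s` (`jac_eq_det`, `Fib.jac_rel`, `jac_self`).  So `hreg i w .. d ..` gives
`w (gen_A) * w G * w (jac hc₁.tb s) ^ e ≤ 1`, `w (gen_A) = 1`, and `jac hc.tb s = jac hc.tb c₁ * jac hc₁.tb s` (`jac_chain`) with the first factor of value `≤ 1` (`RegBasis.jac_le`).
`constC`: `Q ^ e ∈ WReg Z s (m * e)`, `G ^ m ∈ WReg Z s (e * m)` (`WReg.pow`, Pf72953/Core.lean).  If `R = Q ^ e / G ^ m` were transcendental over `Z`, `KodairaGE.of_coord` (Pf72953/Core.lean, with `k := Z`, `c = 1`, `f₀ = G ^ m`,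
`f = fun _ => R`; `s` reindexed by `Fin (dimension Z L) ≃ Fin r`, `card_eq_of_isTranscendenceBasis`, `WReg.reindex`) would give `KodairaGE Z L 1`, so `1 ≤ kodairaDim Z L ≤ 0`
(`le_iSup₂`), a contradiction.
-/

set_option autoImplicit false
set_option linter.style.haveILetI false

open scoped WithZero
open Pf72953 Pf72953.Mov Pf72953.Up

namespace Pf72953.Can

variable {k B Y Z L : Type*} [Field k] [CharZero k] [Field B] [CharZero B] [Field Y] [Field Z]
  [CharZero Z] [Field L]
  [Algebra k B] [Algebra k Y] [Algebra k Z] [Algebra k L] [Algebra B Z] [Algebra B L]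
  [Algebra Y Z] [Algebra Y L] [Algebra Z L]
  [IsScalarTower k B L] [IsScalarTower k Y L] [IsScalarTower k Z L] [IsScalarTower k B Z]
  [IsScalarTower k Y Z] [IsScalarTower B Z L] [IsScalarTower Y Z L]
  [Algebra.EssFiniteType k L] {M : SmoothModel k Y} {A : LineBundle M}

theorem wreg_over {r : ℕ} {s : Fin r → L} (hs : IsTranscendenceBasis Z s)
    {y : Fin (dimension k Y) → Y} (hyZ : IsTranscendenceBasis B (fun i => algebraMap Y Z (y i)))
    {m : ℕ} {Q : L} (hQ : Q ∈ WReg B (Sum.elim (fun i => algebraMap Y L (y i)) s) m) :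
    Q ∈ WReg Z s m := by
  haveI : Algebra.EssFiniteType B L := Algebra.EssFiniteType.of_comp k B L
  refine Fib.WReg_rel (k := B) (B := Z) (x := fun i => algebraMap Y Z (y i)) hyZ hs ?_
  have h1 : (fun i => algebraMap Z L (algebraMap Y Z (y i))) = fun i => algebraMap Y L (y i) := by
    funext i
    rw [← IsScalarTower.algebraMap_apply]
  rw [h1]
  exact hQ

theorem wreg_G {r : ℕ} {s : Fin r → L} (hs : IsTranscendenceBasis Z s)
    (hyZ : ∀ y : Fin (dimension k Y) → Y, IsTranscendenceBasis k y →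
      IsTranscendenceBasis B (fun i => algebraMap Y Z (y i))) {e : ℕ} {G : L}
    (hreg : RegularOver k B Z A s e G) : G ∈ WReg Z s e := by
  intro w hw c hc
  haveI : Algebra.EssFiniteType B L := Algebra.EssFiniteType.of_comp k B L
  haveI : Algebra.EssFiniteType Z L := Algebra.EssFiniteType.of_comp k Z L
  have hwk : IsDivisorial k L w := IsDivisorial.under hw
  have hZ : ∀ z : Z, w (algebraMap Z L z) ≤ 1 := by
    intro z
    rcases eq_or_ne z 0 with rfl | hz
    · simp
    · exact (hw.const z hz).le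
  have htriv : ∀ b : B, b ≠ 0 → w (algebraMap B L b) = 1 := by
    intro b hb
    rw [IsScalarTower.algebraMap_apply B Z L]
    exact hw.const _ (by simpa using hb)
  obtain ⟨i, hi⟩ := M.cover (w.comap (algebraMap Y L)) (fun a ha => by
    rw [Valuation.comap_apply, ← IsScalarTower.algebraMap_apply k Y L]
    exact hwk.const a ha)
  have hprime : Br.PrimeAt M B Z i w := by
    refine ⟨fun f hf => ?_, fun d _ z _ => hZ _⟩
    exact hi f hf
  obtain ⟨c₁, t, ht, hc₁⟩ := hw.exists_adapted (ι := Fin r) (card_eq_of_isTranscendenceBasis hs)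
  have hreg₁ := hc₁.regBasis (card_eq_of_isTranscendenceBasis hs) ht
  have hx := hyZ (M.x i) (M.tb i)
  have hcB := Fib.Adapted_rel (k := B) hx.1 hc₁
  have hregB := hcB.regBasis (card_eq_of_isTranscendenceBasis (Fib.tb_rel hx hs)) ht
  have h1 := hreg i w hwk htriv hprime (fun a => pd hregB.tb a) (fun a z hz => hregB.der a z hz)
  have h2 : vol i s (fun a => pd hregB.tb a) = jac hreg₁.tb s := by
    have h3 : vol i s (fun a => pd hregB.tb a) = jac hregB.tb
        (Sum.elim (fun a => algebraMap Z L (algebraMap Y Z (M.x i a))) s) := by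
      rw [jac_eq_det, vol]
      congr 1
      ext a b
      simp only [Matrix.of_apply]
      rcases b with b | b
      · simp only [Sum.elim_inl]
        rw [← IsScalarTower.algebraMap_apply]
      · rfl
    rw [h3, Fib.jac_rel hx hreg₁.tb hregB.tb _ s, jac_self, map_one, one_mul]
  have h5 : w (algebraMap Y L (A.gen i)) = 1 := by
    rw [IsScalarTower.algebraMap_apply Y Z L]
    exact hw.const _ (by simpa using A.ne i)
  rw [h2, map_mul, map_mul, h5, one_mul, map_pow] at h1
  rw [jac_chain hreg₁.tb hc.tb s, map_mul, mul_pow, ← mul_assoc, mul_comm (w G), mul_assoc]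
  refine mul_le_one' (pow_le_one' ?_ e) h1
  exact hc.jac_le c₁ hc₁.le_one

/-- the form `G (ds₁ ∧ ⋯ ∧ ds_r)^e` of `L/Z` is a regular `e`-canonical form on the generic fibre -/
def RegOn (k Z : Type*) {L : Type*} [Field k] [Field Z] [Field L] [Algebra k L] [Algebra Z L]
    {r : ℕ} (s : Fin r → L) (e : ℕ) (G : L) : Prop :=
  ∀ w : Valuation L ℤᵐ⁰, IsDivisorial k L w →
    (∀ z : Z, z ≠ 0 → w (algebraMap Z L z) = 1) → RegAt Z w s e G

omit [Field B] [CharZero B] [Field Y] [Algebra k B] [Algebra k Y] [Algebra B Z] [Algebra B L]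
  [Algebra Y Z] [Algebra Y L] [IsScalarTower k B L] [IsScalarTower k Y L] [IsScalarTower k B Z]
  [IsScalarTower k Y Z] [IsScalarTower B Z L] [IsScalarTower Y Z L] in
theorem RegOn.wreg {r : ℕ} {s : Fin r → L} {e : ℕ} {G : L} (hX : RegOn k Z s e G) :
    G ∈ WReg Z s e := by
  intro w hw c hc
  have h1 := hX w (IsDivisorial.under hw) hw.const (fun a => pd hc.tb a)
    (fun a z hz => hc.der a z hz)
  rw [map_mul, map_pow, ← jac_eq_det] at h1
  exact h1

theorem constC {r : ℕ} {s : Fin r → L} (hs : IsTranscendenceBasis Z s)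
    (hyZ : ∀ y : Fin (dimension k Y) → Y, IsTranscendenceBasis k y →
      IsTranscendenceBasis B (fun i => algebraMap Y Z (y i))) {e : ℕ} (he : 1 ≤ e) {G : L}
    (hG : G ≠ 0) (hX : RegOn k Z s e G) (hκ : kodairaDim Z L ≤ 0)
    {y : Fin (dimension k Y) → Y} (hy : IsTranscendenceBasis k y) {m : ℕ} (hm : 1 ≤ m) {Q : L}
    (hQ : Q ∈ WReg B (Sum.elim (fun i => algebraMap Y L (y i)) s) m) :
    IsAlgebraic Z (Q ^ e / G ^ m) := by
  classical
  haveI : Algebra.EssFiniteType Z L := Algebra.EssFiniteType.of_comp k Z L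
  by_contra hcon
  have hQZ : Q ^ e ∈ WReg Z s (m * e) := WReg.pow (wreg_over hs (hyZ y hy) hQ) e
  have hGZ : G ^ m ∈ WReg Z s (m * e) := by
    have := WReg.pow hX.wreg m
    rwa [mul_comm e m] at this
  have hcard : Fintype.card (Fin r) = dimension Z L := card_eq_of_isTranscendenceBasis hs
  rw [Fintype.card_fin] at hcard
  let eq : Fin (dimension Z L) ≃ Fin r := finCongr hcard.symm
  have hsb : IsTranscendenceBasis Z (s ∘ eq) := (isTranscendenceBasis_equiv eq).mpr hs
  have hGne : G ^ m ≠ 0 := pow_ne_zero _ hG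
  have hK : KodairaGE Z L 1 := by
    refine KodairaGE.of_coord hsb (m := m * e) (Nat.mul_pos hm he) (f₀ := G ^ m)
      (WReg.reindex hGZ eq) hGne (f := fun _ => Q ^ e / G ^ m) ?_ (fun i => ?_)
    · rw [algebraicIndependent_unique_type_iff]
      exact hcon
    · rw [div_mul_cancel₀ _ hGne]
      exact WReg.reindex hQZ eq
  have h1 : (((1 : ℕ) : ℕ∞) : WithBot ℕ∞) ≤ kodairaDim Z L := le_iSup₂_of_le 1 hK le_rfl
  have h2 := h1.trans hκ
  have h3 : ((1 : ℕ) : ℕ∞) ≤ 0 := by exact_mod_cast h2
  simp at h3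

end Pf72953.Can
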