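import Mathlib
import Pool.Agent.Lib.Pf72953.Core
import Pool.Agent.Lib.Pf72953t.Defs
import Pool.Agent.Lib.Pf72953e.TbE

/-!
MODULE Pf72953c.IndC: algebraic independence.

PROOF.  `Z₁ = algebraicClosure Z L` (an intermediate field of `L/Z`; a `k`-, `B`- and `Y`-algebra through `Z`).  `Z₁/Z` is algebraic, so `dimension k Z₁ = dimension k Z = dB + dY`
(a transcendence basis of `Z/k` stays one).  `ξ` (algebraic over `B`) and `φ` are in `Z₁`.  `(ξ, φ)` is algebraically independent over `k`: extend the images of `ξ` in the algebraic closure `B₁` of `B` in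
`Z₁` and `φ` in `Y` to transcendence bases of `B₁/k` and `Y/k` and use that the family of both is a transcendence basis of `Z₁` (number of elements = dimension): this is
the proof of `Twr.indep3` (Pf72953t/Ind.lean; one can also apply the proof of `sumElim_indep` (Core.lean) with `B₁`, `Y`, `Z₁`; `Z₁` is algebraic over the compositum of `B₁` and `Y` by
`hcomp`).
`ψ` is algebraically independent over `Z`, hence over `Z₁` (`AlgebraicIndependent.extendScalars`, `Z₁/Z` algebraic).  So `(ξ, φ)` in `Z₁` and `ψ` give an algebraically independent family: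
`AlgebraicIndependent.sumElim_comp` (if this is the name; compare the use of `IsTranscendenceBasis.sumElim_comp` in Pf72953m/Over.lean, `jac_lt_one`; the order of the summands may have to be changed by `Equiv.sumComm`).
-/

set_option autoImplicit false
set_option linter.style.haveILetI false

open scoped WithZero
open Pf72953 Pf72953.Mov Pf72953.Twr

namespace Pf72953.Can

namespace IndCAux

theorem two_tb {k B Y N : Type*} [Field k] [Field B] [Field Y] [Field N]
    [Algebra k B] [Algebra k Y] [Algebra k N] [Algebra B N] [Algebra Y N]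
    [IsScalarTower k B N] [IsScalarTower k Y N]
    [FinTrdeg k N] {ιB ιY : Type*} [Fintype ιB] [Fintype ιY]
    (hdim : dimension k B + dimension k Y = dimension k N)
    (halg : ∀ a : N, IsAlgebraic (Algebra.adjoin k (Set.range (algebraMap B N) ∪
      Set.range (algebraMap Y N))) a)
    {x : ιB → B} {y : ιY → Y} (hx : IsTranscendenceBasis k x)
    (hy : IsTranscendenceBasis k y) :
    IsTranscendenceBasis k
      (Sum.elim (fun i => algebraMap B N (x i)) (fun j => algebraMap Y N (y j))) := by
  set s : ιB ⊕ ιY → N := Sum.elim (fun i => algebraMap B N (x i)) (fun j => algebraMap Y N (y j))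
    with hs
  have : Algebra.IsAlgebraic (Algebra.adjoin k (Set.range s)) N := by
    refine ⟨fun a => (halg a).adjoin_of_forall_isAlgebraic ?_⟩
    rintro _ ⟨⟨b, rfl⟩ | ⟨b, rfl⟩, _⟩
    · exact isAlgebraic_transport hx (Set.range s) (fun i => ⟨Sum.inl i, rfl⟩) b
    · exact isAlgebraic_transport hy (Set.range s) (fun i => ⟨Sum.inr i, rfl⟩) b
  refine Algebra.IsAlgebraic.isTranscendenceBasis_of_lift_le_trdeg_of_finite k s ?_
  rw [← trdeg_eq_dimension, Cardinal.mk_fintype, Fintype.card_sum,
    card_eq_of_isTranscendenceBasis hx, card_eq_of_isTranscendenceBasis hy,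
    hdim, Cardinal.lift_natCast, Cardinal.lift_natCast]

theorem indep2 {k B Y N : Type*} [Field k] [Field B] [Field Y] [Field N]
    [Algebra k B] [Algebra k Y] [Algebra k N] [Algebra B N] [Algebra Y N]
    [IsScalarTower k B N] [IsScalarTower k Y N]
    [FinTrdeg k N] [Algebra.EssFiniteType k B] [Algebra.EssFiniteType k Y]
    (hdim : dimension k B + dimension k Y = dimension k N)
    (halg : ∀ a : N, IsAlgebraic (Algebra.adjoin k (Set.range (algebraMap B N) ∪
      Set.range (algebraMap Y N))) a)
    {a b : ℕ} {ξ : Fin a → N} {η : Fin b → Y}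
    (hξ : AlgebraicIndependent k ξ) (hξB : ∀ i, IsAlgebraic B (ξ i))
    (hη : AlgebraicIndependent k η) :
    AlgebraicIndependent k (Sum.elim ξ (fun j => algebraMap Y N (η j))) := by
  classical
  let B₁ : IntermediateField B N := algebraicClosure B N
  have hB₁ : ∀ c : N, IsAlgebraic B c → c ∈ B₁ := fun c hc => mem_algebraicClosure_iff.2 hc
  have : IsScalarTower k B₁ N := IsScalarTower.of_algebraMap_eq fun c => rfl
  let ξ' : Fin a → B₁ := fun i => ⟨ξ i, hB₁ _ (hξB i)⟩
  have hξ' : AlgebraicIndependent k ξ' := by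
    have h1 : (fun i => (IsScalarTower.toAlgHom k B₁ N) (ξ' i)) = ξ := rfl
    rw [← h1] at hξ
    exact (AlgHom.algebraicIndependent_iff (IsScalarTower.toAlgHom k B₁ N)
      (algebraMap B₁ N).injective).mp hξ
  obtain ⟨x₀, hx₀⟩ := exists_tb k B
  have hx₁ : IsTranscendenceBasis k (algebraMap B B₁ ∘ x₀) := hx₀.algebraMap_comp
  have : FinTrdeg k B₁ := FinTrdeg.of_isTranscendenceBasis hx₁
  have hdimB : dimension k B₁ = dimension k B := by
    rw [← card_eq_of_isTranscendenceBasis hx₁, Fintype.card_fin]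
  obtain ⟨S, hS, hS'⟩ := exists_isTranscendenceBasis_superset (R := k) (s := Set.range ξ')
    hξ'.to_subtype_range
  obtain ⟨T, hT, hT'⟩ := exists_isTranscendenceBasis_superset (R := k) (s := Set.range η)
    hη.to_subtype_range
  have := finite_of_isTranscendenceBasis hS'
  have := finite_of_isTranscendenceBasis hT'
  have := Fintype.ofFinite S
  have := Fintype.ofFinite T
  have halg' : ∀ a : N, IsAlgebraic (Algebra.adjoin k (Set.range (algebraMap B₁ N) ∪
      Set.range (algebraMap Y N))) a := by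
    intro c
    refine (halg c).adjoin_of_forall_isAlgebraic ?_
    rintro _ ⟨⟨b, rfl⟩ | ⟨b, rfl⟩, h⟩
    · exact absurd (Or.inl ⟨algebraMap B B₁ b, rfl⟩) h
    · exact absurd (Or.inr ⟨b, rfl⟩) h
  have hZ := two_tb (hdimB ▸ hdim) halg' hS' hT'
  let e : Fin a ⊕ Fin b → S ⊕ T :=
    Sum.map (fun i => ⟨ξ' i, hS ⟨i, rfl⟩⟩) (fun j => ⟨η j, hT ⟨j, rfl⟩⟩)
  have he : Function.Injective e := by
    refine Function.Injective.sumMap ?_ ?_
    · intro i j hij
      exact hξ'.injective (congrArg Subtype.val hij)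
    · intro i j hij
      exact hη.injective (congrArg Subtype.val hij)
  have h2 := hZ.1.comp e he
  have h3 : (Sum.elim (fun i : S => algebraMap B₁ N (i : B₁))
      (fun j : T => algebraMap Y N (j : Y))) ∘ e =
      Sum.elim ξ (fun j => algebraMap Y N (η j)) := by
    funext i
    rcases i with i | i <;> rfl
  rw [← h3]
  exact h2

end IndCAux

open IndCAux

variable {k B Y Z L : Type*} [Field k] [CharZero k] [Field B] [Field Y] [Field Z] [Field L]
  [Algebra k B] [Algebra k Y] [Algebra k Z] [Algebra k L] [Algebra B Z] [Algebra B L]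
  [Algebra Y Z] [Algebra Y L] [Algebra Z L]
  [IsScalarTower k B Z] [IsScalarTower k B L] [IsScalarTower k Y Z] [IsScalarTower k Y L]
  [IsScalarTower k Z L] [IsScalarTower B Z L] [IsScalarTower Y Z L]
  [Algebra.EssFiniteType k B] [Algebra.EssFiniteType k Y] [Algebra.EssFiniteType k L]

theorem indC (hcomp : IsCompositum k B Y Z)
    (hdim : dimension k Z = dimension k B + dimension k Y) {a b c : ℕ} {ξ : Fin a → L}
    (hξ : AlgebraicIndependent k ξ) (hξB : ∀ i, IsAlgebraic B (ξ i)) {φ : Fin b → Y}
    (hφ : AlgebraicIndependent k φ) {ψ : Fin c → L} (hψ : AlgebraicIndependent Z ψ) :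
    AlgebraicIndependent k (Sum.elim (Sum.elim ξ (fun j => algebraMap Y L (φ j))) ψ) := by
  classical
  have : Algebra.EssFiniteType k Z := Ell.essFinite_Z hcomp
  have halgZ : ∀ a : Z, IsAlgebraic (Algebra.adjoin k
      (Set.range (algebraMap B Z) ∪ Set.range (algebraMap Y Z))) a := by
    intro a
    rw [← IntermediateField.isAlgebraic_adjoin_iff]
    exact isAlgebraic_algebraMap (⟨a, hcomp a⟩ : IntermediateField.adjoin k
      (Set.range (algebraMap B Z) ∪ Set.range (algebraMap Y Z)))
  obtain ⟨xB, hxB⟩ := exists_tb k B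
  obtain ⟨xY, hxY⟩ := exists_tb k Y
  have hz := two_tb hdim.symm halgZ hxB hxY
  let Z₁ : IntermediateField Z L := algebraicClosure Z L
  have hZ₁ : ∀ c : L, IsAlgebraic Z c → c ∈ Z₁ := fun c hc => mem_algebraicClosure_iff.2 hc
  have : IsScalarTower k Z₁ L := IsScalarTower.of_algebraMap_eq fun c => rfl
  have hBtow : ∀ c : B, algebraMap B L c = algebraMap Z L (algebraMap B Z c) := fun c =>
    IsScalarTower.algebraMap_apply B Z L c
  have hYtow : ∀ c : Y, algebraMap Y L c = algebraMap Z L (algebraMap Y Z c) := fun c =>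
    IsScalarTower.algebraMap_apply Y Z L c
  have : IsScalarTower B Z₁ L := IsScalarTower.of_algebraMap_eq fun c => rfl
  have : IsScalarTower Y Z₁ L := IsScalarTower.of_algebraMap_eq fun c => rfl
  have : IsScalarTower k B Z₁ := IsScalarTower.of_algebraMap_eq fun c => by
    apply (algebraMap Z₁ L).injective
    rw [← IsScalarTower.algebraMap_apply k Z₁ L, ← IsScalarTower.algebraMap_apply B Z₁ L,
      ← IsScalarTower.algebraMap_apply k B L]
  have : IsScalarTower k Y Z₁ := IsScalarTower.of_algebraMap_eq fun c => by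
    apply (algebraMap Z₁ L).injective
    rw [← IsScalarTower.algebraMap_apply k Z₁ L, ← IsScalarTower.algebraMap_apply Y Z₁ L,
      ← IsScalarTower.algebraMap_apply k Y L]
  have hz₁ := hz.algebraMap_comp (A := Z₁)
  have : FinTrdeg k Z₁ := FinTrdeg.of_isTranscendenceBasis hz₁
  have hdim₁ : dimension k B + dimension k Y = dimension k Z₁ := by
    rw [← card_eq_of_isTranscendenceBasis hz₁, Fintype.card_sum, Fintype.card_fin,
      Fintype.card_fin]
  have halg₁ : ∀ a : Z₁, IsAlgebraic (Algebra.adjoin k (Set.range (algebraMap B Z₁) ∪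
      Set.range (algebraMap Y Z₁))) a := by
    intro c
    refine (hz₁.isAlgebraic.isAlgebraic c).adjoin_of_forall_isAlgebraic ?_
    rintro _ ⟨⟨i | j, rfl⟩, h⟩
    · exact absurd (Or.inl ⟨xB i, Subtype.ext (hBtow (xB i))⟩) h
    · exact absurd (Or.inr ⟨xY j, Subtype.ext (hYtow (xY j))⟩) h
  have hξZ : ∀ i, IsAlgebraic Z (ξ i) := fun i => (hξB i).tower_top Z
  let ξ' : Fin a → Z₁ := fun i => ⟨ξ i, hZ₁ _ (hξZ i)⟩
  have hξ' : AlgebraicIndependent k ξ' := by
    have h1 : (fun i => (IsScalarTower.toAlgHom k Z₁ L) (ξ' i)) = ξ := rfl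
    rw [← h1] at hξ
    exact (AlgHom.algebraicIndependent_iff (IsScalarTower.toAlgHom k Z₁ L)
      (algebraMap Z₁ L).injective).mp hξ
  have hξB' : ∀ i, IsAlgebraic B (ξ' i) := by
    intro i
    rw [← isAlgebraic_algebraMap_iff (algebraMap Z₁ L).injective]
    exact hξB i
  have h2 := indep2 hdim₁ halg₁ hξ' hξB' hφ
  have hψ₁ : AlgebraicIndependent Z₁ ψ := hψ.extendScalars Z₁
  have h3 := h2.sumElim_comp hψ₁
  let e : (Fin a ⊕ Fin b) ⊕ Fin c ≃ Fin c ⊕ (Fin a ⊕ Fin b) := Equiv.sumComm _ _
  have h4 := h3.comp e e.injective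
  have h5 : (Sum.elim ψ (algebraMap Z₁ L ∘ Sum.elim ξ' fun j => algebraMap Y Z₁ (φ j))) ∘ e =
      Sum.elim (Sum.elim ξ (fun j => algebraMap Y L (φ j))) ψ := by
    funext i
    rcases i with (i | i) | i
    · rfl
    · exact (IsScalarTower.algebraMap_apply Y Z₁ L (φ i)).symm
    · rfl
  rw [← h5]
  exact h4

end Pf72953.Can
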