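import Mathlib
import Pool.Agent.Lib.Pf72953m.Fin
import Pool.Agent.Lib.Pf72953e.KeyE

/-!
MODULE Pf72953c.KeyC: the estimate for the part of the form coming from `M` and from the sections `T_j = ∑ a_{jl} s_{jl}` of `A`.

PROOF.  `NumT.mul`, `NumT.pow`, `NumT.coeff`: direct (compare `NumA.mul`, `NumA.pow`, `mem_NumA_twelve` in Pf72953e/KeyE.lean).
`NumT.val_le_one`: `X = 1` (all `w (a_{jl}) ≤ 1`).
`key`: `μ = relvol M i cB hc ≤ 1` (`relvol_le_one`), `gn = w (A.gen i)`.  For all `j`, `l`: `hC j` is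
`μ ^ C * (w (a_{jl}) * gn ^ 1) ≤ w (T j).sec`, so `(σ * gn * μ ^ C) * w (a_{jl}) ≤ σ * w (T j).sec ≤ 1`; so `(σ * gn * μ ^ C) ^ q * w ν ≤ 1` by `hν`.
`hg i` gives `w g * w (jac) ^ m ≤ gn ^ q` (the product over `Unit`; `w f ≤ 1`).  `(σ * w (T j₀).sec) ^ r ≤ 1`.
`w g * w (ν * sec ^ r) * σ ^ (q + r) * (μ * w jac) ^ m = (w g * w jac ^ m) * w ν * (σ * w sec) ^ r * σ ^ q * μ ^ m
≤ gn ^ q * w ν * σ ^ q * μ ^ m = ((σ * gn * μ ^ C) ^ q * w ν) * μ ^ (m - C * q) ≤ μ ^ (m - C * q)`.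
`key2`: `w (T j).sec ≤ gn` (`sec_le` of KeyE with `wt = 1`), `w ν ≤ 1`; `w g * w jac ^ m ≤ gn ^ q`; so
`w g * w (ν * sec ^ r) * λ ^ (q + r) * (w jac) ^ m ≤ gn ^ q * gn ^ r * λ ^ (q + r) = (gn * λ) ^ (q + r)`.
-/

set_option autoImplicit false
set_option linter.style.haveILetI false

open scoped WithZero
open Pf72953 Pf72953.Var Pf72953.Mov Pf72953.Ell

namespace Pf72953.Can

variable {k B Y P J : Type*} [Field k] [CharZero k] [Field B] [Field Y] [Field P] [Algebra k B]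
  [Algebra k Y] [Algebra k P] [Algebra B P] [Algebra Y P] [IsScalarTower k B P]
  [IsScalarTower k Y P] {M : SmoothModel k Y} {A : LineBundle M}

/-- forms of degree `q` in the coefficients of the sections `T_j` -/
def NumT (T : J → MovingSection M A 1 B P) (q : ℕ) : Set P :=
  {ν | ∀ (w : Valuation P ℤᵐ⁰) (X : ℤᵐ⁰), (∀ j l, X * w ((T j).a l) ≤ 1) → X ^ q * w ν ≤ 1}

omit [CharZero k] [Algebra k B] [Algebra k P] [IsScalarTower k B P] [IsScalarTower k Y P] in
theorem NumT.mul {T : J → MovingSection M A 1 B P} {p q : ℕ} {μ ν : P} (hμ : μ ∈ NumT T p)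
    (hν : ν ∈ NumT T q) : μ * ν ∈ NumT T (p + q) := by
  intro w X h
  have h1 := hμ w X h
  have h2 := hν w X h
  calc X ^ (p + q) * w (μ * ν) = (X ^ p * w μ) * (X ^ q * w ν) := by
        rw [map_mul, pow_add]
        simp only [mul_comm, mul_left_comm, mul_assoc]
    _ ≤ 1 * 1 := mul_le_mul' h1 h2
    _ = 1 := one_mul _

omit [CharZero k] [Algebra k B] [Algebra k P] [IsScalarTower k B P] [IsScalarTower k Y P] in
theorem NumT.pow {T : J → MovingSection M A 1 B P} {p : ℕ} {μ : P} (hμ : μ ∈ NumT T p) (n : ℕ) :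
    μ ^ n ∈ NumT T (p * n) := by
  intro w X h
  have h1 := hμ w X h
  rw [map_pow, pow_mul, ← mul_pow]
  exact pow_le_one' h1 n

omit [CharZero k] [Algebra k B] [Algebra k P] [IsScalarTower k B P] [IsScalarTower k Y P] in
theorem NumT.coeff (T : J → MovingSection M A 1 B P) (j : J) (l : Fin (T j).r) :
    (T j).a l ∈ NumT T 1 := by
  intro w X h
  rw [pow_one]
  exact h j l

theorem key {T : J → MovingSection M A 1 B P} {C : ℕ} (hC : ∀ j, SecCost k (T j) C) {m q r : ℕ}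
    (hq : C * q ≤ m) {y : Fin (dimension k Y) → Y} {g : Y}
    (hg : g ∈ CoefSec M (fun _ : Unit => A) y m (fun _ => q)) {ν : P} (hν : ν ∈ NumT T q)
    {i : M.I} {cB : Fin (dimension k B) → B} (hcB : IsTranscendenceBasis k cB)
    (hz : IsTranscendenceBasis k (zfam (L := P) M i cB)) {w : Valuation P ℤᵐ⁰}
    (hA : ∀ f ∈ M.A i, w (algebraMap Y P f) ≤ 1)
    {c : Fin (dimension k B) ⊕ Fin (dimension k Y) → P} (hc : LogBasis k w c) {σ : ℤᵐ⁰}
    (hσ : ∀ j, σ * w (T j).sec ≤ 1) (j₀ : J) :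
    w (algebraMap Y P g) * w (ν * (T j₀).sec ^ r) * σ ^ (q + r) *
        (relvol M i cB hc * w (algebraMap Y P (jac (M.tb i) y))) ^ m ≤
      relvol M i cB hc ^ (m - C * q) := by
  classical
  set μ := relvol M i cB hc with hμ
  have hμ1 : μ ≤ 1 := relvol_le_one hcB hA hc
  set gn := w (algebraMap Y P (A.gen i)) with hgn
  have hT : ∀ j l, (σ * gn * μ ^ C) * w ((T j).a l) ≤ 1 := by
    intro j l
    have h1 := hC j i cB hcB hz w hA c hc l
    rw [pow_one] at h1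
    calc (σ * gn * μ ^ C) * w ((T j).a l) = σ * (μ ^ C * (w ((T j).a l) * gn)) := by
          simp only [mul_comm, mul_left_comm, mul_assoc]
      _ ≤ σ * w (T j).sec := by gcongr
      _ ≤ 1 := hσ j
  have hνb : (σ * gn * μ ^ C) ^ q * w ν ≤ 1 := hν w _ hT
  obtain ⟨f, hf, hgf⟩ := hg i
  have hgf' : w (algebraMap Y P g) * w (algebraMap Y P (jac (M.tb i) y)) ^ m ≤ gn ^ q := by
    rw [← map_pow, ← map_pow, ← map_mul, ← map_mul, hgf, map_mul, map_mul, Fintype.prod_unique,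
      map_pow, map_pow]
    exact mul_le_of_le_one_left' (hA f hf)
  have hμm : μ ^ m = μ ^ (m - C * q) * (μ ^ C) ^ q := by
    rw [← pow_mul, ← pow_add]
    congr 1
    omega
  set R := μ ^ (m - C * q) with hR
  calc _ = (w (algebraMap Y P g) * w (algebraMap Y P (jac (M.tb i) y)) ^ m) * w ν *
        w (T j₀).sec ^ r * (σ ^ q * σ ^ r) * μ ^ m := by
        simp only [map_mul, map_pow, mul_pow, pow_add]
        simp only [mul_comm, mul_left_comm, mul_assoc]
    _ ≤ gn ^ q * w ν * w (T j₀).sec ^ r * (σ ^ q * σ ^ r) * μ ^ m := by gcongr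
    _ = ((σ * gn * μ ^ C) ^ q * w ν) * (σ * w (T j₀).sec) ^ r * R := by
        rw [hμm, mul_pow, mul_pow, mul_pow]
        simp only [mul_comm, mul_left_comm, mul_assoc]
    _ ≤ 1 * 1 * R := by
        gcongr
        exact pow_le_one' (hσ j₀) _
    _ = R := by simp only [one_mul]

omit [Algebra k B] [Algebra k P] [IsScalarTower k B P] [IsScalarTower k Y P] in
theorem key2 {T : J → MovingSection M A 1 B P} {m q r : ℕ} {y : Fin (dimension k Y) → Y} {g : Y}
    (hg : g ∈ CoefSec M (fun _ : Unit => A) y m (fun _ => q)) {ν : P} (hν : ν ∈ NumT T q)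
    {i : M.I} {w : Valuation P ℤᵐ⁰} (hA : ∀ f ∈ M.A i, w (algebraMap Y P f) ≤ 1)
    (ha : ∀ j l, w ((T j).a l) ≤ 1) (j₀ : J) (α : ℤᵐ⁰) :
    w (algebraMap Y P g) * w (ν * (T j₀).sec ^ r) * α ^ (q + r) *
        w (algebraMap Y P (jac (M.tb i) y)) ^ m ≤
      (w (algebraMap Y P (A.gen i)) * α) ^ (q + r) := by
  classical
  set gn := w (algebraMap Y P (A.gen i)) with hgn
  have hνb : w ν ≤ 1 := by
    have h1 := hν w 1 (fun j l => by rw [one_mul]; exact ha j l)
    rwa [one_pow, one_mul] at h1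
  have hs : w (T j₀).sec ≤ gn := by
    have h1 := sec_le (T j₀) hA (ha j₀)
    rwa [pow_one] at h1
  obtain ⟨f, hf, hgf⟩ := hg i
  have hgf' : w (algebraMap Y P g) * w (algebraMap Y P (jac (M.tb i) y)) ^ m ≤ gn ^ q := by
    rw [← map_pow, ← map_pow, ← map_mul, ← map_mul, hgf, map_mul, map_mul, Fintype.prod_unique,
      map_pow, map_pow]
    exact mul_le_of_le_one_left' (hA f hf)
  calc _ = (w (algebraMap Y P g) * w (algebraMap Y P (jac (M.tb i) y)) ^ m) * w ν *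
        w (T j₀).sec ^ r * α ^ (q + r) := by
        simp only [map_mul, map_pow]
        simp only [mul_comm, mul_left_comm, mul_assoc]
    _ ≤ gn ^ q * 1 * gn ^ r * α ^ (q + r) := by gcongr
    _ = _ := by rw [mul_one, mul_pow, ← pow_add]

end Pf72953.Can
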