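import Mathlib
import Pool.Agent.Lib.Pf72953.Bases
import Pool.Agent.Lib.Pf72953.Orb
import Pool.Agent.Lib.Pf72953m.Over

/-!
MODULE Pf72953c.RelS: the relative logarithmic norm of `ds₁ ∧ ⋯ ∧ ds_r` for `L ⊇ P`.

PROOF (compare Pf72953e/RelU.lean, the case `κ = Unit`).
`jac_elim`: the matrix `pd hz p ((a, s) q)` is block triangular: `pd hz (inl i) (algebraMap (a j)) = algebraMap (pd hcP i (a j))`
(`pd_algebraMap hcP hz Sum.inl ..`), `pd hz (inr _) (algebraMap (a j)) = 0` (`pd_algebraMap_of_notMem`), `pd hz p (s b) = 1` or `0`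
(`pd_self`); `Matrix.det_fromBlocks_zero₂₁` (see `relU_chain`, which is the case of one element; here the last block is the identity matrix
of `κ`).
`relS_ne_zero`, `relS_chain`: as `relU_ne_zero`, `relU_chain` (`jac_chain hz hc.tb` and `jac_elim`).
`relS_eq`: `LogBasis.vol_eq hc hc'` for the family `(cP, s)`; `(cP, s) ` and `(cP', s)` are related by `relS_chain` with `a = cP'` and
`LogBasis.vol_eq hcP' hcP cP'`: `w (jac hcP.tb cP') * ∏ w (cP) = ∏ w (cP')` (`jac_self`); use `relS_chain` with `a = cP'`:
`relS cP' hc s * ∏ w cP' = w (jac hc (cP', s)) * ∏ w c = relS cP hc s * (w (jac hcP.tb cP') * ∏ w cP) = relS cP hc s * ∏ w cP'`.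
`exists_logBasis_ext`: `w` restricted to `P` is divisorial (`IsDivisorial.restrict`) or trivial.
 Divisorial: `exists_adapted` gives `cP = (t, x)` adapted, `t` a uniformizer, `x` residually independent for `w|P`; `x` in `L` is residually independent for `w`
 (`ResIndep`, as in `Adapted.map`); `IsDivisorial.exists_extend` (Orb.lean) extends it by `κ`-many (`Fintype.card κ = dimension k L - dimension k P`) elements
 `y`; the family `(cP, y)` is adapted to `w` with `t` (unfold `Adapted`: choose the equivalences of index types), so it is a log basis (`Adapted.logBasis`).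
 Trivial (`∀ p ≠ 0, w p = 1`): `cP` any transcendence basis of `P/k` (`LogBasis.of_trivial`); its image is residually independent for `w` (values of nonzero elements are
 `1`, and `aeval` of a nonzero polynomial is nonzero by algebraic independence); as `w` is nontrivial on `L`, `κ` is nonempty (otherwise `L/P` is algebraic and `w` is trivial, `val_eq_one_of_isIntegral`):
 extend by `card κ - 1` elements `y` and add a uniformizer `t` of `w` (`exists_unif`).
`relS_der`: by `relS_eq` and `exists_logBasis_ext` we may compute with `c' = (cP', y)`: `relS cP hc s = relS cP' hc' s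
= w (jac hc'.tb (cP', s)) * ∏ w (y)`, and `jac hc'.tb (cP', s) = det (pd hc'.tb (inr a) (s b))` (block triangular, as in `jac_elim`, now with the identity in the upper left block).
`d a = y a • derOver (pd hc'.tb (inr a)) _` (`derOver`, Pf72953m/Over.lean, with `B := P`; it kills `P` by `pd_algebraMap_of_notMem`): logarithmic by `hc'.der`,
`det (d_a s_b) = (∏ y_a) * det (pd (inr a) (s b))` (`Matrix.det_mul_row` or `Matrix.det_mul_column`).
-/

set_option autoImplicit false
set_option linter.style.haveILetI false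

open scoped WithZero
open Pf72953 Pf72953.Mov

namespace Pf72953.Can

variable {k P L ι κ : Type*} [Field k] [CharZero k] [Field P] [Field L] [Algebra k P] [Algebra k L]
  [Algebra P L] [IsScalarTower k P L] [Fintype ι] [DecidableEq ι] [Fintype κ] [DecidableEq κ]

/-- the relative logarithmic norm of `ds₁ ∧ ⋯ ∧ ds_r` -/
noncomputable def relS {w : Valuation L ℤᵐ⁰} (cP : ι → P) {c : ι ⊕ κ → L}
    (hc : LogBasis k w c) (s : κ → L) : ℤᵐ⁰ :=
  w (jac hc.tb (Sum.elim (fun i => algebraMap P L (cP i)) s)) * (∏ j, w (c j)) *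
    (∏ j, w (algebraMap P L (cP j)))⁻¹

namespace RelSAux

omit [CharZero k] [Algebra k L] [IsScalarTower k P L] [DecidableEq ι] in
theorem prod_ne_zero {cP : ι → P} (hcP : IsTranscendenceBasis k cP) (w : Valuation L ℤᵐ⁰) :
    ∏ j, w (algebraMap P L (cP j)) ≠ 0 := by
  refine Finset.prod_ne_zero_iff.mpr fun j _ => ?_
  rw [Valuation.ne_zero_iff]
  simpa using hcP.1.ne_zero j

theorem comp {K σ τ : Type*} [Field K] [Algebra k K] {w : Valuation K ℤᵐ⁰} {x : σ → K}
    (hx : ResIndep k w x) (e : τ → σ) (he : Function.Injective e) : ResIndep k w (x ∘ e) := by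
  intro p hp
  have h1 := hx (MvPolynomial.rename e p) (by
    intro h0
    exact hp ((MvPolynomial.rename_injective _ he) (by rw [h0, map_zero])))
  rw [MvPolynomial.aeval_rename] at h1
  exact h1

theorem adapted_of {K σ τ : Type*} [Field K] [Algebra k K] [Fintype σ] {w : Valuation K ℤᵐ⁰}
    {x : σ → K} (hx : ResIndep k w x) {t : K} (ht0 : t ≠ 0) (ht : w t < 1) (e : τ ≃ Option σ)
    {c : τ → K} (hc : ∀ i, c i = (e i).elim t x) : Adapted k w c t := by
  refine ⟨Fintype.card σ, e.trans (Equiv.optionCongr (Fintype.equivFin σ)),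
    x ∘ (Fintype.equivFin σ).symm, comp hx _ (Equiv.injective _), ht0, ht, ?_⟩
  funext i
  rw [hc i]
  simp only [Function.comp_apply, Equiv.trans_apply, Equiv.optionCongr_apply]
  rcases e i with _ | o
  · rfl
  · simp

/-- `Option σ ⊕ τ ≃ Option (σ ⊕ τ)` -/
def eqvL (σ τ : Type*) : Option σ ⊕ τ ≃ Option (σ ⊕ τ) where
  toFun
    | Sum.inl none => none
    | Sum.inl (some i) => some (Sum.inl i)
    | Sum.inr j => some (Sum.inr j)
  invFun
    | none => Sum.inl none
    | some (Sum.inl i) => Sum.inl (some i)
    | some (Sum.inr j) => Sum.inr j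
  left_inv := by rintro ((_ | i) | j) <;> rfl
  right_inv := by rintro (_ | i | j) <;> rfl

/-- `σ ⊕ Option τ ≃ Option (σ ⊕ τ)` -/
def eqvR (σ τ : Type*) : σ ⊕ Option τ ≃ Option (σ ⊕ τ) where
  toFun
    | Sum.inl i => some (Sum.inl i)
    | Sum.inr none => none
    | Sum.inr (some j) => some (Sum.inr j)
  invFun
    | none => Sum.inr none
    | some (Sum.inl i) => Sum.inl i
    | some (Sum.inr j) => Sum.inr (some j)
  left_inv := by rintro (i | _ | j) <;> rfl
  right_inv := by rintro (_ | i | j) <;> rfl

/-- extension of residually independent families, arbitrary index types -/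
theorem exists_ext {K σ τ : Type*} [Field K] [Algebra k K] [Fintype σ] [Fintype τ]
    {w : Valuation K ℤᵐ⁰} (hw : IsDivisorial k K w) {x : σ → K} (hx : ResIndep k w x)
    (hrs : Fintype.card σ + Fintype.card τ = dimension k K - 1) :
    ∃ y : τ → K, ResIndep k w (Sum.elim x y) := by
  obtain ⟨y, hy⟩ := hw.exists_extend
    (comp hx (Fintype.equivFin σ).symm (Fintype.equivFin σ).symm.injective) hrs
  refine ⟨y ∘ Fintype.equivFin τ, ?_⟩
  have h1 := comp hy (Sum.map (Fintype.equivFin σ) (Fintype.equivFin τ))
    (Function.Injective.sumMap (Equiv.injective _) (Equiv.injective _))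
  convert h1 using 1
  funext i
  rcases i with i | i <;> simp

end RelSAux

open RelSAux

theorem jac_elim {cP : ι → P} (hcP : IsTranscendenceBasis k cP) {s : κ → L}
    (hz : IsTranscendenceBasis k (Sum.elim (fun i => algebraMap P L (cP i)) s)) (a : ι → P) :
    jac hz (Sum.elim (fun i => algebraMap P L (a i)) s) = algebraMap P L (jac hcP a) := by
  rw [jac_eq_det, jac_eq_det, RingHom.map_det]
  have h2 : (Matrix.of fun p q => pd hz p
      ((Sum.elim (fun i => algebraMap P L (a i)) s) q)) =
      Matrix.fromBlocks ((algebraMap P L).mapMatrix (Matrix.of fun i j => pd hcP i (a j))) 0 0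
        (1 : Matrix κ κ L) := by
    ext p q
    rcases p with p | p <;> rcases q with q | q
    · simp only [Matrix.of_apply, Sum.elim_inl, Matrix.fromBlocks_apply₁₁,
        RingHom.mapMatrix_apply, Matrix.map_apply]
      exact pd_algebraMap hcP hz Sum.inl Sum.inl_injective (fun _ => rfl) p (a q)
    · simp only [Matrix.of_apply, Sum.elim_inr, Matrix.fromBlocks_apply₁₂, Matrix.zero_apply]
      have h4 := pd_self hz (Sum.inl p) (Sum.inr q)
      rw [if_neg (fun h => by cases h)] at h4
      exact h4
    · simp only [Matrix.of_apply, Sum.elim_inl, Matrix.fromBlocks_apply₂₁, Matrix.zero_apply]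
      exact pd_algebraMap_of_notMem hcP hz Sum.inl (fun _ => rfl) (Sum.inr p)
        (fun _ h => by cases h) (a q)
    · have h4 := pd_self hz (Sum.inr p) (Sum.inr q)
      simp only [Sum.elim_inr, Sum.inr.injEq] at h4
      simp only [Matrix.of_apply, Sum.elim_inr, Matrix.fromBlocks_apply₂₂, h4, Matrix.one_apply]
  rw [h2, Matrix.det_fromBlocks_zero₂₁, Matrix.det_one, mul_one]

theorem relS_ne_zero {w : Valuation L ℤᵐ⁰} {cP : ι → P} (hcP : IsTranscendenceBasis k cP)
    {c : ι ⊕ κ → L} (hc : LogBasis k w c) {s : κ → L}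
    (hz : IsTranscendenceBasis k (Sum.elim (fun i => algebraMap P L (cP i)) s)) :
    relS cP hc s ≠ 0 := by
  rw [relS]
  refine mul_ne_zero (mul_ne_zero ?_ ?_) (inv_ne_zero (prod_ne_zero hcP w))
  · exact (Valuation.ne_zero_iff w).mpr (jac_ne_zero hz hc.tb)
  · refine Finset.prod_ne_zero_iff.mpr fun j _ => ?_
    rw [Valuation.ne_zero_iff]
    exact hc.tb.1.ne_zero j

theorem relS_chain {w : Valuation L ℤᵐ⁰} {cP : ι → P} (hcP : IsTranscendenceBasis k cP)
    {c : ι ⊕ κ → L} (hc : LogBasis k w c) {s : κ → L}
    (hz : IsTranscendenceBasis k (Sum.elim (fun i => algebraMap P L (cP i)) s)) (a : ι → P) :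
    w (jac hc.tb (Sum.elim (fun i => algebraMap P L (a i)) s)) * (∏ j, w (c j)) =
      relS cP hc s * (w (algebraMap P L (jac hcP a)) * ∏ j, w (algebraMap P L (cP j))) := by
  have h3 := prod_ne_zero hcP w
  rw [jac_chain hz hc.tb, jac_elim hcP hz, map_mul, relS]
  generalize (∏ j, w (algebraMap P L (cP j))) = q at h3 ⊢
  generalize w (algebraMap P L (jac hcP a)) = u
  generalize w (jac hc.tb (Sum.elim (fun i => algebraMap P L (cP i)) s)) = r
  generalize (∏ j, w (c j)) = d
  calc r * u * d = r * d * (q⁻¹ * q) * u := by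
        rw [inv_mul_cancel₀ h3, mul_one]
        ac_rfl
    _ = _ := by ac_rfl

theorem relS_eq {w : Valuation L ℤᵐ⁰} {cP cP' : ι → P}
    (hcP : LogBasis k (w.comap (algebraMap P L)) cP)
    (hcP' : LogBasis k (w.comap (algebraMap P L)) cP')
    {c c' : ι ⊕ κ → L} (hc : LogBasis k w c) (hc' : LogBasis k w c') {s : κ → L}
    (hz : IsTranscendenceBasis k (Sum.elim (fun i => algebraMap P L (cP i)) s)) :
    relS cP hc s = relS cP' hc' s := by
  have h1 := relS_chain hcP.tb hc hz cP'
  have h2 := LogBasis.vol_eq hcP hcP' cP'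
  rw [jac_self, map_one, one_mul] at h2
  simp only [Valuation.comap_apply] at h2
  rw [h2, LogBasis.vol_eq hc hc'] at h1
  have h3 := prod_ne_zero hcP'.tb w
  rw [eq_comm]
  unfold relS at h1 ⊢
  rw [h1, mul_assoc, mul_inv_cancel₀ h3, mul_one]

theorem exists_logBasis_ext [Algebra.EssFiniteType k P] [Algebra.EssFiniteType k L]
    (hι : Fintype.card ι = dimension k P) (hκ : Fintype.card ι + Fintype.card κ = dimension k L)
    {w : Valuation L ℤᵐ⁰} (hw : IsDivisorial k L w) :
    ∃ (cP : ι → P) (y : κ → L), LogBasis k (w.comap (algebraMap P L)) cP ∧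
      LogBasis k w (Sum.elim (fun i => algebraMap P L (cP i)) y) := by
  classical
  have hcard : Fintype.card (ι ⊕ κ) = dimension k L := by rw [Fintype.card_sum, hκ]
  by_cases hnt : ∃ a : P, a ≠ 0 ∧ w (algebraMap P L a) ≠ 1
  · have hB : IsDivisorial k P (w.comap (algebraMap P L)) := hw.restrict hnt
    obtain ⟨cP, tP, htP, hcP⟩ := hB.exists_adapted hι
    have hlog := hcP.logBasis hι
    obtain ⟨r, e, ξ, hξ, ht0, ht1, hcPeq⟩ := hcP
    have hr : Fintype.card ι = r + 1 := by
      have := Fintype.card_congr e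
      simpa using this
    have hξL : ResIndep k w (fun i => algebraMap P L (ξ i)) := by
      intro p hp
      have h1 := hξ p hp
      rw [Valuation.comap_apply] at h1
      rw [← h1]
      congr 1
      exact MvPolynomial.aeval_algebraMap_apply _ ξ p
    obtain ⟨y, hy⟩ := exists_ext (τ := κ) hw hξL (by
      rw [Fintype.card_fin]
      omega)
    refine ⟨cP, y, hlog, ?_⟩
    have hadapt : Adapted k w (Sum.elim (fun i => algebraMap P L (cP i)) y)
        (algebraMap P L tP) := by
      refine adapted_of hy (by simpa using ht0) ht1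
        ((Equiv.sumCongr e (Equiv.refl κ)).trans (eqvL (Fin r) κ)) ?_
      rintro (i | j)
      · rw [Sum.elim_inl, hcPeq]
        simp only [Function.comp_apply, Equiv.trans_apply, Equiv.sumCongr_apply, Sum.map_inl]
        rcases e i with _ | o <;> rfl
      · rfl
    exact hadapt.logBasis hcard
  · push Not at hnt
    obtain ⟨x, hx⟩ := exists_tb k P
    have e : ι ≃ Fin (dimension k P) := Fintype.equivFinOfCardEq hι
    have hcP : IsTranscendenceBasis k (x ∘ e) := (isTranscendenceBasis_equiv e).mpr hx
    obtain ⟨t, ht⟩ := exists_unif w hw.nontrivial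
    have hres : ResIndep k w (fun i => algebraMap P L ((x ∘ e) i)) := by
      intro p hp
      have h1 : MvPolynomial.aeval (x ∘ e) p ≠ 0 := by
        intro h0
        exact hp ((injective_iff_map_eq_zero _).mp hcP.1 p h0)
      have h2 : MvPolynomial.aeval (fun i => algebraMap P L ((x ∘ e) i)) p =
          algebraMap P L (MvPolynomial.aeval (x ∘ e) p) :=
        MvPolynomial.aeval_algebraMap_apply _ (x ∘ e) p
      rw [h2]
      exact hnt _ h1
    have hpos : 1 ≤ Fintype.card κ := by
      by_contra hlt
      have h0 : Fintype.card ι = dimension k L := by omega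
      have h1 := hres.algebraicIndependent ht.ne_zero ht.lt_one
      have h2 := h1.lift_cardinalMk_le_trdeg
      rw [← trdeg_eq_dimension, ← h0] at h2
      simp at h2
    obtain ⟨s, hs⟩ : ∃ s, Fintype.card κ = s + 1 := ⟨Fintype.card κ - 1, by omega⟩
    have f : κ ≃ Option (Fin s) := Fintype.equivOfCardEq (by
      rw [Fintype.card_option, Fintype.card_fin, hs])
    obtain ⟨y, hy⟩ := exists_ext (τ := Fin s) hw hres (by
      rw [Fintype.card_fin]
      omega)
    refine ⟨x ∘ e, fun j => (f j).elim t y, LogBasis.of_trivial (fun a ha => hnt a ha) hcP, ?_⟩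
    have hadapt : Adapted k w (Sum.elim (fun i => algebraMap P L ((x ∘ e) i))
        (fun j => (f j).elim t y)) t := by
      refine adapted_of hy ht.ne_zero ht.lt_one
        ((Equiv.sumCongr (Equiv.refl ι) f).trans (eqvR ι (Fin s))) ?_
      rintro (i | j)
      · rfl
      · simp only [Sum.elim_inr, Equiv.trans_apply, Equiv.sumCongr_apply, Sum.map_inr]
        rcases f j with _ | o <;> rfl
    exact hadapt.logBasis hcard

theorem relS_der [Algebra.EssFiniteType k P] [Algebra.EssFiniteType k L]
    {w : Valuation L ℤᵐ⁰} (hw : IsDivisorial k L w) {cP : ι → P}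
    (hcP : LogBasis k (w.comap (algebraMap P L)) cP) {c : ι ⊕ κ → L} (hc : LogBasis k w c)
    {s : κ → L} (hz : IsTranscendenceBasis k (Sum.elim (fun i => algebraMap P L (cP i)) s)) :
    ∃ d : κ → Derivation P L L, (∀ a z, w (d a z) ≤ w z) ∧
      w (Matrix.det (Matrix.of fun a b => d a (s b))) = relS cP hc s := by
  classical
  have h1 := card_eq_of_isTranscendenceBasis hcP.tb
  have h2 := card_eq_of_isTranscendenceBasis hc.tb
  rw [Fintype.card_sum] at h2
  obtain ⟨cP', y, hcP', hc'⟩ := exists_logBasis_ext (κ := κ) (L := L) h1 h2 hw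
  have hkill : ∀ a (β : P), pd hc'.tb (Sum.inr a) (algebraMap P L β) = 0 := fun a β =>
    pd_algebraMap_of_notMem hcP'.tb hc'.tb Sum.inl (fun _ => rfl) (Sum.inr a)
      (fun _ h => by cases h) β
  refine ⟨fun a => y a • derOver (pd hc'.tb (Sum.inr a)) (hkill a), fun a z => ?_, ?_⟩
  · rw [Derivation.smul_apply, derOver_apply, smul_eq_mul]
    exact hc'.der (Sum.inr a) z
  · rw [relS_eq hcP hcP' hc hc' hz, relS]
    have h3 : jac hc'.tb (Sum.elim (fun i => algebraMap P L (cP' i)) s) =
        Matrix.det (Matrix.of fun a b => pd hc'.tb (Sum.inr a) (s b)) := by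
      rw [jac_eq_det]
      have h4 : (Matrix.of fun p q => pd hc'.tb p
          ((Sum.elim (fun i => algebraMap P L (cP' i)) s) q)) =
          Matrix.fromBlocks 1 (Matrix.of fun p b => pd hc'.tb (Sum.inl p) (s b)) 0
            (Matrix.of fun a b => pd hc'.tb (Sum.inr a) (s b)) := by
        ext p q
        rcases p with p | p <;> rcases q with q | q
        · have h5 := pd_self hc'.tb (Sum.inl p) (Sum.inl q)
          simp only [Sum.elim_inl, Sum.inl.injEq] at h5
          simp only [Matrix.of_apply, Sum.elim_inl, Matrix.fromBlocks_apply₁₁, h5,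
            Matrix.one_apply]
        · rfl
        · simp only [Matrix.of_apply, Sum.elim_inl, Matrix.fromBlocks_apply₂₁, hkill,
            Matrix.zero_apply]
        · rfl
      rw [h4, Matrix.det_fromBlocks_zero₂₁, Matrix.det_one, one_mul]
    have h6 : (Matrix.of fun a b => (y a • derOver (pd hc'.tb (Sum.inr a)) (hkill a)) (s b)) =
        Matrix.of fun a b => y a * (Matrix.of fun a b => pd hc'.tb (Sum.inr a) (s b)) a b := by
      ext a b
      simp only [Matrix.of_apply, Derivation.smul_apply, derOver_apply, smul_eq_mul]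
    rw [h6, Matrix.det_mul_column, h3, map_mul, Fintype.prod_sum_type]
    simp only [Sum.elim_inl, Sum.elim_inr]
    have h7 := prod_ne_zero hcP'.tb w
    rw [map_prod]
    generalize (∏ j, w (algebraMap P L (cP' j))) = q at h7 ⊢
    generalize w (Matrix.det (Matrix.of fun a b => pd hc'.tb (Sum.inr a) (s b))) = r
    generalize (∏ j, w (y j)) = d
    calc d * r = r * d * (q * q⁻¹) := by
          rw [mul_inv_cancel₀ h7, mul_one, mul_comm]
      _ = _ := by ac_rfl

end Pf72953.Can
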