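import Mathlib
import Pool.Agent.Lib.Pf72953m.Est
import Pool.Agent.Lib.Pf72953c.RelS

/-!
MODULE Pf72953c.NormEq: the norm relative to `B` is the product of the norm relative to `P` and of the relative volume of `M`.

PROOF.  Let `c' = c ∘ (Equiv.sumAssoc _ _ _)`, a log basis indexed by `(Fin dB ⊕ Fin dY) ⊕ Fin r` (a reindexed log basis: for `RegBasis` this is
`RegBasis.reindex`, Pf72953/Core.lean; the same proof works), `jac_reindex` (DBasis.lean).  By `relS_chain hcP.tb hc₂ hzP a` with
`a = (cB, y)` in `P` (`hzP : IsTranscendenceBasis k (cP, s)`):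
`w (jac hc₂.tb ((cB, y), s)) * ∏ w (c₂) = relS cP hc₂ s * (w (jac hcP.tb (cB, y)) * ∏ w (cP))`.
The left hand side is `w (jac hc.tb (cB, (y, s))) * ∏ w (c)` by `LogBasis.vol_eq` (both log bases, after reindexing) and `jac_reindex`; so it is
`relS cB hc (y, s) * ∏ w (cB)`.
`jac hcP.tb (cB, y) = jac hcP.tb (zfam M i cB) * jac (M.tb i) y` (`jac_chain hz hcP.tb`, `jac_sum hcB (M.tb i) hz cB y`, `jac_self`), and
`relvol M i cB hcP = w (jac hcP.tb (zfam M i cB)) * ∏ w (cP) * (∏ w (cB))⁻¹`, `∏ w (cB) ≠ 0` (`prod_cB_ne_zero`).  (Compare `hvol` in the proof of `mem_good`,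
Pf72953e/Mem.lean.)
-/

set_option autoImplicit false
set_option linter.style.haveILetI false

open scoped WithZero
open Pf72953 Pf72953.Mov

namespace Pf72953.Can

variable {k B Y P L : Type*} [Field k] [CharZero k] [Field B] [Field Y] [Field P] [Field L]
  [Algebra k B] [Algebra k Y] [Algebra k P] [Algebra k L] [Algebra B P] [Algebra B L]
  [Algebra Y P] [Algebra Y L] [Algebra P L]
  [IsScalarTower k B P] [IsScalarTower k B L] [IsScalarTower k Y P] [IsScalarTower k Y L]
  [IsScalarTower k P L] [IsScalarTower B P L] [IsScalarTower Y P L] {M : SmoothModel k Y}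

namespace NormEqAux

theorem reindexLog {K ι κ : Type*} [Field K] [Algebra k K] [Fintype ι] [DecidableEq ι]
    [Fintype κ] {w : Valuation K ℤᵐ⁰} {c : ι → K}
    (hc : LogBasis k w c) (e : κ ≃ ι) : LogBasis k w (c ∘ e) := by
  refine ⟨(isTranscendenceBasis_equiv e).mpr hc.tb, fun i a => ?_⟩
  have := pd_algebraMap (L := K) ((isTranscendenceBasis_equiv e).mpr hc.tb) hc.tb e e.injective
    (fun _ => rfl) i a
  have h2 : pd ((isTranscendenceBasis_equiv e).mpr hc.tb) i a = pd hc.tb (e i) a := by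
    simpa using this.symm
  rw [h2]
  exact hc.der _ a

end NormEqAux

open NormEqAux

theorem norm_eq {r : ℕ} {i : M.I} {cB : Fin (dimension k B) → B} (hcB : IsTranscendenceBasis k cB)
    (hz : IsTranscendenceBasis k (zfam (L := P) M i cB)) {w : Valuation L ℤᵐ⁰}
    {cP : Fin (dimension k B) ⊕ Fin (dimension k Y) → P}
    (hcP : LogBasis k (w.comap (algebraMap P L)) cP)
    {c : Fin (dimension k B) ⊕ (Fin (dimension k Y) ⊕ Fin r) → L} (hc : LogBasis k w c)
    {c₂ : (Fin (dimension k B) ⊕ Fin (dimension k Y)) ⊕ Fin r → L} (hc₂ : LogBasis k w c₂)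
    {s : Fin r → L} (hs : IsTranscendenceBasis k (Sum.elim (fun j => algebraMap P L (cP j)) s))
    (y : Fin (dimension k Y) → Y) :
    relS cB hc (Sum.elim (fun j => algebraMap Y L (y j)) s) =
      relS cP hc₂ s * (relvol M i cB hcP * w (algebraMap Y L (jac (M.tb i) y))) := by
  classical
  let e := Equiv.sumAssoc (Fin (dimension k B)) (Fin (dimension k Y)) (Fin r)
  have hc' : LogBasis k w (c ∘ e) := reindexLog hc e
  set a : Fin (dimension k B) ⊕ Fin (dimension k Y) → P :=
    Sum.elim (fun j => algebraMap B P (cB j)) (fun j => algebraMap Y P (y j)) with ha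
  set F : Fin (dimension k B) ⊕ (Fin (dimension k Y) ⊕ Fin r) → L :=
    Sum.elim (fun j => algebraMap B L (cB j)) (Sum.elim (fun j => algebraMap Y L (y j)) s) with hF
  have hFe : F ∘ e = Sum.elim (fun q => algebraMap P L (a q)) s := by
    funext q
    rcases q with (q | q) | q
    · exact IsScalarTower.algebraMap_apply B P L (cB q)
    · exact IsScalarTower.algebraMap_apply Y P L (y q)
    · rfl
  have h1 : jac hc'.tb (F ∘ e) = jac hc.tb F := jac_reindex e hc.tb hc'.tb F
  have h2 : ∏ j, w ((c ∘ e) j) = ∏ j, w (c j) := Equiv.prod_comp e (fun j => w (c j))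
  have h3 := hc'.vol_eq hc₂ (F ∘ e)
  rw [h1, h2] at h3
  have h4 := relS_chain hcP.tb hc₂ hs a
  rw [← hFe, ← h3] at h4
  have h5 : jac hcP.tb a = jac hcP.tb (zfam M i cB) * algebraMap Y P (jac (M.tb i) y) := by
    rw [jac_chain hz hcP.tb a]
    congr 1
    have h6 := jac_sum hcB (M.tb i) hz cB y
    rw [jac_self, map_one, one_mul] at h6
    exact h6
  have h7 : relS cB hc (Sum.elim (fun j => algebraMap Y L (y j)) s) =
      w (jac hc.tb F) * (∏ j, w (c j)) * (∏ j, w (algebraMap B L (cB j)))⁻¹ := rfl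
  have h8 : relvol M i cB hcP = w (algebraMap P L (jac hcP.tb (zfam M i cB))) *
      (∏ j, w (algebraMap P L (cP j))) * (∏ j, w (algebraMap B L (cB j)))⁻¹ := by
    rw [relvol]
    simp only [Valuation.comap_apply, ← IsScalarTower.algebraMap_apply B P L]
  rw [h7, h4, h8, h5, map_mul, map_mul, ← IsScalarTower.algebraMap_apply Y P L]
  generalize w (algebraMap P L (jac hcP.tb (zfam M i cB))) = u1
  generalize w (algebraMap Y L (jac (M.tb i) y)) = u2
  generalize relS cP hc₂ s = u3
  generalize (∏ j, w (algebraMap P L (cP j))) = u4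
  generalize (∏ j, w (algebraMap B L (cB j)))⁻¹ = u5
  ac_rfl

end Pf72953.Can
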