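import Mathlib
import Pool.Agent.Lib.Pf72953m.Over
import Pool.Agent.Lib.Pf72953.Orb

/-!
MODULE Pf72953c.RegJac: regular vector fields over `B` which compute the relative volume.

PROOF of `exists_regDer`: this is the first part of the proof of `Mov.jac_lt_one` (Pf72953m/Over.lean; copy it): `w` is divisorial over `B` (`IsDivisorial.over`), take
`c'` adapted to `w` over `B` (`exists_adapted`, `Adapted.regBasis`), `d a = pd hreg.tb a`; `h2` there is
`jac hz' (x, ξ) = det (pd hreg.tb a (ξ b))`, and `jac hc.tb (x, ξ) = jac hc.tb (x, c') * jac hz' (x, ξ)` (`jac_chain`) with the first factor of value `≤ 1`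
(`hc.jac_le`).
PROOF of `det_regDer_le` (the converse): with `hreg`, `c'` as above (for the valuation `w` of `L/B`), `det (d_a ξ_b) = det (d_a c'_b) * jac hreg.tb ξ`: the chain rule
`d_a ξ_b = ∑ pd hreg.tb j (ξ b) * d_a (c'_j)` (`der_eq_sum hreg.tb (d a) (ξ b)`), so the matrix is a product (`jac_eq_det`, `Matrix.det_mul`, maybe a transpose), and
`w (det (d_a c'_b)) ≤ 1` since all `w (d_a c'_b) ≤ 1` (see `LocalEAux.det_le_one` in Pf72953e/LocalE.lean).
-/

set_option autoImplicit false
set_option linter.style.haveILetI false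

open scoped WithZero
open Pf72953 Pf72953.Mov

namespace Pf72953.Can

private theorem regJacDetLe {L ι : Type*} [Field L] [Fintype ι] [DecidableEq ι]
    {w : Valuation L ℤᵐ⁰} (A : Matrix ι ι L) (h : ∀ i j, w (A i j) ≤ 1) : w A.det ≤ 1 := by
  rw [Matrix.det_apply]
  refine Valuation.map_sum_le _ fun σ _ => ?_
  rw [Units.smul_def, zsmul_eq_mul, map_mul]
  refine mul_le_one' ?_ ?_
  · rcases Int.units_eq_one_or (Equiv.Perm.sign σ) with h | h <;> simp [h, Valuation.map_neg]
  rw [map_prod]
  exact Finset.prod_le_one' fun i _ => h _ _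

variable {k B L ιB ι : Type*} [Field k] [CharZero k] [Field B] [Field L] [Algebra k B]
  [Algebra k L] [Algebra B L] [IsScalarTower k B L]
  [Fintype ιB] [DecidableEq ιB] [Fintype ι] [DecidableEq ι] [Algebra.EssFiniteType k L]

theorem exists_regDer {x : ιB → B} (hx : IsTranscendenceBasis k x) {ξ : ι → L}
    (hz : IsTranscendenceBasis k (Sum.elim (fun i => algebraMap B L (x i)) ξ))
    {w : Valuation L ℤᵐ⁰} (hw : IsDivisorial k L w)
    (htriv : ∀ b : B, b ≠ 0 → w (algebraMap B L b) = 1)
    {c : ιB ⊕ ι → L} (hc : RegBasis k w c) :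
    ∃ d : ι → Derivation B L L, (∀ a z, w z ≤ 1 → w (d a z) ≤ 1) ∧
      w (jac hc.tb (Sum.elim (fun i => algebraMap B L (x i)) ξ)) ≤
        w (Matrix.det (Matrix.of fun a b => d a (ξ b))) := by
  classical
  haveI : CharZero B := charZero_of_injective_algebraMap (algebraMap k B).injective
  haveI : Algebra.EssFiniteType B L := Algebra.EssFiniteType.of_comp k B L
  have hwB : IsDivisorial B L w := IsDivisorial.over hw htriv
  have hcardB := card_eq_of_isTranscendenceBasis hx
  have hcardL : Fintype.card (ιB ⊕ ι) = dimension k L := card_eq_of_isTranscendenceBasis hz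
  -- the relative dimension
  have hdim : Fintype.card ι = dimension B L := by
    obtain ⟨s, hs⟩ := exists_isTranscendenceBasis B L
    haveI := finite_of_isTranscendenceBasis hs
    haveI := Fintype.ofFinite s
    have h1 := hx.sumElim_comp hs
    have h2 := card_eq_of_isTranscendenceBasis h1
    have h3 := card_eq_of_isTranscendenceBasis hs
    rw [Fintype.card_sum] at h2 hcardL
    omega
  obtain ⟨c', t', ht', hc'⟩ := hwB.exists_adapted hdim
  have hreg := hc'.regBasis hdim ht'
  have hz' : IsTranscendenceBasis k (Sum.elim (fun i => algebraMap B L (x i)) c') := by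
    have h1 := hx.sumElim_comp hreg.tb
    have h2 := (isTranscendenceBasis_equiv (Equiv.sumComm ιB ι)).mpr h1
    convert h2 using 1
    funext i
    rcases i with i | i <;> rfl
  -- the dual derivations over `B`
  have hkill : ∀ a (b : B), pd hz' (Sum.inr a) (algebraMap B L b) = 0 := fun a b =>
    pd_algebraMap_of_notMem hx hz' Sum.inl (fun _ => rfl) (Sum.inr a) (fun _ h => by cases h) b
  have hpd : ∀ a z, pd hz' (Sum.inr a) z = pd hreg.tb a z := by
    intro a z
    have h1 := der_eq_sum hreg.tb (derOver (pd hz' (Sum.inr a)) (hkill a)) z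
    rw [derOver_apply] at h1
    rw [h1, Finset.sum_eq_single a]
    · rw [derOver_apply]
      have h2 := pd_self hz' (Sum.inr a) (Sum.inr a)
      rw [if_pos rfl] at h2
      change pd hreg.tb a z * pd hz' (Sum.inr a)
        (Sum.elim (fun i => algebraMap B L (x i)) c' (Sum.inr a)) = _
      rw [h2, mul_one]
    · intro b _ hb
      rw [derOver_apply]
      have h2 := pd_self hz' (Sum.inr a) (Sum.inr b)
      rw [if_neg (fun h => hb (Sum.inr_injective h).symm)] at h2
      change pd hreg.tb b z * pd hz' (Sum.inr a)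
        (Sum.elim (fun i => algebraMap B L (x i)) c' (Sum.inr b)) = _
      rw [h2, mul_zero]
    · simp
  have h2 : jac hz' (Sum.elim (fun i => algebraMap B L (x i)) ξ) =
      Matrix.det (Matrix.of fun a b => pd hreg.tb a (ξ b)) := by
    rw [jac_eq_det]
    have h3 : (Matrix.of fun p q => pd hz' p
        ((Sum.elim (fun i => algebraMap B L (x i)) ξ) q)) =
        Matrix.fromBlocks 1 (Matrix.of fun p b => pd hz' (Sum.inl p) (ξ b)) 0
          (Matrix.of fun a b => pd hreg.tb a (ξ b)) := by
      ext p q
      rcases p with p | p <;> rcases q with q | q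
      · have h4 := pd_self hz' (Sum.inl p) (Sum.inl q)
        simp only [Sum.elim_inl, Sum.inl.injEq] at h4
        simp only [Matrix.of_apply, Sum.elim_inl, Matrix.fromBlocks_apply₁₁, h4, Matrix.one_apply]
      · rfl
      · simp only [Matrix.of_apply, Sum.elim_inl, Matrix.fromBlocks_apply₂₁, hkill,
          Matrix.zero_apply]
      · simp only [Matrix.of_apply, Sum.elim_inr, Matrix.fromBlocks_apply₂₂, hpd]
    rw [h3, Matrix.det_fromBlocks_zero₂₁, Matrix.det_one, one_mul]
  have hle : w (jac hc.tb (Sum.elim (fun i => algebraMap B L (x i)) c')) ≤ 1 := by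
    refine hc.jac_le _ ?_
    rintro (i | i)
    · rcases eq_or_ne (x i) 0 with h | h
      · simp [h]
      · exact (htriv _ h).le
    · exact hreg.le_one i
  refine ⟨fun a => pd hreg.tb a, fun a z hz => hreg.der a z hz, ?_⟩
  rw [jac_chain hz' hc.tb, map_mul, h2]
  exact mul_le_of_le_one_left' hle

theorem det_regDer_le [CharZero B] {w : Valuation L ℤᵐ⁰} {c : ι → L} (hc : RegBasis B w c)
    (d : ι → Derivation B L L) (hd : ∀ a z, w z ≤ 1 → w (d a z) ≤ 1) (ξ : ι → L) :
    w (Matrix.det (Matrix.of fun a b => d a (ξ b))) ≤ w (jac hc.tb ξ) := by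
  have h1 := det_der_algebraMap (k := B) (B := L) (E := L) hc.tb d ξ
  simp only [Algebra.algebraMap_self_apply] at h1
  have h2 : w (Matrix.det (Matrix.of fun i j => d i (c j))) ≤ 1 :=
    regJacDetLe _ fun a b => hd a _ (hc.le_one b)
  rw [h1, map_mul]
  exact mul_le_of_le_one_right' h2

end Pf72953.Can
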