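import Mathlib
import Pool.Agent.Lib.Pf72953v.Defs
import Pool.Agent.Lib.Pf72953c.RelS

/-!
MODULE Pf72953c.RelGood: relative pluricanonical forms of `L/B` with bounded norms.

`relS cB hc ζ` (RelS.lean with `P := B`) is the logarithmic norm of `dζ` relative to `B`.
PROOF of `RelGood.mul`: direct (`map_mul`, `pow_add`, `mul_mul_mul_comm`, `mul_le_mul'`).  `RelGood.one`: `w 1 * _ ^ 0 = 1`.
PROOF of `mul_mem_GoodL`: let `w`, `hv`, `c`, `t`, `hc`, `ht`, `htb` be as in the definition of `GoodL`; `dimension k L = dimension k E`,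
`w` is divisorial on `L/k` (`IsDivisorial.of_comap`), `hcL = hc.map`, `hlog = hcL.logBasis (card_eq_of_isTranscendenceBasis htb)`, `∏ w (c i) = w t` (`Adapted.prod`).
For every transcendence basis `cB` of `B/k`: `relS_chain (hcP := hcB) hlog hz' x` (`hz' : IsTranscendenceBasis k (cB, ζ)`, hypothesis `hzB`) is
`w (jac hlog.tb (x, ζ)) * w t = relS cB hlog ζ * (w (jac hcB x) * ∏ w (cB j))`.
 CASE `w` nontrivial on `B`: `hh` (for `w.comap (algebraMap E L)`) gives a log basis `cB` of `B` for the restriction of `w` to `B` (the valuations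
 `(w.comap (algebraMap E L)).comap (algebraMap B E)` and `w.comap (algebraMap B L)` are equal) with `w h * (w (jac x) * ∏ w cB) ^ m ≤ w t ^ m`, and `hV .. |>.1`; multiply and
 cancel `w t ^ m`.
 CASE `w` trivial on `B`: `cB = x`, `LogBasis.of_trivial`; `jac_self`, `∏ w (x j) = 1`, `w h ≤ 1`, `hV .. |>.2`; so
 `w (h V) * w (jac ..) ^ m * w t ^ m ≤ w t ^ m`; cancel.
(Compare the `hfin` part of the proof of `mem_good`, Pf72953e/Mem.lean.)
-/

set_option autoImplicit false
set_option linter.style.haveILetI false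
set_option linter.unusedSectionVars false

open scoped WithZero
open Pf72953 Pf72953.Var Pf72953.Mov

namespace Pf72953.Can

variable {k B E L κ : Type*} [Field k] [CharZero k] [Field B] [Field E] [Field L] [Algebra k B]
  [Algebra k E] [Algebra k L] [Algebra B E] [Algebra B L] [Algebra E L] [IsScalarTower k B E]
  [IsScalarTower k B L] [IsScalarTower k E L] [IsScalarTower B E L]
  [Fintype κ] [DecidableEq κ]

/-- `V (dζ)^m` is a relative form of `L/B` with logarithmic norm `≤ 1` at all valuations of `L` over divisorial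
valuations of `E`, and `≤ w t ^ m`, `t` a uniformizer of `E`, if `w` is trivial on `B`. -/
def RelGood (k B E : Type*) {L κ : Type*} [Field k] [CharZero k] [Field B] [Field E] [Field L]
    [Algebra k B] [Algebra k E] [Algebra k L] [Algebra B L] [Algebra E L]
    [Fintype κ] [DecidableEq κ] (ζ : κ → L) (m : ℕ) : Set L :=
  {V | ∀ w : Valuation L ℤᵐ⁰, IsDivisorial k E (w.comap (algebraMap E L)) →
    ∀ t : E, IsUnif (w.comap (algebraMap E L)) t →
    ∀ (cB : Fin (dimension k B) → B) (c : Fin (dimension k B) ⊕ κ → L) (hc : LogBasis k w c),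
      LogBasis k (w.comap (algebraMap B L)) cB →
      w V * relS cB hc ζ ^ m ≤ 1 ∧
      ((∀ b : B, b ≠ 0 → w (algebraMap B L b) = 1) →
        w V * relS cB hc ζ ^ m ≤ w (algebraMap E L t) ^ m)}

omit [Algebra B E] [IsScalarTower k B E] [IsScalarTower k B L] [IsScalarTower k E L]
  [IsScalarTower B E L] in
theorem RelGood.mul {ζ : κ → L} {m m' : ℕ} {V V' : L} (hV : V ∈ RelGood k B E ζ m)
    (hV' : V' ∈ RelGood k B E ζ m') : V * V' ∈ RelGood k B E ζ (m + m') := by
  intro w hw t ht cB c hc hcB
  obtain ⟨h1, h2⟩ := hV w hw t ht cB c hc hcB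
  obtain ⟨h1', h2'⟩ := hV' w hw t ht cB c hc hcB
  rw [map_mul, pow_add, mul_mul_mul_comm]
  refine ⟨mul_le_one' h1 h1', fun htr => ?_⟩
  rw [pow_add]
  exact mul_le_mul' (h2 htr) (h2' htr)

theorem mul_mem_GoodL [Algebra.EssFiniteType k B] [Algebra.EssFiniteType k E]
    [FiniteDimensional E L] {x : Fin (dimension k B) → B} (hx : IsTranscendenceBasis k x)
    {ζ : κ → L} (hzB : ∀ cB : Fin (dimension k B) → B, IsTranscendenceBasis k cB →
      IsTranscendenceBasis k (Sum.elim (fun i => algebraMap B L (cB i)) ζ))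
    {m : ℕ} {h : B} (hh : h ∈ WOrb k E x m) {V : L} (hV : V ∈ RelGood k B E ζ m) :
    algebraMap B L h * V ∈ GoodL k E (Sum.elim (fun i => algebraMap B L (x i)) ζ) m := by
  haveI : Algebra.EssFiniteType k L := Algebra.EssFiniteType.comp k E L
  intro w hv c t hc ht htb
  have hcN : Adapted k w (fun i => algebraMap E L (c i)) (algebraMap E L t) := hc.map
  have hcard : Fintype.card (Fin (dimension k B) ⊕ κ) = dimension k L :=
    card_eq_of_isTranscendenceBasis htb
  have hlog := hcN.logBasis hcard
  have hprod : ∏ i, w (algebraMap E L (c i)) = w (algebraMap E L t) := hcN.prod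
  have hwt : w (algebraMap E L t) ≠ 0 := by
    rw [Valuation.ne_zero_iff]; simpa using ht.ne_zero
  have hwtpos : 0 < w (algebraMap E L t) := zero_lt_iff.mpr hwt
  have hfin : ∀ {cB : Fin (dimension k B) → B} (hcB : IsTranscendenceBasis k cB),
      (w (algebraMap B L h) * (w (algebraMap B L (jac hcB x)) *
        ∏ j, w (algebraMap B L (cB j))) ^ m) * (w V * relS cB hlog ζ ^ m) ≤
          w (algebraMap E L t) ^ m →
      w (algebraMap B L h * V) *
        w (jac htb (Sum.elim (fun i => algebraMap B L (x i)) ζ)) ^ m ≤ 1 := by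
    intro cB hcB hle
    have h1 := relS_chain hcB hlog (hzB cB hcB) x
    rw [hprod] at h1
    have hpos : 0 < w (algebraMap E L t) ^ m := pow_pos hwtpos m
    refine le_of_mul_le_mul_right (a := w (algebraMap E L t) ^ m) ?_ hpos
    rw [one_mul, mul_assoc, ← mul_pow, h1, mul_pow, map_mul]
    refine le_trans (le_of_eq ?_) hle
    ac_rfl
  by_cases hnt : ∃ a : B, a ≠ 0 ∧ w (algebraMap B L a) ≠ 1
  · obtain ⟨cB, hcB', hbB'⟩ := hh (w.comap (algebraMap E L)) hv (by
      obtain ⟨a, ha0, ha⟩ := hnt
      refine ⟨a, ha0, ?_⟩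
      rwa [Valuation.comap_apply, ← IsScalarTower.algebraMap_apply]) t ht
    simp only [Valuation.comap_apply, ← IsScalarTower.algebraMap_apply B E L] at hbB'
    have hval : (w.comap (algebraMap E L)).comap (algebraMap B E) = w.comap (algebraMap B L) := by
      ext a
      simp only [Valuation.comap_apply, ← IsScalarTower.algebraMap_apply B E L]
    have hcB2 : LogBasis k (w.comap (algebraMap B L)) cB := hval ▸ hcB'
    have h2 := (hV w hv t ht cB _ hlog hcB2).1
    refine hfin hcB'.tb ?_
    calc _ ≤ w (algebraMap E L t) ^ m * 1 := mul_le_mul' hbB' h2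
      _ = _ := mul_one _
  · have htriv : ∀ b : B, b ≠ 0 → w (algebraMap B L b) = 1 := by
      intro b hb
      by_contra h
      exact hnt ⟨b, hb, h⟩
    have hB : LogBasis k (w.comap (algebraMap B L)) x := LogBasis.of_trivial htriv hx
    have h2 := (hV w hv t ht x _ hlog hB).2 htriv
    refine hfin hx ?_
    have e1 : w (algebraMap B L (jac hx x)) = 1 := by rw [jac_self, map_one, map_one]
    have e2 : ∏ j, w (algebraMap B L (x j)) = 1 :=
      Finset.prod_eq_one fun j _ => htriv _ (hx.1.ne_zero j)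
    have e3 : w (algebraMap B L h) ≤ 1 := by
      rcases eq_or_ne h 0 with h0 | h0
      · rw [h0, map_zero, map_zero]
        exact zero_le_one
      · exact (htriv h h0).le
    rw [e1, e2, mul_one, one_pow, mul_one]
    calc _ ≤ 1 * w (algebraMap E L t) ^ m := mul_le_mul' e3 h2
      _ = _ := one_mul _

end Pf72953.Can
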