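import Mathlib
import Pool.Agent.Lib.Pf72953e.SqE
import Pool.Agent.Lib.Pf72953c.Defs
import Pool.Agent.Lib.Pf72953c.KeyC
import Pool.Agent.Lib.Pf72953c.RegJac
import Pool.Agent.Lib.Pf72953c.RelGood
import Pool.Agent.Lib.Pf72953c.NormEq
import Pool.Agent.Lib.Pf72953c.BasesC

/-!
MODULE Pf72953c.MemC: the forms containing the sections `T_j` have bounded norms.

PROOF (compare the proof of `mem_good`, Pf72953e/Mem.lean).  Let `w, hv, t, ht, cB, c, hc, hcB` be as in the definition of `RelGood` (`ζ = (y, s)`); `bases` from `basesC`;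
`w` is divisorial on `L/k` (`IsDivisorial.of_comap`).  Choose the chart `i` with `hA : w ≤ 1` on `M.A i` (`M.cover` for `w.comap (algebraMap Y L)`).
Let `wP = w.comap (algebraMap P L)`, `cP` a log basis of `P` for `wP`, index `Fin dB ⊕ Fin dY` (divisorial: `exists_adapted`, `Adapted.logBasis`; trivial: `LogBasis.of_trivial`), and `c₂` a log
basis of `L`, index `(Fin dB ⊕ Fin dY) ⊕ Fin r` (`hw.exists_adapted`, `Adapted.logBasis`).  `ρ = relS cP hc₂ s`, `μ = relvol M i cB hcP`,
`σ = w G * ρ ^ e`.  `relS_der` gives logarithmic `P`-derivations `d` with `w (det (d_a s_b)) = ρ`; as `Z`-derivations (`restrictScalars Z`) in `hlog j w`: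
`hσ j : σ * wP (T j).sec ≤ 1`.  `norm_eq`: `relS cB hc ζ = ρ * (μ * w (jac (M.tb i) y))`.  So for `V = g * (ν * sec ^ p) * G ^ (q + p)`, `m = e * (q + p)`:
 `w V * relS cB hc ζ ^ m = w g * wP (ν * sec ^ p) * σ ^ (q + p) * (μ * w jac) ^ m ≤ μ ^ (m - C * q)` (`key` of KeyC.lean), and `μ ≤ 1` (`relvol_le_one`).  This is the first claim.
Second claim: `w` trivial on `B`.  Let `τ = algebraMap E L t`, it is a uniformizer of `w` in `L` by `hunr` (`hτ` in `mem_good`).
 (i) `w` not trivial on `Z` and `¬ PrimeAt M B Z i wP`: `relvol_le_sq` (SqE.lean with `N := L`; `w.comap (algebraMap L L)` is `w`, `Algebra.algebraMap_self`; second alternative; its `x` is `cB`): `μ ≤ w τ ^ 2`,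
   so `μ ^ (m - C * q) ≤ w τ ^ (2 * (m - C * q)) ≤ w τ ^ m` by `hq`.
 (ii) otherwise `PrimeAt M B Z i w` (if `w` is trivial on `Z` all elements of `Z` have value `≤ 1`; otherwise from `PrimeAt M B Z i wP`: the same conditions).
   Let `c₃`, `t₃` be adapted to `w` in `L`, index `Fin dB ⊕ (Fin dY ⊕ Fin r)`, `t₃` a uniformizer (`hw.exists_adapted`), so a regular basis `hreg` and a log basis with `∏ w c₃ = w t₃ ≤ w τ`.
   `ξ = (x_i, s)` (`Fin dY ⊕ Fin r → L`).  `exists_regDer hcB.tb hz hw htriv hreg` gives regular `d : _ → Derivation B L L` with `w (jac hreg.tb (cB, ξ)) ≤ w (det (d_a ξ_b)) = w (vol i s d)`;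
   `hreg` (RegularOver): `w gen * w G * w (vol i s d) ^ e ≤ 1`.  So `w gen * w G * w (jac hreg.tb (cB, ξ)) ^ e ≤ 1`.
   `norm_eq` twice (`y` and `y := M.x i`, `jac_self`) gives `relS cB hc ζ = relS cB hc ξ * w (jac (M.tb i) y)`, and `relS cB hc ξ = relS cB hreg' ξ = w (jac hreg.tb (cB, ξ)) * w t₃` (`relS_eq` with `P := B`, or `LogBasis.vol_eq`;
   `∏ w (cB j) = 1`).  With `α = w G * w (jac hreg.tb (cB, ξ)) ^ e`: `w V * relS cB hc ζ ^ m = w g * wP (ν * sec ^ p) * α ^ (q + p) * w jac ^ m * w t₃ ^ m ≤ (w gen * α) ^ (q + p) * w t₃ ^ m ≤ w τ ^ m` by `key2`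
   (`w ((T j).a l) ≤ 1`: algebraic over `B`, `val_eq_one_of_isIntegral`).
-/

set_option autoImplicit false
set_option linter.style.haveILetI false

open scoped WithZero
open Pf72953 Pf72953.Var Pf72953.Mov Pf72953.Ell

namespace Pf72953.Can

variable {k B E Y Z P L : Type*} [Field k] [CharZero k] [IsAlgClosed k] [Field B] [Field E]
  [Field Y] [Field Z] [Field P] [Field L]
  [Algebra k B] [Algebra k E] [Algebra k Y] [Algebra k Z] [Algebra k P] [Algebra k L]
  [Algebra B E] [Algebra B Z] [Algebra B P] [Algebra B L] [Algebra E L] [Algebra Y Z]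
  [Algebra Y P] [Algebra Y L] [Algebra Z P] [Algebra Z L] [Algebra P L]
  [IsScalarTower k B E] [IsScalarTower k B Z] [IsScalarTower k B P] [IsScalarTower k B L]
  [IsScalarTower k E L] [IsScalarTower k Y Z] [IsScalarTower k Y P] [IsScalarTower k Y L]
  [IsScalarTower k Z P] [IsScalarTower k Z L] [IsScalarTower k P L] [IsScalarTower B E L]
  [IsScalarTower B Z P] [IsScalarTower B Z L] [IsScalarTower B P L] [IsScalarTower Y Z P]
  [IsScalarTower Y Z L] [IsScalarTower Y P L] [IsScalarTower Z P L]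
  [Algebra.EssFiniteType k B] [Algebra.EssFiniteType k Y] [Algebra.EssFiniteType k E]
  [FiniteDimensional E L] [FiniteDimensional Z P]
  {M : SmoothModel k Y} {A : LineBundle M}

theorem mem_relGood {r : ℕ} (hcomp : Twr.IsCompositum k B Y Z)
    (hdim : dimension k B + dimension k Y + r = dimension k E) (hunr : Unramified k B E L)
    {s : Fin r → L} (hs : IsTranscendenceBasis Z s) {e : ℕ} {G : L}
    (hreg : RegularOver k B Z A s e G) {J : Type*} {T : J → MovingSection M A 1 B P}
    (hlog : ∀ j (w : Valuation L ℤᵐ⁰), IsDivisorial k L w →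
      LogAt Z w s e (algebraMap P L (T j).sec * G)) {C : ℕ} (hC : ∀ j, SecCost k (T j) C)
    {y : Fin (dimension k Y) → Y} (hy : IsTranscendenceBasis k y) {m q p : ℕ}
    (hm : m = e * (q + p)) (hq : 2 * (C * q) ≤ m) {g : Y}
    (hg : g ∈ CoefSec M (fun _ : Unit => A) y m (fun _ => q)) {ν : P} (hν : ν ∈ NumT T q)
    (j₀ : J) :
    algebraMap Y L g * algebraMap P L (ν * (T j₀).sec ^ p) * G ^ (q + p) ∈
      RelGood k B E (Sum.elim (fun j => algebraMap Y L (y j)) s) m := by
  classical
  haveI : CharZero B := charZero_of_injective_algebraMap (algebraMap k B).injective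
  haveI : CharZero P := charZero_of_injective_algebraMap (algebraMap k P).injective
  haveI : Algebra.EssFiniteType k L := Algebra.EssFiniteType.comp k E L
  haveI : Algebra.EssFiniteType k Z := essFinite_Z hcomp
  haveI : Algebra.EssFiniteType k P := Algebra.EssFiniteType.comp k Z P
  obtain ⟨hZdim, hPdim, hLdim, hZ, hZP, hPL, hBYL⟩ := basesC (P := P) (E := E) hcomp hdim hs
  intro w hv t ht cB c hc hcB
  have hw : IsDivisorial k L w := IsDivisorial.of_comap hLdim hv
  -- the chart
  obtain ⟨i, hi⟩ := M.cover (w.comap (algebraMap Y L)) (fun κ hκ => by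
    rw [Valuation.comap_apply, ← IsScalarTower.algebraMap_apply k Y L]
    exact hw.const κ hκ)
  have hA : ∀ f ∈ M.A i, w (algebraMap Y L f) ≤ 1 := hi
  set wP := w.comap (algebraMap P L) with hwP
  have hwPB : ∀ z : B, wP (algebraMap B P z) = w (algebraMap B L z) := fun z => by
    rw [hwP, Valuation.comap_apply, ← IsScalarTower.algebraMap_apply B P L]
  have hwPY : ∀ z : Y, wP (algebraMap Y P z) = w (algebraMap Y L z) := fun z => by
    rw [hwP, Valuation.comap_apply, ← IsScalarTower.algebraMap_apply Y P L]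
  have hwPZ : ∀ z : Z, wP (algebraMap Z P z) = w (algebraMap Z L z) := fun z => by
    rw [hwP, Valuation.comap_apply, ← IsScalarTower.algebraMap_apply Z P L]
  have hAP : ∀ f ∈ M.A i, wP (algebraMap Y P f) ≤ 1 := fun f hf => by
    rw [hwPY]; exact hA f hf
  -- a log basis of `P`
  have hcardP : Fintype.card (Fin (dimension k B) ⊕ Fin (dimension k Y)) = dimension k P := by
    rw [hPdim, hZdim]; simp
  obtain ⟨cP, hcP⟩ : ∃ cP : Fin (dimension k B) ⊕ Fin (dimension k Y) → P,
      LogBasis k wP cP := by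
    by_cases hnt : ∃ a : P, a ≠ 0 ∧ w (algebraMap P L a) ≠ 1
    · obtain ⟨c', t', ht', hc'⟩ := (hw.restrict hnt).exists_adapted hcardP
      exact ⟨c', hc'.logBasis hcardP⟩
    · push Not at hnt
      exact ⟨zfam M i cB, LogBasis.of_trivial hnt (hZP hcB.tb (M.tb i))⟩
  have hzP := hPL hcP.tb
  -- a log basis of `L`
  have hcard₂ : Fintype.card ((Fin (dimension k B) ⊕ Fin (dimension k Y)) ⊕ Fin r) =
      dimension k L := by
    rw [hLdim, ← hdim]; simp
  obtain ⟨c₂, t₂, ht₂, hc₂'⟩ := hw.exists_adapted hcard₂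
  have hc₂ : LogBasis k w c₂ := hc₂'.logBasis hcard₂
  set ρ := relS cP hc₂ s with hρdef
  obtain ⟨d, hd, hdρ⟩ := relS_der hw hcP hc₂ hzP
  rw [← hρdef] at hdρ
  have hσ : ∀ j, w G * ρ ^ e * wP (T j).sec ≤ 1 := by
    intro j
    have h1 := hlog j w hw (fun a => (d a).restrictScalars Z) (fun a z => hd a z)
    refine le_trans (le_of_eq ?_) h1
    have h2 : w (Matrix.det (Matrix.of fun a b =>
        ((d a).restrictScalars Z : Derivation Z L L) (s b))) = ρ := hdρ
    rw [map_mul, map_mul, map_pow, h2, mul_assoc, mul_comm, mul_assoc, mul_comm (ρ ^ e)]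
    rfl
  set μ := relvol M i cB hcP with hμdef
  have hnorm := norm_eq hcB.tb (hZP hcB.tb (M.tb i)) hcP hc hc₂ hzP y
  rw [← hρdef, ← hμdef] at hnorm
  -- the value of the form
  have hval : w (algebraMap Y L g * algebraMap P L (ν * (T j₀).sec ^ p) * G ^ (q + p)) *
      relS cB hc (Sum.elim (fun j => algebraMap Y L (y j)) s) ^ m =
      wP (algebraMap Y P g) * wP (ν * (T j₀).sec ^ p) * (w G * ρ ^ e) ^ (q + p) *
        (μ * wP (algebraMap Y P (jac (M.tb i) y))) ^ m := by
    have h1 : w (algebraMap P L (ν * (T j₀).sec ^ p)) = wP (ν * (T j₀).sec ^ p) := rfl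
    rw [map_mul w, map_mul w, map_pow w, hnorm, hwPY, hwPY, h1, mul_pow ρ, mul_pow (w G),
      ← pow_mul, ← hm]
    simp only [mul_assoc]
  have hkey := key hC (r := p) (by omega) hg hν hcB.tb (hZP hcB.tb (M.tb i)) hAP hcP hσ j₀
  have hμone : μ ≤ 1 := relvol_le_one hcB.tb hAP hcP
  rw [← hμdef] at hkey
  rw [hval]
  refine ⟨hkey.trans (pow_le_one' hμone _), fun htriv => ?_⟩
  -- `w` trivial on `B`
  have htrivP : ∀ b : B, b ≠ 0 → wP (algebraMap B P b) = 1 := fun b hb => by
    rw [hwPB]; exact htriv b hb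
  have halgone : ∀ z : P, IsAlgebraic B z → wP z ≤ 1 := fun z hz => by
    rcases eq_or_ne z 0 with h0 | h0
    · rw [h0]; simp
    · exact (val_eq_one_of_isIntegral htrivP h0 hz.isIntegral).le
  -- the uniformizer of `L`
  have hτ : IsUnif w (algebraMap E L t) := by
    refine ⟨by simpa using ht.ne_zero, ht.lt_one, fun z hz => ?_⟩
    obtain ⟨t', ht', hzt'⟩ := hunr w hw htriv z hz
    exact hzt'.trans (ht.le t' ht')
  -- prime divisors of `M` over `B`
  have hgood : Br.PrimeAt M B Z i w →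
      wP (algebraMap Y P g) * wP (ν * (T j₀).sec ^ p) * (w G * ρ ^ e) ^ (q + p) *
        (μ * wP (algebraMap Y P (jac (M.tb i) y))) ^ m ≤ w (algebraMap E L t) ^ m := by
    intro hprime
    have hcard₃ : Fintype.card (Fin (dimension k B) ⊕ (Fin (dimension k Y) ⊕ Fin r)) =
        dimension k L := by
      rw [hLdim, ← hdim]; simp [add_assoc]
    obtain ⟨c₃, t₃, ht₃, hc₃⟩ := hw.exists_adapted hcard₃
    have hlog₃ : LogBasis k w c₃ := hc₃.logBasis hcard₃
    have hreg₃ : RegBasis k w c₃ := hc₃.regBasis hcard₃ ht₃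
    have hzξ := hBYL hcB.tb (M.tb i)
    obtain ⟨d', hd', hdet⟩ := exists_regDer hcB.tb hzξ hw htriv hreg₃
    have hle := hreg i w hw htriv hprime d' hd'
    have hξ := norm_eq hcB.tb (hZP hcB.tb (M.tb i)) hcP hc hc₂ hzP (M.x i)
    rw [← hρdef, ← hμdef, jac_self, map_one, map_one, mul_one] at hξ
    have hprodB : ∏ j, w (algebraMap B L (cB j)) = 1 :=
      Finset.prod_eq_one fun j _ => htriv _ (hcB.tb.1.ne_zero j)
    have hξ' : relS cB hc (Sum.elim (fun j => algebraMap Y L (M.x i j)) s) =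
        w (jac hreg₃.tb (Sum.elim (fun i => algebraMap B L (cB i))
          (Sum.elim (fun j => algebraMap Y L (M.x i j)) s))) * w t₃ := by
      rw [relS, hprodB, inv_one, mul_one, hc.vol_eq hlog₃, hc₃.prod]
    set J₃ := w (jac hreg₃.tb (Sum.elim (fun i => algebraMap B L (cB i))
          (Sum.elim (fun j => algebraMap Y L (M.x i j)) s))) with hJ₃
    have hρμ : ρ * μ = J₃ * w t₃ := by rw [← hξ, hξ']
    have hα : wP (algebraMap Y P (A.gen i)) * (w G * J₃ ^ e) ≤ 1 := by
      refine le_trans ?_ hle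
      rw [map_mul w, map_mul w, map_pow w, hwPY, mul_assoc]
      gcongr
      exact hdet
    have hkey2 := key2 hg (r := p) hν hAP (fun j l => halgone _ ((T j).a_alg l)) j₀ (w G * J₃ ^ e)
    calc _ = wP (algebraMap Y P g) * wP (ν * (T j₀).sec ^ p) * (w G * J₃ ^ e) ^ (q + p) *
          wP (algebraMap Y P (jac (M.tb i) y)) ^ m * w t₃ ^ m := by
          have h1 : (w G * ρ ^ e) ^ (q + p) *
              (μ * wP (algebraMap Y P (jac (M.tb i) y))) ^ m =
              (w G * J₃ ^ e) ^ (q + p) * wP (algebraMap Y P (jac (M.tb i) y)) ^ m *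
                w t₃ ^ m := by
            rw [mul_pow (w G), mul_pow (w G), ← pow_mul, ← pow_mul, ← hm, mul_pow μ]
            calc _ = w G ^ (q + p) * (ρ * μ) ^ m *
                  wP (algebraMap Y P (jac (M.tb i) y)) ^ m := by
                  rw [mul_pow ρ]
                  simp only [mul_assoc]
              _ = _ := by
                  rw [hρμ, mul_pow J₃]
                  simp only [mul_comm, mul_left_comm]
          rw [mul_assoc, h1]
          simp only [mul_assoc]
      _ ≤ (wP (algebraMap Y P (A.gen i)) * (w G * J₃ ^ e)) ^ (q + p) * w t₃ ^ m := by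
          gcongr
      _ ≤ 1 * w t₃ ^ m := by
          gcongr
          exact pow_le_one' hα _
      _ = w t₃ ^ m := one_mul _
      _ ≤ w (algebraMap E L t) ^ m := pow_le_pow_left' (hτ.le _ ht₃.lt_one) m
  by_cases hntZ : ∃ s : Z, s ≠ 0 ∧ w (algebraMap Z L s) ≠ 1
  · by_cases hprime : Br.PrimeAt M B Z i wP
    · refine hgood ⟨hA, fun d₁ h1 z hz => ?_⟩
      have h2 := hprime.der d₁ (fun a => by rw [hwPZ]; exact h1 a) z (by rw [hwPZ]; exact hz)
      rwa [hwPZ] at h2
    · have h1 := relvol_le_sq (P := P) (L := L) (N := L) hZ hw htriv hntZ hA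
        (τ := algebraMap E L t) (by
          rw [Algebra.algebraMap_self]
          exact hτ) hcB.tb hcP (Or.inr hprime)
      rw [Algebra.algebraMap_self_apply] at h1
      refine hkey.trans ?_
      calc μ ^ (m - C * q) ≤ (w (algebraMap E L t) ^ 2) ^ (m - C * q) :=
            pow_le_pow_left' h1 _
        _ = w (algebraMap E L t) ^ (2 * (m - C * q)) := by rw [← pow_mul]
        _ ≤ w (algebraMap E L t) ^ m :=
          pow_le_pow_right_of_le_one' hτ.lt_one.le (by omega)
  · -- `w` trivial on `Z`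
    push Not at hntZ
    refine hgood ⟨hA, fun d₁ _ z _ => ?_⟩
    rcases eq_or_ne (d₁ z) 0 with h0 | h0
    · rw [h0]; simp
    · exact (hntZ _ h0).le

end Pf72953.Can
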