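import Mathlib
import Pool.Agent.Lib.Pf72953e.SqE
import Pool.Agent.Lib.Pf72953c.Defs
import Pool.Agent.Lib.Pf72953c.RegJac
import Pool.Agent.Lib.Pf72953c.RelGood
import Pool.Agent.Lib.Pf72953c.NormEq
import Pool.Agent.Lib.Pf72953c.BasesC

/-!
MODULE Pf72953c.MemL: products of pluricanonical forms of `M` and logarithmic relative forms have bounded norms.

PROOF (the same set-up as in Pf72953c/MemC.lean, read its header first; here everywhere `P := Z`).  With `i`, `wP = w.comap (algebraMap Z L)`, `cP` (a log basis of `Z`), `c₂`, `ρ`, `μ` as there: `relS_der` (`P := Z`) and the first part of `hθ w hw`: `w θ * ρ ^ m ≤ 1`.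
`hg i`: `w g * w (jac (M.tb i) y) ^ m ≤ 1` (`q = 0`).  `norm_eq`: `w (g θ) * relS cB hc ζ ^ m = w g * w jac ^ m * (w θ * ρ ^ m) * μ ^ m ≤ μ ^ m ≤ 1`.
Second claim, `w` trivial on `B`, `τ = algebraMap E L t` a uniformizer of `w` (`hunr`).
 (i) `w` not trivial on `Z`: `relvol_le_unif` (SqE.lean, `P := Z`, `L := L`, `N := L`): `μ ≤ w t_Z`, `t_Z ∈ Z`, `w t_Z < 1`, so `w t_Z ≤ w τ` and `μ ^ m ≤ w τ ^ m`.
 (ii) `w` trivial on `Z`: `norm_eq` with `P := Z`, `cP := (cB, x_i)` in `Z` (`zfam M i cB`, a log basis by `LogBasis.of_trivial`), and `c₂` adapted to `w` in `L` with a uniformizer `t₂` (`hw.exists_adapted`), index `(Fin dB ⊕ Fin dY) ⊕ Fin r`: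
   `relvol = 1` (`jac_self`, all values of elements of `Z` are `1`), `relS (zfam) hc₂ s = w (jac c₂ (zfam, s)) * w t₂` (`Adapted.prod`).  `exists_regDer` with `B := Z`, `x := zfam M i cB`, `ξ := s`: regular `Z`-derivations `d` with
   `w (jac c₂ (zfam, s)) ≤ w (det (d_a s_b))`, so `w θ * w (jac c₂ (zfam, s)) ^ m ≤ 1` by the second part of `hθ w hw`.  Hence `w (g θ) * relS cB hc ζ ^ m ≤ w t₂ ^ m ≤ w τ ^ m`.
-/

set_option autoImplicit false
set_option linter.style.haveILetI false

open scoped WithZero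
open Pf72953 Pf72953.Var Pf72953.Mov Pf72953.Ell

namespace Pf72953.Can

variable {k B E Y Z L : Type*} [Field k] [CharZero k] [IsAlgClosed k] [Field B] [Field E]
  [Field Y] [Field Z] [Field L]
  [Algebra k B] [Algebra k E] [Algebra k Y] [Algebra k Z] [Algebra k L]
  [Algebra B E] [Algebra B Z] [Algebra B L] [Algebra E L] [Algebra Y Z]
  [Algebra Y L] [Algebra Z L]
  [IsScalarTower k B E] [IsScalarTower k B Z] [IsScalarTower k B L]
  [IsScalarTower k E L] [IsScalarTower k Y Z] [IsScalarTower k Y L]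
  [IsScalarTower k Z L] [IsScalarTower B E L]
  [IsScalarTower B Z L]
  [IsScalarTower Y Z L]
  [Algebra.EssFiniteType k B] [Algebra.EssFiniteType k Y] [Algebra.EssFiniteType k E]
  [FiniteDimensional E L]
  {M : SmoothModel k Y} {A : LineBundle M}

theorem mem_relGood_log {r : ℕ} (hcomp : Twr.IsCompositum k B Y Z)
    (hdim : dimension k B + dimension k Y + r = dimension k E) (hunr : Unramified k B E L)
    {s : Fin r → L} (hs : IsTranscendenceBasis Z s)
    {y : Fin (dimension k Y) → Y} (hy : IsTranscendenceBasis k y) {m : ℕ} {g : Y}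
    (hg : g ∈ CoefSec M (fun _ : Unit => A) y m (fun _ => 0)) {θ : L}
    (hθ : θ ∈ LogForms k Z s m) :
    algebraMap Y L g * θ ∈ RelGood k B E (Sum.elim (fun j => algebraMap Y L (y j)) s) m := by
  classical
  haveI : CharZero B := charZero_of_injective_algebraMap (algebraMap k B).injective
  haveI : Algebra.EssFiniteType k L := Algebra.EssFiniteType.comp k E L
  haveI : Algebra.EssFiniteType k Z := essFinite_Z hcomp
  obtain ⟨hZdim, _, hLdim, hZ, _, hNtb, hLtb⟩ := basesC (P := Z) hcomp hdim hs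
  intro w hv t ht cB c hc hcB
  have hwL : IsDivisorial k L w := IsDivisorial.of_comap hLdim hv
  obtain ⟨i, hi⟩ := M.cover (w.comap (algebraMap Y L)) (fun κ hκ => by
    rw [Valuation.comap_apply, ← IsScalarTower.algebraMap_apply k Y L]
    exact hwL.const κ hκ)
  have hA : ∀ f ∈ M.A i, w (algebraMap Y L f) ≤ 1 := hi
  have hAP : ∀ f ∈ M.A i, (w.comap (algebraMap Z L)) (algebraMap Y Z f) ≤ 1 := fun f hf => by
    rw [Valuation.comap_apply, ← IsScalarTower.algebraMap_apply Y Z L]
    exact hA f hf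
  have hz : IsTranscendenceBasis k (zfam (L := Z) M i cB) := hZ hcB.tb (M.tb i)
  have hgj : w (algebraMap Y L g) * w (algebraMap Y L (jac (M.tb i) y)) ^ m ≤ 1 := by
    obtain ⟨f, hf, hfe⟩ := hg i
    have h1 : w (algebraMap Y L (g * jac (M.tb i) y ^ m)) ≤ 1 := by
      rw [hfe]
      simpa using hA f hf
    rwa [map_mul, map_mul, map_pow, map_pow] at h1
  have hEq : ∀ {cP : Fin (dimension k B) ⊕ Fin (dimension k Y) → Z}
      (hcP : LogBasis k (w.comap (algebraMap Z L)) cP)
      {c₂ : (Fin (dimension k B) ⊕ Fin (dimension k Y)) ⊕ Fin r → L} (hc₂ : LogBasis k w c₂),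
      w (algebraMap Y L g * θ) *
        relS cB hc (Sum.elim (fun j => algebraMap Y L (y j)) s) ^ m =
      (w (algebraMap Y L g) * w (algebraMap Y L (jac (M.tb i) y)) ^ m) *
        ((w θ * relS cP hc₂ s ^ m) * relvol M i cB hcP ^ m) := by
    intro cP hcP c₂ hc₂
    rw [norm_eq hcB.tb hz hcP hc hc₂ (hNtb hcP.tb) y, map_mul, mul_pow, mul_pow]
    ac_rfl
  -- a log basis of `Z`
  obtain ⟨cP, hcP⟩ : ∃ cP : Fin (dimension k B) ⊕ Fin (dimension k Y) → Z,
      LogBasis k (w.comap (algebraMap Z L)) cP := by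
    by_cases hnt : ∃ a : Z, a ≠ 0 ∧ w (algebraMap Z L a) ≠ 1
    · have h1 : IsDivisorial k Z (w.comap (algebraMap Z L)) := hwL.restrict hnt
      have hcard' : Fintype.card (Fin (dimension k B) ⊕ Fin (dimension k Y)) =
          dimension k Z := by
        rw [hZdim]; simp
      obtain ⟨c', t', ht', hc'⟩ := h1.exists_adapted hcard'
      exact ⟨c', hc'.logBasis hcard'⟩
    · push Not at hnt
      exact ⟨zfam M i cB, LogBasis.of_trivial hnt hz⟩
  have hcard2 : Fintype.card ((Fin (dimension k B) ⊕ Fin (dimension k Y)) ⊕ Fin r) =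
      dimension k L := card_eq_of_isTranscendenceBasis (hNtb hcP.tb)
  obtain ⟨c₂, t₂, ht₂, hc₂a⟩ := hwL.exists_adapted hcard2
  have hc₂ := hc₂a.logBasis hcard2
  have hreg := hc₂a.regBasis hcard2 ht₂
  have hμ := relvol_le_one hcB.tb hAP hcP
  have hθ1 : w θ * relS cP hc₂ s ^ m ≤ 1 := by
    obtain ⟨d, hd, hdet⟩ := relS_der (P := Z) hwL hcP hc₂ (hNtb hcP.tb)
    have h1 := (hθ w hwL).1 d hd
    rwa [map_mul, map_pow, hdet] at h1
  refine ⟨?_, fun htriv => ?_⟩
  · rw [hEq hcP hc₂]
    exact mul_le_one' hgj (mul_le_one' hθ1 (pow_le_one' hμ m))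
  · have hunif : ∀ z : L, w z < 1 → w z ≤ w (algebraMap E L t) := by
      intro z hz
      obtain ⟨t', ht', hzt'⟩ := hunr w hwL htriv z hz
      exact hzt'.trans (ht.le t' ht')
    by_cases hntZ : ∃ a : Z, a ≠ 0 ∧ w (algebraMap Z L a) ≠ 1
    · obtain ⟨tZ, htZ0, htZ1, hμt⟩ := relvol_le_unif (P := Z) hZ hwL htriv
        hntZ hA hcB.tb hcP
      rw [hEq hcP hc₂]
      calc _ ≤ 1 * (1 * w (algebraMap E L t) ^ m) := by
            refine mul_le_mul' hgj (mul_le_mul' hθ1 (pow_le_pow_left' ?_ m))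
            exact hμt.trans (hunif _ htZ1)
        _ = _ := by rw [one_mul, one_mul]
    · have htrivZ : ∀ a : Z, a ≠ 0 → w (algebraMap Z L a) = 1 := by
        intro a ha
        by_contra h
        exact hntZ ⟨a, ha, h⟩
      have hcP' : LogBasis k (w.comap (algebraMap Z L)) (zfam (L := Z) M i cB) :=
        LogBasis.of_trivial htrivZ hz
      have hrel : relvol M i cB hcP' = 1 := by
        rw [relvol, jac_self, map_one, one_mul]
        have e1 : ∏ j, (w.comap (algebraMap Z L)) (zfam (L := Z) M i cB j) = 1 :=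
          Finset.prod_eq_one fun j _ => htrivZ _ (hz.1.ne_zero j)
        have e2 : ∏ j, (w.comap (algebraMap Z L)) (algebraMap B Z (cB j)) = 1 :=
          Finset.prod_eq_one fun j _ => htrivZ _ (by simpa using hcB.tb.1.ne_zero j)
        rw [e1, e2, inv_one, mul_one]
      have hprodZ : ∏ j, w (algebraMap Z L (zfam (L := Z) M i cB j)) = 1 :=
        Finset.prod_eq_one fun j _ => htrivZ _ (hz.1.ne_zero j)
      have hrelS : relS (zfam (L := Z) M i cB) hc₂ s =
          w (jac hreg.tb (Sum.elim (fun j => algebraMap Z L (zfam (L := Z) M i cB j)) s)) *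
            w t₂ := by
        rw [relS, hprodZ, inv_one, mul_one, hc₂a.prod]
      obtain ⟨d, hd, hdet⟩ := exists_regDer (k := k) (B := Z) (L := L) hz (hNtb hz) hwL htrivZ hreg
      have h1 := (hθ w hwL).2 htrivZ d hd
      rw [map_mul, map_pow] at h1
      have h2 : w θ * relS (zfam (L := Z) M i cB) hc₂ s ^ m ≤ w (algebraMap E L t) ^ m := by
        rw [hrelS, mul_pow, ← mul_assoc]
        calc _ ≤ 1 * w t₂ ^ m := by
              refine mul_le_mul' (le_trans ?_ h1) le_rfl
              exact mul_le_mul' le_rfl (pow_le_pow_left' hdet m)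
          _ ≤ _ := by
              rw [one_mul]
              exact pow_le_pow_left' (hunif _ ht₂.lt_one) m
      rw [hEq hcP' hc₂, hrel, one_pow, mul_one]
      calc _ ≤ 1 * w (algebraMap E L t) ^ m := mul_le_mul' hgj h2
        _ = _ := one_mul _

end Pf72953.Can
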