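import Mathlib
import Pool.Agent.Lib.Pf72953b.PosKod
import Pool.Agent.Lib.Pf72953t.GoodUp
import Pool.Agent.Lib.Pf72953v.Factor
import Pool.Agent.Lib.Pf72953v.CoreV
import Pool.Agent.Lib.Pf72953c.MemC
import Pool.Agent.Lib.Pf72953c.MemL
import Pool.Agent.Lib.Pf72953c.IndC

/-!
The Kodaira dimension of the total space (lower bound).

PROOF.  `basesC` gives the dimensions and transcendence bases.  `y` a transcendence basis of `Y/k` (`exists_tb`), `ζ = (y, s)`, `fam = (x, ζ)`.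
Forms on `M`: `hM` and `Br.pos_of_kodaira` (Pf72953b/PosKod.lean, for the family `fun _ : Unit => A`) give `m₀ ≥ 1`, `g₀ ≠ 0`, `g₀ ∈ CoefSec M (fun _ => A) y m₀ (fun _ => 0)`
(`mem_pluriSections_iff`, Pf72953m/Fin.lean); `hb` gives `m₂ ≥ 1`, `g₂ ≠ 0`, `φ_i`, with `g₂, φ_i g₂ ∈ CoefSec M (fun _ => A) y m₂ (fun _ => m₂)` (as in `Mov.core`, Pf72953m/Fin.lean).
`C` a common bound from `exists_secCost` for the `T j` (`secCost_mono`, Pf72953e/CoreE.lean `CoreEAux.secCost_mono`; copy it, do not import CoreE), `J` finite.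
`j₀` with `(T j₀).sec ≠ 0`, `β₀ = (T j₀).a l₀ ≠ 0` for some `l₀`.
Two factors (`mem_ratios_of_factor`, Pf72953v/Factor.lean, `Φ = Bool`): `𝒲 false m = algebraMap B L '' WOrb k E x m` (closed under products: `WOrb.mul'`, Pf72953v/CoreV.lean),
`𝒲 true m = RelGood k B E ζ m` (`RelGood.mul`); the product of both is in `GoodL k E fam m` by `mul_mem_GoodL` (`hzB`: `basesC`).  Nonzero elements: `h₀`, and the element `V₀` below.
Weights: `q = e * m₂`, `K = 2 * C * m₂ + e * m₂ + m₂`, `p = m₀ * K + m₂ - e * m₂` (`≥ 0` since `m₀ ≥ 1`), `m = e * (q + p) = e * (m₀ * K + m₂)`: `g = g₀ ^ (e * K) * g₂ ^ e ∈ CoefSec M (fun _ => A) y m (fun _ => e * m₂)`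
(`CoefSec.mul`, `CoefSec.pow`); `2 * (C * q) = 2 * C * e * m₂ ≤ e * (m₀ * K + m₂) = m`.  `V₀ = g * (β₀ ^ q * (T j₀).sec ^ p) * G ^ (q + p) ∈ RelGood .. m` (`mem_relGood`, `NumT.coeff`, `NumT.pow`), `V₀ ≠ 0`, `m ≥ 1`.
In `Ratios k E fam` (by `mem_ratios_of_factor`; `f₀ = true` except for the first case):
 `f ∈ B` with `f h, h ∈ WOrb k E x m'`, `h ≠ 0`, `m' ≥ 1`;
 `φ_i`: replace `g₂ ^ e` by `g₂ ^ (e - 1) * (φ_i g₂)` (`e ≥ 1`);
 `α / β`, `α, β` coefficients of the `T j`: if `β = 0` it is `0` (`CoreEAux.ratios_zero`, copy; `1 ∈ Ratios`); otherwise compare `ν = β ^ q` and `ν = β ^ (q - 1) * α` (`q ≥ 1`);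
 `ψ_i` (from `hψ`: `m₃ ≥ 1`, `θ ≠ 0`, `θ, ψ_i θ ∈ LogForms k Z s m₃`): `W = g₀ ^ m₃ * θ ^ m₀ ∈ RelGood .. (m₀ * m₃)`, `ψ_i W = g₀ ^ m₃ * (θ ^ (m₀ - 1) * (ψ_i θ))` (`mem_relGood_log`; powers and products of `LogForms` are `LogForms` of the
   sum of the weights: prove this first: `G * G' * det ^ (m + m')`).
Independence: `indC` with `ξ`, `φ`, `ψ`.  Conclude by `Twr.of_good'` (Pf72953t/GoodUp.lean) with the index type `Fin (a + b + c) ≃ (Fin a ⊕ Fin b) ⊕ Fin c`.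
-/

set_option autoImplicit false
set_option linter.style.haveILetI false

open scoped WithZero
open Pf72953 Pf72953.Var Pf72953.Mov Pf72953.Ell

namespace Pf72953.Can

namespace CoreCAux

section ratios

variable {k E L ι : Type*} [Field k] [CharZero k] [Field E] [Field L] [Algebra k E] [Algebra k L]
  [Algebra E L] [Fintype ι] [DecidableEq ι]

theorem ratios_zero {a : ι → L} (h : (1 : L) ∈ Ratios k E a) : (0 : L) ∈ Ratios k E a := by
  obtain ⟨m', hm', V, hV, hVne, -⟩ := h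
  refine ⟨m', hm', V, hV, hVne, ?_⟩
  rw [zero_mul]
  intro w _ c t _ _ htb
  simp

end ratios

theorem secCost_mono {k B Y P : Type*} [Field k] [CharZero k] [Field B] [Field Y] [Field P]
    [Algebra k B] [Algebra k Y] [Algebra k P] [Algebra B P] [Algebra Y P] [IsScalarTower k B P]
    [IsScalarTower k Y P] {M : SmoothModel k Y} {A : LineBundle M} {wt : ℕ}
    {a : MovingSection M A wt B P} {C C' : ℕ} (h : SecCost k a C) (hC : C ≤ C') :
    SecCost k a C' := by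
  intro i cB hcB hz w hA c hc l
  refine le_trans ?_ (h i cB hcB hz w hA c hc l)
  exact mul_le_mul' (pow_le_pow_right_of_le_one' (relvol_le_one hcB hA hc) hC) le_rfl

theorem coefSec_congr {k Y J : Type*} [Field k] [CharZero k] [Field Y] [Algebra k Y] [Fintype J]
    {M : SmoothModel k Y} {S : J → LineBundle M} {y : Fin (dimension k Y) → Y} {m m' : ℕ}
    {q q' : J → ℕ} {g g' : Y} (h : g ∈ CoefSec M S y m q) (hm : m = m') (hq : ∀ j, q j = q' j)
    (hg : g = g') : g' ∈ CoefSec M S y m' q' := by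
  obtain rfl : q = q' := funext hq
  subst hm hg
  exact h

section logforms

variable {k Z L : Type*} [Field k] [Field Z] [Field L] [Algebra k L] [Algebra Z L] {r : ℕ}
  {s : Fin r → L}

theorem LogForms.mul {m m' : ℕ} {G G' : L} (hG : G ∈ LogForms k Z s m)
    (hG' : G' ∈ LogForms k Z s m') : G * G' ∈ LogForms k Z s (m + m') := by
  intro w hw
  refine ⟨fun d hd => ?_, fun hZ d hd => ?_⟩
  · rw [pow_add, mul_mul_mul_comm, map_mul]
    exact mul_le_one' ((hG w hw).1 d hd) ((hG' w hw).1 d hd)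
  · rw [pow_add, mul_mul_mul_comm, map_mul]
    exact mul_le_one' ((hG w hw).2 hZ d hd) ((hG' w hw).2 hZ d hd)

theorem LogForms.pow {m : ℕ} {G : L} (hG : G ∈ LogForms k Z s m) (n : ℕ) :
    G ^ n ∈ LogForms k Z s (n * m) := by
  induction n with
  | zero =>
    intro w hw
    refine ⟨fun d _ => ?_, fun _ d _ => ?_⟩ <;> simp
  | succ n ih =>
    have := LogForms.mul ih hG
    have h4 : n * m + m = (n + 1) * m := by ring
    rw [h4] at this
    rwa [pow_succ]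

end logforms

end CoreCAux

open CoreCAux

variable {k B E Y Z P L : Type*} [Field k] [CharZero k] [IsAlgClosed k] [Field B] [Field E]
  [Field Y] [Field Z] [Field P] [Field L]
  [Algebra k B] [Algebra k E] [Algebra k Y] [Algebra k Z] [Algebra k P] [Algebra k L]
  [Algebra B E] [Algebra B Z] [Algebra B P] [Algebra B L] [Algebra E L] [Algebra Y Z]
  [Algebra Y P] [Algebra Y L] [Algebra Z P] [Algebra Z L] [Algebra P L]
  [IsScalarTower k B E] [IsScalarTower k B Z] [IsScalarTower k B P] [IsScalarTower k B L]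
  [IsScalarTower k E L] [IsScalarTower k Y Z] [IsScalarTower k Y P] [IsScalarTower k Y L]
  [IsScalarTower k Z P] [IsScalarTower k Z L] [IsScalarTower k P L] [IsScalarTower B E L]
  [IsScalarTower B Z P] [IsScalarTower B Z L] [IsScalarTower B P L] [IsScalarTower Y Z P]
  [IsScalarTower Y Z L] [IsScalarTower Y P L] [IsScalarTower Z P L]
  [Algebra.EssFiniteType k B] [Algebra.EssFiniteType k Y] [Algebra.EssFiniteType k E]
  [FiniteDimensional E L] [FiniteDimensional Z P]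
  {M : SmoothModel k Y} {A : LineBundle M}

theorem coreC {r : ℕ} (hcomp : Twr.IsCompositum k B Y Z)
    (hdim : dimension k B + dimension k Y + r = dimension k E) (hunr : Unramified k B E L)
    {s : Fin r → L} (hs : IsTranscendenceBasis Z s) {e : ℕ} (he : 1 ≤ e) {G : L} (hG : G ≠ 0)
    (hreg : RegularOver k B Z A s e G) {J : Type*} [Fintype J] {T : J → MovingSection M A 1 B P}
    (hlog : ∀ j (w : Valuation L ℤᵐ⁰), IsDivisorial k L w →
      LogAt Z w s e (algebraMap P L (T j).sec * G)) (hT : ∃ j, (T j).sec ≠ 0)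
    (hM : KodairaGE k Y 0) {x : Fin (dimension k B) → B} (hx : IsTranscendenceBasis k x)
    {m₁ : ℕ} (hm₁ : 1 ≤ m₁) {h₀ : B} (hh₀ : h₀ ∈ WOrb k E x m₁) (hh₀ne : h₀ ≠ 0)
    {a b c : ℕ} {ξ : Fin a → P} (hξ : AlgebraicIndependent k ξ)
    (hξ' : ∀ i, (∃ f : B, ξ i = algebraMap B P f ∧ ∃ m : ℕ, 1 ≤ m ∧ ∃ h ∈ WOrb k E x m,
      h ≠ 0 ∧ f * h ∈ WOrb k E x m) ∨ ξ i ∈ coefRatios T)
    (hb : LogKodairaGE M (fun _ : Unit => A) b) (hψ : RelLogGE k Z s c) :
    KodairaGE k E (a + b + c) := by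
  classical
  haveI : Algebra.EssFiniteType k Z := essFinite_Z hcomp
  haveI : Algebra.EssFiniteType k P := Algebra.EssFiniteType.comp k Z P
  haveI : Algebra.EssFiniteType k L := Algebra.EssFiniteType.comp k E L
  obtain ⟨hdZ, hdP, hdL, hbZ, hbP, hbPL, hbL⟩ := basesC (P := P) hcomp hdim hs
  obtain ⟨y, hy⟩ := exists_tb k Y
  set ζ : Fin (dimension k Y) ⊕ Fin r → L := Sum.elim (fun j => algebraMap Y L (y j)) s with hζ
  have hzB : ∀ cB : Fin (dimension k B) → B, IsTranscendenceBasis k cB →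
      IsTranscendenceBasis k (Sum.elim (fun i => algebraMap B L (cB i)) ζ) := fun cB hcB =>
    hbL hcB hy
  set fam : Fin (dimension k B) ⊕ (Fin (dimension k Y) ⊕ Fin r) → L :=
    Sum.elim (fun i => algebraMap B L (x i)) ζ with hfam
  have hfamtb : IsTranscendenceBasis k fam := hzB x hx
  -- the forms on `M`
  obtain ⟨m₀, hm₀, ω₀, hω₀, hω₀ne⟩ := Br.pos_of_kodaira M (fun _ : Unit => A) hM
  obtain ⟨m₂, hm₂, η₀, hη₀, hη₀ne, φ, hφ, hφη⟩ := hb
  set g₀ := coef hy m₀ ω₀ with hg₀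
  set g₂ := coef hy m₂ η₀ with hg₂
  have hg₀mem := (mem_pluriSections_iff hy ω₀).mp hω₀
  have hg₂mem := (mem_pluriSections_iff hy η₀).mp hη₀
  rw [← hg₀] at hg₀mem
  rw [← hg₂] at hg₂mem
  have hg₀ne : g₀ ≠ 0 := fun h0 => hω₀ne (by rw [eq_coef_smul hy m₀ ω₀, ← hg₀, h0, zero_smul])
  have hg₂ne : g₂ ≠ 0 := fun h0 => hη₀ne (by rw [eq_coef_smul hy m₂ η₀, ← hg₂, h0, zero_smul])
  have hφmem : ∀ i, φ i * g₂ ∈ CoefSec M (fun _ : Unit => A) y m₂ (fun _ => m₂) :=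
    fun i => by
    have := (mem_pluriSections_iff hy _).mp (hφη i)
    rwa [map_smul, smul_eq_mul] at this
  -- the certificates
  choose C' hC' using fun j => exists_secCost (k := k) (T j)
  obtain ⟨C, hC⟩ : ∃ C, ∀ j, SecCost k (T j) C := ⟨∑ j, C' j, fun j =>
    secCost_mono (hC' j) (Finset.single_le_sum (fun _ _ => Nat.zero_le _) (Finset.mem_univ j))⟩
  obtain ⟨j₀, hj₀⟩ := hT
  obtain ⟨l₀, hl₀⟩ : ∃ l, (T j₀).a l ≠ 0 := by
    by_contra hcon
    push Not at hcon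
    apply hj₀
    simp [MovingSection.sec, hcon]
  set β₀ : P := (T j₀).a l₀ with hβ₀
  -- the weights
  obtain ⟨K, hK⟩ : ∃ K, K = 2 * C * m₂ + e * m₂ + m₂ := ⟨_, rfl⟩
  obtain ⟨q, hq⟩ : ∃ q, q = e * m₂ := ⟨_, rfl⟩
  have hK1 : K ≤ m₀ * K := Nat.le_mul_of_pos_left _ (by omega)
  obtain ⟨p, hp⟩ : ∃ p, q + p = m₀ * K + m₂ := ⟨m₀ * K + m₂ - q, by omega⟩
  obtain ⟨m, hm⟩ : ∃ m, m = e * (q + p) := ⟨_, rfl⟩
  have hq1 : 1 ≤ q := by
    rw [hq]
    exact Nat.mul_pos he hm₂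
  have hm1 : 1 ≤ m := by
    rw [hm]
    exact Nat.mul_pos he (by omega)
  have hqm : 2 * (C * q) ≤ m := by
    have h1 : 2 * (C * q) = e * (2 * C * m₂) := by rw [hq]; ring
    rw [h1, hm]
    refine Nat.mul_le_mul_left _ ?_
    omega
  have hmm : m = e * K * m₀ + e * m₂ := by
    rw [hm, hp]
    ring
  have hg : g₀ ^ (e * K) * g₂ ^ e ∈ CoefSec M (fun _ : Unit => A) y m (fun _ => q) :=
    coefSec_congr (CoefSec.mul (CoefSec.pow hg₀mem (e * K)) (CoefSec.pow hg₂mem e))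
      (by rw [hmm]) (fun _ => by rw [hq]; ring) rfl
  obtain ⟨e', he'⟩ : ∃ e', e = e' + 1 := ⟨e - 1, by omega⟩
  have hgφ : ∀ i, g₀ ^ (e * K) * (g₂ ^ e' * (φ i * g₂)) ∈
      CoefSec M (fun _ : Unit => A) y m (fun _ => q) := fun i =>
    coefSec_congr (CoefSec.mul (CoefSec.pow hg₀mem (e * K))
      (CoefSec.mul (CoefSec.pow hg₂mem e') (hφmem i)))
      (by rw [hmm, he']; ring) (fun _ => by rw [hq, he']; ring) rfl
  -- the forms of the second factor
  set V : Y → P → L := fun g ν => algebraMap Y L g *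
    algebraMap P L (ν * (T j₀).sec ^ p) * G ^ (q + p) with hV
  have key : ∀ {g : Y}, g ∈ CoefSec M (fun _ : Unit => A) y m (fun _ => q) →
      ∀ {ν : P}, ν ∈ NumT T q → V g ν ∈ RelGood k B E ζ m := by
    intro g hg ν hν
    exact mem_relGood hcomp hdim hunr hs hreg hlog hC hy hm hqm hg hν j₀
  have hVne : ∀ {g : Y} {ν : P}, g ≠ 0 → ν ≠ 0 → V g ν ≠ 0 := by
    intro g ν hg hν
    refine mul_ne_zero (mul_ne_zero (by simpa using hg) ?_) (pow_ne_zero _ hG)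
    rw [Ne, map_eq_zero]
    exact mul_ne_zero hν (pow_ne_zero _ hj₀)
  have hG₀ne : g₀ ^ (e * K) * g₂ ^ e ≠ 0 :=
    mul_ne_zero (pow_ne_zero _ hg₀ne) (pow_ne_zero _ hg₂ne)
  have hnum : ∀ (j : J) (l : Fin (T j).r), (T j).a l ^ q ∈ NumT T q := fun j l => by
    have := NumT.pow (NumT.coeff T j l) q
    rwa [one_mul] at this
  -- the two factors
  set 𝒲 : Bool → ℕ → Set L := fun f m => match f with
    | false => algebraMap B L '' WOrb k E x m
    | true => RelGood k B E ζ m with h𝒲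
  have hmul : ∀ f m m', ∀ W ∈ 𝒲 f m, ∀ W' ∈ 𝒲 f m', W * W' ∈ 𝒲 f (m + m') := by
    intro f m m' W hW W' hW'
    rcases f with _ | _
    · obtain ⟨h, hh, rfl⟩ := hW
      obtain ⟨h', hh', rfl⟩ := hW'
      exact ⟨h * h', WOrb.mul' hh hh', map_mul _ _ _⟩
    · exact RelGood.mul hW hW'
  have hprod : ∀ m : ℕ, ∀ W : Bool → L, (∀ f, W f ∈ 𝒲 f m) → ∏ f, W f ∈ GoodL k E fam m := by
    intro m W hW
    obtain ⟨h, hh, hhW⟩ := hW false
    have h1 : ∏ f, W f = algebraMap B L h * W true := by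
      rw [Fintype.prod_bool, ← hhW, mul_comm]
    rw [h1]
    exact mul_mem_GoodL hx hzB hh (hW true)
  have hne : ∀ f, ∃ m : ℕ, 1 ≤ m ∧ ∃ W ∈ 𝒲 f m, W ≠ 0 := by
    intro f
    rcases f with _ | _
    · exact ⟨m₁, hm₁, algebraMap B L h₀, ⟨h₀, hh₀, rfl⟩, by simpa using hh₀ne⟩
    · exact ⟨m, hm1, V (g₀ ^ (e * K) * g₂ ^ e) (β₀ ^ q), key hg (hnum j₀ l₀),
        hVne hG₀ne (pow_ne_zero _ hl₀)⟩
  have hfac := mem_ratios_of_factor (k := k) (E := E) (a := fam) 𝒲 hmul hprod hne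
  -- the ratios
  have hR1 : (1 : L) ∈ Ratios k E fam :=
    hfac true 1 ⟨m, hm1, V (g₀ ^ (e * K) * g₂ ^ e) (β₀ ^ q), key hg (hnum j₀ l₀),
      hVne hG₀ne (pow_ne_zero _ hl₀), by rw [one_mul]; exact key hg (hnum j₀ l₀)⟩
  have hRB : ∀ f : B, (∃ m : ℕ, 1 ≤ m ∧ ∃ h ∈ WOrb k E x m, h ≠ 0 ∧ f * h ∈ WOrb k E x m) →
      algebraMap B L f ∈ Ratios k E fam := by
    rintro f ⟨m', hm', h, hh, hne', hfh⟩
    exact hfac false _ ⟨m', hm', algebraMap B L h, ⟨h, hh, rfl⟩, by simpa using hne',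
      ⟨f * h, hfh, map_mul _ _ _⟩⟩
  have hRY : ∀ i, algebraMap Y L (φ i) ∈ Ratios k E fam := by
    intro i
    refine hfac true _ ⟨m, hm1, V (g₀ ^ (e * K) * g₂ ^ e) (β₀ ^ q), key hg (hnum j₀ l₀),
      hVne hG₀ne (pow_ne_zero _ hl₀), ?_⟩
    have h2 : algebraMap Y L (φ i) * V (g₀ ^ (e * K) * g₂ ^ e) (β₀ ^ q) =
        V (g₀ ^ (e * K) * (g₂ ^ e' * (φ i * g₂))) (β₀ ^ q) := by
      have h3 : g₀ ^ (e * K) * (g₂ ^ e' * (φ i * g₂)) = φ i * (g₀ ^ (e * K) * g₂ ^ e) := by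
        have h4 : g₂ ^ e = g₂ ^ e' * g₂ := by rw [he', pow_succ]
        rw [h4]
        ring
      rw [h3, hV]
      simp only
      rw [map_mul (algebraMap Y L) (φ i)]
      ring
    rw [h2]
    exact key (hgφ i) (hnum j₀ l₀)
  have hRT : ∀ θ ∈ coefRatios T, algebraMap P L θ ∈ Ratios k E fam := by
    rintro θ ⟨j, l, j', l', rfl⟩
    by_cases hβ0 : (T j').a l' = 0
    · rw [hβ0, div_zero, map_zero]
      exact ratios_zero hR1
    · obtain ⟨q', hq'⟩ : ∃ q', q = q' + 1 := ⟨q - 1, by omega⟩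
      have hn : ∀ (j₁ : J) (l₁ : Fin (T j₁).r), (T j₁).a l₁ * (T j').a l' ^ q' ∈ NumT T q := by
        intro j₁ l₁
        have h1 := NumT.mul (NumT.coeff T j₁ l₁) (NumT.pow (NumT.coeff T j' l') q')
        rwa [one_mul, add_comm, ← hq'] at h1
      refine hfac true _ ⟨m, hm1, V (g₀ ^ (e * K) * g₂ ^ e) ((T j').a l' * (T j').a l' ^ q'),
        key hg (hn j' l'), hVne hG₀ne (mul_ne_zero hβ0 (pow_ne_zero _ hβ0)), ?_⟩
      have h2 : algebraMap P L ((T j).a l / (T j').a l') *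
          V (g₀ ^ (e * K) * g₂ ^ e) ((T j').a l' * (T j').a l' ^ q') =
          V (g₀ ^ (e * K) * g₂ ^ e) ((T j).a l * (T j').a l' ^ q') := by
        have h3 : (T j).a l * (T j').a l' ^ q' =
            ((T j).a l / (T j').a l') * ((T j').a l' * (T j').a l' ^ q') := by
          field_simp
        rw [h3, hV]
        simp only [map_mul]
        ring
      rw [h2]
      exact key hg (hn j l)
  -- the relative forms
  obtain ⟨m₃, hm₃, θ₀, hθ₀, hθ₀ne, ψ, hψ, hψθ⟩ := hψ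
  have hRψ : ∀ i, ψ i ∈ Ratios k E fam := by
    intro i
    obtain ⟨m₀', hm₀'⟩ : ∃ m₀', m₀ = m₀' + 1 := ⟨m₀ - 1, by omega⟩
    have hg₃ : g₀ ^ m₃ ∈ CoefSec M (fun _ : Unit => A) y (m₃ * m₀) (fun _ => 0) :=
      coefSec_congr (CoefSec.pow hg₀mem m₃) rfl (fun _ => mul_zero _) rfl
    have h1 : θ₀ ^ m₀ ∈ LogForms k Z s (m₃ * m₀) := by
      have := LogForms.pow hθ₀ m₀
      rwa [mul_comm m₀ m₃] at this
    have h2 : ψ i * θ₀ ^ m₀ ∈ LogForms k Z s (m₃ * m₀) := by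
      have := LogForms.mul (hψθ i) (LogForms.pow hθ₀ m₀')
      have h3 : m₃ + m₀' * m₃ = m₃ * m₀ := by rw [hm₀']; ring
      rw [h3] at this
      have h4 : ψ i * θ₀ ^ m₀ = ψ i * θ₀ * θ₀ ^ m₀' := by rw [hm₀', pow_succ]; ring
      rwa [h4]
    refine hfac true _ ⟨m₃ * m₀, Nat.mul_pos hm₃ hm₀, algebraMap Y L (g₀ ^ m₃) * θ₀ ^ m₀,
      mem_relGood_log hcomp hdim hunr hs hy hg₃ h1,
      mul_ne_zero (by simpa using pow_ne_zero _ hg₀ne) (pow_ne_zero _ hθ₀ne), ?_⟩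
    have h5 : ψ i * (algebraMap Y L (g₀ ^ m₃) * θ₀ ^ m₀) =
        algebraMap Y L (g₀ ^ m₃) * (ψ i * θ₀ ^ m₀) := by ring
    rw [h5]
    exact mem_relGood_log hcomp hdim hunr hs hy hg₃ h2
  -- the algebraically independent family
  have hξL : AlgebraicIndependent k (fun i => algebraMap P L (ξ i)) :=
    hξ.map' (f := IsScalarTower.toAlgHom k P L) (algebraMap P L).injective
  have hξB : ∀ i, IsAlgebraic B (algebraMap P L (ξ i)) := by
    intro i
    refine IsAlgebraic.algebraMap ?_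
    rcases hξ' i with ⟨f, hf, -⟩ | ⟨j, l, j', l', hi⟩
    · rw [hf]
      exact isAlgebraic_algebraMap f
    · rw [hi, div_eq_mul_inv]
      exact ((T j).a_alg l).mul ((T j').a_alg l').inv
  have hind := indC hcomp hdZ hξL hξB hφ hψ
  let eq : (Fin a ⊕ Fin b) ⊕ Fin c ≃ Fin (a + b + c) :=
    (Equiv.sumCongr finSumFinEquiv (Equiv.refl (Fin c))).trans finSumFinEquiv
  have hθind := hind.comp _ eq.symm.injective
  refine Twr.of_good' (a := fam) hfamtb hθind (fun i => ?_) hR1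
  simp only [Function.comp_apply]
  rcases eq.symm i with (i' | i') | i'
  · simp only [Sum.elim_inl]
    rcases hξ' i' with ⟨f, hf, hfm⟩ | hi
    · rw [hf, ← IsScalarTower.algebraMap_apply B P L]
      exact hRB f hfm
    · exact hRT _ hi
  · simp only [Sum.elim_inl, Sum.elim_inr]
    exact hRY i'
  · simp only [Sum.elim_inr]
    exact hRψ i'

end Pf72953.Can
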