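import Mathlib
import Pool.Agent.Lib.Pf72953e.CountE
import Pool.Agent.Lib.Pf72953c.Defs

/-!
MODULE Pf72953c.CountC: sections of `m (K + A)` over the field `κ` of constants.

PROOF.  This is `countE` (Pf72953e/CountE.lean) for `J = PEmpty.{1}` (the products over `PEmpty.{1}` are `1`), followed by `LogKodairaGE M (bundles A S) c → LogKodairaGE M (fun _ : Unit => A) c` for
`S : PEmpty → LineBundle M`: `pluriSections M (bundles A S) m (fun _ => m) = pluriSections M (fun _ : Unit => A) m (fun _ => m)`, since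
`∏ j : Option PEmpty, (bundles A S j).gen i ^ m = A.gen i ^ m = ∏ j : Unit, A.gen i ^ m` (`Fintype.prod_option`, `bundles`).
-/

set_option autoImplicit false
set_option linter.style.haveILetI false

open scoped WithZero
open Pf72953 Pf72953.Mov Pf72953.Up Pf72953.Ell

namespace Pf72953.Can

variable {k κ Y K : Type*} [Field k] [CharZero k] [IsAlgClosed k] [Field κ] [CharZero κ]
  [Field Y] [Field K] [Algebra k κ] [Algebra k Y] [Algebra k K] [Algebra κ K] [Algebra Y K]
  [IsScalarTower k κ K] [IsScalarTower k Y K] [Algebra.EssFiniteType k Y]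
  [Algebra.EssFiniteType κ K] {M : SmoothModel k Y}

/-- the local bounds for the coefficients of the relative forms -/
def LocBdC (κ : Type*) {K : Type*} [Field κ] [CharZero κ] [Field K] [Algebra κ K] [Algebra Y K]
    (A : LineBundle M) (y : Fin (dimension k Y) → Y) (m : ℕ) : Set K :=
  {F | ∀ v : Valuation K ℤᵐ⁰, IsDivisorial κ K v → ∀ i,
    RegBasis κ v (fun a => algebraMap Y K (M.x i a)) → (∀ f ∈ bc κ K (M.A i), v f ≤ 1) →
    v (F * algebraMap Y K (jac (M.tb i) y) ^ m) ≤ v (algebraMap Y K (A.gen i)) ^ m}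

theorem countC [Nonempty M.I] (A : LineBundle M)
    (htb : ∀ y : Fin (dimension k Y) → Y, IsTranscendenceBasis k y →
      IsTranscendenceBasis κ (fun i => algebraMap Y K (y i)))
    (hgen : ∀ z : K, z ∈ IntermediateField.adjoin κ (Set.range (algebraMap Y K)))
    {y : Fin (dimension k Y) → Y} (hy : IsTranscendenceBasis k y) {m c : ℕ} (hm : 1 ≤ m) {f₀ : K}
    (hf₀ : f₀ ∈ LocBdC κ A y m) (hne : f₀ ≠ 0) {f : Fin c → K}
    (hf : AlgebraicIndependent κ f) (hff : ∀ i, f i * f₀ ∈ LocBdC κ A y m) :
    LogKodairaGE M (fun _ : Unit => A) c := by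
  classical
  have hconv : ∀ {F : K}, F ∈ LocBdC κ A y m → F ∈ LocBd κ A
      (fun j : PEmpty.{1} => (j.elim : LineBundle M)) (fun j : PEmpty.{1} => (j.elim : K)) y m := by
    intro F hF v hv i hvx hvA
    rw [Finset.univ_eq_empty, Finset.prod_empty, mul_one]
    exact hF v hv i hvx hvA
  have hsec : ∀ m' : ℕ, pluriSections M (bundles A (fun j : PEmpty.{1} => (j.elim : LineBundle M))) m'
      (fun _ => m') = pluriSections M (fun _ : Unit => A) m' (fun _ => m') := by
    intro m'
    have hprod : ∀ i : M.I,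
        ∏ j, (bundles A (fun j : PEmpty.{1} => (j.elim : LineBundle M)) j).gen i ^ m' =
          ∏ _j : Unit, A.gen i ^ m' := by
      intro i
      rw [Fintype.prod_option, Finset.univ_eq_empty (α := PEmpty.{1}), Finset.prod_empty, mul_one]
      simp [bundles]
    ext ω
    constructor
    · intro h i
      obtain ⟨f, hf, he⟩ := h i
      exact ⟨f, hf, by rw [he, hprod]⟩
    · intro h i
      obtain ⟨f, hf, he⟩ := h i
      exact ⟨f, hf, by rw [he, hprod]⟩
  obtain ⟨m', hm', ω₀, hω₀, hne₀, f', hf', hff'⟩ := countE (J := PEmpty.{1}) A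
    (fun j : PEmpty.{1} => (j.elim : LineBundle M)) (s := fun j : PEmpty.{1} => (j.elim : K))
    (fun j => j.elim) htb hgen hy hm (hconv hf₀) hne hf (fun i => hconv (hff i))
  rw [hsec] at hω₀
  simp only [hsec] at hff'
  exact ⟨m', hm', ω₀, hω₀, hne₀, f', hf', hff'⟩

end Pf72953.Can
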