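import Mathlib
import Pool.Agent.Lib.Pf72953u.Main
import Pool.Agent.Lib.Pf72953c.Defs

/-!
MODULE Pf72953c.CountN: sections of `m (K + A)` over the field `κ` of constants, from a finite extension `P` of `K = κ·Y`.

PROOF.  Adapt `Up.nf_mem` and `Up.upper` (Pf72953u/Main.lean) with `L := P`, without the divisors `S j`, with the line bundle `A`, and with the local bounds `LocBdN` in place of `WReg`.
`Ω` = the normal closure of `P/K` (`IntermediateField.normalClosure K P (AlgebraicClosure P)`, Galois over `K`; see the instances in the proof of `Twr.of_good'`, Pf72953t/GoodUp.lean), `d = [Ω : K]`.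
For `F ∈ LocBdN κ K A y m`: `nf F = Algebra.norm K (algebraMap P Ω F)`, `u i = A.gen i ^ (m * d) * (jac (M.tb i) y ^ (m * d))⁻¹`.  `nf F / u i ∈ bc κ K (M.A i)`: otherwise (Hartogs, as in `nf_mem`) there is a divisorial `v` on `K/κ` with
`RegBasis κ v x_i`, `v ≤ 1` on `bc κ K (M.A i)` and `v (nf F / u i) > 1`; but `nf F / u i = norm (algebraMap P Ω G)` for `G = F * jac ^ m / gen_A ^ m` (`Algebra.norm_algebraMap`), and `norm_le_one` reduces the claim to `w G ≤ 1` for all
valuations `w` of `P` with `w z ≤ 1 ↔ v z ≤ 1` on `K`; `w` is divisorial on `P/κ` and its restriction to `K` has the same properties as `v` (`hv'div`, `hv'x`, `hv'A` and `hwdiv` in `nf_mem`), so `w G ≤ 1` by `F ∈ LocBdN`.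
Then as in `upper`: `V = CoefSec M (fun _ : Unit => A) y (m * d) (fun _ => m * d)`, `descent`, the field `F₀` of the ratios of sections contains all `norm (f i + l)`, `l : ℕ` (`LocBdN` is closed under addition and multiplication by constants of `κ`:
`Valuation.map_add`; constants have value `≤ 1`), so `f i` is algebraic over it (`isAlgebraic_of_norm`), and `exists_indep_in_set` concludes.
-/

set_option autoImplicit false
set_option linter.style.haveILetI false

open scoped WithZero
open Pf72953 Pf72953.Mov Pf72953.Up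

namespace Pf72953.Can

variable {k κ Y K P : Type*} [Field k] [CharZero k] [IsAlgClosed k] [Field κ] [CharZero κ]
  [Field Y] [Field K] [Field P] [Algebra k κ] [Algebra k Y] [Algebra k K] [Algebra k P]
  [Algebra κ K] [Algebra κ P] [Algebra Y K] [Algebra Y P] [Algebra K P]
  [IsScalarTower k κ K] [IsScalarTower k Y K] [IsScalarTower k κ P] [IsScalarTower k Y P]
  [IsScalarTower κ K P] [IsScalarTower Y K P] [IsScalarTower k K P] [FiniteDimensional K P]
  [Algebra.EssFiniteType k Y] [Algebra.EssFiniteType κ K] [Algebra.EssFiniteType κ P]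
  {M : SmoothModel k Y}

/-- the local bounds for the coefficients of the relative forms -/
def LocBdN (κ K : Type*) {P : Type*} [Field κ] [CharZero κ] [Field K] [Field P] [Algebra κ K]
    [Algebra κ P] [Algebra Y K] [Algebra Y P] [Algebra K P]
    (A : LineBundle M) (y : Fin (dimension k Y) → Y) (m : ℕ) : Set P :=
  {F | ∀ w : Valuation P ℤᵐ⁰, IsDivisorial κ P w → ∀ i,
    RegBasis κ (w.comap (algebraMap K P)) (fun a => algebraMap Y K (M.x i a)) →
    (∀ f ∈ bc κ K (M.A i), w (algebraMap K P f) ≤ 1) →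
    w (F * algebraMap Y P (jac (M.tb i) y) ^ m) ≤ w (algebraMap Y P (A.gen i)) ^ m}

namespace CountNAux

omit [IsAlgClosed k] [IsScalarTower k κ K] [IsScalarTower k Y K] [IsScalarTower k κ P]
  [IsScalarTower k Y P] [IsScalarTower κ K P] [IsScalarTower Y K P] [IsScalarTower k K P]
  [Algebra k K] [Algebra k P] [FiniteDimensional K P] [Algebra.EssFiniteType k Y]
  [Algebra.EssFiniteType κ K] [Algebra.EssFiniteType κ P] [Algebra k κ] in
theorem locBdN_add {A : LineBundle M} {y : Fin (dimension k Y) → Y} {m : ℕ} {F G : P}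
    (hF : F ∈ LocBdN κ K A y m) (hG : G ∈ LocBdN κ K A y m) : F + G ∈ LocBdN κ K A y m := by
  intro w hw i hx hA
  rw [add_mul]
  exact (w.map_add _ _).trans (max_le (hF w hw i hx hA) (hG w hw i hx hA))

omit [IsAlgClosed k] [IsScalarTower k κ K] [IsScalarTower k Y K] [IsScalarTower k κ P]
  [IsScalarTower k Y P] [IsScalarTower κ K P] [IsScalarTower Y K P] [IsScalarTower k K P]
  [Algebra k K] [Algebra k P] [FiniteDimensional K P] [Algebra.EssFiniteType k Y]
  [Algebra.EssFiniteType κ K] [Algebra.EssFiniteType κ P] [Algebra k κ] in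
theorem locBdN_smul {A : LineBundle M} {y : Fin (dimension k Y) → Y} {m : ℕ} {F : P}
    (hF : F ∈ LocBdN κ K A y m) (c : κ) : algebraMap κ P c * F ∈ LocBdN κ K A y m := by
  intro w hw i hx hA
  rw [mul_assoc, map_mul]
  rcases eq_or_ne c 0 with hc | hc
  · rw [hc, map_zero, map_zero, zero_mul]
    exact zero_le
  · rw [hw.const c hc, one_mul]
    exact hF w hw i hx hA

variable (Ω : Type*) [Field Ω] [Algebra κ Ω] [Algebra K Ω] [Algebra P Ω]
  [IsScalarTower K P Ω] [IsScalarTower κ K Ω] [FiniteDimensional K Ω] [IsGalois K Ω]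

set_option linter.unusedSectionVars false in
theorem locBdN_mem {A : LineBundle M}
    (htb : ∀ y : Fin (dimension k Y) → Y, IsTranscendenceBasis k y →
      IsTranscendenceBasis κ (fun i => algebraMap Y K (y i)))
    (hgen : ∀ z : K, z ∈ IntermediateField.adjoin κ (Set.range (algebraMap Y K)))
    {y : Fin (dimension k Y) → Y} (hy : IsTranscendenceBasis k y) {m : ℕ} {F : P}
    (hF : F ∈ LocBdN κ K A y m) (i : M.I) :
    ∃ f ∈ bc κ K (M.A i), Algebra.norm K (algebraMap P Ω F) = f * algebraMap Y K
      (A.gen i ^ (m * Module.finrank K Ω) *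
        (jac (M.tb i) y ^ (m * Module.finrank K Ω))⁻¹) := by
  classical
  set d := Module.finrank K Ω with hd
  set u : Y := A.gen i ^ (m * d) * (jac (M.tb i) y ^ (m * d))⁻¹ with hu
  have hjac : jac (M.tb i) y ≠ 0 := jac_ne_zero hy (M.tb i)
  have hA0 : A.gen i ≠ 0 := A.ne i
  have hu0 : u ≠ 0 := mul_ne_zero (pow_ne_zero _ hA0) (inv_ne_zero (pow_ne_zero _ hjac))
  have huK : algebraMap Y K u ≠ 0 := by simpa using hu0
  refine ⟨Algebra.norm K (algebraMap P Ω F) / algebraMap Y K u, ?_,
    by rw [div_mul_cancel₀ _ huK]⟩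
  by_contra hcon
  have hxK := htb _ (M.tb i)
  obtain ⟨v, hv, hvx, hvA, hvF⟩ := ((chart_of_model M i).baseChange hxK hgen).hartogs hcon
  refine absurd hvF (not_lt.mpr ?_)
  have hjK : algebraMap Y K (jac (M.tb i) y) ≠ 0 := by simpa using hjac
  have hAK : algebraMap Y K (A.gen i) ≠ 0 := by simpa using hA0
  have hjP : algebraMap Y P (jac (M.tb i) y) ≠ 0 := by simpa using hjac
  have hAP : algebraMap Y P (A.gen i) ≠ 0 := by simpa using hA0
  -- the function whose norm we take
  set a : K := algebraMap Y K (jac (M.tb i) y) ^ m / algebraMap Y K (A.gen i) ^ m with ha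
  set G : P := F * algebraMap K P a with hG
  have hnorm : Algebra.norm K (algebraMap P Ω F) / algebraMap Y K u =
      Algebra.norm K (algebraMap P Ω G) := by
    have h1 : algebraMap P Ω G = algebraMap P Ω F * algebraMap K Ω a := by
      rw [hG, map_mul, ← IsScalarTower.algebraMap_apply K P Ω]
    have h1' : Algebra.norm K (algebraMap P Ω F * algebraMap K Ω a) =
        Algebra.norm K (algebraMap P Ω F) * a ^ d := by
      rw [map_mul, Algebra.norm_algebraMap]
    rw [h1, h1', ha, div_eq_iff huK, hu]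
    simp only [map_mul, map_inv₀, map_pow, div_pow, ← pow_mul]
    field_simp
  rw [hnorm]
  refine norm_le_one hv.nontrivial fun w hw => ?_
  -- transfer to the equivalent valuation
  set v' := w.comap (algebraMap K P) with hv'
  have hequiv : ∀ a : K, v' a ≤ 1 ↔ v a ≤ 1 := hw
  have hequiv1 : ∀ a : K, v' a = 1 ↔ v a = 1 := by
    have := (Valuation.isEquiv_iff_val_le_one (v := v') (v' := v)).mpr (fun {a} => hequiv a)
    intro a
    exact (Valuation.isEquiv_iff_val_eq_one.mp this)
  have hv'div : IsDivisorial κ K v' := by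
    refine ⟨fun c hc => (hequiv1 _).mpr (hv.const c hc), ?_, ?_⟩
    · obtain ⟨a, ha0, ha⟩ := hv.nontrivial
      exact ⟨a, ha0, fun h => ha ((hequiv1 a).mp h)⟩
    · obtain ⟨ξ, hξ⟩ := hv.resid
      exact ⟨ξ, fun p hp => (hequiv1 _).mpr (hξ p hp)⟩
  have hv'x : RegBasis κ v' (fun a => algebraMap Y K (M.x i a)) :=
    ⟨hvx.tb, fun a => (hequiv _).mpr (hvx.le_one a),
      fun a z hz => (hequiv _).mpr (hvx.der a z ((hequiv z).mp hz))⟩
  have hv'A : ∀ a ∈ bc κ K (M.A i), v' a ≤ 1 := fun a ha => (hequiv a).mpr (hvA a ha)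
  have hxP : IsTranscendenceBasis κ (fun a => algebraMap Y P (M.x i a)) := by
    have h1 := hxK.algebraMap_comp (A := P)
    refine (iff_of_eq (congrArg _ ?_)).mp h1
    funext a
    exact (IsScalarTower.algebraMap_apply Y K P (M.x i a)).symm
  have hdim : dimension κ P = dimension κ K := by
    have h1 := card_eq_of_isTranscendenceBasis hxK
    have h2 := card_eq_of_isTranscendenceBasis hxP
    rw [← h1, ← h2]
  have hwdiv : IsDivisorial κ P w := IsDivisorial.of_comap hdim hv'div
  have h1 := hF w hwdiv i hv'x hv'A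
  have h2 : G = F * algebraMap Y P (jac (M.tb i) y) ^ m / algebraMap Y P (A.gen i) ^ m := by
    rw [hG, ha, map_div₀, map_pow, map_pow, ← IsScalarTower.algebraMap_apply Y K P,
      ← IsScalarTower.algebraMap_apply Y K P, mul_div_assoc]
  rw [h2, map_div₀, map_pow w]
  exact div_le_one_of_le₀ h1 zero_le

include Ω in
theorem countN_aux [Nonempty M.I] (A : LineBundle M)
    (htb : ∀ y : Fin (dimension k Y) → Y, IsTranscendenceBasis k y →
      IsTranscendenceBasis κ (fun i => algebraMap Y K (y i)))
    (hgen : ∀ z : K, z ∈ IntermediateField.adjoin κ (Set.range (algebraMap Y K)))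
    {y : Fin (dimension k Y) → Y} (hy : IsTranscendenceBasis k y) {m c : ℕ} (hm : 1 ≤ m) {f₀ : P}
    (hf₀ : f₀ ∈ LocBdN κ K A y m) (hne : f₀ ≠ 0) {f : Fin c → P}
    (hf : AlgebraicIndependent κ f) (hff : ∀ i, f i * f₀ ∈ LocBdN κ K A y m) :
    LogKodairaGE M (fun _ : Unit => A) c := by
  classical
  set d := Module.finrank K Ω with hd
  have hd1 : 1 ≤ d := Module.finrank_pos
  let b : Module.Basis _ k κ := Module.Basis.ofVectorSpace k κ
  have hlin : LinearIndependent Y (fun g => algebraMap κ K (b g)) :=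
    linearIndependent_const hy (htb y hy) b.linearIndependent
  set u : M.I → Y := fun i => A.gen i ^ (m * d) * (jac (M.tb i) y ^ (m * d))⁻¹ with hu
  -- the space of sections
  set V : Set Y := CoefSec M (fun _ : Unit => A) y (m * d) (fun _ => m * d) with hV
  have hVu : ∀ p : Y, (∀ i, ∃ f ∈ M.A i, p = f * u i) → p ∈ V := by
    intro p hp i
    obtain ⟨f, hf, h⟩ := hp i
    refine ⟨f, hf, ?_⟩
    have hjac : jac (M.tb i) y ≠ 0 := jac_ne_zero hy (M.tb i)
    rw [h, hu, Fintype.prod_unique]
    field_simp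
  have hexp : ∀ g ∈ LocBdN κ K A y m, ∃ p : _ →₀ Y,
      (Algebra.norm K (algebraMap P Ω g) = p.sum fun g y => algebraMap κ K (b g) * algebraMap Y K y) ∧
        ∀ g, p g ∈ V := by
    intro g hg
    obtain ⟨p, hp, hpu⟩ := descent b hlin M.A u (P := Algebra.norm K (algebraMap P Ω g))
      (fun i => locBdN_mem Ω htb hgen hy hg i)
    exact ⟨p, hp, fun g => hVu _ fun i => hpu i g⟩
  -- the base section
  have hnf0 : ∀ g : P, g ≠ 0 → Algebra.norm K (algebraMap P Ω g) ≠ 0 := by
    intro g hg
    rw [Algebra.norm_ne_zero_iff]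
    simpa using hg
  obtain ⟨v₀, hv₀, hv₀ne⟩ : ∃ v₀ ∈ V, v₀ ≠ 0 := by
    obtain ⟨p, hp, hpV⟩ := hexp f₀ hf₀
    by_contra hcon
    push Not at hcon
    apply hnf0 f₀ hne
    rw [hp]
    refine Finset.sum_eq_zero fun g _ => ?_
    change algebraMap κ K (b g) * algebraMap Y K (p g) = 0
    rw [hcon _ (hpV g), map_zero, mul_zero]
  -- the ratios of sections
  set T : Set Ω := {θ | ∃ p ∈ V, θ = algebraMap K Ω (algebraMap Y K (p / v₀))} with hT
  set F₀ := IntermediateField.adjoin κ T with hF₀
  have hmemF : ∀ g ∈ LocBdN κ K A y m,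
      algebraMap K Ω (Algebra.norm K (algebraMap P Ω g) / algebraMap Y K v₀) ∈ F₀ := by
    intro g hg
    obtain ⟨p, hp, hpV⟩ := hexp g hg
    rw [hp, Finsupp.sum, Finset.sum_div, map_sum]
    refine F₀.sum_mem fun q _ => ?_
    rw [mul_div_assoc, map_mul, ← IsScalarTower.algebraMap_apply κ K Ω, ← map_div₀]
    exact F₀.mul_mem (F₀.algebraMap_mem _) (IntermediateField.subset_adjoin κ T ⟨_, hpV q, rfl⟩)
  haveI : IsScalarTower κ P Ω := IsScalarTower.of_algebraMap_eq fun a => by
    rw [IsScalarTower.algebraMap_apply κ K Ω, IsScalarTower.algebraMap_apply K P Ω,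
      ← IsScalarTower.algebraMap_apply κ K P]
  have hratio : ∀ i, ∀ l : ℕ, algebraMap K Ω (Algebra.norm K
      (algebraMap P Ω (f i) + algebraMap κ Ω (l : κ))) ∈ F₀ := by
    intro i l
    have h1 : (f i + algebraMap κ P (l : κ)) * f₀ ∈ LocBdN κ K A y m := by
      rw [add_mul]
      exact locBdN_add (hff i) (locBdN_smul hf₀ _)
    have h2 := F₀.div_mem (hmemF _ h1) (hmemF _ hf₀)
    have h3 : algebraMap K Ω (Algebra.norm K (algebraMap P Ω
        ((f i + algebraMap κ P (l : κ)) * f₀)) / algebraMap Y K v₀) /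
        algebraMap K Ω (Algebra.norm K (algebraMap P Ω f₀) / algebraMap Y K v₀) =
        algebraMap K Ω (Algebra.norm K (algebraMap P Ω (f i) + algebraMap κ Ω (l : κ))) := by
      rw [← map_div₀]
      congr 1
      have h4 : Algebra.norm K (algebraMap P Ω ((f i + algebraMap κ P (l : κ)) * f₀)) =
          Algebra.norm K (algebraMap P Ω (f i) + algebraMap κ Ω (l : κ)) *
            Algebra.norm K (algebraMap P Ω f₀) := by
        rw [map_mul (algebraMap P Ω), map_mul, map_add, ← IsScalarTower.algebraMap_apply κ P Ω]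
      have h5 := hnf0 f₀ hne
      have h6 : algebraMap Y K v₀ ≠ 0 := by simpa using hv₀ne
      rw [h4]
      field_simp
    rwa [h3] at h2
  have halg : ∀ i, IsAlgebraic (Algebra.adjoin κ T) (algebraMap P Ω (f i)) := by
    intro i
    rw [← IntermediateField.isAlgebraic_adjoin_iff]
    exact isAlgebraic_of_norm F₀.toSubalgebra _ (hratio i)
  have hfΩ : AlgebraicIndependent κ (fun i => algebraMap P Ω (f i)) :=
    hf.map' (f := IsScalarTower.toAlgHom κ P Ω) (algebraMap P Ω).injective
  obtain ⟨ψ, hψ, hψT⟩ := exists_indep_in_set T _ hfΩ halg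
  choose p hp hpψ using hψT
  have hp' : AlgebraicIndependent k (fun i => p i / v₀) := by
    letI : Algebra k Ω := ((algebraMap κ Ω).comp (algebraMap k κ)).toAlgebra
    haveI : IsScalarTower k κ Ω := IsScalarTower.of_algebraMap_eq fun _ => rfl
    letI : Algebra Y Ω := ((algebraMap K Ω).comp (algebraMap Y K)).toAlgebra
    haveI : IsScalarTower k Y Ω := IsScalarTower.of_algebraMap_eq fun a => by
      change algebraMap κ Ω (algebraMap k κ a) = algebraMap K Ω (algebraMap Y K (algebraMap k Y a))
      rw [IsScalarTower.algebraMap_apply κ K Ω, ← IsScalarTower.algebraMap_apply k κ K,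
        ← IsScalarTower.algebraMap_apply k Y K]
    have h1 : AlgebraicIndependent k ψ := hψ.restrictScalars (algebraMap k κ).injective
    have h2 : ψ = fun i => (IsScalarTower.toAlgHom k Y Ω) (p i / v₀) := funext hpψ
    rw [h2] at h1
    exact AlgebraicIndependent.of_comp _ h1
  refine ⟨m * d, Nat.one_le_iff_ne_zero.mpr (Nat.mul_ne_zero (by omega) (by omega)),
    v₀ • pureForm k (fun _ => y), ?_, ?_, fun i => p i / v₀, hp', fun i => ?_⟩
  · rw [mem_pluriSections_iff hy, map_smul, coef_self, smul_eq_mul, mul_one]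
    exact hv₀
  · intro h
    have := congrArg (coef hy (m * d)) h
    rw [map_smul, coef_self, smul_eq_mul, mul_one, map_zero] at this
    exact hv₀ne this
  · rw [mem_pluriSections_iff hy, map_smul, map_smul, coef_self, smul_eq_mul, smul_eq_mul,
      mul_one, div_mul_cancel₀ _ hv₀ne]
    exact hp i

end CountNAux

open CountNAux

theorem countN [Nonempty M.I] (A : LineBundle M)
    (htb : ∀ y : Fin (dimension k Y) → Y, IsTranscendenceBasis k y →
      IsTranscendenceBasis κ (fun i => algebraMap Y K (y i)))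
    (hgen : ∀ z : K, z ∈ IntermediateField.adjoin κ (Set.range (algebraMap Y K)))
    {y : Fin (dimension k Y) → Y} (hy : IsTranscendenceBasis k y) {m c : ℕ} (hm : 1 ≤ m) {f₀ : P}
    (hf₀ : f₀ ∈ LocBdN κ K A y m) (hne : f₀ ≠ 0) {f : Fin c → P}
    (hf : AlgebraicIndependent κ f) (hff : ∀ i, f i * f₀ ∈ LocBdN κ K A y m) :
    LogKodairaGE M (fun _ : Unit => A) c := by
  haveI : CharZero K := charZero_of_injective_algebraMap (algebraMap κ K).injective
  haveI : CharZero P := charZero_of_injective_algebraMap (algebraMap κ P).injective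
  let Ω := IntermediateField.normalClosure K P (AlgebraicClosure P)
  haveI : IsAlgClosure K (AlgebraicClosure P) :=
    ⟨inferInstance, Algebra.IsAlgebraic.trans K P (AlgebraicClosure P)⟩
  haveI : Normal K (AlgebraicClosure P) := IsAlgClosure.normal K (AlgebraicClosure P)
  haveI : Normal K Ω := inferInstance
  haveI : FiniteDimensional K Ω := inferInstance
  haveI : IsGalois K Ω := ⟨⟩
  letI : Algebra κ Ω := ((algebraMap K Ω).comp (algebraMap κ K)).toAlgebra
  haveI : IsScalarTower κ K Ω := IsScalarTower.of_algebraMap_eq fun _ => rfl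
  exact countN_aux Ω A htb hgen hy hm hf₀ hne hf hff

end Pf72953.Can
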