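import Mathlib
import Pool.Agent.Lib.Pf72953m.Over
import Pool.Agent.Lib.Pf72953v.Est
import Pool.Agent.Lib.Pf72953c.Defs
import Pool.Agent.Lib.Pf72953c.RegJac
import Pool.Agent.Lib.Pf72953c.BrkB

/-!
MODULE Pf72953c.LogArr: forms of arrangements over `Z` are relative logarithmic forms.

PROOF.  `s b = u (eq b).1 (eq b).2`.  Let `w` be divisorial on `L/k`; for every `i` choose an injective tuple `J i` with `w (gam (H i) (u i) (J i))` maximal among injective tuples (`exists_max_tuple`, Pf72953v/Est.lean); `g = ∏ i, w (gam (J i))`,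
`w (G i) ≤ w (gam (J i)) ^ m` (`(hG i w hw (J i) ..).1`).
 LOG: for logarithmic `d : Fin r → Derivation Z L L`: `brk_estimate` (BrkB.lean, `N := L`, `D q = d (eq.symm q)`; `Matrix.det_submatrix_equiv_self`): `w (det (d_a s_b)) * g ≤ 1`; so `w (∏ G i) * w (det ..) ^ m ≤ (g * w (det ..)) ^ m ≤ 1`.
 REG: let `w` be trivial on `Z`, so divisorial on `L/Z` (`Mov.IsDivisorial.over`), and `d` regular.  `(c, t)` adapted to `w` over `Z`, `t` a uniformizer (index `Fin r`, `card_eq_of_isTranscendenceBasis hs`), `hreg` the regular basis, `hlog = hc.logBasis ..` the log basis over `Z`,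
   `∏ w (c a) = w t` (`Adapted.prod`).  `det_regDer_le hreg d hd s` (RegJac.lean): `w (det (d_a s_b)) ≤ w (jac hreg.tb s)`; it suffices to show `w (∏ G i) * w (jac hreg.tb s) ^ m ≤ 1`.
   The derivations `c_a • pd hlog.tb a` are logarithmic (`hlog.der`), the determinant of their values at `s` is `(∏ c_a) * jac hreg.tb s` (`jac_eq_det`, `Matrix.det_mul_row` or `..column`), so by `brk_estimate`: `(1) w t * w (jac hreg.tb s) * g ≤ 1`.
   (a) If for some `i₀` not all `w (lin (H i₀) (u i₀) a)` are equal: `w (G i₀) ≤ (w (gam (J i₀)) * w t) ^ m` (`(hG i₀ w hw ..).2`), so `w (∏ G i) ≤ (g * w t) ^ m`; use (1).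
   (b) Otherwise let `D a = pd hreg.tb a`, `newu` as in BrkB.lean: all values `w (newu ..) = 1`, so `w (det (D_a newu_b)) ≤ 1` (`hreg.jac_le`), and `det_newu`: `det (D_a newu_b) = jac hreg.tb s * ∏ (brk / ℓ₀ ^ (n i + 1))`; as all `w (ℓ_a)` in a block are equal,
   `w (gam (J i)) = w (brk (J i)) / w (ℓ₀) ^ (n i + 1)`; so `w (jac hreg.tb s) * g ≤ 1` and `w (∏ G i) * w (jac ..) ^ m ≤ (g * w (jac ..)) ^ m ≤ 1`.
-/

set_option autoImplicit false
set_option linter.style.haveILetI false

open scoped WithZero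
open Pf72953 Pf72953.Var Pf72953.Mov

namespace Pf72953.Can

theorem prod_mem_LogForms {k Z L I : Type*} [Field k] [CharZero k] [Field Z] [CharZero Z] [Field L]
    [Algebra k Z] [Algebra k L] [Algebra Z L] [IsScalarTower k Z L] [Algebra.EssFiniteType k L]
    [Fintype I] [DecidableEq I] {n : I → ℕ} {A : I → Type*} [∀ i, Fintype (A i)]
    [∀ i, DecidableEq (A i)] {H : ∀ i, A i → Fin (n i + 1) → L} {u : ∀ i, Fin (n i) → L}
    (hH : ∀ i, GenPos Z (H i)) (hl : ∀ i a, lin (H i) (u i) a ≠ 0)
    (hcard : ∀ i, n i + 1 ≤ Fintype.card (A i)) {r : ℕ} (eq : Fin r ≃ Σ i, Fin (n i))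
    (hs : IsTranscendenceBasis Z (fun b => u (eq b).1 (eq b).2)) {m : ℕ} {G : I → L}
    (hG : ∀ i, G i ∈ ArrReg Z k (H i) (u i) m) :
    ∏ i, G i ∈ LogForms k Z (fun b => u (eq b).1 (eq b).2) m := by
  classical
  haveI : Algebra.EssFiniteType Z L := Algebra.EssFiniteType.of_comp k Z L
  have halg : ∀ i a c, IsAlgebraic Z (H i a c) := fun i => (hH i).alg
  intro w hw
  choose J hJ hJmax using exists_max_tuple w H u hcard
  have hbrk : ∀ i, brk (H i) (J i) ≠ 0 := fun i => (hH i).brk_ne _ (hJ i)
  have hGle : ∀ i, w (G i) ≤ w (gam (H i) (u i) (J i)) ^ m := fun i =>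
    (hG i w hw (J i) (hJ i) (hJmax i)).1
  obtain ⟨g, hg⟩ : ∃ g : ℤᵐ⁰, g = ∏ i, w (gam (H i) (u i) (J i)) := ⟨_, rfl⟩
  have hprod : w (∏ i, G i) ≤ g ^ m := by
    rw [map_prod, hg, ← Finset.prod_pow]
    exact Finset.prod_le_prod' fun i _ => hGle i
  -- reindexing of determinants
  have hre : ∀ (d : Fin r → Derivation Z L L) (f : (Σ i, Fin (n i)) → L),
      Matrix.det (Matrix.of fun a b : (Σ i, Fin (n i)) => (d (eq.symm a)) (f b)) =
        Matrix.det (Matrix.of fun a b : Fin r => d a (f (eq b))) := by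
    intro d f
    rw [← Matrix.det_submatrix_equiv_self eq
      (Matrix.of fun a b : (Σ i, Fin (n i)) => (d (eq.symm a)) (f b))]
    congr 1
    ext a b
    simp
  -- the logarithmic estimate
  have hest : ∀ d : Fin r → Derivation Z L L, (∀ a z, w (d a z) ≤ w z) →
      w (Matrix.det (Matrix.of fun a b : Fin r => d a (u (eq b).1 (eq b).2))) * g ≤ 1 := by
    intro d hd
    have h1 := brk_estimate halg u hl (fun q => d (eq.symm q)) (fun a z => hd _ z) J
    have h2 := hre d (fun b => u b.1 b.2)
    rw [← hg] at h1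
    rw [← h2]
    exact h1
  refine ⟨?_, ?_⟩
  · intro d hd
    rw [map_mul, map_pow]
    calc w (∏ i, G i) * w (Matrix.det (Matrix.of fun a b : Fin r =>
          d a (u (eq b).1 (eq b).2))) ^ m
        ≤ g ^ m * w (Matrix.det (Matrix.of fun a b : Fin r =>
          d a (u (eq b).1 (eq b).2))) ^ m := mul_le_mul' hprod le_rfl
      _ = (w (Matrix.det (Matrix.of fun a b : Fin r =>
          d a (u (eq b).1 (eq b).2))) * g) ^ m := by rw [← mul_pow, mul_comm]
      _ ≤ 1 := pow_le_one' (hest d hd) m
  · intro htriv d hd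
    have hwZ : IsDivisorial Z L w := IsDivisorial.over hw htriv
    have hdim : Fintype.card (Fin r) = dimension Z L := card_eq_of_isTranscendenceBasis hs
    obtain ⟨c, t, ht, hc⟩ := hwZ.exists_adapted hdim
    have hreg := hc.regBasis hdim ht
    have hlog := hc.logBasis hdim
    have h0 := det_regDer_le hreg d hd (fun b => u (eq b).1 (eq b).2)
    rw [map_mul, map_pow]
    refine (mul_le_mul' le_rfl (pow_le_pow_left' h0 m)).trans ?_
    obtain ⟨j, hj⟩ : ∃ j : ℤᵐ⁰, j = w (jac hreg.tb (fun b => u (eq b).1 (eq b).2)) := ⟨_, rfl⟩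
    rw [← hj]
    by_cases hdiff : ∃ i₀, ∃ a a', w (lin (H i₀) (u i₀) a) ≠ w (lin (H i₀) (u i₀) a')
    · -- (a)
      obtain ⟨i₀, hi₀⟩ := hdiff
      have h1 : w t * j * g ≤ 1 := by
        have h2 := hest (fun a => c a • pd hlog.tb a) (fun a z => hlog.der a z)
        have h3 : Matrix.det (Matrix.of fun a b : Fin r =>
            (c a • pd hlog.tb a) (u (eq b).1 (eq b).2)) =
            (∏ a, c a) * jac hlog.tb (fun b => u (eq b).1 (eq b).2) := by
          rw [jac_eq_det, ← Matrix.det_mul_column]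
          rfl
        rw [h3, map_mul, map_prod, hc.prod] at h2
        rw [hj]
        exact h2
      have h2 : w (∏ i, G i) ≤ (g * w t) ^ m := by
        have h3 : ∀ i, w (G i) ≤ (w (gam (H i) (u i) (J i)) * (if i = i₀ then w t else 1)) ^ m := by
          intro i
          split_ifs with hi
          · subst hi
            exact (hG i w hw (J i) (hJ i) (hJmax i)).2 htriv hi₀ _ ht
          · rw [mul_one]
            exact hGle i
        rw [map_prod]
        refine (Finset.prod_le_prod' fun i _ => h3 i).trans_eq ?_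
        rw [Finset.prod_pow, Finset.prod_mul_distrib, ← hg]
        simp
      calc w (∏ i, G i) * j ^ m ≤ (g * w t) ^ m * j ^ m := mul_le_mul' h2 le_rfl
        _ = (w t * j * g) ^ m := by
          rw [← mul_pow]
          congr 1
          rw [mul_comm g, mul_right_comm]
        _ ≤ 1 := pow_le_one' h1 m
    · -- (b)
      push Not at hdiff
      have h1 : j * g ≤ 1 := by
        have h2 := det_newu halg u (fun q => pd hreg.tb (eq.symm q)) J (fun i => hl i _)
        have h3 := hre (fun a => pd hreg.tb a) (fun b => newu H u J b.1 b.2)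
        have h4 := hre (fun a => pd hreg.tb a) (fun b => u b.1 b.2)
        rw [h3, h4] at h2
        have h5 := hreg.jac_le (fun b => newu H u J (eq b).1 (eq b).2) (by
          intro b
          show w (newu H u J (eq b).1 (eq b).2) ≤ 1
          unfold newu
          rw [map_div₀, hdiff _ _ (J (eq b).1 0),
            div_self ((Valuation.ne_zero_iff w).mpr (hl _ _))])
        rw [jac_eq_det, h2, map_mul, map_prod] at h5
        have h6 : g = ∏ i, w (brk (H i) (J i) / lin (H i) (u i) (J i 0) ^ (n i + 1)) := by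
          rw [hg]
          refine Finset.prod_congr rfl fun i _ => ?_
          unfold gam
          rw [map_div₀, map_div₀, map_prod, map_pow,
            Finset.prod_congr rfl fun r _ => hdiff i (J i r) (J i 0)]
          simp
        rw [h6, hj, jac_eq_det]
        exact h5
      calc w (∏ i, G i) * j ^ m ≤ g ^ m * j ^ m := mul_le_mul' hprod le_rfl
        _ = (j * g) ^ m := by rw [← mul_pow, mul_comm]
        _ ≤ 1 := pow_le_one' h1 m

end Pf72953.Can
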