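import Mathlib
import Pool.Agent.Lib.Pf72953v.Mult
import Pool.Agent.Lib.Pf72953v.Solve
import Pool.Agent.Lib.Pf72953v.Indep
import Pool.Agent.Lib.Pf72953v.LinNe
import Pool.Agent.Lib.Pf72953v.Factor
import Pool.Agent.Lib.Pf72953c.LogArr

/-!
MODULE Pf72953c.CovC: covers of products of projective spaces over `Z` branched along hyperplanes.

PROOF.
`lin_ne`: a nontrivial linear relation `H a 0 + ∑ H a j.succ * u i j = 0` with coefficients algebraic over `Z` contradicts the algebraic independence of the `u i j` over `Z` (hence over the algebraic closure of `Z` in `L`), the vector `H i a` is not `0`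
since some tuple `J` through `a` has `brk ≠ 0` (`hcard`).  Or: apply `lin_ne_zero` of Pf72953v/LinNe.lean with `k := Z`, `B := Z`, `F := Z`, `ιB = ιF = Fin 0` (or copy its proof with derivations).
`regAt_of_arr`: `exists_tuples (n i) e (ε i)` (Pf72953v/Tuples.lean; `ε i a ≤ e` by `hεδ`, `hN`) gives injective tuples `R i c`, `c : Fin e`, with `∑ c, occ (R i c) a = ε i a`; `prod_gam_mem` (Pf72953v/ArrVal.lean; `κ = Fin e`) gives
`W i = ∏ c, gam (H i) (u i) (R i c) ∈ ArrReg Z k (H i) (u i) e`, so `∏ W i ∈ LogForms k Z s e` (`prod_mem_LogForms`).  `∏ W i = β * Γ⁻¹`, `Γ = ∏ i, ∏ a, lin ^ ε i a` (`prod_lin_eq`, Pf72953v/Mult.lean), `β` the product of the brackets, algebraic over `Z` and `≠ 0`,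
so `w β = 1` if `w` is trivial on `Z` (`val_eq_one_of_isIntegral`, `brk_isIntegral`); so the second part of `LogForms` for `∏ W i` is `RegAt Z w s e Γ⁻¹`.
`relLogGE_of_arr`: (compare `core`, Pf72953v/CoreV.lean, whose proof can be followed with the factors `𝒲 i m = ArrReg Z k (H i) (u i) m`, `Φ = I`.)  Let `Rat = {θ | ∃ m ≥ 1, ∃ U ∈ LogForms k Z s m, U ≠ 0 ∧ θ * U ∈ LogForms k Z s m}`.
 (1) if `θ W ∈ ArrReg .. i₀ m`, `W ∈ ArrReg .. i₀ m`, `W ≠ 0`, `m ≥ 1`, then `θ ∈ Rat`: this is the proof of `mem_ratios_of_factor` (Pf72953v/Factor.lean; copy, with `LogForms` instead of `GoodL`; `prod_mem_LogForms` is `hprod`, `ArrReg.mul`, `exists_ne_zero_mem_arr`).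
   Also `1 ∈ Rat` (also if `I` is empty: `prod_mem_LogForms` for the empty product and `m = 1`).
 (2) if `f : Fin c → L` is algebraically independent over `Z` and all `f i ∈ Rat`, then `RelLogGE k Z s c`: with `m i`, `U i` as in `Rat` and `U₀`, `m₀` from `1 ∈ Rat` take `m = m₀ + ∑ m i`, `U = U₀ * ∏ U i`; `LogForms` is closed under products (weights add; see `CoreCAux.LogForms.mul` in
   Pf72953c/CoreC.lean, copy it, do not import CoreC).
 (3) the elements `ζ i r` (`i ∈ S`) of the proof of `core` (tuples `J i`, `c i` from `card_lt`, Pf72953v/LinNe.lean) are in `Rat` (`ratio_mem_arr` with `p = 1`), and `u i r` is in every subfield which contains the elements algebraic over `Z` and the `ζ i r` (`u_mem`).  The family `(ζ i r)_{i ∈ S}`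
   is algebraically independent over `Z`: this is `tot_indep` (Pf72953v/Indep.lean) with `k := Z`, `B := Z`, `F := Z`, `ξ`, `φ` empty (`dimension Z Z = 0`, `dimension Z L = ∑ n i`), or directly: `u i r`, `i ∈ S`, is algebraic over `Z(ζ)` and both families have `∑_{i ∈ S} n i` members.
   Reindex `Fin (∑ i ∈ S, n i) ≃ Σ i : S, Fin (n i)`.
-/

set_option autoImplicit false
set_option linter.style.haveILetI false

open scoped WithZero
open Pf72953 Pf72953.Var Pf72953.Mov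

namespace Pf72953.Can

namespace CovCAux

section logforms

variable {k Z L : Type*} [Field k] [Field Z] [Field L] [Algebra k L] [Algebra Z L] {r : ℕ}
  {s : Fin r → L}

theorem logForms_mul {m m' : ℕ} {G G' : L} (hG : G ∈ LogForms k Z s m)
    (hG' : G' ∈ LogForms k Z s m') : G * G' ∈ LogForms k Z s (m + m') := by
  intro w hw
  refine ⟨fun d hd => ?_, fun hZ d hd => ?_⟩
  · rw [pow_add, mul_mul_mul_comm, map_mul]
    exact mul_le_one' ((hG w hw).1 d hd) ((hG' w hw).1 d hd)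
  · rw [pow_add, mul_mul_mul_comm, map_mul]
    exact mul_le_one' ((hG w hw).2 hZ d hd) ((hG' w hw).2 hZ d hd)

theorem logForms_one : (1 : L) ∈ LogForms k Z s 0 := by
  intro w hw
  refine ⟨fun d _ => ?_, fun _ d _ => ?_⟩ <;> simp

theorem logForms_prod {ι : Type*} (S : Finset ι) {m : ι → ℕ} {G : ι → L}
    (hG : ∀ i ∈ S, G i ∈ LogForms k Z s (m i)) : ∏ i ∈ S, G i ∈ LogForms k Z s (∑ i ∈ S, m i) := by
  classical
  induction S using Finset.induction_on with
  | empty => simpa using logForms_one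
  | insert a S ha ih =>
    rw [Finset.prod_insert ha, Finset.sum_insert ha]
    exact logForms_mul (hG a (Finset.mem_insert_self _ _))
      (ih fun i hi => hG i (Finset.mem_insert_of_mem hi))

end logforms

theorem mem_rat_of_factor {L Φ : Type*} [Field L] [Fintype Φ]
    [DecidableEq Φ] (𝒢 : ℕ → Set L) (𝒲 : Φ → ℕ → Set L)
    (hmul : ∀ f m m', ∀ W ∈ 𝒲 f m, ∀ W' ∈ 𝒲 f m', W * W' ∈ 𝒲 f (m + m'))
    (hprod : ∀ m : ℕ, ∀ W : Φ → L, (∀ f, W f ∈ 𝒲 f m) → ∏ f, W f ∈ 𝒢 m)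
    (hne : ∀ f, ∃ m : ℕ, 1 ≤ m ∧ ∃ W ∈ 𝒲 f m, W ≠ 0) (f₀ : Φ) (θ : L)
    (hθ : ∃ m : ℕ, 1 ≤ m ∧ ∃ W ∈ 𝒲 f₀ m, W ≠ 0 ∧ θ * W ∈ 𝒲 f₀ m) :
    ∃ m : ℕ, 1 ≤ m ∧ ∃ U ∈ 𝒢 m, U ≠ 0 ∧ θ * U ∈ 𝒢 m := by
  classical
  have hpow : ∀ f m W, W ∈ 𝒲 f m → ∀ l : ℕ, 1 ≤ l → W ^ l ∈ 𝒲 f (m * l) := by
    intro f m W hW l hl
    induction l, hl using Nat.le_induction with
    | base => simpa using hW
    | succ l _ ih =>
      rw [pow_succ, Nat.mul_succ]
      exact hmul f _ _ _ ih _ hW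
  choose mf hmf Wf hWf hWf0 using hne
  obtain ⟨m₀, hm₀, W₀, hW₀, hW₀0, hθW⟩ := hθ
  set P : ℕ := ∏ f, mf f with hP
  have hP1 : 1 ≤ P := Finset.one_le_prod' fun f _ => hmf f
  set M : ℕ := m₀ * P with hM
  have hM1 : 1 ≤ M := Nat.mul_pos hm₀ hP1
  -- nonzero elements of weight M
  have hV : ∀ f, ∃ V ∈ 𝒲 f M, V ≠ 0 := by
    intro f
    have hdvd : mf f ∣ M := Dvd.dvd.mul_left (Finset.dvd_prod_of_mem mf (Finset.mem_univ f)) _
    obtain ⟨l, hl⟩ := hdvd
    have hl1 : 1 ≤ l := by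
      rcases Nat.eq_zero_or_pos l with h | h
      · rw [h, mul_zero] at hl; omega
      · exact h
    exact ⟨Wf f ^ l, by rw [hl]; exact hpow f _ _ (hWf f) l hl1, pow_ne_zero _ (hWf0 f)⟩
  choose V hVmem hV0 using hV
  have hX : W₀ ^ P ∈ 𝒲 f₀ M := hpow f₀ _ _ hW₀ P hP1
  have hX' : θ * W₀ ^ P ∈ 𝒲 f₀ M := by
    rcases Nat.lt_or_ge 1 P with h | h
    · have h1 : W₀ ^ (P - 1) ∈ 𝒲 f₀ (m₀ * (P - 1)) := hpow f₀ _ _ hW₀ (P - 1) (by omega)
      have h2 := hmul f₀ _ _ _ hθW _ h1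
      have h3 : m₀ + m₀ * (P - 1) = M := by
        rw [hM]; obtain ⟨q, hq⟩ : ∃ q, P = q + 1 := ⟨P - 1, by omega⟩
        rw [hq]; simp; ring
      rw [h3] at h2
      have h4 : θ * W₀ * W₀ ^ (P - 1) = θ * W₀ ^ P := by
        rw [mul_assoc, ← pow_succ', Nat.sub_add_cancel hP1]
      rwa [h4] at h2
    · have hP' : P = 1 := le_antisymm h hP1
      rw [hM, hP', pow_one, mul_one]
      exact hθW
  set V₁ : Φ → L := Function.update V f₀ (W₀ ^ P) with hV₁
  set V₂ : Φ → L := Function.update V f₀ (θ * W₀ ^ P) with hV₂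
  have hm1 : ∀ f, V₁ f ∈ 𝒲 f M := by
    intro f
    by_cases h : f = f₀
    · subst h; rw [hV₁, Function.update_self]; exact hX
    · rw [hV₁, Function.update_of_ne h]; exact hVmem f
  have hm2 : ∀ f, V₂ f ∈ 𝒲 f M := by
    intro f
    by_cases h : f = f₀
    · subst h; rw [hV₂, Function.update_self]; exact hX'
    · rw [hV₂, Function.update_of_ne h]; exact hVmem f
  refine ⟨M, hM1, ∏ f, V₁ f, hprod M V₁ hm1, ?_, ?_⟩
  · rw [Finset.prod_ne_zero_iff]
    intro f _
    by_cases h : f = f₀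
    · subst h; rw [hV₁, Function.update_self]; exact pow_ne_zero _ hW₀0
    · rw [hV₁, Function.update_of_ne h]; exact hV0 f
  · have : θ * ∏ f, V₁ f = ∏ f, V₂ f := by
      rw [hV₁, hV₂, Finset.prod_update_of_mem (Finset.mem_univ f₀),
        Finset.prod_update_of_mem (Finset.mem_univ f₀), mul_assoc]
    rw [this]
    exact hprod M V₂ hm2

theorem relLogGE_of_rat {k Z L : Type*} [Field k] [Field Z] [Field L] [Algebra k L] [Algebra Z L]
    {r : ℕ} {s : Fin r → L} {c : ℕ} {f : Fin c → L} (hf : AlgebraicIndependent Z f)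
    (h1 : ∃ m : ℕ, 1 ≤ m ∧ ∃ U ∈ LogForms k Z s m, U ≠ 0)
    (h : ∀ i, ∃ m : ℕ, 1 ≤ m ∧ ∃ U ∈ LogForms k Z s m, U ≠ 0 ∧ f i * U ∈ LogForms k Z s m) :
    RelLogGE k Z s c := by
  classical
  obtain ⟨m₀, hm₀, U₀, hU₀, hU₀0⟩ := h1
  choose m hm U hU hU0 hfU using h
  refine ⟨m₀ + ∑ i, m i, by omega, U₀ * ∏ i, U i,
    logForms_mul hU₀ (logForms_prod _ fun i _ => hU i),
    mul_ne_zero hU₀0 (Finset.prod_ne_zero_iff.mpr fun i _ => hU0 i), f, hf, ?_⟩
  intro i
  have e1 : f i * (U₀ * ∏ i, U i) = U₀ * ∏ j, (if j = i then f i * U i else U j) := by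
    rw [← Finset.mul_prod_erase Finset.univ U (Finset.mem_univ i),
      ← Finset.mul_prod_erase Finset.univ (fun j => if j = i then f i * U i else U j)
        (Finset.mem_univ i), if_pos rfl]
    have e2 : ∏ j ∈ Finset.univ.erase i, (if j = i then f i * U i else U j) =
        ∏ j ∈ Finset.univ.erase i, U j :=
      Finset.prod_congr rfl fun j hj => if_neg (Finset.ne_of_mem_erase hj)
    rw [e2]
    ring
  rw [e1]
  refine logForms_mul hU₀ (logForms_prod _ fun j _ => ?_)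
  by_cases hj : j = i
  · subst hj
    rw [if_pos rfl]
    exact hfU j
  · rw [if_neg hj]
    exact hU j

/-- the empty family and the forms in `tot` -/
theorem tot_basis {Z L I : Type*} [Field Z] [Field L] [Algebra Z L] {n : I → ℕ}
    {u : ∀ i, Fin (n i) → L} {r : ℕ} (eq : Fin r ≃ Σ i, Fin (n i))
    (hs : IsTranscendenceBasis Z (fun b => u (eq b).1 (eq b).2)) :
    IsTranscendenceBasis Z (tot (B := Z) (F := Z) (fun b : Fin 0 => (b.elim0 : Z))
      (fun b : Fin 0 => (b.elim0 : Z)) u) := by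
  let e : Fin r ≃ Fin 0 ⊕ (Fin 0 ⊕ (Σ i, Fin (n i))) :=
    (eq.trans (Equiv.emptySum (Fin 0) _).symm).trans (Equiv.emptySum (Fin 0) _).symm
  have h1 : (tot (B := Z) (F := Z) (fun b : Fin 0 => (b.elim0 : Z))
      (fun b : Fin 0 => (b.elim0 : Z)) u) ∘ e = (fun b => u (eq b).1 (eq b).2) := by
    funext b
    rfl
  rw [← h1] at hs
  have h2 := hs.comp_equiv e.symm
  rwa [Function.comp_assoc, Equiv.self_comp_symm, Function.comp_id] at h2

theorem empty_basis (Z : Type*) [Field Z] :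
    IsTranscendenceBasis Z (fun b : Fin 0 => (b.elim0 : Z)) := by
  have h1 : AlgebraicIndependent Z (fun b : Fin 0 => (b.elim0 : Z)) :=
    algebraicIndependent_empty_type_iff.mpr (algebraMap Z Z).injective
  refine h1.isTranscendenceBasis_iff_isAlgebraic.mpr ?_
  exact ⟨fun a => (isAlgebraic_algebraMap (R := Algebra.adjoin Z
    (Set.range (fun b : Fin 0 => (b.elim0 : Z)))) (A := Z)
    (algebraMap Z (Algebra.adjoin Z (Set.range (fun b : Fin 0 => (b.elim0 : Z)))) a))⟩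

end CovCAux

open CovCAux

variable {k Z L I : Type*} [Field k] [CharZero k] [Field Z] [CharZero Z] [Field L]
  [Algebra k Z] [Algebra k L] [Algebra Z L] [IsScalarTower k Z L] [Algebra.EssFiniteType k L]
  [Fintype I] [DecidableEq I] {n : I → ℕ} {A : I → Type*} [∀ i, Fintype (A i)]
  [∀ i, DecidableEq (A i)] {H : ∀ i, A i → Fin (n i + 1) → L} {u : ∀ i, Fin (n i) → L}

theorem lin_ne (hH : ∀ i, GenPos Z (H i)) (hcard : ∀ i, n i + 1 ≤ Fintype.card (A i)) {r : ℕ}
    (eq : Fin r ≃ Σ i, Fin (n i)) (hs : IsTranscendenceBasis Z (fun b => u (eq b).1 (eq b).2))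
    (i : I) (a : A i) : lin (H i) (u i) a ≠ 0 :=
  lin_ne_zero (k := Z) (B := Z) (F := Z) (empty_basis Z) _ (tot_basis eq hs) hH hcard i a

theorem regAt_of_arr (hH : ∀ i, GenPos Z (H i)) (hl : ∀ i a, lin (H i) (u i) a ≠ 0)
    (hcard : ∀ i, n i + 1 ≤ Fintype.card (A i)) {r : ℕ} (eq : Fin r ≃ Σ i, Fin (n i))
    (hs : IsTranscendenceBasis Z (fun b => u (eq b).1 (eq b).2)) {N : I → ℕ} (hN : ∀ i, 0 < N i)
    {δ : ∀ i, A i → ℕ} (horb : ∀ i, OrbCond Z (H i) (u i) (N i) (δ i)) {e : ℕ}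
    {ε : ∀ i, A i → ℕ} (hε : ∀ i, ∑ a, ε i a = (n i + 1) * e)
    (hεδ : ∀ i a, N i * ε i a + δ i a * e ≤ N i * e) {w : Valuation L ℤᵐ⁰}
    (hw : IsDivisorial k L w) (hZ : ∀ z : Z, z ≠ 0 → w (algebraMap Z L z) = 1) :
    RegAt Z w (fun b => u (eq b).1 (eq b).2) e (∏ i, ∏ a, lin (H i) (u i) a ^ ε i a)⁻¹ := by
  have hεe : ∀ i a, ε i a ≤ e := by
    intro i a
    have h1 : N i * ε i a ≤ N i * e := by
      have := hεδ i a
      omega
    exact Nat.le_of_mul_le_mul_left h1 (hN i)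
  have htup : ∀ i, ∃ R : Fin e → Fin (n i + 1) → A i, (∀ c, Function.Injective (R c)) ∧
      ∀ a, ∑ c, occ (R c) a = ε i a := fun i => exists_tuples (n i) e (ε i) (hεe i) (hε i)
  choose R hR hRε using htup
  have hW : ∀ i, ∏ c, gam (H i) (u i) (R i c) ∈ ArrReg Z k (H i) (u i) e := by
    intro i
    have h1 := prod_gam_mem (k := k) (hH i) (hl i) (hN i) (horb i) (κ := Fin e) (R i) (hR i)
      (by
        intro a
        rw [Fintype.card_fin, hRε]
        exact hεδ i a)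
    rwa [Fintype.card_fin] at h1
  have hlog := prod_mem_LogForms (k := k) hH hl hcard eq hs hW
  have hreg := (hlog w hw).2 hZ
  have hval : ∏ i, ∏ c, gam (H i) (u i) (R i c) =
      (∏ i, ∏ c, brk (H i) (R i c)) * (∏ i, ∏ a, lin (H i) (u i) a ^ ε i a)⁻¹ := by
    rw [← div_eq_mul_inv, ← Finset.prod_div_distrib]
    refine Finset.prod_congr rfl fun i _ => ?_
    have h2 : ∏ a, lin (H i) (u i) a ^ ε i a = ∏ c, ∏ r, lin (H i) (u i) (R i c r) := by
      rw [prod_lin_eq]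
      exact Finset.prod_congr rfl fun a _ => by rw [hRε]
    rw [h2, ← Finset.prod_div_distrib]
    rfl
  have hβ : w (∏ i, ∏ c, brk (H i) (R i c)) = 1 := by
    rw [map_prod]
    refine Finset.prod_eq_one fun i _ => ?_
    rw [map_prod]
    refine Finset.prod_eq_one fun c _ => ?_
    exact val_eq_one_of_isIntegral hZ ((hH i).brk_ne _ (hR i c))
      (ArrValAux.brk_isIntegral (hH i) _)
  intro d hd
  have h3 := hreg d hd
  rw [hval, mul_assoc, map_mul, hβ, one_mul] at h3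
  exact h3

theorem relLogGE_of_arr (hH : ∀ i, GenPos Z (H i)) {r : ℕ} (eq : Fin r ≃ Σ i, Fin (n i))
    (hs : IsTranscendenceBasis Z (fun b => u (eq b).1 (eq b).2)) {N : I → ℕ} (hN : ∀ i, 0 < N i)
    {δ : ∀ i, A i → ℕ} (horb : ∀ i, OrbCond Z (H i) (u i) (N i) (δ i)) (hδ0 : ∀ i a, 0 < δ i a)
    (hδN : ∀ i a, δ i a < N i) (hlc : ∀ i, (n i + 1) * N i ≤ ∑ a, (N i - δ i a)) (S : Finset I)
    (hS : ∀ i ∈ S, (n i + 1) * N i < ∑ a, (N i - δ i a)) :
    RelLogGE k Z (fun b => u (eq b).1 (eq b).2) (∑ i ∈ S, n i) := by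
  classical
  haveI : Algebra.EssFiniteType Z L := Algebra.EssFiniteType.of_comp k Z L
  have hcard : ∀ i, n i + 1 < Fintype.card (A i) := fun i => card_lt (hδ0 i) (hδN i) (hlc i) (hN i)
  have hne : ∀ i a, lin (H i) (u i) a ≠ 0 := lin_ne hH (fun i => (hcard i).le) eq hs
  have hprod : ∀ m : ℕ, ∀ W : I → L, (∀ i, W i ∈ ArrReg Z k (H i) (u i) m) →
      ∏ i, W i ∈ LogForms k Z (fun b => u (eq b).1 (eq b).2) m := fun m W hW =>
    prod_mem_LogForms hH hne (fun i => (hcard i).le) eq hs hW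
  have hne𝒲 : ∀ i, ∃ m : ℕ, 1 ≤ m ∧ ∃ W ∈ ArrReg Z k (H i) (u i) m, W ≠ 0 := fun i =>
    exists_ne_zero_mem_arr (hH i) (hne i) (hN i) (horb i) (hδ0 i) (hδN i) (hlc i)
  have hrat := fun i₀ θ => mem_rat_of_factor
    (LogForms k Z (fun b => u (eq b).1 (eq b).2)) (fun i m => ArrReg Z k (H i) (u i) m)
    (fun i m m' W hW W' hW' => ArrReg.mul hW hW') hprod hne𝒲 i₀ θ
  have h1 : ∃ m : ℕ, 1 ≤ m ∧ ∃ U ∈ LogForms k Z (fun b => u (eq b).1 (eq b).2) m, U ≠ 0 := by
    rcases isEmpty_or_nonempty I with hI | ⟨⟨i₀⟩⟩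
    · refine ⟨1, le_rfl, _, hprod 1 (fun i => 1) (fun i => isEmptyElim i), ?_⟩
      simp
    · obtain ⟨m, hm, W, hW, hW0⟩ := hne𝒲 i₀
      obtain ⟨m', hm', U, hU, hU0, -⟩ := hrat i₀ 1 ⟨m, hm, W, hW, hW0, by rwa [one_mul]⟩
      exact ⟨m', hm', U, hU, hU0⟩
  have harr : ∀ (i : I) (p : ℕ) (P P' : Fin p → Fin (n i + 1) → A i),
      (∀ c, Function.Injective (P c)) → (∀ c, Function.Injective (P' c)) →
      ((∀ c, ∑ l, occ (P l) c = ∑ l, occ (P' l) c) ∨ (n i + 1) * N i < ∑ a, (N i - δ i a)) →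
      ∃ m : ℕ, 1 ≤ m ∧ ∃ U ∈ LogForms k Z (fun b => u (eq b).1 (eq b).2) m, U ≠ 0 ∧
        (∏ c, gam (H i) (u i) (P c)) / (∏ c, gam (H i) (u i) (P' c)) * U ∈
        LogForms k Z (fun b => u (eq b).1 (eq b).2) m := by
    intro i p P P' hP hP' h
    exact hrat i _ (ratio_mem_arr (hH i) (hne i) (hN i) (horb i) (hδ0 i) (hδN i)
      (hlc i) P P' hP hP' h)
  -- the tuples for the strict factors
  have htup : ∀ i, ∃ (J : Fin (n i + 1) → A i) (c : A i), Function.Injective J ∧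
      ∀ r, Function.Injective (Function.update J r c) := by
    intro i
    have h2 : n i + 2 ≤ Fintype.card (A i) := hcard i
    obtain ⟨e⟩ : Nonempty (Fin (n i + 1 + 1) ↪ A i) :=
      Function.Embedding.nonempty_of_card_le (by rw [Fintype.card_fin]; exact h2)
    refine ⟨fun r => e r.castSucc, e (Fin.last _), ?_, ?_⟩
    · intro r r' hrr
      exact Fin.castSucc_injective _ (e.injective hrr)
    · intro r r' r'' hrr
      by_cases h3 : r' = r <;> by_cases h4 : r'' = r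
      · rw [h3, h4]
      · subst h3
        rw [Function.update_self, Function.update_of_ne h4] at hrr
        exact absurd (e.injective hrr).symm (Fin.castSucc_ne_last _)
      · subst h4
        rw [Function.update_self, Function.update_of_ne h3] at hrr
        exact absurd (e.injective hrr) (Fin.castSucc_ne_last _)
      · rw [Function.update_of_ne h3, Function.update_of_ne h4] at hrr
        exact Fin.castSucc_injective _ (e.injective hrr)
  choose J c hJ hJc using htup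
  let ζ : ∀ i, Fin (n i) → L := fun i r =>
    gam (H i) (u i) (J i) / gam (H i) (u i) (Function.update (J i) r.succ (c i))
  have hζmem : ∀ i ∈ S, ∀ r, ∃ m : ℕ, 1 ≤ m ∧
      ∃ U ∈ LogForms k Z (fun b => u (eq b).1 (eq b).2) m, U ≠ 0 ∧
        ζ i r * U ∈ LogForms k Z (fun b => u (eq b).1 (eq b).2) m := by
    intro i hi r
    have := harr i 1 (fun _ => J i) (fun _ => Function.update (J i) r.succ (c i))
      (fun _ => hJ i) (fun _ => hJc i _) (Or.inr (hS i hi))
    simpa using this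
  have hζsolve : ∀ i ∈ S, ∀ K₁ : Subfield L, (∀ c : L, IsAlgebraic Z c → c ∈ K₁) →
      (∀ r, ζ i r ∈ K₁) → ∀ r, u i r ∈ K₁ := by
    intro i _ K₁ h2 h3
    exact u_mem K₁ (fun a j => h2 _ ((hH i).alg a j)) (J i) (c i) ((hH i).brk_ne _ (hJ i))
      (fun r => (hH i).brk_ne _ (hJc i r)) (hne i) h3
  -- dimensions
  have hd0 : dimension Z Z = 0 := by
    have h2 := card_eq_of_isTranscendenceBasis (empty_basis Z)
    rw [Fintype.card_fin] at h2
    exact h2.symm
  have hdim' : dimension Z Z + dimension Z Z + ∑ i, n i = dimension Z L := by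
    have h2 := card_eq_of_isTranscendenceBasis hs
    rw [Fintype.card_fin] at h2
    have h3 := Fintype.card_congr eq
    rw [Fintype.card_fin, Fintype.card_sigma] at h3
    simp only [Fintype.card_fin] at h3
    rw [hd0, ← h2, h3, zero_add, zero_add]
  have halg : ∀ a : L, IsAlgebraic (Algebra.adjoin Z
      (Set.range (algebraMap Z L) ∪ Set.range (algebraMap Z L) ∪ ⋃ i, Set.range (u i))) a := by
    intro a
    have h2 : IsAlgebraic (Algebra.adjoin Z (Set.range (fun b => u (eq b).1 (eq b).2))) a :=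
      hs.isAlgebraic.isAlgebraic a
    refine IsAlgebraic.adjoin_of_forall_isAlgebraic ?_ h2
    rintro x ⟨⟨b, rfl⟩, hb⟩
    refine absurd (Or.inr (Set.mem_iUnion.mpr ⟨(eq b).1, ?_⟩)) hb
    exact ⟨(eq b).2, rfl⟩
  have hind := tot_indep (k := Z) (B := Z) (F := Z) (L := L) u ζ hdim' halg S hζsolve
    (a := 0) (b := 0) (ξ := fun b => b.elim0) (η := fun b => b.elim0)
    (by
      haveI : IsEmpty (Fin 0) := inferInstance
      exact (algebraicIndependent_empty_type_iff).mpr (algebraMap Z L).injective)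
    (fun i => i.elim0)
    (by
      exact (algebraicIndependent_empty_type_iff).mpr (algebraMap Z Z).injective)
  have hcardT : Fintype.card (Fin 0 ⊕ (Fin 0 ⊕ (Σ i : S, Fin (n i)))) = ∑ i ∈ S, n i := by
    rw [Fintype.card_sum, Fintype.card_sum, Fintype.card_sigma, Fintype.card_fin, zero_add,
      zero_add]
    simp only [Fintype.card_fin]
    exact Finset.sum_coe_sort S n
  let e : Fin (∑ i ∈ S, n i) ≃ Fin 0 ⊕ (Fin 0 ⊕ (Σ i : S, Fin (n i))) :=
    (Fintype.equivFinOfCardEq hcardT).symm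
  refine relLogGE_of_rat (hind.comp e e.injective) h1 ?_
  intro q
  simp only [Function.comp_apply]
  rcases e q with j | j | ⟨i, r⟩
  · exact j.elim0
  · exact j.elim0
  · exact hζmem i i.2 r

end Pf72953.Can
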