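import Mathlib
import Pool.Agent.Lib.Pf72953e.ExtE
import Pool.Agent.Lib.Pf72953m.Over
import Pool.Agent.Lib.Pf72953b.Defs
import Pool.Agent.Lib.Pf72953.Bases

/-!
MODULE Pf72953c.DescA: logarithmic and regular derivations of `L` extend to the finite extension `N`.

PROOF.  `logDer_ext_of`: the proof of `exists_logDer_ext` (Pf72953c/BrkA.lean; copy it) with `w' := w` given; `v := w.comap (algebraMap L N)` is divisorial on `L/k` (`IsDivisorial.restrict`; it is nontrivial since `N/L` is algebraic:
`val_eq_one_of_isIntegral` with `B := L`).  `hd` is already a statement about `w`.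
`regDer_ext_of`: the same with regular bases.  `v` is divisorial; `(c, t)` adapted to `v`, `t` a uniformizer of `v` (`IsDivisorial.exists_adapted`, index `Fin (dimension k L)`); `hcL := hc.regBasis (Fintype.card_fin _) ht`.
`algebraMap L N t` is a uniformizer of `w` by `hu` (if `w z < 1`, there is `t₁ : L` with `w t₁ < 1`, `w z ≤ w t₁`, and `v t₁ < 1` gives `v t₁ ≤ v t`; unfold the definition of the uniformizer, see `exists_adapted`), so
`hcN := (Adapted.map hc).regBasis (dimension k N = dimension k L) _` is a regular basis of `N` for `w`.  `D₀ := ∑ j, algebraMap L N (d (c j)) • pd hcN.tb j`, `D := derOver D₀ _` as before;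
for `w z ≤ 1`: `w (algebraMap L N (d (c j))) ≤ 1` by `hd` (`v (c j) ≤ 1`: `hcL.le_one`) and `w (pd hcN.tb j z) ≤ 1` (`hcN.der`).
`det_der_eq`: `D a (f b) = ∑ j, pd hz j (f b) * D a (z j)` (`der_eq_sum hz`, Pf72953/Coord.lean), `Matrix.det_mul`, `jac_eq_det`.
-/

set_option autoImplicit false
set_option linter.style.haveILetI false

open scoped WithZero
open Pf72953 Pf72953.Mov

namespace Pf72953.Can

namespace DescAAux

theorem nontriv {k L N : Type*} [Field k] [Field L] [Field N] [Algebra k L] [Algebra k N]
    [Algebra L N] [IsScalarTower k L N] [FiniteDimensional L N] {w : Valuation N ℤᵐ⁰}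
    (hw : IsDivisorial k N w) : ∃ a : L, a ≠ 0 ∧ w (algebraMap L N a) ≠ 1 := by
  by_contra hcon
  push Not at hcon
  obtain ⟨z, hz0, hz1⟩ := hw.nontrivial
  exact hz1 (val_eq_one_of_isIntegral (B := L) hcon hz0 (Algebra.IsIntegral.isIntegral z))

theorem dim_eq {k L N : Type*} [Field k] [Field L] [Field N] [Algebra k L] [Algebra k N]
    [Algebra L N] [IsScalarTower k L N] [Algebra.EssFiniteType k L] [FiniteDimensional L N] :
    dimension k N = dimension k L := by
  haveI : Algebra.EssFiniteType L N := inferInstance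
  haveI : Algebra.EssFiniteType k N := Algebra.EssFiniteType.comp k L N
  obtain ⟨s, hs⟩ := exists_isTranscendenceBasis k L
  haveI := finite_of_isTranscendenceBasis hs
  haveI := Fintype.ofFinite s
  have h1 := hs.algebraMap_comp (A := N)
  rw [← card_eq_of_isTranscendenceBasis h1, ← card_eq_of_isTranscendenceBasis hs]

/-- the extension of a derivation along transcendence bases -/
theorem ext_of {k Z L N : Type*} [Field k] [CharZero k] [Field Z] [Field L] [Field N]
    [Algebra k Z] [Algebra k L] [Algebra k N] [Algebra Z L] [Algebra Z N] [Algebra L N]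
    [IsScalarTower k Z L] [IsScalarTower k L N] [IsScalarTower Z L N]
    {n : ℕ} {c : Fin n → L} (hc : IsTranscendenceBasis k c)
    (hc' : IsTranscendenceBasis k (fun j => algebraMap L N (c j))) (d : Derivation Z L L) :
    ∃ D : Derivation Z N N, (∀ z : L, D (algebraMap L N z) = algebraMap L N (d z)) ∧
      ∀ z : N, D z = ∑ j, algebraMap L N (d (c j)) * pd hc' j z := by
  classical
  set D₀ : Derivation k N N := ∑ j, algebraMap L N (d (c j)) • pd hc' j with hD₀
  have hD₀z : ∀ z : N, D₀ z = ∑ j, algebraMap L N (d (c j)) * pd hc' j z := by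
    intro z
    rw [hD₀, ← Derivation.coeFnAddMonoidHom_apply, map_sum, Finset.sum_apply]
    rfl
  have hD₀L : ∀ z : L, D₀ (algebraMap L N z) = algebraMap L N (d z) := by
    intro z
    have h1 := der_eq_sum hc (d.restrictScalars k) z
    have h2 : (d.restrictScalars k : Derivation k L L) z = d z := rfl
    rw [h2] at h1
    rw [hD₀z, h1, map_sum]
    refine Finset.sum_congr rfl fun j _ => ?_
    have h3 := pd_algebraMap (L := N) hc hc' id Function.injective_id
      (fun _ => rfl) j z
    rw [id_eq] at h3
    rw [h3, map_mul, mul_comm]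
    rfl
  have hker : ∀ b : Z, D₀ (algebraMap Z N b) = 0 := by
    intro b
    rw [IsScalarTower.algebraMap_apply Z L N, hD₀L, Derivation.map_algebraMap, map_zero]
  refine ⟨derOver D₀ hker, fun z => hD₀L z, fun z => ?_⟩
  rw [derOver_apply, hD₀z]

end DescAAux

open DescAAux

theorem logDer_ext_of {k Z L N : Type*} [Field k] [CharZero k] [Field Z] [Field L] [Field N]
    [Algebra k Z] [Algebra k L] [Algebra k N] [Algebra Z L] [Algebra Z N] [Algebra L N]
    [IsScalarTower k Z L] [IsScalarTower k L N] [IsScalarTower Z L N]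
    [Algebra.EssFiniteType k L] [FiniteDimensional L N] {w : Valuation N ℤᵐ⁰}
    (hw : IsDivisorial k N w) {d : Derivation Z L L}
    (hd : ∀ z, w (algebraMap L N (d z)) ≤ w (algebraMap L N z)) :
    ∃ D : Derivation Z N N, (∀ z : L, D (algebraMap L N z) = algebraMap L N (d z)) ∧
      ∀ z, w (D z) ≤ w z := by
  classical
  haveI : CharZero L := charZero_of_injective_algebraMap (algebraMap k L).injective
  haveI : Algebra.EssFiniteType L N := inferInstance
  haveI : Algebra.EssFiniteType k N := Algebra.EssFiniteType.comp k L N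
  have hv : IsDivisorial k L (w.comap (algebraMap L N)) := hw.restrict (nontriv (L := L) hw)
  have hdim : dimension k N = dimension k L := dim_eq
  obtain ⟨c, t, ht, hc⟩ := hv.exists_adapted (ι := Fin (dimension k L)) (Fintype.card_fin _)
  have hlogL := hc.logBasis (Fintype.card_fin _)
  have hcN := Adapted.map hc
  have hlogN := hcN.logBasis (by rw [Fintype.card_fin, hdim])
  obtain ⟨D, hD1, hD2⟩ := ext_of hlogL.tb hlogN.tb d
  refine ⟨D, hD1, fun z => ?_⟩
  rw [hD2]
  refine Valuation.map_sum_le _ fun j _ => ?_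
  rw [map_mul]
  have h4 := hlogN.der j z
  rw [map_mul] at h4
  exact (mul_le_mul' (hd (c j)) le_rfl).trans h4

theorem regDer_ext_of {k Z L N : Type*} [Field k] [CharZero k] [Field Z] [Field L] [Field N]
    [Algebra k Z] [Algebra k L] [Algebra k N] [Algebra Z L] [Algebra Z N] [Algebra L N]
    [IsScalarTower k Z L] [IsScalarTower k L N] [IsScalarTower Z L N]
    [Algebra.EssFiniteType k L] [FiniteDimensional L N] {w : Valuation N ℤᵐ⁰}
    (hw : IsDivisorial k N w) (hu : Br.Unr L w) {d : Derivation Z L L}
    (hd : ∀ z, w (algebraMap L N z) ≤ 1 → w (algebraMap L N (d z)) ≤ 1) :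
    ∃ D : Derivation Z N N, (∀ z : L, D (algebraMap L N z) = algebraMap L N (d z)) ∧
      ∀ z, w z ≤ 1 → w (D z) ≤ 1 := by
  classical
  haveI : CharZero L := charZero_of_injective_algebraMap (algebraMap k L).injective
  haveI : Algebra.EssFiniteType L N := inferInstance
  haveI : Algebra.EssFiniteType k N := Algebra.EssFiniteType.comp k L N
  have hv : IsDivisorial k L (w.comap (algebraMap L N)) := hw.restrict (nontriv (L := L) hw)
  have hdim : dimension k N = dimension k L := dim_eq
  obtain ⟨c, t, ht, hc⟩ := hv.exists_adapted (ι := Fin (dimension k L)) (Fintype.card_fin _)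
  have hcL := hc.regBasis (Fintype.card_fin _) ht
  have hunif : IsUnif w (algebraMap L N t) := by
    refine ⟨?_, ht.lt_one, fun z hz => ?_⟩
    · intro h0
      exact ht.ne_zero ((map_eq_zero (algebraMap L N)).mp h0)
    · obtain ⟨t₁, h1, h2⟩ := hu z hz
      exact h2.trans (ht.le t₁ h1)
  have hcN := (Adapted.map hc).regBasis (by rw [Fintype.card_fin, hdim]) hunif
  obtain ⟨D, hD1, hD2⟩ := ext_of hcL.tb hcN.tb d
  refine ⟨D, hD1, fun z hz => ?_⟩
  rw [hD2]
  refine Valuation.map_sum_le _ fun j _ => ?_
  rw [map_mul]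
  exact mul_le_one' (hd (c j) (hcL.le_one j)) (hcN.der j z hz)

theorem det_der_eq {Z N : Type*} [Field Z] [CharZero Z] [Field N] [Algebra Z N] {r : ℕ}
    {z : Fin r → N} (hz : IsTranscendenceBasis Z z) (f : Fin r → N)
    (D : Fin r → Derivation Z N N) :
    Matrix.det (Matrix.of fun a b => D a (f b)) =
      Matrix.det (Matrix.of fun a b => D a (z b)) * jac hz f := by
  classical
  have h1 : (Matrix.of fun a b => D a (f b)) =
      (Matrix.of fun a b => D a (z b)) * (Matrix.of fun i j => pd hz i (f j)) := by
    ext a b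
    rw [Matrix.mul_apply, Matrix.of_apply, der_eq_sum hz (D a) (f b)]
    refine Finset.sum_congr rfl fun j _ => ?_
    rw [Matrix.of_apply, Matrix.of_apply, mul_comm]
  rw [h1, Matrix.det_mul, jac_eq_det]

end Pf72953.Can
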