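import Mathlib
import Pool.Agent.Lib.Pf72953u.Main
import Pool.Agent.Lib.Pf72953c.ConstC
import Pool.Agent.Lib.Pf72953c.DescA

/-!
MODULE Pf72953c.DescB: descent of the relative pluricanonical forms from `N` to `L`.

`N/L` is finite and unramified at the divisorial valuations of `N/k` trivial on `Z`.
PROOF.  `regOn_desc`: let `w` be divisorial on `L/k`, trivial on `Z`, `d` regular derivations.  `Ell.exists_extend` (Pf72953e/ExtE.lean; see `exists_logDer_ext`, Pf72953c/BrkA.lean) gives `w'` on `N`, divisorial over `k`, with `w' z ≤ 1 ↔ w z ≤ 1`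
on `L` (so also `= 1 ↔ = 1`), hence trivial on `Z`; `hunr` says `Br.Unr L w'` (unfold).  `regDer_ext_of` gives extensions `D a`, regular at `w'`; `det (D_a (algebraMap (s b))) = algebraMap (det (d_a (s b)))` (`RingHom.map_det`), so by `hrel` and `h` (for `w'`, `D`)
`w' (algebraMap L N (G * det ^ e)) ≤ 1`, i.e. `w (..) ≤ 1`.
`relLogGE_desc`: `Ω` = the normal closure of `N/L`, Galois over `L` (see the end of `countN`, Pf72953c/CountN.lean), `q = [Ω : L]`; `hs' : IsTranscendenceBasis Z (algebraMap L N ∘ s)` (`IsTranscendenceBasis.algebraMap_comp`), `J = jac hs' sN ≠ 0` (`jac_ne_zero`).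
(1) For `F ∈ LogForms k Z sN m`: `nf F = Algebra.norm L (algebraMap N Ω (F * J ^ m)) ∈ LogForms k Z s (m * q)`: let `w` be divisorial on `L/k` and `d` logarithmic, `x = det (d_a (s b)) : L`; `nf F * x ^ (m * q) = norm (algebraMap N Ω (F * J ^ m * algebraMap L N x ^ m))`
(`Algebra.norm_algebraMap`), and `Up.norm_le_one` (`v := w`, `K := L`, `L := N`) reduces the claim to `w' (F * J ^ m * algebraMap L N x ^ m) ≤ 1` for all `w'` on `N` with `w' z ≤ 1 ↔ w z ≤ 1` on `L`.  `w'` is divisorial on `N/k` (as in `exists_logDer_ext`), the `d a` extend to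
logarithmic `D a` for `w'` (`logDer_ext_of`; `w' (algebraMap (d z)) ≤ w' (algebraMap z)` from `w (d z / z) ≤ 1`), `det (D_a (sN b)) = algebraMap L N x * J` (`det_der_eq hs'`, `RingHom.map_det`), and `F ∈ LogForms k Z sN m` gives the bound.
The regular part: the same with `regDer_ext_of`; `w` is trivial on `Z`, so is `w'`, and `Br.Unr L w'` by `hunr`.
(2) `LogForms k Z sN m` is closed under addition and multiplication by natural numbers (`w (l : N) ≤ 1`).  Let `h = ⟨m, hm, G, hG, hG0, f, hf, hfG⟩`.  For `l : ℕ`: `(f i + l) * G ∈ LogForms`, `nf ((f i + l) * G) / nf G = norm (algebraMap N Ω (f i) + l)`.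
`T = {θ : Ω | ∃ F ∈ LogForms k Z s (m * q), θ = algebraMap L Ω (F / nf G)}`; `isAlgebraic_of_norm` (Pf72953/Count.lean, `k := Z`, `E := L`, `L := Ω`, `A := (IntermediateField.adjoin Z T).toSubalgebra`) shows that `f i` is algebraic over `adjoin Z T`, and `exists_indep_in_set` gives
`ψ i = algebraMap L Ω (F i / nf G)` algebraically independent over `Z` (copy the end of `countN_aux`, Pf72953c/CountN.lean).  Conclude with `m * q`, `nf G`, `F i / nf G` (`AlgebraicIndependent.of_comp`).
-/

set_option autoImplicit false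
set_option linter.style.haveILetI false

open scoped WithZero
open Pf72953 Pf72953.Mov

namespace Pf72953.Can

variable {k Z L N : Type*} [Field k] [CharZero k] [Field Z] [Field L] [Field N]
    [Algebra k Z] [Algebra k L] [Algebra k N] [Algebra Z L] [Algebra Z N] [Algebra L N]
    [IsScalarTower k Z L] [IsScalarTower k L N] [IsScalarTower Z L N]
    [Algebra.EssFiniteType k L] [FiniteDimensional L N]

namespace DescBAux

set_option linter.unusedSectionVars false

/-- an extension of a divisorial valuation is divisorial -/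
theorem ext_div {w : Valuation L ℤᵐ⁰} (hw : IsDivisorial k L w) {w' : Valuation N ℤᵐ⁰}
    (hw' : ∀ a : L, w' (algebraMap L N a) ≤ 1 ↔ w a ≤ 1) :
    IsDivisorial k N w' ∧ (∀ a : L, w' (algebraMap L N a) = 1 ↔ w a = 1) := by
  classical
  haveI : CharZero L := charZero_of_injective_algebraMap (algebraMap k L).injective
  haveI : Algebra.EssFiniteType L N := inferInstance
  haveI : Algebra.EssFiniteType k N := Algebra.EssFiniteType.comp k L N
  set v := w'.comap (algebraMap L N) with hvdef
  have hv1 : ∀ a : L, v a = 1 ↔ w a = 1 := by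
    have := (Valuation.isEquiv_iff_val_le_one (v := v) (v' := w)).mpr (fun {a} => hw' a)
    intro a
    exact (Valuation.isEquiv_iff_val_eq_one.mp this)
  have hv : IsDivisorial k L v := by
    refine ⟨fun c hc => (hv1 _).mpr (hw.const c hc), ?_, ?_⟩
    · obtain ⟨a, ha0, ha⟩ := hw.nontrivial
      exact ⟨a, ha0, fun h => ha ((hv1 a).mp h)⟩
    · obtain ⟨ξ, hξ⟩ := hw.resid
      exact ⟨ξ, fun p hp => (hv1 _).mpr (hξ p hp)⟩
  have hdim : dimension k N = dimension k L := by
    obtain ⟨s, hs⟩ := exists_isTranscendenceBasis k L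
    haveI := finite_of_isTranscendenceBasis hs
    haveI := Fintype.ofFinite s
    have h1 := hs.algebraMap_comp (A := N)
    rw [← card_eq_of_isTranscendenceBasis h1, ← card_eq_of_isTranscendenceBasis hs]
  exact ⟨IsDivisorial.of_comap hdim hv, hv1⟩

/-- the extension respects inequalities -/
theorem ext_le {w : Valuation L ℤᵐ⁰} {w' : Valuation N ℤᵐ⁰}
    (hw' : ∀ a : L, w' (algebraMap L N a) ≤ 1 ↔ w a ≤ 1) {a b : L} (hab : w a ≤ w b) :
    w' (algebraMap L N a) ≤ w' (algebraMap L N b) := by
  rcases eq_or_ne b 0 with rfl | hb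
  · rw [map_zero] at hab
    have ha : a = 0 := (Valuation.zero_iff w).mp (le_antisymm hab zero_le)
    rw [ha]
  · have h2 : w (a / b) ≤ 1 := by
      rw [map_div₀]
      exact div_le_one_of_le₀ hab zero_le
    have h3 := (hw' _).mpr h2
    have hw0 : w' (algebraMap L N b) ≠ 0 := by
      rw [Valuation.ne_zero_iff]
      simpa using hb
    rw [map_div₀, map_div₀] at h3
    calc w' (algebraMap L N a) =
        w' (algebraMap L N a) / w' (algebraMap L N b) * w' (algebraMap L N b) := by
          rw [div_mul_cancel₀ _ hw0]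
      _ ≤ 1 * w' (algebraMap L N b) := by gcongr
      _ = _ := one_mul _

theorem det_map {r : ℕ} {s : Fin r → L} {d : Fin r → Derivation Z L L}
    {D : Fin r → Derivation Z N N}
    (hD : ∀ a, ∀ z : L, D a (algebraMap L N z) = algebraMap L N (d a z)) :
    Matrix.det (Matrix.of fun a b => D a (algebraMap L N (s b))) =
      algebraMap L N (Matrix.det (Matrix.of fun a b => d a (s b))) := by
  rw [RingHom.map_det]
  congr 1
  ext a b
  simp [hD]

omit [CharZero k] [IsScalarTower k Z L] [Algebra.EssFiniteType k L] in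
theorem logForms_add {r : ℕ} {s : Fin r → L} {m : ℕ} {F G : L} (hF : F ∈ LogForms k Z s m)
    (hG : G ∈ LogForms k Z s m) : F + G ∈ LogForms k Z s m := by
  intro w hw
  refine ⟨fun d hd => ?_, fun ht d hd => ?_⟩
  · rw [add_mul]
    exact (w.map_add _ _).trans (max_le ((hF w hw).1 d hd) ((hG w hw).1 d hd))
  · rw [add_mul]
    exact (w.map_add _ _).trans (max_le ((hF w hw).2 ht d hd) ((hG w hw).2 ht d hd))

omit [CharZero k] [IsScalarTower k Z L] [Algebra.EssFiniteType k L] in
theorem logForms_smul {r : ℕ} {s : Fin r → L} {m : ℕ} {F : L} (hF : F ∈ LogForms k Z s m)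
    (c : k) : algebraMap k L c * F ∈ LogForms k Z s m := by
  intro w hw
  have hc : w (algebraMap k L c) ≤ 1 := by
    rcases eq_or_ne c 0 with h | h
    · rw [h, map_zero, map_zero]
      exact zero_le
    · exact (hw.const c h).le
  refine ⟨fun d hd => ?_, fun ht d hd => ?_⟩
  · rw [mul_assoc, map_mul]
    exact mul_le_one' hc ((hF w hw).1 d hd)
  · rw [mul_assoc, map_mul]
    exact mul_le_one' hc ((hF w hw).2 ht d hd)

variable (Ω : Type*) [Field Ω] [Algebra L Ω] [Algebra N Ω]
  [IsScalarTower L N Ω] [FiniteDimensional L Ω] [IsGalois L Ω]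

omit [CharZero k] in
theorem norm_eq {F J : N} {x : L} {m : ℕ} :
    Algebra.norm L (algebraMap N Ω (F * J ^ m)) * x ^ (m * Module.finrank L Ω) =
      Algebra.norm L (algebraMap N Ω (F * (algebraMap L N x * J) ^ m)) := by
  have h1 : F * (algebraMap L N x * J) ^ m = F * J ^ m * algebraMap L N (x ^ m) := by
    rw [map_pow, mul_pow]
    ring
  rw [h1, map_mul (algebraMap N Ω) (F * J ^ m), ← IsScalarTower.algebraMap_apply L N Ω,
    map_mul (Algebra.norm L), Algebra.norm_algebraMap, ← pow_mul]

theorem nf_mem [CharZero Z] (hunr : Unramified k Z L N) {r : ℕ} {s : Fin r → L}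
    {sN : Fin r → N} (hs' : IsTranscendenceBasis Z (fun b => algebraMap L N (s b))) {m : ℕ} {F : N}
    (hF : F ∈ LogForms k Z sN m) :
    Algebra.norm L (algebraMap N Ω (F * jac hs' sN ^ m)) ∈
      LogForms k Z s (m * Module.finrank L Ω) := by
  classical
  intro w hw
  refine ⟨fun d hd => ?_, fun ht d hd => ?_⟩
  · rw [norm_eq]
    refine Up.norm_le_one hw.nontrivial fun w' hw' => ?_
    obtain ⟨hdiv, -⟩ := ext_div (k := k) hw hw'
    have h1 := fun a => logDer_ext_of (k := k) hdiv (d := d a) (fun z => ext_le hw' (hd a z))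
    choose D hD1 hD2 using h1
    have h2 := (hF w' hdiv).1 D hD2
    rw [det_der_eq hs', det_map hD1] at h2
    exact h2
  · rw [norm_eq]
    refine Up.norm_le_one hw.nontrivial fun w' hw' => ?_
    obtain ⟨hdiv, h1w⟩ := ext_div (k := k) hw hw'
    have ht' : ∀ z : Z, z ≠ 0 → w' (algebraMap Z N z) = 1 := by
      intro z hz
      rw [IsScalarTower.algebraMap_apply Z L N]
      exact (h1w _).mpr (ht z hz)
    have hu : Br.Unr L w' := hunr w' hdiv ht'
    have h1 := fun a => regDer_ext_of (k := k) hdiv hu (d := d a)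
      (fun z hz => (hw' _).mpr (hd a z ((hw' _).mp hz)))
    choose D hD1 hD2 using h1
    have h2 := (hF w' hdiv).2 ht' D hD2
    rw [det_der_eq hs', det_map hD1] at h2
    exact h2

include Ω in
theorem desc_aux [CharZero Z] [Algebra Z Ω] [IsScalarTower Z L Ω] (hunr : Unramified k Z L N)
    {r : ℕ} {s : Fin r → L}
    (hs : IsTranscendenceBasis Z s) {sN : Fin r → N} (hsN : IsTranscendenceBasis Z sN) {c : ℕ}
    (h : RelLogGE k Z sN c) : RelLogGE k Z s c := by
  classical
  obtain ⟨m, hm, G, hG, hG0, f, hf, hfG⟩ := h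
  have hs' : IsTranscendenceBasis Z (fun b => algebraMap L N (s b)) := hs.algebraMap_comp (A := N)
  set q := Module.finrank L Ω with hq
  have hq1 : 1 ≤ q := Module.finrank_pos
  have hJ : jac hs' sN ≠ 0 := jac_ne_zero hsN hs'
  haveI : IsScalarTower Z N Ω := IsScalarTower.of_algebraMap_eq fun a => by
    rw [IsScalarTower.algebraMap_apply Z L Ω, IsScalarTower.algebraMap_apply L N Ω,
      ← IsScalarTower.algebraMap_apply Z L N]
  have hnf0 : ∀ F : N, F ≠ 0 → Algebra.norm L (algebraMap N Ω (F * jac hs' sN ^ m)) ≠ 0 := by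
    intro F hF
    rw [Algebra.norm_ne_zero_iff]
    have : F * jac hs' sN ^ m ≠ 0 := mul_ne_zero hF (pow_ne_zero _ hJ)
    simpa using this
  set g₀ : L := Algebra.norm L (algebraMap N Ω (G * jac hs' sN ^ m)) with hg₀
  have hg₀ne : g₀ ≠ 0 := hnf0 G hG0
  set T : Set Ω := {θ | ∃ F ∈ LogForms k Z s (m * q), θ = algebraMap L Ω (F / g₀)} with hT
  have hratio : ∀ i, ∀ l : ℕ, algebraMap L Ω (Algebra.norm L
      (algebraMap N Ω (f i) + algebraMap Z Ω (l : Z))) ∈ IntermediateField.adjoin Z T := by
    intro i l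
    have h1 : (f i + (l : N)) * G ∈ LogForms k Z sN m := by
      rw [add_mul]
      have h2 : (l : N) = algebraMap k N (l : k) := by rw [map_natCast]
      rw [h2]
      exact logForms_add (hfG i) (logForms_smul hG _)
    refine IntermediateField.subset_adjoin Z T ⟨_, nf_mem Ω hunr hs' h1, ?_⟩
    congr 1
    rw [eq_div_iff hg₀ne, hg₀, ← map_mul]
    congr 1
    rw [mul_assoc (f i + (l : N)), map_mul (algebraMap N Ω) (f i + (l : N)), map_add, map_natCast,
      map_natCast]
  have halg : ∀ i, IsAlgebraic (Algebra.adjoin Z T) (algebraMap N Ω (f i)) := by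
    intro i
    rw [← IntermediateField.isAlgebraic_adjoin_iff]
    exact isAlgebraic_of_norm (IntermediateField.adjoin Z T).toSubalgebra _ (hratio i)
  have hfΩ : AlgebraicIndependent Z (fun i => algebraMap N Ω (f i)) :=
    hf.map' (f := IsScalarTower.toAlgHom Z N Ω) (algebraMap N Ω).injective
  obtain ⟨ψ, hψ, hψT⟩ := exists_indep_in_set T _ hfΩ halg
  choose p hp hpψ using hψT
  have hp' : AlgebraicIndependent Z (fun i => p i / g₀) := by
    have h2 : ψ = fun i => (IsScalarTower.toAlgHom Z L Ω) (p i / g₀) := funext hpψ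
    rw [h2] at hψ
    exact AlgebraicIndependent.of_comp _ hψ
  refine ⟨m * q, Nat.one_le_iff_ne_zero.mpr (Nat.mul_ne_zero (by omega) (by omega)), g₀,
    nf_mem Ω hunr hs' hG, hg₀ne, fun i => p i / g₀, hp', fun i => ?_⟩
  rw [div_mul_cancel₀ _ hg₀ne]
  exact hp i

end DescBAux

open DescBAux

theorem regOn_desc (hunr : Unramified k Z L N) {r : ℕ} {s : Fin r → L} {sN : Fin r → N} {e : ℕ}
    {G : L} {GN : N}
    (hrel : ∀ D : Fin r → Derivation Z N N,
      GN * Matrix.det (Matrix.of fun a b => D a (sN b)) ^ e =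
        algebraMap L N G * Matrix.det (Matrix.of fun a b => D a (algebraMap L N (s b))) ^ e)
    (h : RegOn k Z sN e GN) : RegOn k Z s e G := by
  classical
  haveI : CharZero L := charZero_of_injective_algebraMap (algebraMap k L).injective
  intro w hw ht d hd
  obtain ⟨w', hw'⟩ := Ell.exists_extend (K := L) (P := N) (v := w) hw.nontrivial
  obtain ⟨hdiv, h1w⟩ := ext_div (k := k) hw hw'
  have ht' : ∀ z : Z, z ≠ 0 → w' (algebraMap Z N z) = 1 := by
    intro z hz
    rw [IsScalarTower.algebraMap_apply Z L N]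
    exact (h1w _).mpr (ht z hz)
  have hu : Br.Unr L w' := hunr w' hdiv ht'
  have h1 := fun a => regDer_ext_of (k := k) hdiv hu (d := d a)
    (fun z hz => (hw' _).mpr (hd a z ((hw' _).mp hz)))
  choose D hD1 hD2 using h1
  have h2 := h w' hdiv ht' D hD2
  rw [hrel, det_map hD1, ← map_pow, ← map_mul] at h2
  exact (hw' _).mp h2

theorem relLogGE_desc (hunr : Unramified k Z L N) {r : ℕ} {s : Fin r → L}
    (hs : IsTranscendenceBasis Z s) {sN : Fin r → N} (hsN : IsTranscendenceBasis Z sN) {c : ℕ}
    (h : RelLogGE k Z sN c) : RelLogGE k Z s c := by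
  haveI : CharZero Z := charZero_of_injective_algebraMap (algebraMap k Z).injective
  haveI : CharZero L := charZero_of_injective_algebraMap (algebraMap k L).injective
  haveI : CharZero N := charZero_of_injective_algebraMap (algebraMap k N).injective
  let Ω := IntermediateField.normalClosure L N (AlgebraicClosure N)
  haveI : IsAlgClosure L (AlgebraicClosure N) :=
    ⟨inferInstance, Algebra.IsAlgebraic.trans L N (AlgebraicClosure N)⟩
  haveI : Normal L (AlgebraicClosure N) := IsAlgClosure.normal L (AlgebraicClosure N)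
  haveI : Normal L Ω := inferInstance
  haveI : FiniteDimensional L Ω := inferInstance
  haveI : IsGalois L Ω := ⟨⟩
  letI : Algebra Z Ω := ((algebraMap L Ω).comp (algebraMap Z L)).toAlgebra
  haveI : IsScalarTower Z L Ω := IsScalarTower.of_algebraMap_eq fun _ => rfl
  exact desc_aux Ω hunr hs hsN h

end Pf72953.Can
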