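import Mathlib
import Pool.Agent.Lib.Pf72953.Reduction
import Pool.Agent.Lib.Pf72953f.RelW
import Pool.Agent.Lib.Pf72953u.Inst

/-!
MODULE Pf72953c.EasyAdd: the easy addition formula for the Kodaira dimension, `κ(L/B) ≤ trdeg(B'/B) + κ(L/B')` for `B ⊆ B' ⊆ L`.

PROOF.
`kodairaGE_pull`: `E ⊆ L` finite.  `h.exists_coord hz` (`z` a transcendence basis of `E/B`, `exists_tb B E`) gives `f₀`, `f`; the pull backs are in `WReg B (algebraMap E L ∘ z) m` (`WReg.pull`, see `hpull` in the proof of `upper_aux`,
Pf72953e/UpperE.lean); `dimension B L = dimension B E` (`IsTranscendenceBasis.algebraMap_comp`, `card_eq_of_isTranscendenceBasis`), reindex (`WReg.reindex`) and conclude by `KodairaGE.of_coord`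
(Pf72953/Core.lean); the ratios stay algebraically independent (`AlgebraicIndependent.map'`).
`kodairaGE_sub`: let `x'` be a transcendence basis of `B'/B` and `σ` one of `L/B'` (`exists_tb`), `z = Sum.elim (algebraMap B' L ∘ x') σ` one of `L/B` (`Fib.tb_rel`, Pf72953f/Rel.lean, with `k := B`, `B := B'`), reindexed by `Fin (dimension B L)`.
`h.exists_coord` gives `f₀ ≠ 0`, `f : Fin c → L` with `f₀, f i * f₀ ∈ WReg B z m` (reindex: `WReg.reindex`); by `Fib.WReg_rel` (Pf72953f/RelW.lean) they are in `WReg B' σ m`.  It remains to find `c - q` of the `f i` which are algebraically independent over `B'`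
(`q = dimension B B'`): let `F = IntermediateField.adjoin B' (Set.range f)`; `trdeg B F = trdeg B B' + trdeg B' F` (`Algebra.trdeg_add_eq`), `trdeg B F ≥ c` (`hf` in `F`), all finite; so `trdeg B' F ≥ c - q`: `exists_algebraicIndependent_of_le_trdeg` (with `k := B'`, `K := F`) and
`exists_indep_in_set` (Pf72953/Count.lean) with `S = Set.range f` in `L` give `ψ : Fin (c - q) → L` algebraically independent over `B'`, `ψ j ∈ Set.range f` (see the use of both in `main_GE`, Pf72953e/MainE.lean).  Conclude by `KodairaGE.of_coord`.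
`easy_add`: `iSup₂_le`; from `KodairaGE B E c` get `KodairaGE B L c`, `KodairaGE B' L (c - q)`, so `c - q ≤ kodairaDim B' L` (`le_iSup₂_of_le`) and `c ≤ q + (c - q)` (casts to `WithBot ℕ∞`).
-/

set_option autoImplicit false
set_option linter.style.haveILetI false

open scoped WithZero
open Pf72953 Pf72953.Mov Pf72953.Up

namespace Pf72953.Can

theorem kodairaGE_pull {B E L : Type*} [Field B] [CharZero B] [Field E] [Field L] [Algebra B E]
    [Algebra B L] [Algebra E L] [IsScalarTower B E L] [Algebra.EssFiniteType B E]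
    [FiniteDimensional E L] {c : ℕ} (h : KodairaGE B E c) : KodairaGE B L c := by
  haveI : Algebra.EssFiniteType B L := Algebra.EssFiniteType.comp B E L
  obtain ⟨z, hz⟩ := exists_tb B E
  obtain ⟨m, hm, f₀, hf₀, hf₀ne, f, hf, hff⟩ := h.exists_coord hz
  have hzL : IsTranscendenceBasis B (fun i => algebraMap E L (z i)) := hz.algebraMap_comp
  have hdim : dimension B E = dimension B L := by
    rw [← card_eq_of_isTranscendenceBasis hzL, Fintype.card_fin]
  let e : Fin (dimension B L) ≃ Fin (dimension B E) := finCongr hdim.symm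
  have hzL' : IsTranscendenceBasis B ((fun i => algebraMap E L (z i)) ∘ e) :=
    (isTranscendenceBasis_equiv e).mpr hzL
  refine KodairaGE.of_coord hzL' hm (f₀ := algebraMap E L f₀)
    (Pf72953.WReg.reindex (WReg.pull hz hf₀) e) (by simpa using hf₀ne)
    (f := fun i => algebraMap E L (f i))
    (hf.map' (f := IsScalarTower.toAlgHom B E L) (algebraMap E L).injective) (fun i => ?_)
  rw [← map_mul]
  exact Pf72953.WReg.reindex (WReg.pull hz (hff i)) e

theorem kodairaGE_sub {B B' L : Type*} [Field B] [CharZero B] [Field B'] [Field L] [Algebra B B']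
    [Algebra B L] [Algebra B' L] [IsScalarTower B B' L] [Algebra.EssFiniteType B L]
    [Algebra.EssFiniteType B B'] {c : ℕ} (h : KodairaGE B L c) :
    KodairaGE B' L (c - dimension B B') := by
  classical
  haveI : CharZero B' := charZero_of_injective_algebraMap (algebraMap B B').injective
  haveI : Algebra.EssFiniteType B' L := Algebra.EssFiniteType.of_comp B B' L
  obtain ⟨x', hx'⟩ := exists_tb B B'
  obtain ⟨σ, hσ⟩ := exists_tb B' L
  have hz := Fib.tb_rel hx' hσ
  have hcard := card_eq_of_isTranscendenceBasis hz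
  let e : Fin (dimension B L) ≃ Fin (dimension B B') ⊕ Fin (dimension B' L) :=
    Fintype.equivOfCardEq (by rw [hcard, Fintype.card_fin])
  have hz' : IsTranscendenceBasis B ((Sum.elim (fun a => algebraMap B' L (x' a)) σ) ∘ e) :=
    (isTranscendenceBasis_equiv e).mpr hz
  obtain ⟨m, hm, f₀, hf₀, hf₀ne, f, hf, hff⟩ := h.exists_coord hz'
  have hconv : ∀ g, g ∈ WReg B ((Sum.elim (fun a => algebraMap B' L (x' a)) σ) ∘ e) m →
      g ∈ WReg B' σ m := fun g hg => by
    have h1 := Pf72953.WReg.reindex hg e.symm
    have h2 : ((Sum.elim (fun a => algebraMap B' L (x' a)) σ) ∘ e) ∘ e.symm =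
        Sum.elim (fun a => algebraMap B' L (x' a)) σ := by
      funext i
      simp
    rw [h2] at h1
    exact Fib.WReg_rel hx' hσ h1
  -- the number of elements independent over `B'`
  set F := IntermediateField.adjoin B' (Set.range f) with hF
  haveI : IsScalarTower B F L := IsScalarTower.of_algebraMap_eq fun x => by
    rw [IsScalarTower.algebraMap_apply B B' F, IsScalarTower.algebraMap_apply B B' L]
    rfl
  have hfF : AlgebraicIndependent B
      (fun i => (⟨f i, IntermediateField.subset_adjoin _ _ ⟨i, rfl⟩⟩ : F)) :=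
    AlgebraicIndependent.of_comp (IsScalarTower.toAlgHom B F L) hf
  have h1 := hfF.lift_cardinalMk_le_trdeg
  have h2 := lift_trdeg_add_eq B B' F
  have h3 : ((c - dimension B B' : ℕ) : Cardinal) ≤ Algebra.trdeg B' F := by
    by_contra hcon
    rw [not_le] at hcon
    obtain ⟨n, hn⟩ := Cardinal.lt_aleph0.1 (hcon.trans Cardinal.natCast_lt_aleph0)
    rw [hn] at hcon h2
    have hcon' : n < c - dimension B B' := by exact_mod_cast hcon
    have h5 : (c : Cardinal) ≤ Algebra.trdeg B F := by simpa using h1
    have h7 := Cardinal.lift_le.2 h5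
    rw [← h2, ← trdeg_eq_dimension (k := B) (K := B')] at h7
    have h6 : (c : Cardinal) ≤ ((dimension B B' + n : ℕ) : Cardinal) := by
      simpa using h7
    have h8 : c ≤ dimension B B' + n := by exact_mod_cast h6
    omega
  obtain ⟨θ, hθ⟩ := exists_algebraicIndependent_of_le_trdeg h3
  have hθL : AlgebraicIndependent B' (fun i => (θ i : L)) :=
    hθ.map' (f := F.val) F.val.injective
  obtain ⟨ψ, hψ, hψS⟩ := exists_indep_in_set (Set.range f) _ hθL (fun i => by
    rw [← IntermediateField.isAlgebraic_adjoin_iff]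
    exact isAlgebraic_algebraMap (θ i))
  refine KodairaGE.of_coord hσ hm (hconv _ hf₀) hf₀ne hψ fun i => ?_
  obtain ⟨j, hj⟩ := hψS i
  rw [← hj]
  exact hconv _ (hff j)

theorem easy_add {B B' E L : Type*} [Field B] [CharZero B] [Field B'] [Field E] [Field L]
    [Algebra B B'] [Algebra B E] [Algebra B L] [Algebra B' L] [Algebra E L]
    [IsScalarTower B B' L] [IsScalarTower B E L] [Algebra.EssFiniteType B E]
    [Algebra.EssFiniteType B B'] [FiniteDimensional E L] :
    kodairaDim B E ≤ (((dimension B B' : ℕ) : ℕ∞) : WithBot ℕ∞) + kodairaDim B' L := by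
  haveI : Algebra.EssFiniteType B L := Algebra.EssFiniteType.comp B E L
  refine iSup₂_le fun c hc => ?_
  have h1 := kodairaGE_sub (B' := B') (kodairaGE_pull (L := L) hc)
  have h2 : (((c - dimension B B' : ℕ) : ℕ∞) : WithBot ℕ∞) ≤ kodairaDim B' L :=
    le_iSup₂_of_le (c - dimension B B') h1 le_rfl
  calc ((c : ℕ∞) : WithBot ℕ∞) ≤
        (((dimension B B' + (c - dimension B B') : ℕ) : ℕ∞) : WithBot ℕ∞) := by
        have h3 : c ≤ dimension B B' + (c - dimension B B') := by omega
        exact_mod_cast h3
    _ = (((dimension B B' : ℕ) : ℕ∞) : WithBot ℕ∞) +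
        (((c - dimension B B' : ℕ) : ℕ∞) : WithBot ℕ∞) := by
        rw [Nat.cast_add]
        rfl
    _ ≤ _ := by gcongr

end Pf72953.Can
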