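import Mathlib
import Pool.Agent.Lib.Pf72953e.SqE
import Pool.Agent.Lib.Pf72953c.Defs

/-!
MODULE Pf72953c.GenCov: finite covers of `M` over `B` branched along moving divisors.

PROOF.  `val_le_gen`: `w (β c) ≤ 1` (`w` trivial on `B`, or `β c = 0`), `σ c = f * S.gen i` with `f ∈ M.A i`, `w f ≤ 1`; `Valuation.map_sum_le`.
`gen_of_cover`: let `i, T, hT, htriv, hprime` be as in `GeneratedOver` (`P := L`, `T` a valuation of `L`); take `w := T`.  `T` is divisorial on `L/B` (`Mov.IsDivisorial.over`); its restriction `v` to `Z` is divisorial over `B` (`IsDivisorial.restrict`;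
`v` is nontrivial since `L/Z` is algebraic: `val_eq_one_of_isIntegral`), `Br.PrimeAt M B Z i T`.  Let `(c, t)` be adapted to `v` over `B` in `Z`, `t` a uniformizer of `v` (`IsDivisorial.exists_adapted`, index `Fin (dimension k Y)`, `hy`),
`(c', t')` adapted to `T` over `B` in `L`, `t'` a uniformizer of `T`; `hreg'` the regular basis, `D a = pd hreg'.tb a` (regular).  `vol i s D = jac hreg'.tb x_i` up to reindexing `Fin n ⊕ Fin 0 ≃ Fin n` (`jac_eq_det`, `Matrix.det_submatrix_equiv_self`; the family over `Fin n ⊕ Fin 0`).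
(1) `w (jac hreg'.tb x_i) * w t' = v (jac htb x_i) * v t` by `LogBasis.vol_eq` for the log bases `(c, t)` (mapped to `L`: `Adapted.map`) and `(c', t')` and `jac_algebraMap` (see `hvol` in the proof of `Ell.local_bound`, Pf72953e/LocalE.lean, CASE B), and
`v (jac htb x_i) = 1`: `≤ 1` by `RegBasis.jac_le`, and `x_i` is a regular basis for `v` by `hprime.der` (`hprime.der (pd .. b)`: the derivation `pd (hy ..) b` of `Z/B` has values `0`, `1` at the `x_i`), so `jac` of the inverse is `≤ 1`, too (`jac_mul_jac`; see `hjac1` in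
Pf72953e/LocalE.lean).  So `w (vol) * w t' = v t`.
(2) If `w (ℓ a) = w (gen_a)` for all `a`: `hunr` gives `t₁ ∈ Z` with `v t₁ < 1`, `w t' ≤ v t₁ ≤ v t`, so `w (vol) ≥ 1`, and `w (A.gen i * G) = ∏ w (gen_a) / w (ℓ a) = 1`.
(3) Otherwise some `w (ℓ a₀ / gen_a₀) < 1`, an element of `Z`, so it is `≤ v t`, i.e. `w (gen_a₀ / ℓ a₀) ≥ (v t)⁻¹`, and `w (gen_a / ℓ a) ≥ 1` for all `a` (`val_le_gen`); `w (vol) = v t / w t' ≥ v t` (`w t' ≤ 1`).  So the product is `≥ 1`.
-/

set_option autoImplicit false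
set_option linter.style.haveILetI false

open scoped WithZero
open Pf72953 Pf72953.Mov

namespace Pf72953.Can

section

variable {k Y : Type*} [Field k] [Field Y] [Algebra k Y] {M : SmoothModel k Y}

/-- `z = ∑ β_c σ_c` with `β_c ∈ B` and sections `σ_c` of the line bundle `S` on `M` -/
def SectionOver (B : Type*) {L : Type*} [Field B] [Field L] [Algebra B L] [Algebra Y L]
    (S : LineBundle M) (z : L) : Prop :=
  ∃ (n : ℕ) (β : Fin n → B) (σ : Fin n → Y), (∀ c, σ c ∈ S.sections) ∧
    z = ∑ c, algebraMap B L (β c) * algebraMap Y L (σ c)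

theorem val_le_gen {B L : Type*} [Field B] [Field L] [Algebra B L] [Algebra Y L]
    {S : LineBundle M} {z : L} (hz : SectionOver B S z) {w : Valuation L ℤᵐ⁰}
    (htriv : ∀ b : B, b ≠ 0 → w (algebraMap B L b) = 1) {i : M.I}
    (hA : ∀ f ∈ M.A i, w (algebraMap Y L f) ≤ 1) : w z ≤ w (algebraMap Y L (S.gen i)) := by
  obtain ⟨n, β, σ, hσ, rfl⟩ := hz
  refine Valuation.map_sum_le _ fun c _ => ?_
  obtain ⟨f, hf, hfc⟩ := hσ c i
  rw [hfc, map_mul, map_mul, map_mul]
  have h1 : w (algebraMap B L (β c)) ≤ 1 := by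
    rcases eq_or_ne (β c) 0 with h0 | h0
    · rw [h0]
      simp
    · exact (htriv _ h0).le
  calc w (algebraMap B L (β c)) * (w (algebraMap Y L f) * w (algebraMap Y L (S.gen i)))
      ≤ 1 * (1 * w (algebraMap Y L (S.gen i))) :=
        mul_le_mul' h1 (mul_le_mul' (hA f hf) le_rfl)
    _ = _ := by rw [one_mul, one_mul]

end

theorem gen_of_cover {k B Y Z L : Type*} [Field k] [CharZero k] [Field B] [Field Y] [Field Z]
    [Field L] [Algebra k B] [Algebra k Y] [Algebra k Z] [Algebra k L] [Algebra B Z] [Algebra B L]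
    [Algebra Y Z] [Algebra Y L] [Algebra Z L] [IsScalarTower k B Z] [IsScalarTower k B L]
    [IsScalarTower k Y Z] [IsScalarTower k Y L] [IsScalarTower k Z L] [IsScalarTower B Z L]
    [IsScalarTower Y Z L] [Algebra.EssFiniteType k B] [Algebra.EssFiniteType k Z]
    [Algebra.EssFiniteType k L] [FiniteDimensional Z L] {M : SmoothModel k Y}
    (hyZ : ∀ y : Fin (dimension k Y) → Y, IsTranscendenceBasis k y →
      IsTranscendenceBasis B (fun i => algebraMap Y Z (y i)))
    {ι : Type*} [Fintype ι] {S : ι → LineBundle M} {A : LineBundle M}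
    (hA : ∀ i, A.gen i = ∏ a, (S a).gen i) {ℓ : ι → Z} (h0 : ∀ a, ℓ a ≠ 0)
    (hℓ : ∀ a, SectionOver B (S a) (ℓ a))
    (hunr : ∀ (w : Valuation L ℤᵐ⁰) (i : M.I), IsDivisorial k L w →
      (∀ b : B, b ≠ 0 → w (algebraMap B L b) = 1) → Br.PrimeAt M B Z i w →
      (∀ a, w (algebraMap Z L (ℓ a)) = w (algebraMap Y L ((S a).gen i))) → Br.Unr Z w)
    (s : Fin 0 → L) :
    GeneratedOver k B Z L A s 1 (algebraMap Z L (∏ a, ℓ a))⁻¹ := by
  classical
  intro i T hT htriv hprime
  haveI : CharZero B := charZero_of_injective_algebraMap (algebraMap k B).injective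
  haveI : Algebra.EssFiniteType B Z := Algebra.EssFiniteType.of_comp k B Z
  haveI : Algebra.EssFiniteType B L := Algebra.EssFiniteType.of_comp k B L
  have hTB : IsDivisorial B L T := Mov.IsDivisorial.over hT htriv
  have hxZ : IsTranscendenceBasis B (fun c => algebraMap Y Z (M.x i c)) := hyZ _ (M.tb i)
  have hxL : IsTranscendenceBasis B (fun c => algebraMap Y L (M.x i c)) := by
    have h1 := hxZ.algebraMap_comp (A := L)
    refine (iff_of_eq (congrArg _ ?_)).mp h1
    funext c
    exact (IsScalarTower.algebraMap_apply Y Z L (M.x i c)).symm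
  have hcardZ : Fintype.card (Fin (dimension k Y)) = dimension B Z :=
    card_eq_of_isTranscendenceBasis hxZ
  have hcardL : Fintype.card (Fin (dimension k Y)) = dimension B L :=
    card_eq_of_isTranscendenceBasis hxL
  have hnt : ∃ a : Z, a ≠ 0 ∧ T (algebraMap Z L a) ≠ 1 := by
    obtain ⟨a, ha0, ha1⟩ := hTB.nontrivial
    by_contra hcon
    push Not at hcon
    exact ha1 (val_eq_one_of_isIntegral (B := Z) hcon ha0 (Algebra.IsIntegral.isIntegral a))
  set v := T.comap (algebraMap Z L) with hv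
  have hvT : ∀ z : Z, v z = T (algebraMap Z L z) := fun _ => rfl
  have hvY : ∀ y : Y, v (algebraMap Y Z y) = T (algebraMap Y L y) := fun y => by
    rw [hvT, ← IsScalarTower.algebraMap_apply Y Z L]
  have hvdiv : IsDivisorial B Z v := hTB.restrict hnt
  obtain ⟨cZ, tZ, htZ, hcZ⟩ := hvdiv.exists_adapted (ι := Fin (dimension k Y)) hcardZ
  have hcZreg := hcZ.regBasis hcardZ htZ
  obtain ⟨cL, tL, htL, hcL⟩ := hTB.exists_adapted (ι := Fin (dimension k Y)) hcardL
  have hcLreg := hcL.regBasis hcardL htL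
  have hxreg : RegBasis B v (fun c => algebraMap Y Z (M.x i c)) := by
    refine ⟨hxZ, fun a => ?_, fun a z hz => ?_⟩
    · rw [hvY]
      exact hprime.center _ (M.mem i a)
    · refine hprime.der (pd hxZ a) (fun b => ?_) z hz
      have h1 := pd_self hxZ a b
      rw [h1]
      split_ifs <;> simp
  have hjac1 : v (jac hcZreg.tb (fun a => algebraMap Y Z (M.x i a))) = 1 := by
    have h1 := hcZreg.jac_le _ hxreg.le_one
    have h2 := hxreg.jac_le cZ hcZ.le_one
    have h3 := congrArg v (jac_mul_jac hxreg.tb hcZreg.tb)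
    rw [map_mul, map_one] at h3
    refine le_antisymm h1 ?_
    rw [← h3]
    exact mul_le_of_le_one_right' h2
  have hlog1 := hcL.logBasis hcardL
  have hlog2 := (Adapted.map (L := L) hcZ).logBasis hcardL
  have hvol := hlog1.vol_eq hlog2 (fun c => algebraMap Y L (M.x i c))
  rw [hcL.prod, (Adapted.map (L := L) hcZ).prod] at hvol
  have hxx : (fun c => algebraMap Y L (M.x i c)) =
      fun c => algebraMap Z L (algebraMap Y Z (M.x i c)) := by
    funext c
    exact IsScalarTower.algebraMap_apply Y Z L (M.x i c)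
  have hj2 : jac hlog2.tb (fun c => algebraMap Y L (M.x i c)) =
      algebraMap Z L (jac hcZreg.tb (fun a => algebraMap Y Z (M.x i a))) := by
    rw [hxx]
    exact jac_algebraMap hcZreg.tb hlog2.tb _
  rw [hj2, ← hvT, ← hvT, hjac1, one_mul] at hvol
  set V := T (jac hlog1.tb (fun c => algebraMap Y L (M.x i c))) with hV
  let e₀ : Fin (dimension k Y) ⊕ Fin 0 ≃ Fin (dimension k Y) := Equiv.sumEmpty _ _
  refine ⟨T, hT, fun p => Iff.rfl, fun a => pd hcLreg.tb (e₀ a),
    fun a z hz => hcLreg.der _ z hz, ?_⟩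
  have hvol2 : vol i s (fun a => pd hcLreg.tb (e₀ a)) =
      jac hlog1.tb (fun c => algebraMap Y L (M.x i c)) := by
    rw [jac_eq_det, ← Matrix.det_submatrix_equiv_self e₀]
    unfold vol
    congr 1
    ext a b
    rcases b with b | b
    · rfl
    · exact b.elim0
  rw [hvol2, pow_one, map_mul, map_mul, map_inv₀, ← hV, hA, map_prod, map_prod, map_prod,
    map_prod]
  -- the values
  have hle : ∀ a, T (algebraMap Z L (ℓ a)) ≤ T (algebraMap Y L ((S a).gen i)) := by
    intro a
    have h1 := val_le_gen (hℓ a) (w := v) (i := i) (fun b hb => by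
      rw [hvT, ← IsScalarTower.algebraMap_apply B Z L]
      exact htriv b hb) (fun f hf => by
      rw [hvY]
      exact hprime.center f hf)
    rw [hvY] at h1
    exact h1
  have hl0 : ∀ a, T (algebraMap Z L (ℓ a)) ≠ 0 := fun a => by
    rw [Valuation.ne_zero_iff]
    exact (map_ne_zero _).mpr (h0 a)
  have htL0 : T tL ≠ 0 := (Valuation.ne_zero_iff T).mpr htL.ne_zero
  have hclaim : ∏ a, T (algebraMap Z L (ℓ a)) ≤ (∏ a, T (algebraMap Y L ((S a).gen i))) * V := by
    by_cases hcase : ∀ a, T (algebraMap Z L (ℓ a)) = T (algebraMap Y L ((S a).gen i))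
    · obtain ⟨t₁, ht1, ht2⟩ := hunr T i hT htriv hprime hcase tL htL.lt_one
      have h1 : T tL ≤ V * T tL := by
        rw [hvol]
        exact ht2.trans (htZ.le t₁ ht1)
      have h2 : 1 ≤ V := by
        by_contra hcon
        rw [not_le] at hcon
        have h3 : V * T tL < 1 * T tL :=
          mul_lt_mul_of_pos_right hcon (zero_lt_iff.mpr htL0)
        rw [one_mul] at h3
        exact absurd h1 (not_le.mpr h3)
      rw [Finset.prod_congr rfl fun a _ => hcase a]
      exact le_mul_of_one_le_right' h2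
    · push Not at hcase
      obtain ⟨a₀, ha₀⟩ := hcase
      have hlt := lt_of_le_of_ne (hle a₀) ha₀
      have hg0 : T (algebraMap Y L ((S a₀).gen i)) ≠ 0 := fun h => by
        rw [h] at hlt
        exact not_lt_zero hlt
      have h1 : v (ℓ a₀ / algebraMap Y Z ((S a₀).gen i)) ≤ v tZ := by
        refine htZ.le _ ?_
        rw [map_div₀, hvY, hvT, div_lt_one₀ (zero_lt_iff.mpr hg0)]
        exact hlt
      rw [map_div₀, hvY, hvT, div_le_iff₀ (zero_lt_iff.mpr hg0)] at h1
      have h2 : v tZ ≤ V := by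
        rw [← hvol]
        exact mul_le_of_le_one_right' htL.lt_one.le
      rw [← Finset.mul_prod_erase Finset.univ _ (Finset.mem_univ a₀),
        ← Finset.mul_prod_erase Finset.univ (fun a => T (algebraMap Y L ((S a).gen i)))
          (Finset.mem_univ a₀)]
      calc T (algebraMap Z L (ℓ a₀)) * ∏ a ∈ Finset.univ.erase a₀, T (algebraMap Z L (ℓ a))
          ≤ (v tZ * T (algebraMap Y L ((S a₀).gen i))) *
            ∏ a ∈ Finset.univ.erase a₀, T (algebraMap Y L ((S a).gen i)) :=
            mul_le_mul' h1 (Finset.prod_le_prod' fun a _ => hle a)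
        _ ≤ (V * T (algebraMap Y L ((S a₀).gen i))) *
            ∏ a ∈ Finset.univ.erase a₀, T (algebraMap Y L ((S a).gen i)) :=
            mul_le_mul' (mul_le_mul' h2 le_rfl) le_rfl
        _ = _ := by
            rw [mul_comm V, mul_assoc, mul_assoc, mul_comm V]
  have hP0 : ∏ a, T (algebraMap Z L (ℓ a)) ≠ 0 := Finset.prod_ne_zero_iff.mpr fun a _ => hl0 a
  calc (1 : ℤᵐ⁰) = (∏ a, T (algebraMap Z L (ℓ a))) * (∏ a, T (algebraMap Z L (ℓ a)))⁻¹ :=
        (mul_inv_cancel₀ hP0).symm
    _ ≤ ((∏ a, T (algebraMap Y L ((S a).gen i))) * V) * (∏ a, T (algebraMap Z L (ℓ a)))⁻¹ :=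
        mul_le_mul' hclaim le_rfl
    _ = _ := by
        rw [mul_assoc, mul_comm V, ← mul_assoc]

end Pf72953.Can
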