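import Mathlib
import Pool.Agent.Lib.Pf72953b.PosKod
import Pool.Agent.Lib.Pf72953m.Fin

/-!
MODULE Pf72953c.KodM: comparison of the Kodaira dimensions of `K_M + A'` and `K_M + A`.

PROOF.  `logKodairaGE_of_le`: let `y` be a transcendence basis of `Y/k` (`exists_tb`).  From `h`: `m ≥ 1`, `g ≠ 0`, `φ i` algebraically independent, `g, φ i * g ∈ CoefSec M (fun _ => A') y m (fun _ => m)` (`mem_pluriSections_iff`,
as in `Mov.core`, Pf72953m/Fin.lean, or in `coreE`, Pf72953e/CoreE.lean).  `hM` and `Br.pos_of_kodaira M (fun _ : Unit => A) hM`: `m₀ ≥ 1`, `g₀ ≠ 0`, `g₀ ∈ CoefSec M (fun _ => A) y m₀ (fun _ => 0)`.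
Claim: for `g' ∈ CoefSec M (fun _ => A') y m (fun _ => m)`: `W(g') := g' * (g ^ (m₀ - 1) * g₀ ^ (m * (N - 1)) * σ ^ (m * m₀)) ∈ CoefSec M (fun _ => A) y (N * m * m₀) (fun _ => N * m * m₀)`: on the chart `i`, with
`j = jac (M.tb i) y`: `g' j ^ m = f' a' ^ m`, `g j ^ m = f a' ^ m`, `g₀ j ^ m₀ = f₀`, `σ a' = f₁ a ^ N` (`a = A.gen i`, `a' = A'.gen i`, all `f ∈ M.A i`), so `W(g') j ^ (N m m₀) = (f' a' ^ m) (f a' ^ m) ^ (m₀ - 1) f₀ ^ (m (N - 1)) σ ^ (m m₀)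
 = f' f ^ (m₀ - 1) f₀ ^ (m (N - 1)) (a' σ) ^ (m m₀) = f' f ^ (m₀ - 1) f₀ ^ (m (N - 1)) f₁ ^ (m m₀) a ^ (N m m₀)` (the exponents of `j`: `m + m (m₀ - 1) + m₀ m (N - 1) = N m m₀`).
`W(g) ≠ 0`, `W(φ i * g) = φ i * W(g)`.  So `LogKodairaGE M (fun _ => A) c`, with the form `W(g) • pureForm k (fun _ => y)` as at the end of `countE` (Pf72953e/CountE.lean; copy the last ten lines).
`logKodairaDim_le`: `iSup₂_le`, `le_iSup₂_of_le`.
-/

set_option autoImplicit false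
set_option linter.style.haveILetI false

open Pf72953 Pf72953.Mov

namespace Pf72953.Can

variable {k Y : Type*} [Field k] [CharZero k] [Field Y] [Algebra k Y] [Algebra.EssFiniteType k Y]
  {M : SmoothModel k Y}

namespace KodMAux

omit [Algebra.EssFiniteType k Y] in
theorem w_mem {A A' : LineBundle M} {y : Fin (dimension k Y) → Y} {p q m : ℕ} {σ g g' g₀ : Y}
    (h : ∀ i, ∃ f ∈ M.A i, σ * A'.gen i = f * A.gen i ^ (q + 1))
    (hg : g ∈ CoefSec M (fun _ : Unit => A') y m (fun _ => m))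
    (hg' : g' ∈ CoefSec M (fun _ : Unit => A') y m (fun _ => m))
    (hg₀ : g₀ ∈ CoefSec M (fun _ : Unit => A) y (p + 1) (fun _ => 0)) :
    g' * (g ^ p * g₀ ^ (m * q) * σ ^ (m * (p + 1))) ∈
      CoefSec M (fun _ : Unit => A) y ((q + 1) * m * (p + 1))
        (fun _ => (q + 1) * m * (p + 1)) := by
  intro i
  obtain ⟨f', hf', h'⟩ := hg' i
  obtain ⟨f₁, hf₁, h₁⟩ := hg i
  obtain ⟨f₀, hf₀, h₀⟩ := hg₀ i
  obtain ⟨φ, hφ, hσ⟩ := h i
  simp only [Finset.univ_unique, Finset.prod_const, Finset.card_singleton, pow_one, pow_zero,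
    mul_one] at h' h₁ h₀
  refine ⟨f' * f₁ ^ p * f₀ ^ (m * q) * φ ^ (m * (p + 1)),
    (M.A i).mul_mem ((M.A i).mul_mem ((M.A i).mul_mem hf' ((M.A i).pow_mem hf₁ _))
      ((M.A i).pow_mem hf₀ _)) ((M.A i).pow_mem hφ _), ?_⟩
  simp only [Finset.univ_unique, Finset.prod_const, Finset.card_singleton, pow_one]
  calc g' * (g ^ p * g₀ ^ (m * q) * σ ^ (m * (p + 1))) *
        jac (M.tb i) y ^ ((q + 1) * m * (p + 1))
      = (g' * jac (M.tb i) y ^ m) * (g * jac (M.tb i) y ^ m) ^ p *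
        (g₀ * jac (M.tb i) y ^ (p + 1)) ^ (m * q) * σ ^ (m * (p + 1)) := by ring
    _ = (f' * A'.gen i ^ m) * (f₁ * A'.gen i ^ m) ^ p * f₀ ^ (m * q) * σ ^ (m * (p + 1)) := by
        rw [h', h₁, h₀]
    _ = f' * f₁ ^ p * f₀ ^ (m * q) * (σ * A'.gen i) ^ (m * (p + 1)) := by ring
    _ = f' * f₁ ^ p * f₀ ^ (m * q) * φ ^ (m * (p + 1)) * A.gen i ^ ((q + 1) * m * (p + 1)) := by
        rw [hσ]; ring

end KodMAux

theorem logKodairaGE_of_le {A A' : LineBundle M} (hM : KodairaGE k Y 0) {N : ℕ} (hN : 1 ≤ N)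
    {σ : Y} (hσ : σ ≠ 0) (h : ∀ i, ∃ f ∈ M.A i, σ * A'.gen i = f * A.gen i ^ N) {c : ℕ}
    (hc : LogKodairaGE M (fun _ : Unit => A') c) : LogKodairaGE M (fun _ : Unit => A) c := by
  obtain ⟨y, hy⟩ := exists_tb k Y
  obtain ⟨m, hm, ω, hω, hω0, f, hf, hff⟩ := hc
  obtain ⟨m₀, hm₀, ω₁, hω₁, hω₁0⟩ := Br.pos_of_kodaira M (fun _ : Unit => A) hM
  obtain ⟨p, rfl⟩ : ∃ p, m₀ = p + 1 := ⟨m₀ - 1, by omega⟩
  obtain ⟨q, rfl⟩ : ∃ q, N = q + 1 := ⟨N - 1, by omega⟩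
  have hg0 : ∀ {m : ℕ} {ω : PluriForm k Y (dimension k Y) m}, ω ≠ 0 → coef hy m ω ≠ 0 := by
    intro m ω hω h0
    apply hω
    rw [eq_coef_smul hy m ω, h0, zero_smul]
  rw [mem_pluriSections_iff hy] at hω hω₁
  set g := coef hy m ω with hg
  set g₀ := coef hy (p + 1) ω₁ with hg₀
  have hgne : g ≠ 0 := hg0 hω0
  have hg₀ne : g₀ ≠ 0 := hg0 hω₁0
  set v : Y := g ^ p * g₀ ^ (m * q) * σ ^ (m * (p + 1)) with hv
  have hvne : v ≠ 0 :=
    mul_ne_zero (mul_ne_zero (pow_ne_zero _ hgne) (pow_ne_zero _ hg₀ne)) (pow_ne_zero _ hσ)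
  refine ⟨(q + 1) * m * (p + 1), Nat.mul_pos (Nat.mul_pos (by omega) hm) (by omega),
    (g * v) • pureForm k (fun _ => y), ?_, ?_, f, hf, fun i => ?_⟩
  · rw [mem_pluriSections_iff hy, map_smul, coef_self, smul_eq_mul, mul_one]
    exact KodMAux.w_mem h hω hω hω₁
  · intro h0
    have := congrArg (coef hy _) h0
    rw [map_smul, coef_self, smul_eq_mul, mul_one, map_zero] at this
    exact mul_ne_zero hgne hvne this
  · rw [mem_pluriSections_iff hy, map_smul, map_smul, coef_self, smul_eq_mul, smul_eq_mul,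
      mul_one, ← mul_assoc]
    have h1 := hff i
    rw [mem_pluriSections_iff hy, map_smul, smul_eq_mul] at h1
    exact KodMAux.w_mem h hω h1 hω₁

theorem logKodairaDim_le {A A' : LineBundle M} (hM : KodairaGE k Y 0) {N : ℕ} (hN : 1 ≤ N)
    {σ : Y} (hσ : σ ≠ 0) (h : ∀ i, ∃ f ∈ M.A i, σ * A'.gen i = f * A.gen i ^ N) :
    logKodairaDim M (fun _ : Unit => A') ≤ logKodairaDim M (fun _ : Unit => A) := by
  refine iSup₂_le fun c hc => ?_
  exact le_iSup₂_of_le c (logKodairaGE_of_le hM hN hσ h hc) le_rfl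

end Pf72953.Can
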