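import Mathlib
import Pool.Agent.Lib.Pf72953e.LocalE
import Pool.Agent.Lib.Pf72953c.Defs

/-!
MODULE Pf72953c.LocalC: the local bounds for the coefficients of the regular relative forms.

`κ ⊆ K ⊆ P` is the algebraic closure of `B` in `P` and `K = κ·Y`; `Q (dy ∧ ds)^m` is a regular relative form of `L/B`, and `f = Q ^ e / G ^ m ∈ K`.
PROOF (compare `Ell.local_bound`, Pf72953e/LocalE.lean: its beginning (`T`, `hTk`, `hTB`, `hprime`, `hred`) and its CASE A, with `N := L` and without the `D j`; copy).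
`T` extends `v` to `P` (`exists_extend`, Pf72953e/ExtE.lean), is divisorial over `k`, trivial on `B`, `Br.PrimeAt M B Z i T`.  `hout i T` (`GeneratedOver`) gives `w` on `L` (`w` restricted to `P` is equivalent to `T`, so `w` is trivial on `B` and
divisorial over `B`: `Mov.IsDivisorial.over`) and derivations `d`.  Take a regular basis `c` of `L/B` for `w` (`exists_adapted`, `Adapted.regBasis`; index `Fin n ⊕ Fin r`); `hQ`: `w Q * w (jac c (y, s)) ^ m ≤ 1`.
`jac c (y, s) = jac c (x_i, s) * jac (M.tb i) y` (`jac_chain` and `jac_chart` as in LocalE.lean, for `s : Fin r → L` instead of one element: `jac_right` is the same with the block `fun (_ : Fin r) ..`).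
`vol i s d = det (d_a (x_i, s)_b) = det (d_a c_b) * jac c (x_i, s)` (`det_der_algebraMap` as in CASE A) and `w (det (d_a c_b)) ≤ 1` (`LocalEAux.det_le_one`), so with `γ = w gen`, `α = w G`, `J = w (jac c (x_i, s))`, `Y = w (jac y)`:
`1 ≤ γ * α * J ^ e`, `w Q * (J * Y) ^ m ≤ 1`, `w f * α ^ m = w Q ^ e`.  Hence
`w f * Y ^ (e * m) ≤ w f * Y ^ (e * m) * (γ * α * J ^ e) ^ m = (w Q * (J * Y) ^ m) ^ e * γ ^ m ≤ γ ^ m`.
-/

set_option autoImplicit false
set_option linter.style.haveILetI false

open scoped WithZero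
open Pf72953 Pf72953.Mov Pf72953.Up Pf72953.Ell

namespace Pf72953.Can

namespace LocalCAux

section

variable {k K ι σ : Type*} [Field k] [CharZero k] [Field K] [Algebra k K] [Fintype ι]
  [DecidableEq ι] [Fintype σ] [DecidableEq σ]

theorem jac_right' {x : ι → K} {s : σ → K} (hz : IsTranscendenceBasis k (Sum.elim x s))
    (y : ι → K) : jac hz (Sum.elim y s) =
      Matrix.det (Matrix.of fun a b => pd hz (Sum.inl a) (y b)) := by
  rw [jac_eq_det]
  have h2 : ∀ (a : ι) (b : σ), pd hz (Sum.inl a) (s b) = 0 := by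
    intro a b
    have := pd_self hz (Sum.inl a) (Sum.inr b)
    simpa using this
  have h3 : ∀ a b : σ, pd hz (Sum.inr a) (s b) = if a = b then 1 else 0 := by
    intro a b
    have := pd_self hz (Sum.inr a) (Sum.inr b)
    simpa [eq_comm] using this
  have h1 : (Matrix.of fun i j => pd hz i ((Sum.elim y s) j)) =
      Matrix.fromBlocks (Matrix.of fun a b => pd hz (Sum.inl a) (y b)) 0
        (Matrix.of fun (a : σ) b => pd hz (Sum.inr a) (y b)) 1 := by
    ext i j
    rcases i with i | i <;> rcases j with j | j <;> simp [h2, h3, Matrix.one_apply]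
  rw [h1, Matrix.det_fromBlocks_zero₁₂, Matrix.det_one, mul_one]

end

/-- the coordinates of the chart -/
theorem jac_chart' {k B Y L ι σ : Type*} [Field k] [CharZero k] [Field B] [CharZero B] [Field Y]
    [Field L] [Algebra k B] [Algebra k Y] [Algebra k L] [Algebra B L] [Algebra Y L]
    [IsScalarTower k B L] [IsScalarTower k Y L] [Fintype ι] [DecidableEq ι] [Fintype σ]
    [DecidableEq σ] {x : ι → Y}
    (hx : IsTranscendenceBasis k x) {s : σ → L}
    (hz : IsTranscendenceBasis B (Sum.elim (fun i => algebraMap Y L (x i)) s))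
    (y : ι → Y) :
    jac hz (Sum.elim (fun i => algebraMap Y L (y i)) s) =
      algebraMap Y L (jac hx y) := by
  rw [jac_right']
  have h1 := det_der_algebraMap (E := L) hx (fun a => (pd hz (Sum.inl a)).restrictScalars k) y
  have h2 : Matrix.of (fun i j => (pd hz (Sum.inl i)).restrictScalars k (algebraMap Y L (x j))) =
      1 := by
    ext a b
    rw [Matrix.of_apply, Matrix.one_apply]
    have := pd_self hz (Sum.inl a) (Sum.inl b)
    simp only [Sum.elim_inl, Sum.inl.injEq] at this
    exact this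
  rw [h2, Matrix.det_one, mul_one] at h1
  exact h1

/-- the arithmetic of the values -/
theorem final' {F α Q Yj Jc γ : ℤᵐ⁰} {m e : ℕ} (h1 : F * α ^ m = Q ^ e)
    (h2 : Q * (Jc * Yj) ^ m ≤ 1) (h3 : 1 ≤ γ * α * Jc ^ e) :
    F * Yj ^ (e * m) ≤ γ ^ m := by
  have h4 : F * Yj ^ (e * m) * (γ * α * Jc ^ e) ^ m = (Q * (Jc * Yj) ^ m) ^ e * γ ^ m := by
    have h5 : (Q * (Jc * Yj) ^ m) ^ e = F * α ^ m * (Jc ^ (m * e) * Yj ^ (m * e)) := by
      rw [mul_pow, ← h1, mul_pow, mul_pow, ← pow_mul, ← pow_mul]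
    rw [h5, mul_pow, mul_pow, ← pow_mul, mul_comm e m]
    generalize α ^ m = a, Yj ^ (m * e) = b, Jc ^ (m * e) = c, γ ^ m = d
    ac_rfl
  calc F * Yj ^ (e * m) = F * Yj ^ (e * m) * 1 ^ m := by rw [one_pow, mul_one]
    _ ≤ F * Yj ^ (e * m) * (γ * α * Jc ^ e) ^ m :=
        mul_le_mul' le_rfl (pow_le_pow_left' h3 m)
    _ = (Q * (Jc * Yj) ^ m) ^ e * γ ^ m := h4
    _ ≤ 1 ^ e * γ ^ m := mul_le_mul' (pow_le_pow_left' h2 e) le_rfl
    _ = γ ^ m := by rw [one_pow, one_mul]

end LocalCAux

open LocalCAux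

variable {k B κ Y Z K P L : Type*} [Field k] [CharZero k] [Field B] [CharZero B] [Field κ]
  [CharZero κ] [Field Y] [Field Z] [Field K] [Field P] [Field L]
  [Algebra k B] [Algebra k κ] [Algebra k Y] [Algebra k Z] [Algebra k K] [Algebra k P] [Algebra k L]
  [Algebra B κ] [Algebra B Z] [Algebra B K] [Algebra B P] [Algebra B L]
  [Algebra κ K] [Algebra κ P] [Algebra κ L]
  [Algebra Y Z] [Algebra Y K] [Algebra Y P] [Algebra Y L]
  [Algebra Z K] [Algebra Z P] [Algebra Z L] [Algebra K P] [Algebra K L] [Algebra P L]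
  [IsScalarTower k B κ] [IsScalarTower k B Z] [IsScalarTower k B P] [IsScalarTower k B L]
  [IsScalarTower k κ K] [IsScalarTower k κ P] [IsScalarTower k κ L]
  [IsScalarTower k Y Z] [IsScalarTower k Y K] [IsScalarTower k Y P] [IsScalarTower k Y L]
  [IsScalarTower k Z P] [IsScalarTower k K P] [IsScalarTower k P L] [IsScalarTower k K L]
  [IsScalarTower B κ K] [IsScalarTower B κ P] [IsScalarTower B κ L] [IsScalarTower B Z K]
  [IsScalarTower B Z P] [IsScalarTower B K P] [IsScalarTower B K L] [IsScalarTower B P L]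
  [IsScalarTower B Z L]
  [IsScalarTower κ K P] [IsScalarTower κ K L] [IsScalarTower κ P L]
  [IsScalarTower Y Z K] [IsScalarTower Y Z P] [IsScalarTower Y Z L] [IsScalarTower Y K P]
  [IsScalarTower Y K L] [IsScalarTower Y P L]
  [IsScalarTower Z K P] [IsScalarTower Z K L] [IsScalarTower Z P L] [IsScalarTower K P L]
  [Algebra.IsAlgebraic B κ] [FiniteDimensional K P] [FiniteDimensional Z P]
  [Algebra.EssFiniteType k P] [Algebra.EssFiniteType k L]
  {M : SmoothModel k Y} {A : LineBundle M}

theorem local_boundC {r : ℕ} {s : Fin r → L} {e : ℕ} {G : L} (hG : G ≠ 0)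
    (hout : GeneratedOver k B Z P A s e G)
    (hyZ : ∀ y : Fin (dimension k Y) → Y, IsTranscendenceBasis k y →
      IsTranscendenceBasis B (fun i => algebraMap Y Z (y i)))
    (hyK : ∀ y : Fin (dimension k Y) → Y, IsTranscendenceBasis k y →
      IsTranscendenceBasis κ (fun i => algebraMap Y K (y i)))
    (hyL : ∀ y : Fin (dimension k Y) → Y, IsTranscendenceBasis k y →
      IsTranscendenceBasis B (Sum.elim (fun i => algebraMap Y L (y i)) s))
    {y : Fin (dimension k Y) → Y} (hy : IsTranscendenceBasis k y) {m : ℕ} {Q : L}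
    (hQ : Q ∈ WReg B (Sum.elim (fun i => algebraMap Y L (y i)) s) m) {f : K}
    (hf : algebraMap K L f = Q ^ e / G ^ m) {v : Valuation K ℤᵐ⁰}
    (hv : IsDivisorial κ K v) {i : M.I} (hvx : RegBasis κ v (fun c => algebraMap Y K (M.x i c)))
    (hvA : ∀ f ∈ bc κ K (M.A i), v f ≤ 1) :
    v (f * algebraMap Y K (jac (M.tb i) y) ^ (e * m)) ≤ v (algebraMap Y K (A.gen i)) ^ m := by
  classical
  haveI : CharZero K := charZero_of_injective_algebraMap (algebraMap κ K).injective
  -- the extension to `P`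
  obtain ⟨T, hTv⟩ := Pf72953.Ell.exists_extend (P := P) hv.nontrivial
  set TK := T.comap (algebraMap K P) with hTK
  have hTv1 : ∀ a : K, TK a = 1 ↔ v a = 1 := by
    have := (Valuation.isEquiv_iff_val_le_one (v := TK) (v' := v)).mpr (fun {a} => hTv a)
    intro a
    exact (Valuation.isEquiv_iff_val_eq_one.mp this)
  have hTKκ : IsDivisorial κ K TK := by
    refine ⟨fun c hc => (hTv1 _).mpr (hv.const c hc), ?_, ?_⟩
    · obtain ⟨a, ha0, ha⟩ := hv.nontrivial
      exact ⟨a, ha0, fun h => ha ((hTv1 a).mp h)⟩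
    · obtain ⟨ξ, hξ⟩ := hv.resid
      exact ⟨ξ, fun p hp => (hTv1 _).mpr (hξ p hp)⟩
  have hTKx : RegBasis κ TK (fun a => algebraMap Y K (M.x i a)) :=
    ⟨hvx.tb, fun a => (hTv _).mpr (hvx.le_one a),
      fun a z hz => (hTv _).mpr (hvx.der a z ((hTv z).mp hz))⟩
  have hTKA : ∀ a ∈ bc κ K (M.A i), TK a ≤ 1 := fun a ha => (hTv a).mpr (hvA a ha)
  -- dimensions
  haveI : Algebra.IsAlgebraic Z K := Algebra.IsAlgebraic.tower_bot Z K P
  have hyB : ∀ y : Fin (dimension k Y) → Y, IsTranscendenceBasis k y →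
      IsTranscendenceBasis B (fun i => algebraMap Y K (y i)) := by
    intro y hy
    have h1 := (hyZ y hy).algebraMap_comp (A := K)
    refine (iff_of_eq (congrArg _ ?_)).mp h1
    funext i
    change algebraMap Z K (algebraMap Y Z (y i)) = _
    rw [← IsScalarTower.algebraMap_apply Y Z K]
  have hyP : ∀ y : Fin (dimension k Y) → Y, IsTranscendenceBasis k y →
      IsTranscendenceBasis B (fun i => algebraMap Y P (y i)) := by
    intro y hy
    have h1 := (hyZ y hy).algebraMap_comp (A := P)
    refine (iff_of_eq (congrArg _ ?_)).mp h1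
    funext i
    change algebraMap Z P (algebraMap Y Z (y i)) = _
    rw [← IsScalarTower.algebraMap_apply Y Z P]
  have hyκP : ∀ y : Fin (dimension k Y) → Y, IsTranscendenceBasis k y →
      IsTranscendenceBasis κ (fun i => algebraMap Y P (y i)) := by
    intro y hy
    have h1 := (hyK y hy).algebraMap_comp (A := P)
    refine (iff_of_eq (congrArg _ ?_)).mp h1
    funext i
    change algebraMap K P (algebraMap Y K (y i)) = _
    rw [← IsScalarTower.algebraMap_apply Y K P]
  have hdimκ : dimension κ P = dimension κ K := by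
    rw [← card_eq_of_isTranscendenceBasis (hyκP y hy), ← card_eq_of_isTranscendenceBasis (hyK y hy)]
  haveI : Algebra.EssFiniteType B P := Algebra.EssFiniteType.of_comp k B P
  haveI : Algebra.EssFiniteType B L := Algebra.EssFiniteType.of_comp k B L
  haveI : Algebra.EssFiniteType κ P := Algebra.EssFiniteType.of_comp k κ P
  haveI : Algebra.EssFiniteType B K := LocalEAux.essFinite_sub (P := P) (hyB y hy)
  have hTκ : IsDivisorial κ P T := IsDivisorial.of_comap hdimκ hTKκ
  have hTk : IsDivisorial k P T := Up.IsDivisorial.under (κ := κ) hTκ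
  have hTB : ∀ c : B, c ≠ 0 → T (algebraMap B P c) = 1 := by
    intro c hc
    rw [IsScalarTower.algebraMap_apply B κ P]
    exact hTκ.const _ (by simpa using hc)
  have hTBdiv : IsDivisorial B P T := Mov.IsDivisorial.over hTk hTB
  have hTK1 : ∀ z : K, T (algebraMap K P z) = TK z := fun _ => rfl
  have hTZ : ∀ z : Z, T (algebraMap Z P z) = TK (algebraMap Z K z) := fun z => by
    rw [IsScalarTower.algebraMap_apply Z K P, hTK1]
  have hTY : ∀ z : Y, T (algebraMap Y P z) = TK (algebraMap Y K z) := fun z => by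
    rw [IsScalarTower.algebraMap_apply Y K P, hTK1]
  have hTKB : IsDivisorial B K TK := hTBdiv.restrict hTKκ.nontrivial
  have hTKxB : RegBasis B TK (fun a => algebraMap Y K (M.x i a)) := by
    refine ⟨hyB _ (M.tb i), hTKx.le_one, fun a z hz => ?_⟩
    have h1 : pd hTKx.tb a z = pd (hyB _ (M.tb i)) a z :=
      pd_base (κ := κ) (K := K) (hyB _ (M.tb i)) hTKx.tb a z
    rw [← h1]
    exact hTKx.der a z hz
  have hprime : Br.PrimeAt M B Z i T := by
    refine ⟨fun f hf => ?_, fun d hd z hz => ?_⟩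
    · rw [hTY]
      exact hTKA _ (Algebra.subset_adjoin ⟨f, hf, rfl⟩)
    · rw [hTZ, der_eq_sum (hyZ _ (M.tb i)) d z, map_sum]
      refine Valuation.map_sum_le _ fun b _ => ?_
      rw [map_mul, map_mul]
      refine mul_le_one' ?_ ?_
      · have hxK' : IsTranscendenceBasis κ
            (fun a => algebraMap Z K (algebraMap Y Z (M.x i a))) := by
          have h1 := hTKx.tb
          simp only [IsScalarTower.algebraMap_apply Y Z K] at h1
          exact h1
        have h2 := pd_base (hyZ _ (M.tb i)) hxK' b z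
        rw [← h2]
        have h3 : ∀ (z' z'' : Fin (dimension k Y) → K) (hz1 : IsTranscendenceBasis κ z')
            (hz2 : IsTranscendenceBasis κ z''), z' = z'' → ∀ b a, pd hz1 b a = pd hz2 b a := by
          rintro z' z'' hz1 hz2 rfl b a
          rfl
        rw [h3 _ _ hxK' hTKx.tb (by
          funext a
          rw [← IsScalarTower.algebraMap_apply Y Z K]) b]
        refine hTKx.der b _ ?_
        rw [hTZ] at hz
        exact hz
      · have := hd b
        rwa [hTZ] at this
  -- the valuation of `L`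
  have hgK : algebraMap Y K (A.gen i) ≠ 0 := by simpa using A.ne i
  obtain ⟨w, hwdiv, hwT, d, hd, hdet⟩ := hout i T hTk hTB hprime
  have hwT1 : ∀ p : P, w (algebraMap P L p) = 1 ↔ T p = 1 := by
    have := (Valuation.isEquiv_iff_val_le_one (v := w.comap (algebraMap P L))
      (v' := T)).mpr (fun {p} => hwT p)
    intro p
    exact (Valuation.isEquiv_iff_val_eq_one.mp this)
  have hwB : ∀ c : B, c ≠ 0 → w (algebraMap B L c) = 1 := by
    intro c hc
    rw [IsScalarTower.algebraMap_apply B P L]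
    exact (hwT1 _).mpr (hTB c hc)
  have hwBdiv : IsDivisorial B L w := Mov.IsDivisorial.over hwdiv hwB
  -- the basis `(x_i, s)` of `L/B`
  have hxLtb : IsTranscendenceBasis B (Sum.elim (fun c => algebraMap Y L (M.x i c)) s) :=
    hyL _ (M.tb i)
  have hcardL : Fintype.card (Fin (dimension k Y) ⊕ Fin r) = dimension B L :=
    card_eq_of_isTranscendenceBasis hxLtb
  obtain ⟨c, t, ht, hc⟩ := hwBdiv.exists_adapted hcardL
  have hcreg := hc.regBasis hcardL ht
  set Jc : L := jac hcreg.tb (Sum.elim (fun c => algebraMap Y L (M.x i c)) s) with hJc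
  set Yj : L := algebraMap Y L (jac (M.tb i) y) with hYj
  have h1 := hQ _ hwBdiv c hcreg
  have h2 : jac hcreg.tb (Sum.elim (fun i => algebraMap Y L (y i)) s) = Jc * Yj := by
    rw [jac_chain hxLtb hcreg.tb, jac_chart' (M.tb i) hxLtb y]
  rw [h2, map_mul] at h1
  have h3 : w (algebraMap K L f) * w G ^ m = w Q ^ e := by
    rw [hf, ← map_pow, ← map_pow, ← map_mul, div_mul_cancel₀ _ (pow_ne_zero m hG)]
  have h4 : w (vol i s d) ≤ w Jc := by
    have h5 := det_der_algebraMap (k := B) (B := L) (E := L) hcreg.tb d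
      (Sum.elim (fun c => algebraMap Y L (M.x i c)) s)
    simp only [Algebra.algebraMap_self_apply] at h5
    have h6 : w (Matrix.det (Matrix.of fun i j => d i (c j))) ≤ 1 :=
      LocalEAux.det_le_one _ fun a b => hd a _ (hcreg.le_one b)
    have h7 : vol i s d = Jc * Matrix.det (Matrix.of fun i j => d i (c j)) := h5
    rw [h7, map_mul]
    exact mul_le_of_le_one_right' h6
  have h8 : 1 ≤ w (algebraMap Y L (A.gen i)) * w G * w Jc ^ e := by
    refine hdet.trans ?_
    rw [map_mul, map_mul, map_pow]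
    exact mul_le_mul' le_rfl (pow_le_pow_left' h4 e)
  have h9 : w (algebraMap K L f) * w Yj ^ (e * m) ≤ w (algebraMap Y L (A.gen i)) ^ m :=
    final' h3 h1 h8
  -- back to `v`
  have h10 : w (algebraMap P L (algebraMap K P ((f * algebraMap Y K (jac (M.tb i) y) ^ (e * m)) /
      algebraMap Y K (A.gen i) ^ m))) ≤ 1 := by
    rw [← IsScalarTower.algebraMap_apply K P L, map_div₀, map_div₀, map_pow,
      ← IsScalarTower.algebraMap_apply Y K L, map_pow, map_mul, map_pow,
      ← IsScalarTower.algebraMap_apply Y K L, map_mul, map_pow]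
    exact div_le_one_of_le₀ h9 zero_le
  have h11 := (hTv _).mp ((hwT _).mp h10)
  rw [map_div₀, map_pow] at h11
  have h12 : 0 < v (algebraMap Y K (A.gen i)) ^ m :=
    pow_pos (zero_lt_iff.mpr ((Valuation.ne_zero_iff v).mpr hgK)) m
  rwa [div_le_one₀ h12] at h11

end Pf72953.Can
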