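import Mathlib
import Pool.Agent.Lib.Pf72953e.LocalE
import Pool.Agent.Lib.Pf72953c.LocalC
import Pool.Agent.Lib.Pf72953c.CountN

/-!
MODULE Pf72953c.LocalN: the local bounds at the valuations of `P`.

`κ ⊆ K ⊆ P` is the algebraic closure of `B` in `P` and `K = κ·Y`; `Q (dy ∧ ds)^m` is a regular relative form of `L/B`, and `f = Q ^ e / G ^ m ∈ P`.
PROOF.  This is the proof of `local_boundC` (Pf72953c/LocalC.lean; copy it) without its first step: the valuation `T` of `P` is given.  `T` is divisorial on `P/κ`, hence over `k` (`Up.IsDivisorial.under`), trivial on `B`;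
`Br.PrimeAt M B Z i T` follows from `hTx`, `hTA` as there (with `TK = T.comap (algebraMap K P)`).  `hout i T` gives `w` on `L` and `d`; the final estimate is the same, with `f ∈ P`, and `w (p) ≤ 1 ↔ T p ≤ 1` transfers the bound
`w (algebraMap P L (f * jac ^ (e * m) / gen ^ m)) ≤ 1` to `T`.
-/

set_option autoImplicit false
set_option linter.style.haveILetI false

open scoped WithZero
open Pf72953 Pf72953.Mov Pf72953.Up Pf72953.Ell

namespace Pf72953.Can

variable {k B κ Y Z K P L : Type*} [Field k] [CharZero k] [Field B] [CharZero B] [Field κ]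
  [CharZero κ] [Field Y] [Field Z] [Field K] [Field P] [Field L]
  [Algebra k B] [Algebra k κ] [Algebra k Y] [Algebra k Z] [Algebra k K] [Algebra k P] [Algebra k L]
  [Algebra B κ] [Algebra B Z] [Algebra B K] [Algebra B P] [Algebra B L]
  [Algebra κ K] [Algebra κ P] [Algebra κ L]
  [Algebra Y Z] [Algebra Y K] [Algebra Y P] [Algebra Y L]
  [Algebra Z K] [Algebra Z P] [Algebra Z L] [Algebra K P] [Algebra K L] [Algebra P L]
  [IsScalarTower k B κ] [IsScalarTower k B Z] [IsScalarTower k B P] [IsScalarTower k B L]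
  [IsScalarTower k κ K] [IsScalarTower k κ P] [IsScalarTower k κ L]
  [IsScalarTower k Y Z] [IsScalarTower k Y K] [IsScalarTower k Y P] [IsScalarTower k Y L]
  [IsScalarTower k Z P] [IsScalarTower k K P] [IsScalarTower k P L] [IsScalarTower k K L]
  [IsScalarTower B κ K] [IsScalarTower B κ P] [IsScalarTower B κ L] [IsScalarTower B Z K]
  [IsScalarTower B Z P] [IsScalarTower B K P] [IsScalarTower B K L] [IsScalarTower B P L]
  [IsScalarTower B Z L]
  [IsScalarTower κ K P] [IsScalarTower κ K L] [IsScalarTower κ P L]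
  [IsScalarTower Y Z K] [IsScalarTower Y Z P] [IsScalarTower Y Z L] [IsScalarTower Y K P]
  [IsScalarTower Y K L] [IsScalarTower Y P L]
  [IsScalarTower Z K P] [IsScalarTower Z K L] [IsScalarTower Z P L] [IsScalarTower K P L]
  [Algebra.IsAlgebraic B κ] [FiniteDimensional K P] [FiniteDimensional Z P]
  [Algebra.EssFiniteType k P] [Algebra.EssFiniteType k L]
  {M : SmoothModel k Y} {A : LineBundle M}

theorem local_boundN {r : ℕ} {s : Fin r → L} {e : ℕ} {G : L} (hG : G ≠ 0)
    (hout : GeneratedOver k B Z P A s e G)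
    (hyZ : ∀ y : Fin (dimension k Y) → Y, IsTranscendenceBasis k y →
      IsTranscendenceBasis B (fun i => algebraMap Y Z (y i)))
    (hyK : ∀ y : Fin (dimension k Y) → Y, IsTranscendenceBasis k y →
      IsTranscendenceBasis κ (fun i => algebraMap Y K (y i)))
    (hyL : ∀ y : Fin (dimension k Y) → Y, IsTranscendenceBasis k y →
      IsTranscendenceBasis B (Sum.elim (fun i => algebraMap Y L (y i)) s))
    {y : Fin (dimension k Y) → Y} (hy : IsTranscendenceBasis k y) {m : ℕ} {Q : L}
    (hQ : Q ∈ WReg B (Sum.elim (fun i => algebraMap Y L (y i)) s) m) {f : P}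
    (hf : algebraMap P L f = Q ^ e / G ^ m) {T : Valuation P ℤᵐ⁰}
    (hT : IsDivisorial κ P T) {i : M.I}
    (hTx : RegBasis κ (T.comap (algebraMap K P)) (fun c => algebraMap Y K (M.x i c)))
    (hTA : ∀ f ∈ bc κ K (M.A i), T (algebraMap K P f) ≤ 1) :
    T (f * algebraMap Y P (jac (M.tb i) y) ^ (e * m)) ≤ T (algebraMap Y P (A.gen i)) ^ m := by
  classical
  haveI : CharZero K := charZero_of_injective_algebraMap (algebraMap κ K).injective
  set TK := T.comap (algebraMap K P) with hTK
  have hTKx : RegBasis κ TK (fun a => algebraMap Y K (M.x i a)) := hTx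
  have hTKA : ∀ a ∈ bc κ K (M.A i), TK a ≤ 1 := hTA
  -- dimensions
  haveI : Algebra.IsAlgebraic Z K := Algebra.IsAlgebraic.tower_bot Z K P
  have hyB : ∀ y : Fin (dimension k Y) → Y, IsTranscendenceBasis k y →
      IsTranscendenceBasis B (fun i => algebraMap Y K (y i)) := by
    intro y hy
    have h1 := (hyZ y hy).algebraMap_comp (A := K)
    refine (iff_of_eq (congrArg _ ?_)).mp h1
    funext i
    change algebraMap Z K (algebraMap Y Z (y i)) = _
    rw [← IsScalarTower.algebraMap_apply Y Z K]
  haveI : Algebra.EssFiniteType B P := Algebra.EssFiniteType.of_comp k B P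
  haveI : Algebra.EssFiniteType B L := Algebra.EssFiniteType.of_comp k B L
  haveI : Algebra.EssFiniteType κ P := Algebra.EssFiniteType.of_comp k κ P
  haveI : Algebra.EssFiniteType B K := LocalEAux.essFinite_sub (P := P) (hyB y hy)
  have hTk : IsDivisorial k P T := Up.IsDivisorial.under (κ := κ) hT
  have hTB : ∀ c : B, c ≠ 0 → T (algebraMap B P c) = 1 := by
    intro c hc
    rw [IsScalarTower.algebraMap_apply B κ P]
    exact hT.const _ (by simpa using hc)
  have hTK1 : ∀ z : K, T (algebraMap K P z) = TK z := fun _ => rfl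
  have hTZ : ∀ z : Z, T (algebraMap Z P z) = TK (algebraMap Z K z) := fun z => by
    rw [IsScalarTower.algebraMap_apply Z K P, hTK1]
  have hTY : ∀ z : Y, T (algebraMap Y P z) = TK (algebraMap Y K z) := fun z => by
    rw [IsScalarTower.algebraMap_apply Y K P, hTK1]
  have hprime : Br.PrimeAt M B Z i T := by
    refine ⟨fun f hf => ?_, fun d hd z hz => ?_⟩
    · rw [hTY]
      exact hTKA _ (Algebra.subset_adjoin ⟨f, hf, rfl⟩)
    · rw [hTZ, der_eq_sum (hyZ _ (M.tb i)) d z, map_sum]
      refine Valuation.map_sum_le _ fun b _ => ?_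
      rw [map_mul, map_mul]
      refine mul_le_one' ?_ ?_
      · have hxK' : IsTranscendenceBasis κ
            (fun a => algebraMap Z K (algebraMap Y Z (M.x i a))) := by
          have h1 := hTKx.tb
          simp only [IsScalarTower.algebraMap_apply Y Z K] at h1
          exact h1
        have h2 := pd_base (hyZ _ (M.tb i)) hxK' b z
        rw [← h2]
        have h3 : ∀ (z' z'' : Fin (dimension k Y) → K) (hz1 : IsTranscendenceBasis κ z')
            (hz2 : IsTranscendenceBasis κ z''), z' = z'' → ∀ b a, pd hz1 b a = pd hz2 b a := by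
          rintro z' z'' hz1 hz2 rfl b a
          rfl
        rw [h3 _ _ hxK' hTKx.tb (by
          funext a
          rw [← IsScalarTower.algebraMap_apply Y Z K]) b]
        refine hTKx.der b _ ?_
        rw [hTZ] at hz
        exact hz
      · have := hd b
        rwa [hTZ] at this
  -- the valuation of `L`
  have hgP : algebraMap Y P (A.gen i) ≠ 0 := by simpa using A.ne i
  obtain ⟨w, hwdiv, hwT, d, hd, hdet⟩ := hout i T hTk hTB hprime
  have hwT1 : ∀ p : P, w (algebraMap P L p) = 1 ↔ T p = 1 := by
    have := (Valuation.isEquiv_iff_val_le_one (v := w.comap (algebraMap P L))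
      (v' := T)).mpr (fun {p} => hwT p)
    intro p
    exact (Valuation.isEquiv_iff_val_eq_one.mp this)
  have hwB : ∀ c : B, c ≠ 0 → w (algebraMap B L c) = 1 := by
    intro c hc
    rw [IsScalarTower.algebraMap_apply B P L]
    exact (hwT1 _).mpr (hTB c hc)
  have hwBdiv : IsDivisorial B L w := Mov.IsDivisorial.over hwdiv hwB
  -- the basis `(x_i, s)` of `L/B`
  have hxLtb : IsTranscendenceBasis B (Sum.elim (fun c => algebraMap Y L (M.x i c)) s) :=
    hyL _ (M.tb i)
  have hcardL : Fintype.card (Fin (dimension k Y) ⊕ Fin r) = dimension B L :=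
    card_eq_of_isTranscendenceBasis hxLtb
  obtain ⟨c, t, ht, hc⟩ := hwBdiv.exists_adapted hcardL
  have hcreg := hc.regBasis hcardL ht
  set Jc : L := jac hcreg.tb (Sum.elim (fun c => algebraMap Y L (M.x i c)) s) with hJc
  set Yj : L := algebraMap Y L (jac (M.tb i) y) with hYj
  have h1 := hQ _ hwBdiv c hcreg
  have h2 : jac hcreg.tb (Sum.elim (fun i => algebraMap Y L (y i)) s) = Jc * Yj := by
    rw [jac_chain hxLtb hcreg.tb, LocalCAux.jac_chart' (M.tb i) hxLtb y]
  rw [h2, map_mul] at h1
  have h3 : w (algebraMap P L f) * w G ^ m = w Q ^ e := by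
    rw [hf, ← map_pow, ← map_pow, ← map_mul, div_mul_cancel₀ _ (pow_ne_zero m hG)]
  have h4 : w (vol i s d) ≤ w Jc := by
    have h5 := det_der_algebraMap (k := B) (B := L) (E := L) hcreg.tb d
      (Sum.elim (fun c => algebraMap Y L (M.x i c)) s)
    simp only [Algebra.algebraMap_self_apply] at h5
    have h6 : w (Matrix.det (Matrix.of fun i j => d i (c j))) ≤ 1 :=
      LocalEAux.det_le_one _ fun a b => hd a _ (hcreg.le_one b)
    have h7 : vol i s d = Jc * Matrix.det (Matrix.of fun i j => d i (c j)) := h5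
    rw [h7, map_mul]
    exact mul_le_of_le_one_right' h6
  have h8 : 1 ≤ w (algebraMap Y L (A.gen i)) * w G * w Jc ^ e := by
    refine hdet.trans ?_
    rw [map_mul, map_mul, map_pow]
    exact mul_le_mul' le_rfl (pow_le_pow_left' h4 e)
  have h9 : w (algebraMap P L f) * w Yj ^ (e * m) ≤ w (algebraMap Y L (A.gen i)) ^ m :=
    LocalCAux.final' h3 h1 h8
  -- back to `T`
  have h10 : w (algebraMap P L ((f * algebraMap Y P (jac (M.tb i) y) ^ (e * m)) /
      algebraMap Y P (A.gen i) ^ m)) ≤ 1 := by
    rw [map_div₀, map_div₀, map_pow,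
      ← IsScalarTower.algebraMap_apply Y P L, map_pow, map_mul, map_pow,
      ← IsScalarTower.algebraMap_apply Y P L, map_mul, map_pow]
    exact div_le_one_of_le₀ h9 zero_le
  have h11 := (hwT _).mp h10
  rw [map_div₀, map_pow] at h11
  have h12 : 0 < T (algebraMap Y P (A.gen i)) ^ m :=
    pow_pos (zero_lt_iff.mpr ((Valuation.ne_zero_iff T).mpr hgP)) m
  rwa [div_le_one₀ h12] at h11

end Pf72953.Can
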