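import Mathlib
import Pool.Agent.Lib.Pf72953.Reduction
import Pool.Agent.Lib.Pf72953t.Main
import Pool.Agent.Lib.Pf72953c.CoreC

/-!
MODULE Pf72953c.LowerC: the lower bound.

PROOF.  `orbRatios_coord`: `f ∈ orbRatios k B E` with `m ≥ 1`, `ω ≠ 0`, `ω, f ω ∈ orbPluricanonical k B E m`.  By `mem_baseForms hx` (Orb.lean) and the proof of
`OrbKodairaGE.orbCoord` (Orb.lean, copy): `ω = h (dx)^m`, `h ∈ WOrb k E x m`, `h ≠ 0`, `f h ∈ WOrb k E x m` (for the given transcendence basis `x`).
`cplus_ge`: pick `cplus` many algebraically independent elements of the generating set: as in `main_GE` (Pf72953e/MainE.lean): `exists_algebraicIndependent_of_le_trdeg`, `exists_indep_in_set`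
(the field is contained in `P`, which is of finite transcendence degree).
`lowerC_GE`: `cplus_ge`, `orbRatios_coord` (`algebraMap B P f` with `f ∈ orbRatios`), `coreC`.  `ha : OrbKodairaGE k B E a` is only used for `x`, `m₁`, `h₀`
(`ha.orbCoord`).
`orb_le_cplus`: `ha` gives `f : Fin c → B` algebraically independent with `f i ∈ orbRatios`; so `c ≤ dimension k (adjoin ..)` (the images in `P` are in the adjoined field, algebraically independent there; `natCast_le_trdeg..`, finiteness of the
transcendence degree).  `var_le_cplus`: monotonicity of `adjoin` (`IntermediateField.adjoin.mono`) and of the transcendence degree (`trdeg_le_of_injective` for the inclusion).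
`lowerC`: as `lowerE` (Pf72953e/MainE.lean): `orbKodairaDim_eq`, `logKodairaDim_eq` (Pf72953t/Main.lean; for `fun _ : Unit => A`), and the analogous statement for `relLogKodairaDim`
(`relLog_eq`: it is `⊥` or attained: `RelLogGE k Z s c → c ≤ r` since `f` is algebraically independent over `Z` in `L` and `dimension Z L = r`; copy the proof of `kodairaDim_eq`, Reduction.lean; `RelLogGE` is monotone in `c`).
The first statement follows from the second as in `lowerE`, `kodairaDim k B ≤ orbKodairaDim k B E` (`KodairaGE.orb`) and `orb_le_cplus`.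
-/

set_option autoImplicit false
set_option linter.style.haveILetI false

open scoped WithZero
open Pf72953 Pf72953.Var Pf72953.Mov Pf72953.Ell

namespace Pf72953.Can


section orb

variable {k B E P Y J : Type*} [Field k] [CharZero k] [Field B] [Field E] [Field P] [Field Y]
  [Algebra k B] [Algebra k E] [Algebra k P] [Algebra k Y] [Algebra B E] [Algebra B P]
  [Algebra Y P] [IsScalarTower k B E] [IsScalarTower k B P] [Algebra.EssFiniteType k B]
  [Algebra.EssFiniteType k E] [Algebra.EssFiniteType k P] {M : SmoothModel k Y} {A : LineBundle M}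

omit [Field P] [Algebra k P] [Algebra B P] [IsScalarTower k B P] [Algebra.EssFiniteType k P]
  [Field Y] [Algebra k Y] [Algebra Y P] in
theorem orbRatios_coord {x : Fin (dimension k B) → B} (hx : IsTranscendenceBasis k x) {f : B}
    (hf : f ∈ orbRatios k B E) :
    ∃ m : ℕ, 1 ≤ m ∧ ∃ h ∈ WOrb k E x m, h ≠ 0 ∧ f * h ∈ WOrb k E x m := by
  obtain ⟨m, hm, ω, ⟨hω, hreg⟩, hne, hff⟩ := hf
  obtain ⟨h₀, rfl⟩ := mem_baseForms hx hω
  refine ⟨m, hm, h₀, mem_WOrb_of_regularAt hx hreg, ?_, ?_⟩
  · rintro rfl
    apply hne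
    rw [map_zero, zero_smul]
  · refine mem_WOrb_of_regularAt hx fun w hw => ?_
    have := hff.2 w hw
    rwa [smul_smul, ← map_mul] at this


theorem LowerCAux.trdeg_sub_lt (V : IntermediateField k P) : Algebra.trdeg k V < Cardinal.aleph0 :=
  (trdeg_le_of_injective V.val V.val.injective).trans_lt (trdeg_lt_aleph0 k P)

theorem LowerCAux.cplus_cast (T : J → MovingSection M A 1 B P) : (cplus k E T : Cardinal) =
    Algebra.trdeg k (IntermediateField.adjoin k
      ((algebraMap B P) '' orbRatios k B E ∪ coefRatios T)) := by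
  rw [cplus, dimension, Cardinal.cast_toNat_of_lt_aleph0 (LowerCAux.trdeg_sub_lt _)]

theorem orb_le_cplus (T : J → MovingSection M A 1 B P) {c : ℕ} (hc : OrbKodairaGE k B E c) :
    c ≤ cplus k E T := by
  obtain ⟨m, hm, ω, hω, hne, f, hf, hff⟩ := hc
  have hmem : ∀ i, algebraMap B P (f i) ∈ IntermediateField.adjoin k
      ((algebraMap B P) '' orbRatios k B E ∪ coefRatios T) := fun i =>
    IntermediateField.subset_adjoin _ _ (Or.inl ⟨f i, ⟨m, hm, ω, hω, hne, hff i⟩, rfl⟩)
  have hfP : AlgebraicIndependent k (fun i => algebraMap B P (f i)) :=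
    hf.map' (f := IsScalarTower.toAlgHom k B P) (algebraMap B P).injective
  have hfV : AlgebraicIndependent k (fun i => (⟨algebraMap B P (f i), hmem i⟩ :
      IntermediateField.adjoin k ((algebraMap B P) '' orbRatios k B E ∪ coefRatios T))) :=
    (AlgHom.algebraicIndependent_iff (IntermediateField.adjoin k
      ((algebraMap B P) '' orbRatios k B E ∪ coefRatios T)).val Subtype.val_injective).mp hfP
  have h1 := natCast_le_trdeg_of_le_dimension hfV
  rw [← LowerCAux.cplus_cast T] at h1
  exact_mod_cast h1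

theorem var_le_cplus (T : J → MovingSection M A 1 B P) : coefVar k T ≤ cplus k E T := by
  have hle : IntermediateField.adjoin k (coefRatios T) ≤ IntermediateField.adjoin k
      ((algebraMap B P) '' orbRatios k B E ∪ coefRatios T) :=
    IntermediateField.adjoin.mono k _ _ Set.subset_union_right
  have h1 := trdeg_le_of_injective (IntermediateField.inclusion hle)
    (IntermediateField.inclusion hle).injective
  have h2 : (coefVar k T : Cardinal) = Algebra.trdeg k (IntermediateField.adjoin k
      (coefRatios T)) := by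
    rw [coefVar, dimension, Cardinal.cast_toNat_of_lt_aleph0 (LowerCAux.trdeg_sub_lt _)]
  rw [← h2, ← LowerCAux.cplus_cast T] at h1
  exact_mod_cast h1

end orb

variable {k B E Y Z P L : Type*} [Field k] [CharZero k] [IsAlgClosed k] [Field B] [Field E]
  [Field Y] [Field Z] [Field P] [Field L]
  [Algebra k B] [Algebra k E] [Algebra k Y] [Algebra k Z] [Algebra k P] [Algebra k L]
  [Algebra B E] [Algebra B Z] [Algebra B P] [Algebra B L] [Algebra E L] [Algebra Y Z]
  [Algebra Y P] [Algebra Y L] [Algebra Z P] [Algebra Z L] [Algebra P L]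
  [IsScalarTower k B E] [IsScalarTower k B Z] [IsScalarTower k B P] [IsScalarTower k B L]
  [IsScalarTower k E L] [IsScalarTower k Y Z] [IsScalarTower k Y P] [IsScalarTower k Y L]
  [IsScalarTower k Z P] [IsScalarTower k Z L] [IsScalarTower k P L] [IsScalarTower B E L]
  [IsScalarTower B Z P] [IsScalarTower B Z L] [IsScalarTower B P L] [IsScalarTower Y Z P]
  [IsScalarTower Y Z L] [IsScalarTower Y P L] [IsScalarTower Z P L]
  [Algebra.EssFiniteType k B] [Algebra.EssFiniteType k Y] [Algebra.EssFiniteType k E]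
  [FiniteDimensional E L] [FiniteDimensional Z P]
  {M : SmoothModel k Y} {A : LineBundle M}

theorem lowerC_GE {r : ℕ} (hcomp : Twr.IsCompositum k B Y Z)
    (hdim : dimension k B + dimension k Y + r = dimension k E) (hunr : Unramified k B E L)
    {s : Fin r → L} (hs : IsTranscendenceBasis Z s) {e : ℕ} (he : 1 ≤ e) {G : L} (hG : G ≠ 0)
    (hreg : RegularOver k B Z A s e G) {J : Type*} [Fintype J] {T : J → MovingSection M A 1 B P}
    (hlog : ∀ j (w : Valuation L ℤᵐ⁰), IsDivisorial k L w →
      LogAt Z w s e (algebraMap P L (T j).sec * G)) (hT : ∃ j, (T j).sec ≠ 0)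
    (hM : KodairaGE k Y 0) {a b c : ℕ} (ha : OrbKodairaGE k B E a)
    (hb : LogKodairaGE M (fun _ : Unit => A) b) (hψ : RelLogGE k Z s c) :
    KodairaGE k E (cplus k E T + b + c) := by
  classical
  haveI : Algebra.EssFiniteType k Z := essFinite_Z hcomp
  haveI : Algebra.EssFiniteType k P := Algebra.EssFiniteType.comp k Z P
  obtain ⟨x, hx, m₁, hm₁, h₀, hh₀, hh₀ne, -⟩ := ha.orbCoord
  obtain ⟨θ, hθ⟩ := exists_algebraicIndependent_of_le_trdeg
    (LowerCAux.cplus_cast (k := k) (E := E) T).le
  have hθL : AlgebraicIndependent k (fun i => (θ i : P)) :=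
    hθ.map' (f := (IntermediateField.adjoin k
      ((algebraMap B P) '' orbRatios k B E ∪ coefRatios T)).val) Subtype.val_injective
  obtain ⟨ξ, hξ, hξS⟩ := exists_indep_in_set
    ((algebraMap B P) '' orbRatios k B E ∪ coefRatios T) _ hθL
    (fun i => by
      rw [← IntermediateField.isAlgebraic_adjoin_iff]
      exact isAlgebraic_algebraMap (θ i))
  refine coreC hcomp hdim hunr hs he hG hreg hlog hT hM hx hm₁ hh₀ hh₀ne hξ (fun i => ?_) hb hψ
  rcases hξS i with ⟨f, hf, hfe⟩ | h
  · exact Or.inl ⟨f, hfe.symm, orbRatios_coord hx hf⟩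
  · exact Or.inr h

omit [CharZero k] [IsAlgClosed k] [Field B] [Field E] [Field Y] [Field P]
  [Algebra k B] [Algebra k E] [Algebra k Y] [Algebra k Z] [Algebra k P]
  [Algebra B E] [Algebra B Z] [Algebra B P] [Algebra B L] [Algebra E L] [Algebra Y Z]
  [Algebra Y P] [Algebra Y L] [Algebra Z P] [Algebra P L]
  [IsScalarTower k B E] [IsScalarTower k B Z] [IsScalarTower k B P] [IsScalarTower k B L]
  [IsScalarTower k E L] [IsScalarTower k Y Z] [IsScalarTower k Y P] [IsScalarTower k Y L]
  [IsScalarTower k Z P] [IsScalarTower k Z L] [IsScalarTower k P L] [IsScalarTower B E L]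
  [IsScalarTower B Z P] [IsScalarTower B Z L] [IsScalarTower B P L] [IsScalarTower Y Z P]
  [IsScalarTower Y Z L] [IsScalarTower Y P L] [IsScalarTower Z P L]
  [Algebra.EssFiniteType k B] [Algebra.EssFiniteType k Y] [Algebra.EssFiniteType k E]
  [FiniteDimensional E L] [FiniteDimensional Z P] in
theorem LowerCAux.relLog_le {r : ℕ} {s : Fin r → L} (hs : IsTranscendenceBasis Z s) {c : ℕ}
    (hc : RelLogGE k Z s c) : c ≤ r := by
  obtain ⟨m, hm, G, hG, hne, f, hf, -⟩ := hc
  have h1 := natCast_le_trdeg_of_le_dimension hf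
  have h2 := hs.lift_cardinalMk_eq_trdeg
  simp only [Cardinal.mk_fin, Cardinal.lift_natCast, Cardinal.lift_uzero] at h2
  rw [← h2] at h1
  exact_mod_cast h1

omit [CharZero k] [IsAlgClosed k] [Field B] [Field E] [Field Y] [Field P]
  [Algebra k B] [Algebra k E] [Algebra k Y] [Algebra k Z] [Algebra k P]
  [Algebra B E] [Algebra B Z] [Algebra B P] [Algebra B L] [Algebra E L] [Algebra Y Z]
  [Algebra Y P] [Algebra Y L] [Algebra Z P] [Algebra P L]
  [IsScalarTower k B E] [IsScalarTower k B Z] [IsScalarTower k B P] [IsScalarTower k B L]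
  [IsScalarTower k E L] [IsScalarTower k Y Z] [IsScalarTower k Y P] [IsScalarTower k Y L]
  [IsScalarTower k Z P] [IsScalarTower k Z L] [IsScalarTower k P L] [IsScalarTower B E L]
  [IsScalarTower B Z P] [IsScalarTower B Z L] [IsScalarTower B P L] [IsScalarTower Y Z P]
  [IsScalarTower Y Z L] [IsScalarTower Y P L] [IsScalarTower Z P L]
  [Algebra.EssFiniteType k B] [Algebra.EssFiniteType k Y] [Algebra.EssFiniteType k E]
  [FiniteDimensional E L] [FiniteDimensional Z P] in
theorem relLog_eq {r : ℕ} {s : Fin r → L} (hs : IsTranscendenceBasis Z s) :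
    relLogKodairaDim k Z s = ⊥ ∨
      ∃ c : ℕ, RelLogGE k Z s c ∧ relLogKodairaDim k Z s = ((c : ℕ∞) : WithBot ℕ∞) := by
  classical
  by_cases h : ∃ c, RelLogGE k Z s c
  · right
    obtain ⟨c₀, hc₀⟩ := h
    set c := Nat.findGreatest (fun c => RelLogGE k Z s c) r with hc
    have hcGE : RelLogGE k Z s c := Nat.findGreatest_spec (P := fun c => RelLogGE k Z s c)
      (LowerCAux.relLog_le hs hc₀) hc₀
    refine ⟨c, hcGE, le_antisymm ?_ ?_⟩
    · refine iSup₂_le fun d hd => ?_
      have : d ≤ c := Nat.le_findGreatest (LowerCAux.relLog_le hs hd) hd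
      exact_mod_cast this
    · exact le_iSup₂_of_le c hcGE le_rfl
  · left
    push Not at h
    rw [relLogKodairaDim]
    exact le_antisymm (iSup₂_le fun c hc => absurd hc (h c)) bot_le

theorem LowerCAux.kodairaGE_zero' {k Y : Type*} [Field k] [CharZero k] [Field Y] [Algebra k Y]
    [Algebra.EssFiniteType k Y] (hM : kodairaDim k Y ≠ ⊥) : KodairaGE k Y 0 := by
  rcases kodairaDim_eq (k := k) (K := Y) with h | ⟨c, ⟨m, hm, ω, hω, hω0, -⟩, -⟩
  · exact absurd h hM
  · exact ⟨m, hm, ω, hω, hω0, Fin.elim0, by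
      rw [algebraicIndependent_empty_type_iff]
      exact (algebraMap k Y).injective, fun i => i.elim0⟩

/-- The lower bound. -/
theorem lowerC {r : ℕ} (hcomp : Twr.IsCompositum k B Y Z)
    (hdim : dimension k B + dimension k Y + r = dimension k E) (hunr : Unramified k B E L)
    {s : Fin r → L} (hs : IsTranscendenceBasis Z s) {e : ℕ} (he : 1 ≤ e) {G : L} (hG : G ≠ 0)
    (hreg : RegularOver k B Z A s e G) {J : Type*} [Fintype J] {T : J → MovingSection M A 1 B P}
    (hlog : ∀ j (w : Valuation L ℤᵐ⁰), IsDivisorial k L w →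
      LogAt Z w s e (algebraMap P L (T j).sec * G)) (hT : ∃ j, (T j).sec ≠ 0)
    (hM : kodairaDim k Y ≠ ⊥) :
    kodairaDim k B + logKodairaDim M (fun _ : Unit => A) + relLogKodairaDim k Z s ≤
        kodairaDim k E ∧
      (orbKodairaDim k B E ≠ ⊥ →
        (((cplus k E T : ℕ) : ℕ∞) : WithBot ℕ∞) + logKodairaDim M (fun _ : Unit => A) +
          relLogKodairaDim k Z s ≤ kodairaDim k E ∧
        max (orbKodairaDim k B E) (((coefVar k T : ℕ) : ℕ∞) : WithBot ℕ∞) ≤
          (((cplus k E T : ℕ) : ℕ∞) : WithBot ℕ∞)) := by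
  haveI : Algebra.EssFiniteType k Z := essFinite_Z hcomp
  haveI : Algebra.EssFiniteType k P := Algebra.EssFiniteType.comp k Z P
  have h1 : kodairaDim k B ≤ orbKodairaDim k B E := by
    refine iSup₂_le fun c hc => ?_
    exact le_iSup₂_of_le c hc.orb le_rfl
  have main2 : orbKodairaDim k B E ≠ ⊥ →
      (((cplus k E T : ℕ) : ℕ∞) : WithBot ℕ∞) + logKodairaDim M (fun _ : Unit => A) +
          relLogKodairaDim k Z s ≤ kodairaDim k E ∧
        max (orbKodairaDim k B E) (((coefVar k T : ℕ) : ℕ∞) : WithBot ℕ∞) ≤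
          (((cplus k E T : ℕ) : ℕ∞) : WithBot ℕ∞) := by
    intro hne
    rcases orbKodairaDim_eq (k := k) (B := B) (E := E) with hB | ⟨a, ha, ha'⟩
    · exact absurd hB hne
    refine ⟨?_, ?_⟩
    · rcases Twr.logKodairaDim_eq (M := M) (fun _ : Unit => A) with hF | ⟨b, hb, hb'⟩
      · rw [hF]; simp
      rcases relLog_eq (k := k) hs with hG' | ⟨c, hc, hc'⟩
      · rw [hG']; simp
      have h4 := lowerC_GE hcomp hdim hunr hs he hG hreg hlog hT (LowerCAux.kodairaGE_zero' hM) ha hb hc
      have h5 : ((((cplus k E T + b + c : ℕ) : ℕ∞)) : WithBot ℕ∞) ≤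
          kodairaDim k E := le_iSup₂_of_le _ h4 le_rfl
      rw [hb', hc']
      refine le_trans (le_of_eq ?_) h5
      push_cast
      rfl
    · rw [ha']
      refine max_le ?_ ?_
      · exact_mod_cast orb_le_cplus T ha
      · exact_mod_cast var_le_cplus (E := E) T
  refine ⟨?_, main2⟩
  by_cases hne : orbKodairaDim k B E = ⊥
  · have : kodairaDim k B = ⊥ := by
      rw [hne] at h1
      exact le_bot_iff.mp h1
    rw [this]
    simp
  · obtain ⟨h2, h3⟩ := main2 hne
    refine le_trans ?_ h2
    gcongr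
    exact h1.trans ((le_max_left _ _).trans h3)

end Pf72953.Can
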