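import Mathlib
import Pool.Agent.Lib.Pf72953e.SqE
import Pool.Agent.Lib.Pf72953f.RelW
import Pool.Agent.Lib.Pf72953c.Defs
import Pool.Agent.Lib.Pf72953c.RegJac
import Pool.Agent.Lib.Pf72953c.RelS
import Pool.Agent.Lib.Pf72953c.NormEq
import Pool.Agent.Lib.Pf72953c.BasesC

/-!
MODULE Pf72953c.RegOf: the regularity condition follows from the logarithmic one, if the sections `T_j` generate `A` in codimension one.

PROOF.  Let `i, w, hw, htriv, hprime, d, hd` be as in the definition of `RegularOver`; `basesC` gives the transcendence bases; `ξ = (x_i, s)`, `vol i s d = det (d_a ξ_b)`.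
`w` is divisorial on `L/B` (`Mov.IsDivisorial.over`).
 CASE 1: `w` trivial on `Z` (so also divisorial on `L/Z`).  `(c₁, t)` adapted to `w` over `Z`, `t` a uniformizer (index `Fin r`; `IsDivisorial.exists_adapted`, `card_eq_of_isTranscendenceBasis hs`), `hreg₁ = hc₁.regBasis ..`; `(x_i, c₁)` is
   adapted over `B` (`Fib.Adapted_rel`, Pf72953f/RelW.lean, with `k := B`, `B := Z`, `x := M.x i` in `Z`), so a regular basis `hregB` over `B`.  `det_regDer_le hregB d hd ξ` (RegJac.lean): `w (vol i s d) ≤ w (jac hregB.tb ξ)`, and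
   `jac hregB.tb ξ = jac hreg₁.tb s` (`Fib.jac_rel`, `jac_self`; see the proof of `Fib.WReg_rel`).  `hX w hw _` with the `Z`-derivations `pd hreg₁.tb a` (regular: `hreg₁.der`; `jac_eq_det`) gives `w (G * (jac hreg₁.tb s) ^ e) ≤ 1`; `w (gen_A) = 1`
   (`A.gen i ∈ Y ⊆ Z`, not zero).  This proves the claim.
 CASE 2: `w` not trivial on `Z`.  `wP = w.comap (algebraMap P L)` is divisorial (`IsDivisorial.restrict`), trivial on `B`, `Br.PrimeAt M B Z i wP` (the same conditions), so `hgen` gives `j` with `wP (T j).sec = w (gen_A)`.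
   `(c, t)` adapted to `w` over `k` in `L`, index `Fin dB ⊕ (Fin dY ⊕ Fin r)`?  Better: let `cB` be a transcendence basis of `B/k`; let `(c₃, t₃)` be adapted to `w` over `B`, index `Fin dY ⊕ Fin r` (`IsDivisorial.exists_adapted` for `B`; `basesB`), `hreg₃` the
   regular basis over `B`, so `w (vol i s d) ≤ w (jac hreg₃.tb ξ)` (`det_regDer_le`).  `(cB, c₃)` is adapted to `w` over `k` (`Fib.Adapted_rel`), so a log basis `hlog₃` with `∏ w = w t₃` (`Adapted.prod`), and `jac hlog₃.tb (cB, ξ) = jac hreg₃.tb ξ` (`Fib.jac_rel`, `jac_self`).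
   So `relS cB hlog₃ ξ = w (jac hreg₃.tb ξ) * w t₃` (`w (cB j) = 1`).  `norm_eq` (NormEq.lean) with `y := M.x i` (`jac_self`): `relS cB hlog₃ ξ = relS cP hc₂ s * relvol M i cB hcP`, for `cP` a log basis of `P` for `wP` and `c₂` one of `L`
   (index `(Fin dB ⊕ Fin dY) ⊕ Fin r`).  `relvol_le_unif` (SqE.lean, `N := L`): `relvol ≤ w t_Z`, `t_Z ∈ Z`, `w t_Z < 1`, so `w t_Z ≤ w t₃` (`t₃` is a uniformizer of `w`).  Hence `w (jac hreg₃.tb ξ) ≤ relS cP hc₂ s =: ρ` (cancel `w t₃`).
   `relS_der` (RelS.lean) and `hlog j w hw` (`P`-derivations restricted to `Z`): `w (T j).sec * w G * ρ ^ e ≤ 1`.  So `w (gen_A * G * vol ^ e) ≤ w (gen_A) * w G * ρ ^ e ≤ 1`.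
-/

set_option autoImplicit false
set_option linter.style.haveILetI false

open scoped WithZero
open Pf72953 Pf72953.Var Pf72953.Mov Pf72953.Ell

namespace Pf72953.Can

/-- The sections `T_j` generate the line bundle `A` at all prime divisors of `M` over `B`. -/
def GeneratesOver (k' B Z : Type*) {k Y P J : Type*} [Field k] [Field Y] [Algebra k Y]
    {M : SmoothModel k Y} {A : LineBundle M} [Field k'] [Field B] [Field Z] [Field P]
    [Algebra k' P] [Algebra B Z] [Algebra B P] [Algebra Y Z] [Algebra Y P] [Algebra Z P]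
    (T : J → MovingSection M A 1 B P) : Prop :=
  ∀ (i : M.I) (w : Valuation P ℤᵐ⁰), IsDivisorial k' P w →
    (∀ c : B, c ≠ 0 → w (algebraMap B P c) = 1) → Br.PrimeAt M B Z i w →
    ∃ j, w (T j).sec = w (algebraMap Y P (A.gen i))

variable {k B E Y Z P L : Type*} [Field k] [CharZero k] [IsAlgClosed k] [Field B] [Field E]
  [Field Y] [Field Z] [Field P] [Field L]
  [Algebra k B] [Algebra k E] [Algebra k Y] [Algebra k Z] [Algebra k P] [Algebra k L]
  [Algebra B E] [Algebra B Z] [Algebra B P] [Algebra B L] [Algebra E L] [Algebra Y Z]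
  [Algebra Y P] [Algebra Y L] [Algebra Z P] [Algebra Z L] [Algebra P L]
  [IsScalarTower k B E] [IsScalarTower k B Z] [IsScalarTower k B P] [IsScalarTower k B L]
  [IsScalarTower k E L] [IsScalarTower k Y Z] [IsScalarTower k Y P] [IsScalarTower k Y L]
  [IsScalarTower k Z P] [IsScalarTower k Z L] [IsScalarTower k P L] [IsScalarTower B E L]
  [IsScalarTower B Z P] [IsScalarTower B Z L] [IsScalarTower B P L] [IsScalarTower Y Z P]
  [IsScalarTower Y Z L] [IsScalarTower Y P L] [IsScalarTower Z P L]
  [Algebra.EssFiniteType k B] [Algebra.EssFiniteType k Y] [Algebra.EssFiniteType k E]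
  [FiniteDimensional E L] [FiniteDimensional Z P]
  {M : SmoothModel k Y} {A : LineBundle M}

theorem regular_of_log {r : ℕ} (hcomp : Twr.IsCompositum k B Y Z)
    (hdim : dimension k B + dimension k Y + r = dimension k E)
    {s : Fin r → L} (hs : IsTranscendenceBasis Z s) {e : ℕ} {G : L}
    {J : Type*} {T : J → MovingSection M A 1 B P}
    (hlog : ∀ j (w : Valuation L ℤᵐ⁰), IsDivisorial k L w →
      LogAt Z w s e (algebraMap P L (T j).sec * G))
    (hgen : GeneratesOver k B Z T)
    (hX : ∀ w : Valuation L ℤᵐ⁰, IsDivisorial k L w →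
      (∀ z : Z, z ≠ 0 → w (algebraMap Z L z) = 1) → RegAt Z w s e G) :
    RegularOver k B Z A s e G := by
  classical
  intro i w hw htriv hprime d hd
  haveI := essFinite_Z hcomp
  haveI : Algebra.EssFiniteType k P := Algebra.EssFiniteType.comp k Z P
  haveI : Algebra.EssFiniteType k L := Algebra.EssFiniteType.comp k E L
  haveI : Algebra.EssFiniteType B L := Algebra.EssFiniteType.of_comp k B L
  haveI : Algebra.EssFiniteType Z L := Algebra.EssFiniteType.of_comp k Z L
  haveI : CharZero B := charZero_of_injective_algebraMap (algebraMap k B).injective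
  haveI : CharZero Z := charZero_of_injective_algebraMap (algebraMap k Z).injective
  obtain ⟨hdimZ, hdimP, hdimL, hZ, hP, hPL, hL⟩ :=
    basesC (P := P) hcomp hdim hs
  obtain ⟨hyB, hξB⟩ := basesB hcomp hdim hs (M.tb i)
  have hwB : IsDivisorial B L w := IsDivisorial.over hw htriv
  have hcardB : Fintype.card (Fin (dimension k Y) ⊕ Fin r) = dimension B L :=
    card_eq_of_isTranscendenceBasis hξB
  have hYL : ∀ y : Y, algebraMap Y L y = algebraMap Z L (algebraMap Y Z y) := fun y =>
    IsScalarTower.algebraMap_apply Y Z L y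
  by_cases hnt : ∀ z : Z, z ≠ 0 → w (algebraMap Z L z) = 1
  · -- case 1: `w` is trivial on `Z`
    have hwZ : IsDivisorial Z L w := IsDivisorial.over hw hnt
    have hcardZ : Fintype.card (Fin r) = dimension Z L := card_eq_of_isTranscendenceBasis hs
    obtain ⟨c₁, t, ht, hc₁⟩ := hwZ.exists_adapted hcardZ
    have hreg₁ := hc₁.regBasis hcardZ ht
    have hcB := Fib.Adapted_rel (k := B) hyB.1 hc₁
    have hregB := hcB.regBasis hcardB ht
    have h1 := det_regDer_le hregB d hd (Sum.elim (fun c => algebraMap Y L (M.x i c)) s)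
    have h2 : jac hregB.tb (Sum.elim (fun c => algebraMap Y L (M.x i c)) s) =
        jac hreg₁.tb s := by
      have h3 := Fib.jac_rel hyB hreg₁.tb hregB.tb (fun j => algebraMap Y Z (M.x i j)) s
      rw [jac_self, map_one, one_mul] at h3
      rw [← h3]
      congr 1
      funext j
      rcases j with j | j
      · exact hYL _
      · rfl
    rw [h2] at h1
    have h4 := hX w hw hnt (fun a => pd hreg₁.tb a) (fun a z hz => hreg₁.der a z hz)
    have h5 : Matrix.det (Matrix.of fun a b => pd hreg₁.tb a (s b)) = jac hreg₁.tb s :=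
      (jac_eq_det hreg₁.tb s).symm
    rw [h5, map_mul, map_pow] at h4
    have h6 : w (algebraMap Y L (A.gen i)) = 1 := by
      rw [hYL]
      exact hnt _ (by simpa using A.ne i)
    rw [map_mul, map_mul, map_pow, h6, one_mul]
    refine le_trans ?_ h4
    exact mul_le_mul' le_rfl (pow_le_pow_left' h1 e)
  · -- case 2: `w` is not trivial on `Z`
    push Not at hnt
    have hYP : ∀ y : Y, algebraMap P L (algebraMap Y P y) = algebraMap Y L y := fun y =>
      (IsScalarTower.algebraMap_apply Y P L y).symm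
    have hZP : ∀ z : Z, algebraMap P L (algebraMap Z P z) = algebraMap Z L z := fun z =>
      (IsScalarTower.algebraMap_apply Z P L z).symm
    have hwP : IsDivisorial k P (w.comap (algebraMap P L)) := by
      obtain ⟨z, hz0, hz⟩ := hnt
      exact hw.restrict ⟨algebraMap Z P z, by simpa using hz0, by rw [hZP]; exact hz⟩
    have htrivP : ∀ b : B, b ≠ 0 → (w.comap (algebraMap P L)) (algebraMap B P b) = 1 := by
      intro b hb
      rw [Valuation.comap_apply, ← IsScalarTower.algebraMap_apply B P L]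
      exact htriv b hb
    have hprimeP : Br.PrimeAt M B Z i (w.comap (algebraMap P L)) := by
      refine ⟨fun f hf => ?_, fun d' hd' z hz => ?_⟩
      · rw [Valuation.comap_apply, hYP]
        exact hprime.center f hf
      · simp only [Valuation.comap_apply, hZP] at hd' hz ⊢
        exact hprime.der d' hd' z hz
    obtain ⟨j, hj⟩ := hgen i _ hwP htrivP hprimeP
    rw [Valuation.comap_apply, Valuation.comap_apply, hYP] at hj
    obtain ⟨cB, hcB⟩ := exists_tb k B
    obtain ⟨c₃, t₃, ht₃, hc₃⟩ := hwB.exists_adapted hcardB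
    have hreg₃ := hc₃.regBasis hcardB ht₃
    have h1 := det_regDer_le hreg₃ d hd (Sum.elim (fun c => algebraMap Y L (M.x i c)) s)
    have hck := Fib.Adapted_rel (k := k) hcB.1 hc₃
    have hcardk : Fintype.card (Fin (dimension k B) ⊕ (Fin (dimension k Y) ⊕ Fin r)) =
        dimension k L := card_eq_of_isTranscendenceBasis (hL hcB (M.tb i))
    have hlog₃ := hck.logBasis hcardk
    have hprod := hck.prod
    have h2 : jac hlog₃.tb (Sum.elim (fun a => algebraMap B L (cB a))
        (Sum.elim (fun c => algebraMap Y L (M.x i c)) s)) =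
        jac hreg₃.tb (Sum.elim (fun c => algebraMap Y L (M.x i c)) s) := by
      rw [Fib.jac_rel hcB hreg₃.tb hlog₃.tb cB _, jac_self, map_one, one_mul]
    have hcB1 : ∏ a, w (algebraMap B L (cB a)) = 1 :=
      Finset.prod_eq_one fun a _ => htriv _ (hcB.1.ne_zero a)
    have h3 : relS cB hlog₃ (Sum.elim (fun c => algebraMap Y L (M.x i c)) s) =
        w (jac hreg₃.tb (Sum.elim (fun c => algebraMap Y L (M.x i c)) s)) * w t₃ := by
      rw [relS, h2, hprod, hcB1, inv_one, mul_one]
    have hcardP : Fintype.card (Fin (dimension k B) ⊕ Fin (dimension k Y)) = dimension k P :=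
      card_eq_of_isTranscendenceBasis (hP hcB (M.tb i))
    obtain ⟨cP, tP, htP, hcP'⟩ := hwP.exists_adapted hcardP
    have hcP := hcP'.logBasis hcardP
    have hz2 := hPL hcP.tb
    have hcard2 : Fintype.card ((Fin (dimension k B) ⊕ Fin (dimension k Y)) ⊕ Fin r) =
        dimension k L := card_eq_of_isTranscendenceBasis hz2
    obtain ⟨c₂, t₂, ht₂, hc₂'⟩ := hw.exists_adapted hcard2
    have hc₂ := hc₂'.logBasis hcard2
    have h4 := norm_eq (P := P) hcB (hP hcB (M.tb i)) hcP hlog₃ hc₂ hz2 (M.x i)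
    rw [jac_self, map_one, map_one, mul_one, h3] at h4
    obtain ⟨tZ, htZ0, htZ1, htZ⟩ := relvol_le_unif hZ hw htriv hnt hprime.center hcB hcP
    have h5 : w (algebraMap Z L tZ) ≤ w t₃ := ht₃.le _ htZ1
    have ht30 : w t₃ ≠ 0 := (Valuation.ne_zero_iff _).mpr ht₃.ne_zero
    have h6 : w (jac hreg₃.tb (Sum.elim (fun c => algebraMap Y L (M.x i c)) s)) ≤
        relS cP hc₂ s := by
      have h7 : w (jac hreg₃.tb (Sum.elim (fun c => algebraMap Y L (M.x i c)) s)) * w t₃ ≤
          relS cP hc₂ s * w t₃ := by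
        rw [h4]
        exact mul_le_mul' le_rfl (htZ.trans h5)
      exact le_of_mul_le_mul_right h7 (zero_lt_iff.mpr ht30)
    obtain ⟨d', hd', hdet⟩ := relS_der hw hcP hc₂ hz2
    have h8 := hlog j w hw (fun a => (d' a).restrictScalars Z) (fun a z => hd' a z)
    have h9 : Matrix.det (Matrix.of fun a b => ((d' a).restrictScalars Z) (s b)) =
        Matrix.det (Matrix.of fun a b => d' a (s b)) := rfl
    rw [h9, map_mul, map_mul, map_pow, hdet, hj] at h8
    rw [map_mul, map_mul, map_pow]
    refine le_trans ?_ h8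
    exact mul_le_mul' le_rfl (pow_le_pow_left' (h1.trans h6) e)

end Pf72953.Can
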