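import Mathlib
import Pool.Agent.Lib.Pf72953.Reduction
import Pool.Agent.Lib.Pf72953u.Inst
import Pool.Agent.Lib.Pf72953c.BasesC
import Pool.Agent.Lib.Pf72953c.CountC
import Pool.Agent.Lib.Pf72953c.ConstC
import Pool.Agent.Lib.Pf72953c.LocalC

/-!
MODULE Pf72953c.UpperC: the upper bound for the Kodaira dimension of the generic fibre `F` of `E/B`.

PROOF (compare `upper_aux`, `upperE_GE`, `upperE` of Pf72953e/UpperE.lean, with `N := L`, without the `D j`; copy).
`κ = algebraicClosure B P`, `K = κ·Y ⊆ P` (`upperE_GE`).  Dimensions and bases: `basesC`/`basesB` (BasesC.lean) and `Up.tb_over` as in `upper_aux` (`hyZ`, `hyP`, `hyK`); `hyL` (`(y, s)` is a transcendence basis of `L/B`):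
`basesB`, or `(hyZ y hy).sumElim_comp hs` composed with `Equiv.sumComm` and rewritten by `IsScalarTower.algebraMap_apply Y Z L`.
The forms: `hc.exists_coord hz` (`z` a transcendence basis of `E/B`) gives `m`, `f₀`, `f`; `hpull` (pull back to `L`, change to the basis `(y, s)`, the factor `j₀ ^ m`) as in `upper_aux`.
`hdown`: for `Q ∈ WReg B (y, s) m`, `constC` gives `IsAlgebraic Z (Q ^ e / G ^ m)`, so by `hconn` and `hin` there is `F : K` with `algebraMap K L F = Q ^ e / G ^ m`, and
`F * algebraMap Y K (σ ^ ((e - 1) * m)) ∈ LocBdC κ A y (e * m)`: `local_boundC` and `v (algebraMap Y K σ) ≤ v (algebraMap Y K (A.gen i))` (`σ = f * A.gen i`, `f ∈ M.A i ⊆ bc κ K (M.A i)`), `(e - 1) * m + m = e * m`.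
The ratios: `F₀ ↔ (f₀ j₀^m)^e / G^m`, `F i ↔ (f i f₀ j₀^m)^e / G^m`; `algebraMap K L (F i / F₀) = algebraMap E L (f i) ^ e`; these are algebraically independent over `B` (`algebraicIndependent_pow`, Pf72953/Core.lean), hence over `κ`
(`AlgebraicIndependent.extendScalars` as in `upper_aux`).  Conclude by `countC` (weight `e * m ≥ 1`); the common factor `σ ^ ((e - 1) * m)` cancels in the ratios.
`upperC`: `iSup₂_le`, `le_iSup₂_of_le` as in `upperE`.
-/

set_option autoImplicit false
set_option linter.style.haveILetI false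

open scoped WithZero
open Pf72953 Pf72953.Mov Pf72953.Up Pf72953.Twr Pf72953.Ell

namespace Pf72953.Can

variable {k B E Y Z P L : Type*} [Field k] [CharZero k] [IsAlgClosed k] [Field B] [Field E]
  [Field Y] [Field Z] [Field P] [Field L]
  [Algebra k B] [Algebra k E] [Algebra k Y] [Algebra k Z] [Algebra k P] [Algebra k L]
  [Algebra B E] [Algebra B Z] [Algebra B P] [Algebra B L] [Algebra E L] [Algebra Y Z]
  [Algebra Y P] [Algebra Y L] [Algebra Z P] [Algebra Z L] [Algebra P L]
  [IsScalarTower k B E] [IsScalarTower k B Z] [IsScalarTower k B P] [IsScalarTower k B L]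
  [IsScalarTower k E L] [IsScalarTower k Y Z] [IsScalarTower k Y P] [IsScalarTower k Y L]
  [IsScalarTower k Z P] [IsScalarTower k Z L] [IsScalarTower k P L] [IsScalarTower B E L]
  [IsScalarTower B Z P] [IsScalarTower B Z L] [IsScalarTower B P L] [IsScalarTower Y Z P]
  [IsScalarTower Y Z L] [IsScalarTower Y P L] [IsScalarTower Z P L]
  [Algebra.EssFiniteType k B] [Algebra.EssFiniteType k Y] [Algebra.EssFiniteType k E]
  [FiniteDimensional E L] [FiniteDimensional Z P]
  {M : SmoothModel k Y} {A : LineBundle M}

theorem upperC_aux {r : ℕ} (hcomp : Twr.IsCompositum k B Y Z)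
    (hdim : dimension k B + dimension k Y + r = dimension k E)
    {s : Fin r → L} (hs : IsTranscendenceBasis Z s) {e : ℕ} (he : 1 ≤ e) {G : L} (hG : G ≠ 0)
    (hX : RegOn k Z s e G) (hgen : GeneratedOver k B Z P A s e G)
    (hconn : Connected k B Y Z P L) (hκ : kodairaDim Z L ≤ 0)
    (hA : ∃ σ ∈ A.sections, σ ≠ 0) {c : ℕ} (hc : KodairaGE B E c)
    (κ K : Type*) [Field κ] [Field K] [Algebra B κ] [Algebra κ K] [Algebra κ P] [Algebra Y K]
    [Algebra Z K] [Algebra K P] [IsScalarTower B κ P] [IsScalarTower κ K P] [IsScalarTower Y K P]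
    [IsScalarTower Z K P] [Algebra.IsAlgebraic B κ]
    (hgenK : ∀ z : K, z ∈ IntermediateField.adjoin κ (Set.range (algebraMap Y K)))
    (hin : ∀ t ∈ IntermediateField.adjoin k ({p : P | IsAlgebraic B p} ∪
      Set.range (algebraMap Y P)), ∃ f : K, algebraMap K P f = t) :
    LogKodairaGE M (fun _ : Unit => A) c := by
  classical
  letI : Algebra k κ := ((algebraMap B κ).comp (algebraMap k B)).toAlgebra
  haveI : IsScalarTower k B κ := IsScalarTower.of_algebraMap_eq fun _ => rfl
  letI : Algebra k K := ((algebraMap κ K).comp (algebraMap k κ)).toAlgebra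
  haveI : IsScalarTower k κ K := IsScalarTower.of_algebraMap_eq fun _ => rfl
  letI : Algebra B K := ((algebraMap κ K).comp (algebraMap B κ)).toAlgebra
  haveI : IsScalarTower B κ K := IsScalarTower.of_algebraMap_eq fun _ => rfl
  letI : Algebra κ L := ((algebraMap P L).comp (algebraMap κ P)).toAlgebra
  haveI : IsScalarTower κ P L := IsScalarTower.of_algebraMap_eq fun _ => rfl
  letI : Algebra K L := ((algebraMap P L).comp (algebraMap K P)).toAlgebra
  haveI : IsScalarTower K P L := IsScalarTower.of_algebraMap_eq fun _ => rfl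
  haveI : IsScalarTower k κ P := IsScalarTower.of_algebraMap_eq fun c => by
    change _ = algebraMap κ P (algebraMap B κ (algebraMap k B c))
    rw [← IsScalarTower.algebraMap_apply B κ P, ← IsScalarTower.algebraMap_apply k B P]
  haveI : IsScalarTower k κ L := IsScalarTower.of_algebraMap_eq fun c => by
    rw [IsScalarTower.algebraMap_apply κ P L, ← IsScalarTower.algebraMap_apply k κ P,
      ← IsScalarTower.algebraMap_apply k P L]
  haveI : IsScalarTower k K P := IsScalarTower.of_algebraMap_eq fun c => by
    rw [IsScalarTower.algebraMap_apply k κ K, ← IsScalarTower.algebraMap_apply κ K P,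
      ← IsScalarTower.algebraMap_apply k κ P]
  haveI : IsScalarTower k K L := IsScalarTower.of_algebraMap_eq fun c => by
    rw [IsScalarTower.algebraMap_apply K P L, ← IsScalarTower.algebraMap_apply k K P,
      ← IsScalarTower.algebraMap_apply k P L]
  haveI : IsScalarTower k Y K := IsScalarTower.of_algebraMap_eq fun c =>
    (algebraMap K P).injective (by
      rw [← IsScalarTower.algebraMap_apply k K P, ← IsScalarTower.algebraMap_apply Y K P,
        ← IsScalarTower.algebraMap_apply k Y P])
  haveI : IsScalarTower B κ L := IsScalarTower.of_algebraMap_eq fun c => by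
    rw [IsScalarTower.algebraMap_apply κ P L, ← IsScalarTower.algebraMap_apply B κ P,
      ← IsScalarTower.algebraMap_apply B P L]
  haveI : IsScalarTower B K P := IsScalarTower.of_algebraMap_eq fun c => by
    rw [IsScalarTower.algebraMap_apply B κ K, ← IsScalarTower.algebraMap_apply κ K P,
      ← IsScalarTower.algebraMap_apply B κ P]
  haveI : IsScalarTower B K L := IsScalarTower.of_algebraMap_eq fun c => by
    rw [IsScalarTower.algebraMap_apply K P L, ← IsScalarTower.algebraMap_apply B K P,
      ← IsScalarTower.algebraMap_apply B P L]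
  haveI : IsScalarTower B Z K := IsScalarTower.of_algebraMap_eq fun c =>
    (algebraMap K P).injective (by
      rw [← IsScalarTower.algebraMap_apply B K P, ← IsScalarTower.algebraMap_apply Z K P,
        ← IsScalarTower.algebraMap_apply B Z P])
  haveI : IsScalarTower Y Z K := IsScalarTower.of_algebraMap_eq fun c =>
    (algebraMap K P).injective (by
      rw [← IsScalarTower.algebraMap_apply Y K P, ← IsScalarTower.algebraMap_apply Z K P,
        ← IsScalarTower.algebraMap_apply Y Z P])
  haveI : IsScalarTower κ K L := IsScalarTower.of_algebraMap_eq fun c => by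
    rw [IsScalarTower.algebraMap_apply K P L, ← IsScalarTower.algebraMap_apply κ K P,
      ← IsScalarTower.algebraMap_apply κ P L]
  haveI : IsScalarTower Y K L := IsScalarTower.of_algebraMap_eq fun c => by
    rw [IsScalarTower.algebraMap_apply K P L, ← IsScalarTower.algebraMap_apply Y K P,
      ← IsScalarTower.algebraMap_apply Y P L]
  haveI : IsScalarTower Z K L := IsScalarTower.of_algebraMap_eq fun c => by
    rw [IsScalarTower.algebraMap_apply K P L, ← IsScalarTower.algebraMap_apply Z K P,
      ← IsScalarTower.algebraMap_apply Z P L]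
  haveI : FiniteDimensional K P := FiniteDimensional.right Z K P
  haveI : CharZero B := charZero_of_injective_algebraMap (algebraMap k B).injective
  haveI : CharZero Z := charZero_of_injective_algebraMap (algebraMap k Z).injective
  haveI : CharZero κ := charZero_of_injective_algebraMap (algebraMap B κ).injective
  haveI : CharZero P := charZero_of_injective_algebraMap (algebraMap k P).injective
  haveI : Algebra.EssFiniteType k Z := essFinite_Z hcomp
  haveI : Algebra.EssFiniteType k P := Algebra.EssFiniteType.comp k Z P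
  haveI : Algebra.EssFiniteType k L := Algebra.EssFiniteType.comp k E L
  haveI : Algebra.EssFiniteType B E := Algebra.EssFiniteType.of_comp k B E
  haveI : Algebra.EssFiniteType B L := Algebra.EssFiniteType.of_comp k B L
  haveI : Algebra.EssFiniteType B P := Algebra.EssFiniteType.of_comp k B P
  haveI : Algebra.EssFiniteType P L := Algebra.EssFiniteType.of_comp k P L
  haveI : Algebra.EssFiniteType κ K := Up.essFiniteType_of_gen (k := k) (Y := Y) hgenK
  haveI hMne : Nonempty M.I := by
    obtain ⟨i, -⟩ := M.cover 1 (fun c hc => Valuation.one_apply_of_ne_zero (by simpa using hc))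
    exact ⟨i⟩
  obtain ⟨hdZ, hdP, hdL, -, -, -, -⟩ := basesC (P := P) hcomp hdim hs
  -- transcendence bases
  have halgZ : ∀ a : Z, IsAlgebraic (Algebra.adjoin k
      (Set.range (algebraMap B Z) ∪ Set.range (algebraMap Y Z))) a := by
    intro a
    rw [← IntermediateField.isAlgebraic_adjoin_iff]
    exact isAlgebraic_algebraMap (⟨a, hcomp a⟩ : IntermediateField.adjoin k
      (Set.range (algebraMap B Z) ∪ Set.range (algebraMap Y Z)))
  have hyZ : ∀ y : Fin (dimension k Y) → Y, IsTranscendenceBasis k y →
      IsTranscendenceBasis B (fun i => algebraMap Y Z (y i)) := fun y hy =>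
    Up.tb_over hdZ.symm halgZ hy
  have hyP : ∀ y : Fin (dimension k Y) → Y, IsTranscendenceBasis k y →
      IsTranscendenceBasis B (fun i => algebraMap Y P (y i)) := by
    intro y hy
    have h1 := (hyZ y hy).algebraMap_comp (A := P)
    refine (iff_of_eq (congrArg _ ?_)).mp h1
    funext i
    exact (IsScalarTower.algebraMap_apply Y Z P (y i)).symm
  have hyK : ∀ y : Fin (dimension k Y) → Y, IsTranscendenceBasis k y →
      IsTranscendenceBasis κ (fun i => algebraMap Y K (y i)) := by
    intro y hy
    obtain ⟨x, hx⟩ := exists_tb k B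
    have hdimκ : dimension k κ = dimension k B := by
      have h1 : IsTranscendenceBasis k (algebraMap B κ ∘ x) := hx.algebraMap_comp
      have h2 := card_eq_of_isTranscendenceBasis h1
      rw [Fintype.card_fin] at h2
      exact h2.symm
    have halgP : ∀ c : P, IsAlgebraic (Algebra.adjoin k
        (Set.range (algebraMap κ P) ∪ Set.range (algebraMap Y P))) c := by
      intro c
      have hle : ∀ z : Z, algebraMap Z P z ∈ IntermediateField.adjoin k
          (Set.range (algebraMap κ P) ∪ Set.range (algebraMap Y P)) := by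
        intro z
        have h1 : IntermediateField.adjoin k
            (Set.range (algebraMap B Z) ∪ Set.range (algebraMap Y Z)) ≤
            (IntermediateField.adjoin k
              (Set.range (algebraMap κ P) ∪ Set.range (algebraMap Y P))).comap
              (IsScalarTower.toAlgHom k Z P) := by
          rw [IntermediateField.adjoin_le_iff]
          rintro _ (⟨b, rfl⟩ | ⟨b, rfl⟩)
          · refine IntermediateField.subset_adjoin k _ (Or.inl ⟨algebraMap B κ b, ?_⟩)
            change _ = algebraMap Z P (algebraMap B Z b)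
            rw [← IsScalarTower.algebraMap_apply B κ P, ← IsScalarTower.algebraMap_apply B Z P]
          · refine IntermediateField.subset_adjoin k _ (Or.inr ⟨b, ?_⟩)
            change _ = algebraMap Z P (algebraMap Y Z b)
            rw [← IsScalarTower.algebraMap_apply Y Z P]
        exact h1 (hcomp z)
      rw [← IntermediateField.isAlgebraic_adjoin_iff]
      letI : Algebra Z (IntermediateField.adjoin k
          (Set.range (algebraMap κ P) ∪ Set.range (algebraMap Y P))) :=
        ((algebraMap Z P).codRestrict (IntermediateField.adjoin k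
          (Set.range (algebraMap κ P) ∪ Set.range (algebraMap Y P))).toSubring
          (fun z => hle z)).toAlgebra
      haveI : IsScalarTower Z (IntermediateField.adjoin k
          (Set.range (algebraMap κ P) ∪ Set.range (algebraMap Y P))) P :=
        IsScalarTower.of_algebraMap_eq fun _ => rfl
      exact (Algebra.IsAlgebraic.isAlgebraic (R := Z) c).extendScalars
        (algebraMap Z (IntermediateField.adjoin k
          (Set.range (algebraMap κ P) ∪ Set.range (algebraMap Y P)))).injective
    have htbP : IsTranscendenceBasis κ (fun i => algebraMap Y P (y i)) :=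
      Up.tb_over (by rw [hdimκ, hdP, hdZ]) halgP hy
    obtain ⟨z, hz⟩ := exists_tb κ K
    have h1 : IsTranscendenceBasis κ (algebraMap K P ∘ z) := hz.algebraMap_comp
    have h2 := card_eq_of_isTranscendenceBasis h1
    have h3 := card_eq_of_isTranscendenceBasis htbP
    rw [Fintype.card_fin] at h2
    refine isTranscendenceBasis_of_card (by rw [h3, h2]) ?_
    refine AlgebraicIndependent.of_comp (IsScalarTower.toAlgHom κ K P) ?_
    have h4 : (⇑(IsScalarTower.toAlgHom κ K P) ∘ fun i => algebraMap Y K (y i)) =
        fun i => algebraMap Y P (y i) :=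
      funext fun i => (IsScalarTower.algebraMap_apply Y K P (y i)).symm
    rw [h4]
    exact htbP.1
  have hyL : ∀ y : Fin (dimension k Y) → Y, IsTranscendenceBasis k y →
      IsTranscendenceBasis B (Sum.elim (fun i => algebraMap Y L (y i)) s) :=
    fun y hy => (basesB hcomp hdim hs hy).2
  obtain ⟨x, hx⟩ := exists_tb k B
  obtain ⟨y, hy⟩ := exists_tb k Y
  obtain ⟨σ, hσ, hσ0⟩ := hA
  -- the forms
  obtain ⟨z, hz⟩ := exists_tb B E
  obtain ⟨m, hm, f₀, hf₀, hf₀ne, f, hf, hff⟩ := hc.exists_coord hz
  have hzL : IsTranscendenceBasis B (fun i => algebraMap E L (z i)) := hz.algebraMap_comp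
  have hn : Fintype.card (Fin (dimension k Y) ⊕ Fin r) = dimension B E := by
    have h1 := card_eq_of_isTranscendenceBasis hzL
    have h2 := card_eq_of_isTranscendenceBasis (hyL y hy)
    rw [Fintype.card_fin] at h1
    rw [h1, h2]
  let e' : Fin (dimension k Y) ⊕ Fin r ≃ Fin (dimension B E) := Fintype.equivFinOfCardEq hn
  have hzL' : IsTranscendenceBasis B ((fun i => algebraMap E L (z i)) ∘ e') :=
    (isTranscendenceBasis_equiv e').mpr hzL
  set j₀ : L := jac (hyL y hy) ((fun i => algebraMap E L (z i)) ∘ e') with hj₀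
  have hj₀ne : j₀ ≠ 0 := jac_ne_zero hzL' (hyL y hy)
  have hpull : ∀ g ∈ WReg B z m, algebraMap E L g * j₀ ^ m ∈
      WReg B (Sum.elim (fun i => algebraMap Y L (y i)) s) m := by
    intro g hg
    exact WReg.change hzL' (hyL y hy) (Pf72953.WReg.reindex (WReg.pull hz hg) e')
  have hem : (e - 1) * m + m = e * m := by
    have h1 : e - 1 + 1 = e := Nat.sub_add_cancel he
    calc (e - 1) * m + m = (e - 1 + 1) * m := by ring
      _ = e * m := by rw [h1]
  set τ : K := algebraMap Y K (σ ^ ((e - 1) * m)) with hτ
  have hτ0 : τ ≠ 0 := by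
    rw [hτ]
    exact (map_ne_zero _).mpr (pow_ne_zero _ hσ0)
  have hdown : ∀ Q ∈ WReg B (Sum.elim (fun i => algebraMap Y L (y i)) s) m,
      ∃ F : K, algebraMap K L F = Q ^ e / G ^ m ∧ F * τ ∈ LocBdC κ A y (e * m) := by
    intro Q hQ
    have h2 : IsAlgebraic Z (Q ^ e / G ^ m) := constC hs hyZ he hG hX hκ hy hm hQ
    obtain ⟨t, ht, htL⟩ := hconn _ h2
    obtain ⟨F, hF⟩ := hin t ht
    have hFL : algebraMap K L F = Q ^ e / G ^ m := by
      rw [IsScalarTower.algebraMap_apply K P L, hF, htL]
    refine ⟨F, hFL, fun v hv i hvx hvA => ?_⟩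
    have h3 := local_boundC hG hgen hyZ hyK hyL hy hQ hFL hv hvx hvA
    have h4 : v (algebraMap Y K σ) ≤ v (algebraMap Y K (A.gen i)) := by
      obtain ⟨a, ha, hσa⟩ := hσ i
      rw [hσa, map_mul, map_mul]
      have h5 : v (algebraMap Y K a) ≤ 1 := hvA _ (Algebra.subset_adjoin ⟨a, ha, rfl⟩)
      calc v (algebraMap Y K a) * v (algebraMap Y K (A.gen i))
          ≤ 1 * v (algebraMap Y K (A.gen i)) := by gcongr
        _ = _ := one_mul _
    calc v (F * τ * algebraMap Y K (jac (M.tb i) y) ^ (e * m))
        = v (F * algebraMap Y K (jac (M.tb i) y) ^ (e * m)) *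
          v (algebraMap Y K σ) ^ ((e - 1) * m) := by
          rw [hτ, map_pow (algebraMap Y K) σ, ← map_pow v, ← map_mul v]
          congr 1
          ring
      _ ≤ v (algebraMap Y K (A.gen i)) ^ m * v (algebraMap Y K (A.gen i)) ^ ((e - 1) * m) :=
          mul_le_mul' h3 (pow_le_pow_left' h4 _)
      _ = v (algebraMap Y K (A.gen i)) ^ (e * m) := by
          rw [← pow_add, ← hem, add_comm]
  obtain ⟨F₀, hF₀, hF₀mem⟩ := hdown _ (hpull f₀ hf₀)
  have hf₀ne' : algebraMap E L f₀ ≠ 0 := by simpa using hf₀ne
  have hF₀ne : F₀ ≠ 0 := by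
    rintro rfl
    rw [map_zero] at hF₀
    exact div_ne_zero (pow_ne_zero _ (mul_ne_zero hf₀ne' (pow_ne_zero _ hj₀ne)))
      (pow_ne_zero _ hG) hF₀.symm
  choose F hF hFmem using fun i => hdown _ (hpull _ (hff i))
  have hratio : ∀ i, algebraMap K L (F i / F₀) = algebraMap E L (f i) ^ e := by
    intro i
    rw [map_div₀, hF, hF₀, map_mul]
    have h5 : (algebraMap E L f₀ * j₀ ^ m) ^ e / G ^ m ≠ 0 :=
      div_ne_zero (pow_ne_zero _ (mul_ne_zero hf₀ne' (pow_ne_zero _ hj₀ne))) (pow_ne_zero _ hG)
    rw [div_eq_iff h5, mul_assoc (algebraMap E L (f i)), mul_pow (algebraMap E L (f i)),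
      mul_div_assoc]
  have hind : AlgebraicIndependent κ (fun i => F i / F₀) := by
    have h4 : AlgebraicIndependent B (fun i => algebraMap E L (f i)) :=
      hf.map' (f := IsScalarTower.toAlgHom B E L) (algebraMap E L).injective
    have h4' := algebraicIndependent_pow h4 he
    refine AlgebraicIndependent.of_comp (IsScalarTower.toAlgHom κ K L) ?_
    have h5 : (⇑(IsScalarTower.toAlgHom κ K L) ∘ fun i => F i / F₀) =
        fun i => algebraMap E L (f i) ^ e := funext fun i => hratio i
    rw [h5]
    exact h4'.extendScalars κ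
  have hem1 : 1 ≤ e * m := Nat.mul_pos he hm
  refine countC (κ := κ) A hyK hgenK hy hem1 hF₀mem (mul_ne_zero hF₀ne hτ0) hind fun i => ?_
  rw [← mul_assoc, div_mul_cancel₀ _ hF₀ne]
  exact hFmem i

theorem upperC_GE {r : ℕ} (hcomp : Twr.IsCompositum k B Y Z)
    (hdim : dimension k B + dimension k Y + r = dimension k E)
    {s : Fin r → L} (hs : IsTranscendenceBasis Z s) {e : ℕ} (he : 1 ≤ e) {G : L} (hG : G ≠ 0)
    (hX : RegOn k Z s e G) (hgen : GeneratedOver k B Z P A s e G)
    (hconn : Connected k B Y Z P L) (hκ : kodairaDim Z L ≤ 0)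
    (hA : ∃ σ ∈ A.sections, σ ≠ 0) {c : ℕ} (hc : KodairaGE B E c) :
    LogKodairaGE M (fun _ : Unit => A) c := by
  classical
  let κ := algebraicClosure B P
  let K := IntermediateField.adjoin κ (Set.range (algebraMap Y P))
  have hKk : ∀ t ∈ IntermediateField.adjoin k ({p : P | IsAlgebraic B p} ∪
      Set.range (algebraMap Y P)), t ∈ K := by
    intro t ht
    have h1 : IntermediateField.adjoin k ({p : P | IsAlgebraic B p} ∪
        Set.range (algebraMap Y P)) ≤ (IntermediateField.restrictScalars B K).restrictScalars k := by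
      rw [IntermediateField.adjoin_le_iff]
      rintro x (hx | hx)
      · exact K.algebraMap_mem (⟨x, mem_algebraicClosure_iff.mpr hx⟩ : κ)
      · exact IntermediateField.subset_adjoin κ _ hx
    exact h1 ht
  letI algYK : Algebra Y K := ((algebraMap Y P).codRestrict K.toSubring
    (fun a => IntermediateField.subset_adjoin κ _ ⟨a, rfl⟩)).toAlgebra
  haveI : IsScalarTower Y K P := IsScalarTower.of_algebraMap_eq fun _ => rfl
  have hZK : ∀ z : Z, algebraMap Z P z ∈ K := by
    intro z
    refine hKk _ ?_
    have h1 : IntermediateField.adjoin k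
        (Set.range (algebraMap B Z) ∪ Set.range (algebraMap Y Z)) ≤
        (IntermediateField.adjoin k ({p : P | IsAlgebraic B p} ∪
          Set.range (algebraMap Y P))).comap (IsScalarTower.toAlgHom k Z P) := by
      rw [IntermediateField.adjoin_le_iff]
      rintro _ (⟨b, rfl⟩ | ⟨b, rfl⟩)
      · refine IntermediateField.subset_adjoin k _ (Or.inl ?_)
        change IsAlgebraic B (algebraMap Z P (algebraMap B Z b))
        rw [← IsScalarTower.algebraMap_apply B Z P]
        exact isAlgebraic_algebraMap b
      · refine IntermediateField.subset_adjoin k _ (Or.inr ⟨b, ?_⟩)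
        change _ = algebraMap Z P (algebraMap Y Z b)
        rw [← IsScalarTower.algebraMap_apply Y Z P]
    exact h1 (hcomp z)
  letI algZK : Algebra Z K := ((algebraMap Z P).codRestrict K.toSubring hZK).toAlgebra
  haveI : IsScalarTower Z K P := IsScalarTower.of_algebraMap_eq fun _ => rfl
  haveI : Algebra.IsAlgebraic B κ := inferInstance
  refine upperC_aux hcomp hdim hs he hG hX hgen hconn hκ hA hc κ K (fun z => ?_)
    (fun t ht => ⟨⟨t, hKk t ht⟩, rfl⟩)
  set N' := IntermediateField.adjoin κ (Set.range (algebraMap Y K)) with hN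
  have h1 : K ≤ N'.map K.val := by
    rw [IntermediateField.adjoin_le_iff]
    rintro _ ⟨b, rfl⟩
    exact ⟨algebraMap Y K b, IntermediateField.subset_adjoin κ _ ⟨b, rfl⟩, rfl⟩
  obtain ⟨n, hn, hnz⟩ := h1 z.2
  have h2 : n = z := Subtype.ext hnz
  rwa [← h2]

/-- The upper bound. -/
theorem upperC {r : ℕ} (hcomp : Twr.IsCompositum k B Y Z)
    (hdim : dimension k B + dimension k Y + r = dimension k E)
    {s : Fin r → L} (hs : IsTranscendenceBasis Z s) {e : ℕ} (he : 1 ≤ e) {G : L} (hG : G ≠ 0)
    (hX : RegOn k Z s e G) (hgen : GeneratedOver k B Z P A s e G)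
    (hconn : Connected k B Y Z P L) (hκ : kodairaDim Z L ≤ 0)
    (hA : ∃ σ ∈ A.sections, σ ≠ 0) :
    kodairaDim B E ≤ logKodairaDim M (fun _ : Unit => A) :=
  iSup₂_le fun _ hc => le_iSup₂_of_le _
    (upperC_GE hcomp hdim hs he hG hX hgen hconn hκ hA hc) le_rfl

end Pf72953.Can
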