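import Mathlib
import Pool.Agent.Lib.Pf72953c.LowerC
import Pool.Agent.Lib.Pf72953c.UpperN
import Pool.Agent.Lib.Pf72953c.GenCov
import Pool.Agent.Lib.Pf72953c.DescB
import Pool.Agent.Lib.Pf72953c.BrkC
import Pool.Agent.Lib.Pf72953c.RegOf
import Pool.Agent.Lib.Pf72953c.CovC
import Pool.Agent.Lib.Pf72953c.EasyAdd
import Pool.Agent.Lib.Pf72953c.KodM

/-!
The main theorem on fibre spaces over a constant variety whose fibres have Kodaira dimension zero, and the criterion for
covers of products of projective spaces.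
-/

set_option autoImplicit false
set_option linter.style.haveILetI false

open scoped WithZero
open Pf72953 Pf72953.Var Pf72953.Mov Pf72953.Ell

namespace Pf72953.Can

section main

variable {k B E Y Z P L : Type*} [Field k] [CharZero k] [IsAlgClosed k] [Field B] [Field E]
  [Field Y] [Field Z] [Field P] [Field L]
  [Algebra k B] [Algebra k E] [Algebra k Y] [Algebra k Z] [Algebra k P] [Algebra k L]
  [Algebra B E] [Algebra B Z] [Algebra B P] [Algebra B L] [Algebra E L] [Algebra Y Z]
  [Algebra Y P] [Algebra Y L] [Algebra Z P] [Algebra Z L] [Algebra P L]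
  [IsScalarTower k B E] [IsScalarTower k B Z] [IsScalarTower k B P] [IsScalarTower k B L]
  [IsScalarTower k E L] [IsScalarTower k Y Z] [IsScalarTower k Y P] [IsScalarTower k Y L]
  [IsScalarTower k Z P] [IsScalarTower k Z L] [IsScalarTower k P L] [IsScalarTower B E L]
  [IsScalarTower B Z P] [IsScalarTower B Z L] [IsScalarTower B P L] [IsScalarTower Y Z P]
  [IsScalarTower Y Z L] [IsScalarTower Y P L] [IsScalarTower Z P L]
  [Algebra.EssFiniteType k B] [Algebra.EssFiniteType k Y] [Algebra.EssFiniteType k E]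
  [FiniteDimensional E L] [FiniteDimensional Z P]
  {M : SmoothModel k Y} {A : LineBundle M}

theorem relLogGE_zero {r : ℕ} (hcomp : Twr.IsCompositum k B Y Z)
    (hdim : dimension k B + dimension k Y + r = dimension k E)
    {s : Fin r → L} (hs : IsTranscendenceBasis Z s) {e : ℕ} (he : 1 ≤ e) {G : L} (hG : G ≠ 0)
    (hreg : RegularOver k B Z A s e G) {J : Type*} {T : J → MovingSection M A 1 B P}
    (hlog : ∀ j (w : Valuation L ℤᵐ⁰), IsDivisorial k L w →
      LogAt Z w s e (algebraMap P L (T j).sec * G)) (hT : ∃ j, (T j).sec ≠ 0) :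
    RelLogGE k Z s 0 := by
  classical
  haveI : Algebra.EssFiniteType k Z := essFinite_Z hcomp
  haveI : Algebra.EssFiniteType k P := Algebra.EssFiniteType.comp k Z P
  haveI : Algebra.EssFiniteType k L := Algebra.EssFiniteType.comp k E L
  haveI : Algebra.EssFiniteType Z L := Algebra.EssFiniteType.of_comp k Z L
  haveI : CharZero B := charZero_of_injective_algebraMap (algebraMap k B).injective
  haveI : CharZero Z := charZero_of_injective_algebraMap (algebraMap k Z).injective
  obtain ⟨j₀, hj₀⟩ := hT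
  have hT0 : algebraMap P L (T j₀).sec ≠ 0 := by simpa using hj₀
  have hGW : G ∈ WReg Z s e :=
    wreg_G (k := k) (B := B) hs (fun y hy => (basesB hcomp hdim hs hy).1) hreg
  refine ⟨e, he, algebraMap P L (T j₀).sec * G, fun w hw => ⟨hlog j₀ w hw, fun hZ d hd => ?_⟩,
    mul_ne_zero hT0 hG, fun i => i.elim0, ?_, fun i => i.elim0⟩
  · have hwZ : IsDivisorial Z L w := Mov.IsDivisorial.over hw hZ
    obtain ⟨c, t, ht, hc⟩ := hwZ.exists_adapted (ι := Fin r) (card_eq_of_isTranscendenceBasis hs)
    have hregc := hc.regBasis (card_eq_of_isTranscendenceBasis hs) ht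
    have h1 := hGW w hwZ c hregc
    have h2 := det_regDer_le hregc d hd s
    have h3 : w (algebraMap P L (T j₀).sec) = 1 := by
      refine val_eq_one_of_isIntegral hZ hT0 ?_
      exact (Algebra.IsIntegral.isIntegral (R := Z) (T j₀).sec).algebraMap
    rw [map_mul, map_mul, h3, one_mul, map_pow]
    exact (mul_le_mul' le_rfl (pow_le_pow_left' h2 e)).trans h1
  · rw [algebraicIndependent_empty_type_iff]
    exact (algebraMap Z L).injective

/-- lower bound -/
theorem lower' {r : ℕ} (hcomp : Twr.IsCompositum k B Y Z)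
    (hdim : dimension k B + dimension k Y + r = dimension k E) (hunr : Unramified k B E L)
    {s : Fin r → L} (hs : IsTranscendenceBasis Z s) {e : ℕ} (he : 1 ≤ e) {G : L} (hG : G ≠ 0)
    (hreg : RegularOver k B Z A s e G) {J : Type*} [Fintype J] {T : J → MovingSection M A 1 B P}
    (hlog : ∀ j (w : Valuation L ℤᵐ⁰), IsDivisorial k L w →
      LogAt Z w s e (algebraMap P L (T j).sec * G)) (hT : ∃ j, (T j).sec ≠ 0)
    (hM : kodairaDim k Y ≠ ⊥) :
    0 ≤ relLogKodairaDim k Z s ∧
      kodairaDim k B + logKodairaDim M (fun _ : Unit => A) + relLogKodairaDim k Z s ≤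
        kodairaDim k E ∧
      (orbKodairaDim k B E ≠ ⊥ →
        (((cplus k E T : ℕ) : ℕ∞) : WithBot ℕ∞) + logKodairaDim M (fun _ : Unit => A) +
          relLogKodairaDim k Z s ≤ kodairaDim k E ∧
        max (orbKodairaDim k B E) (((coefVar k T : ℕ) : ℕ∞) : WithBot ℕ∞) ≤
          (((cplus k E T : ℕ) : ℕ∞) : WithBot ℕ∞)) := by
  refine ⟨?_, lowerC hcomp hdim hunr hs he hG hreg hlog hT hM⟩
  have h := relLogGE_zero hcomp hdim hs he hG hreg hlog hT
  have h1 : (((0 : ℕ) : ℕ∞) : WithBot ℕ∞) ≤ relLogKodairaDim k Z s :=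
    le_iSup₂_of_le (f := fun (c : ℕ) (_ : RelLogGE k Z s c) => ((c : ℕ∞) : WithBot ℕ∞)) 0 h le_rfl
  simpa using h1

omit [CharZero k] [IsAlgClosed k] [Algebra k B] [Algebra k E] [Algebra k Z] [Algebra k P]
  [Algebra k L] [Algebra B E] [Algebra B Z] [Algebra B L] [Algebra E L] [Algebra Y Z]
  [Algebra Y L] [Algebra Z P] [Algebra Z L] [Algebra P L]
  [IsScalarTower k B E] [IsScalarTower k B Z] [IsScalarTower k B P] [IsScalarTower k B L]
  [IsScalarTower k E L] [IsScalarTower k Y Z] [IsScalarTower k Y P] [IsScalarTower k Y L]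
  [IsScalarTower k Z P] [IsScalarTower k Z L] [IsScalarTower k P L] [IsScalarTower B E L]
  [IsScalarTower B Z P] [IsScalarTower B Z L] [IsScalarTower B P L] [IsScalarTower Y Z P]
  [IsScalarTower Y Z L] [IsScalarTower Y P L] [IsScalarTower Z P L]
  [Algebra.EssFiniteType k B] [Algebra.EssFiniteType k Y] [Algebra.EssFiniteType k E]
  [FiniteDimensional E L] [FiniteDimensional Z P] [Field E] [Field Z] [Field L] in
theorem exists_section {J : Type*} {T : J → MovingSection M A 1 B P} (hT : ∃ j, (T j).sec ≠ 0) :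
    ∃ σ ∈ A.sections, σ ≠ 0 := by
  obtain ⟨j₀, hj₀⟩ := hT
  obtain ⟨l, hl⟩ : ∃ l, (T j₀).a l * algebraMap Y P ((T j₀).s l) ≠ 0 := by
    by_contra hcon
    push Not at hcon
    exact hj₀ (Finset.sum_eq_zero fun l _ => hcon l)
  refine ⟨(T j₀).s l, fun i => ?_, (T j₀).s_indep.ne_zero l⟩
  obtain ⟨f, hf, h⟩ := (T j₀).s_mem l i
  exact ⟨f, hf, by rw [h, pow_one]⟩

end main

section upper

variable {k B B' E Y Z' P' L : Type*} [Field k] [CharZero k] [IsAlgClosed k] [Field B] [Field B']
  [Field E] [Field Y] [Field Z'] [Field P'] [Field L]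
  [Algebra k B] [Algebra k B'] [Algebra k E] [Algebra k Y] [Algebra k Z'] [Algebra k P']
  [Algebra k L] [Algebra B B'] [Algebra B E] [Algebra B L] [Algebra B' Z'] [Algebra B' P']
  [Algebra B' L] [Algebra E L] [Algebra Y Z'] [Algebra Y P'] [Algebra Y L] [Algebra Z' P']
  [Algebra Z' L] [Algebra P' L]
  [IsScalarTower k B E] [IsScalarTower k B B'] [IsScalarTower k B' Z'] [IsScalarTower k B' P']
  [IsScalarTower k B' L] [IsScalarTower k E L] [IsScalarTower k Y Z'] [IsScalarTower k Y P']
  [IsScalarTower k Y L] [IsScalarTower k Z' P'] [IsScalarTower k Z' L] [IsScalarTower k P' L]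
  [IsScalarTower B B' L] [IsScalarTower B E L] [IsScalarTower B' Z' P'] [IsScalarTower B' Z' L]
  [IsScalarTower B' P' L] [IsScalarTower Y Z' P'] [IsScalarTower Y Z' L] [IsScalarTower Y P' L]
  [IsScalarTower Z' P' L]
  [Algebra.EssFiniteType k B'] [Algebra.EssFiniteType k Y] [Algebra.EssFiniteType k E]
  [FiniteDimensional E L] [FiniteDimensional Z' P']
  {M : SmoothModel k Y} {A' : LineBundle M}

/-- The upper bound for fibres of arbitrary Kodaira dimension. -/
theorem upperD {r' : ℕ} (hcomp : Twr.IsCompositum k B' Y Z')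
    (hdim : dimension k B' + dimension k Y + r' = dimension k L)
    {s' : Fin r' → L} (hs : IsTranscendenceBasis Z' s') {e' : ℕ} (he : 1 ≤ e') {G' : L}
    (hG : G' ≠ 0) (hX : RegOn k Z' s' e' G') (hgen : GeneratedOver k B' Z' P' A' s' e' G')
    (hP : ∀ z : L, IsAlgebraic Z' z → ∃ t : P', algebraMap P' L t = z)
    (hκ : kodairaDim Z' L ≤ 0) (hA : ∃ σ ∈ A'.sections, σ ≠ 0) :
    kodairaDim B E ≤ (((dimension B B' : ℕ) : ℕ∞) : WithBot ℕ∞) +
      logKodairaDim M (fun _ : Unit => A') := by
  haveI : Algebra.EssFiniteType k L := Algebra.EssFiniteType.comp k E L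
  haveI : Algebra.EssFiniteType B E := Algebra.EssFiniteType.of_comp k B E
  haveI : Algebra.EssFiniteType B B' := Algebra.EssFiniteType.of_comp k B B'
  haveI : CharZero B := charZero_of_injective_algebraMap (algebraMap k B).injective
  refine (easy_add (B' := B') (L := L)).trans ?_
  have h := upperN (E := L) hcomp hdim hs he hG hX hgen hP hκ hA
  gcongr

end upper

section coverU

variable {k B B' E Y Z' L : Type*} [Field k] [CharZero k] [IsAlgClosed k] [Field B] [Field B']
  [Field E] [Field Y] [Field Z'] [Field L]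
  [Algebra k B] [Algebra k B'] [Algebra k E] [Algebra k Y] [Algebra k Z']
  [Algebra k L] [Algebra B B'] [Algebra B E] [Algebra B L] [Algebra B' Z']
  [Algebra B' L] [Algebra E L] [Algebra Y Z'] [Algebra Y L] [Algebra Z' L]
  [IsScalarTower k B E] [IsScalarTower k B B'] [IsScalarTower k B' Z']
  [IsScalarTower k B' L] [IsScalarTower k E L] [IsScalarTower k Y Z']
  [IsScalarTower k Y L] [IsScalarTower k Z' L]
  [IsScalarTower B B' L] [IsScalarTower B E L] [IsScalarTower B' Z' L]
  [IsScalarTower Y Z' L]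
  [Algebra.EssFiniteType k B'] [Algebra.EssFiniteType k Y] [Algebra.EssFiniteType k E]
  [FiniteDimensional E L] [FiniteDimensional Z' L]
  {M : SmoothModel k Y} {A' : LineBundle M}

/-- The upper bound if `L` is finite over `Z' = B'·Y`, unramified outside the divisors `ℓ_a = 0`. -/
theorem upperU (hcomp : Twr.IsCompositum k B' Y Z')
    (hdim : dimension k B' + dimension k Y = dimension k L)
    {ι : Type*} [Fintype ι] {S : ι → LineBundle M}
    (hA' : ∀ i, A'.gen i = ∏ a, (S a).gen i) {ℓ : ι → Z'} (h0 : ∀ a, ℓ a ≠ 0)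
    (hℓ : ∀ a, SectionOver B' (S a) (ℓ a))
    (hunr : ∀ (w : Valuation L ℤᵐ⁰) (i : M.I), IsDivisorial k L w →
      (∀ b : B', b ≠ 0 → w (algebraMap B' L b) = 1) → Br.PrimeAt M B' Z' i w →
      (∀ a, w (algebraMap Z' L (ℓ a)) = w (algebraMap Y L ((S a).gen i))) → Br.Unr Z' w) :
    kodairaDim B E ≤ (((dimension B B' : ℕ) : ℕ∞) : WithBot ℕ∞) +
      logKodairaDim M (fun _ : Unit => A') := by
  classical
  haveI : Algebra.EssFiniteType k Z' := essFinite_Z hcomp
  haveI : Algebra.EssFiniteType k L := Algebra.EssFiniteType.comp k E L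
  haveI : Algebra.EssFiniteType Z' L := Algebra.EssFiniteType.of_comp k Z' L
  haveI : CharZero B' := charZero_of_injective_algebraMap (algebraMap k B').injective
  haveI : CharZero Z' := charZero_of_injective_algebraMap (algebraMap k Z').injective
  have hs : IsTranscendenceBasis Z' (fun i : Fin 0 => (i.elim0 : L)) := by
    have hind : AlgebraicIndependent Z' (fun i : Fin 0 => (i.elim0 : L)) := by
      rw [algebraicIndependent_empty_type_iff]
      exact (algebraMap Z' L).injective
    rw [hind.isTranscendenceBasis_iff_isAlgebraic]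
    exact Algebra.IsAlgebraic.extendScalars (R := Z') (algebraMap Z' _).injective
  have hdim0 : dimension Z' L = 0 := by
    have h := card_eq_of_isTranscendenceBasis hs
    rw [Fintype.card_fin] at h
    exact h.symm
  have hdim' : dimension k B' + dimension k Y + 0 = dimension k L := by rw [add_zero, hdim]
  have hG : (algebraMap Z' L (∏ a, ℓ a))⁻¹ ≠ 0 := by
    refine inv_ne_zero ?_
    simpa [Finset.prod_eq_zero_iff] using h0
  have hκ : kodairaDim Z' L ≤ 0 := by
    refine iSup₂_le fun c hc => ?_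
    have h := hc.le_dimension
    rw [hdim0] at h
    obtain rfl : c = 0 := by omega
    simp
  have hX : RegOn k Z' (fun i : Fin 0 => (i.elim0 : L)) 1 (algebraMap Z' L (∏ a, ℓ a))⁻¹ := by
    intro w hw hZ
    obtain ⟨z, hz, hz1⟩ := hw.nontrivial
    exact absurd (val_eq_one_of_isIntegral hZ hz (Algebra.IsIntegral.isIntegral (R := Z') z)) hz1
  have hgen := gen_of_cover (k := k) (B := B') (Z := Z') (L := L) (M := M) (A := A')
    (fun y hy => (basesB (r := 0) hcomp hdim' hs hy).1) hA' h0 hℓ hunr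
    (fun i : Fin 0 => (i.elim0 : L))
  have hA : ∃ σ ∈ A'.sections, σ ≠ 0 := by
    have h1 : ∀ a, ∃ σ ∈ (S a).sections, σ ≠ 0 := by
      intro a
      obtain ⟨n, β, σ, hσ, hs'⟩ := hℓ a
      by_contra hcon
      push Not at hcon
      refine h0 a ?_
      rw [hs']
      exact Finset.sum_eq_zero fun c _ => by rw [hcon (σ c) (hσ c), map_zero, mul_zero]
    choose σ hσ hσ0 using h1
    refine ⟨∏ a, σ a, fun i => ?_, Finset.prod_ne_zero_iff.mpr fun a _ => hσ0 a⟩
    have h2 : ∀ a, ∃ f ∈ M.A i, σ a = f * (S a).gen i := fun a => hσ a i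
    choose f hf hfσ using h2
    refine ⟨∏ a, f a, Subalgebra.prod_mem _ fun a _ => hf a, ?_⟩
    rw [hA' i, ← Finset.prod_mul_distrib]
    exact Finset.prod_congr rfl fun a _ => hfσ a
  exact upperD (P' := L) hcomp hdim' hs le_rfl hG hX hgen (fun z _ => ⟨z, rfl⟩) hκ hA

end coverU

section cover

open Classical in
/-- **covers of products of projective spaces** and their quotients -/
theorem coverC {k B E Y Z P L N : Type*} [Field k] [CharZero k] [IsAlgClosed k] [Field B] [Field E]
    [Field Y] [Field Z] [Field P] [Field L] [Field N]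
    [Algebra k B] [Algebra k E] [Algebra k Y] [Algebra k Z] [Algebra k P] [Algebra k L]
    [Algebra k N]
    [Algebra B E] [Algebra B Z] [Algebra B P] [Algebra B L] [Algebra E L] [Algebra Y Z]
    [Algebra Y P] [Algebra Y L] [Algebra Z P] [Algebra Z L] [Algebra Z N] [Algebra P L]
    [Algebra L N]
    [IsScalarTower k B E] [IsScalarTower k B Z] [IsScalarTower k B P] [IsScalarTower k B L]
    [IsScalarTower k E L] [IsScalarTower k Y Z] [IsScalarTower k Y P] [IsScalarTower k Y L]
    [IsScalarTower k Z P] [IsScalarTower k Z L] [IsScalarTower k P L] [IsScalarTower k L N]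
    [IsScalarTower B E L]
    [IsScalarTower B Z P] [IsScalarTower B Z L] [IsScalarTower B P L] [IsScalarTower Y Z P]
    [IsScalarTower Y Z L] [IsScalarTower Y P L] [IsScalarTower Z P L] [IsScalarTower Z L N]
    [Algebra.EssFiniteType k B] [Algebra.EssFiniteType k Y] [Algebra.EssFiniteType k E]
    [FiniteDimensional E L] [FiniteDimensional Z P] [FiniteDimensional L N]
    {M : SmoothModel k Y} {A : LineBundle M} {I : Type*} [Fintype I] {n : I → ℕ}
    {Λ : I → Type*} [∀ i, Fintype (Λ i)] {H : ∀ i, Λ i → Fin (n i + 1) → N}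
    {u : ∀ i, Fin (n i) → N} {r : ℕ} (hcomp : Twr.IsCompositum k B Y Z)
    (hdim : dimension k B + dimension k Y + r = dimension k E)
    (hunr : Unramified k Z L N) {s : Fin r → L} (hs : IsTranscendenceBasis Z s)
    (eq : Fin r ≃ Σ i, Fin (n i)) (hu : IsTranscendenceBasis Z (fun b => u (eq b).1 (eq b).2))
    (hH : ∀ i, GenPos Z (H i)) {m : I → ℕ} {δ : ∀ i, Λ i → ℕ} (hN : ∀ i, 0 < m i)
    (horb : ∀ i, OrbCond Z (H i) (u i) (m i) (δ i)) (hδ0 : ∀ i a, 0 < δ i a)
    (hδN : ∀ i a, δ i a < m i) {e : ℕ} (he : 1 ≤ e) {ε : ∀ i, Λ i → ℕ} {G : L}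
    (hG : ∀ D : Fin r → Derivation Z N N,
      Matrix.det (Matrix.of fun a b => D a (u (eq b).1 (eq b).2)) ^ e =
        (∏ i, ∏ a, lin (H i) (u i) a ^ ε i a) * algebraMap L N G *
          Matrix.det (Matrix.of fun a b => D a (algebraMap L N (s b))) ^ e)
    (hε : ∀ i, ∑ a, ε i a = (n i + 1) * e) (hεδ : ∀ i a, m i * ε i a + δ i a * e ≤ m i * e)
    {J : Type*} {T : J → MovingSection M A 1 B P}
    (hint : ∀ j, IntegralOverBrackets k H e ε (algebraMap L N (algebraMap P L (T j).sec)))
    (hgen : GeneratesOver k B Z T) :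
    RegularOver k B Z A s e G ∧
    (((∑ i with (n i + 1) * m i < ∑ a, (m i - δ i a), n i : ℕ) : ℕ∞) : WithBot ℕ∞) ≤
      relLogKodairaDim k Z s := by
  haveI : Algebra.EssFiniteType k L := Algebra.EssFiniteType.comp k E L
  haveI : Algebra.EssFiniteType k N := Algebra.EssFiniteType.comp k L N
  haveI : IsScalarTower k Z N := IsScalarTower.of_algebraMap_eq fun a => by
    rw [IsScalarTower.algebraMap_apply k L N, IsScalarTower.algebraMap_apply k Z L,
      ← IsScalarTower.algebraMap_apply Z L N]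
  haveI : CharZero Z := charZero_of_injective_algebraMap (algebraMap k Z).injective
  have hlc : ∀ i, (n i + 1) * m i ≤ ∑ a, (m i - δ i a) := by
    intro i
    have h1 : ∀ a, m i * ε i a ≤ e * (m i - δ i a) := by
      intro a
      have h2 := hεδ i a
      have h3 := hδN i a
      rw [Nat.mul_sub]
      have h4 : e * δ i a = δ i a * e := mul_comm _ _
      have h5 : e * m i = m i * e := mul_comm _ _
      omega
    have h2 : m i * ∑ a, ε i a ≤ e * ∑ a, (m i - δ i a) := by
      rw [Finset.mul_sum, Finset.mul_sum]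
      exact Finset.sum_le_sum fun a _ => h1 a
    rw [hε i] at h2
    have h3 : e * ((n i + 1) * m i) ≤ e * ∑ a, (m i - δ i a) := by
      refine le_trans (le_of_eq ?_) h2
      ring
    exact Nat.le_of_mul_le_mul_left h3 (by omega)
  have hcard : ∀ i, n i + 1 ≤ Fintype.card (Λ i) := fun i =>
    (card_lt (hδ0 i) (hδN i) (hlc i) (hN i)).le
  have hl : ∀ i a, lin (H i) (u i) a ≠ 0 := lin_ne hH hcard eq hu
  have hΓ : ∏ i, ∏ a, lin (H i) (u i) a ^ ε i a ≠ 0 :=
    Finset.prod_ne_zero_iff.mpr fun i _ => Finset.prod_ne_zero_iff.mpr fun a _ =>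
      pow_ne_zero _ (hl i a)
  have hlog : ∀ j (w : Valuation L ℤᵐ⁰), IsDivisorial k L w → LogAt Z w s e
        (algebraMap P L (T j).sec * G) := by
    intro j w hw
    exact logAt_of_brackets (N := N) (fun i a c => (hH i).alg a c) hl he eq hG (hint j) hw
  refine ⟨?_, ?_⟩
  · refine regular_of_log hcomp hdim hs hlog hgen ?_
    refine regOn_desc (N := N) (sN := fun b => u (eq b).1 (eq b).2)
      (GN := (∏ i, ∏ a, lin (H i) (u i) a ^ ε i a)⁻¹) hunr (fun D => ?_) fun w hw hZ =>
        regAt_of_arr hH hl hcard eq hu hN horb hε hεδ hw hZ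
    rw [hG D, mul_assoc, inv_mul_cancel_left₀ hΓ]
  · exact le_iSup₂_of_le (f := fun (c : ℕ) (_ : RelLogGE k Z s c) =>
      ((c : ℕ∞) : WithBot ℕ∞)) _ (relLogGE_desc hunr hs hu
      (relLogGE_of_arr hH eq hu hN horb hδ0 hδN hlc
      (Finset.univ.filter fun i => (n i + 1) * m i < ∑ a, (m i - δ i a))
      (fun i hi => (Finset.mem_filter.mp hi).2))) le_rfl

end cover

end Pf72953.Can
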